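import Pool.Agent.Bst88.Inf
import Pool.Agent.PB3.Clif
import Pool.Agent.PB3.Chain
import Pool.Agent.PB3.Stab
import Pool.Agent.PB3.Cyc

/-!
# Families with the relations of the pure braid group: links, blocks

`PB a` (Conf14.Rel): the relations of the pure braid group for a family `a i j` indexed by pairs of
strands.  `Act a s`: some `a s j` is not central.  `IrrF a`: the family is irreducible.
-/

set_option autoImplicit false

namespace Pool.Agent.PF54

open Pool.Agent.Conf14 (PB)
open Pool.Agent.PB3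
open Pool.Agent.Bst88
open Module

section Group
variable {n : ℕ} {G : Type*} [Group G]

/-- the relations of the sphere up to central elements: the big loop of each strand (the product of
the `a k l`, `l ≠ k`, in increasing order of `l`) is central -/
def Sph (a : Fin n → Fin n → G) : Prop := ∀ k, Cen (big a k)

/-- `s` and `t` are neighbours in the link of `i`: the triple `i, s, t` does not commute -/
def Adj (a : Fin n → Fin n → G) (i s t : Fin n) : Prop :=
  s ≠ i ∧ t ≠ i ∧ s ≠ t ∧ ¬ Commute (a i s) (a i t)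

/-- `C` is a connected component, with at least one edge, of the link of `i` -/
structure Comp (a : Fin n → Fin n → G) (i : Fin n) (C : Finset (Fin n)) : Prop where
  ni : i ∉ C
  ne : ∃ s ∈ C, ∃ t ∈ C, Adj a i s t
  cl : ∀ s ∈ C, ∀ t, Adj a i s t → t ∈ C
  cn : ∀ S ⊆ C, S.Nonempty → S ≠ C → ∃ s ∈ S, ∃ t ∈ C \ S, Adj a i s t

/-- all triples do not commute -/
def AllNC (a : Fin n → Fin n → G) : Prop :=
  ∀ i j k, i ≠ j → i ≠ k → j ≠ k → ¬ Commute (a i j) (a i k)

/-- `b` is the family `a` with the strands in another order (the strand `σ k` is in position `k`);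
the generators between strands in `R` are not changed -/
structure Arr (a b : Fin n → Fin n → G) (σ : Equiv.Perm (Fin n)) (R : Set (Fin n)) : Prop where
  pb : PB b
  pr : ∀ i j k, i ≠ j → i ≠ k → ∃ g ∈ gp a,
    b i j = g * a (σ i) (σ j) * g⁻¹ ∧ b i k = g * a (σ i) (σ k) * g⁻¹
  fx : ∀ i j, i ≠ j → σ i ∈ R → σ j ∈ R → b i j = a (σ i) (σ j)
  ge : gp b = gp a
  st : ∀ i, Subgroup.closure {y | ∃ j, j ≠ i ∧ y = b i j} =
    Subgroup.closure {y | ∃ j, j ≠ σ i ∧ y = a (σ i) j}

end Group

section Blocks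
variable {W : Type*} [AddCommGroup W] [Module ℂ W]

/-- The algebra `A` acts on `W` as a full product of matrix algebras: `W` is a direct sum of `m`
blocks `ℂ^e ⊗ ℂ^f` (matrices) and `A` consists of all left multiplications by matrices `X b`. -/
structure Blk (A : Subalgebra ℂ (Module.End ℂ W)) (m e f : ℕ) where
  φ : W ≃ₗ[ℂ] (Fin m → Matrix (Fin e) (Fin f) ℂ)
  mem : ∀ T : Module.End ℂ W, T ∈ A ↔
    ∃ X : Fin m → Matrix (Fin e) (Fin e) ℂ, ∀ w b, φ (T w) b = X b * φ w b

/-- the automorphism `g` normalises the algebra `A` -/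
def Nrm (A : Subalgebra ℂ (Module.End ℂ W)) (g : W ≃ₗ[ℂ] W) : Prop :=
  ∀ T ∈ A, (g.toLinearMap ∘ₗ T ∘ₗ g.symm.toLinearMap) ∈ A ∧
    (g.symm.toLinearMap ∘ₗ T ∘ₗ g.toLinearMap) ∈ A

end Blocks

section Fam
variable {n : ℕ} {V : Type*} [AddCommGroup V] [Module ℂ V]

/-- invariance under the generators on the strands in `I` -/
def Inv (a : Fin n → Fin n → (V ≃ₗ[ℂ] V)) (I : Finset (Fin n)) (W : Submodule ℂ V) : Prop :=
  ∀ t ∈ I, ∀ j, j ≠ t → ∀ x ∈ W, a t j x ∈ W

/-- the generators on each strand act irreducibly -/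
def AllIrr (a : Fin n → Fin n → (V ≃ₗ[ℂ] V)) : Prop :=
  ∀ s, ∀ W : Submodule ℂ V, InvS a s W → W = ⊥ ∨ W = ⊤

/-- the algebra generated by the `a i s`, `s ∈ C` -/
def alg (a : Fin n → Fin n → (V ≃ₗ[ℂ] V)) (i : Fin n) (C : Finset (Fin n)) :
    Subalgebra ℂ (Module.End ℂ V) :=
  Algebra.adjoin ℂ {T | ∃ s ∈ C, T = (a i s).toLinearMap}

/-- the bound for the number of points in rank `r` -/
def bd (r : ℕ) : ℕ :=
  if r ≤ 1 then 0 else if r = 4 then 8 else if r = 6 then 9 else if r = 8 then 12 else r + 2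

end Fam

end Pool.Agent.PF54
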