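import Pool.Agent.PF54.Defs

/-! # Linear algebra of blocks -/

set_option autoImplicit false

namespace Pool.Agent.PF54

open Pool.Agent.Conf14 (PB)
open Pool.Agent.PB3
open Pool.Agent.Bst88
open Module

variable {W : Type*} [AddCommGroup W] [Module ℂ W] [FiniteDimensional ℂ W]
  {A A' : Subalgebra ℂ (Module.End ℂ W)} {m e f m' e' f' p : ℕ}

/-- blocks of different sizes -/
structure BlkV (A : Subalgebra ℂ (Module.End ℂ W)) (m : ℕ) (d f : Fin m → ℕ) where
  φ : W ≃ₗ[ℂ] ((b : Fin m) → Matrix (Fin (d b)) (Fin (f b)) ℂ)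
  mem : ∀ T : Module.End ℂ W, T ∈ A ↔
    ∃ X : (b : Fin m) → Matrix (Fin (d b)) (Fin (d b)) ℂ, ∀ w b, φ (T w) b = X b * φ w b

/-- the automorphism `g` maps the block `b` into the block `b'` -/
def BlkV.Mv {d f : Fin m → ℕ} (B : BlkV A m d f) (g : W ≃ₗ[ℂ] W) (b b' : Fin m) : Prop :=
  ∀ w, (∀ c, c ≠ b → B.φ w c = 0) → ∀ c, c ≠ b' → B.φ (g w) c = 0

/- MODULE LA -/
private theorem LA_nrm_symm {g : W ≃ₗ[ℂ] W} (hg : Nrm A g) : Nrm A g.symm := by
  intro T hT
  obtain ⟨h1, h2⟩ := hg T hT
  exact ⟨h2, h1⟩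

/-- the image of a submodule under an automorphism which normalises the algebra -/
private def LA_tw {g : W ≃ₗ[ℂ] W} (hg : Nrm A g) (E : Submodule A W) : Submodule A W where
  carrier := {w | g.symm w ∈ E}
  add_mem' := by
    intro a b ha hb
    show g.symm (a + b) ∈ E
    rw [map_add]
    exact E.add_mem ha hb
  zero_mem' := by
    show g.symm 0 ∈ E
    rw [map_zero]
    exact E.zero_mem
  smul_mem' := by
    rintro ⟨T, hT⟩ w hw
    show g.symm (T w) ∈ E
    have h1 := E.smul_mem (⟨_, (hg T hT).2⟩ : A) hw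
    have h2 : (⟨_, (hg T hT).2⟩ : A) • g.symm w = g.symm (T (g (g.symm w))) := rfl
    rw [h2, g.apply_symm_apply] at h1
    exact h1

private theorem LA_mem {g : W ≃ₗ[ℂ] W} (hg : Nrm A g) (E : Submodule A W) (w : W) :
    w ∈ LA_tw hg E ↔ g.symm w ∈ E := Iff.rfl

private def LA_iso {g : W ≃ₗ[ℂ] W} (hg : Nrm A g) : Submodule A W ≃o Submodule A W where
  toFun := LA_tw hg
  invFun := LA_tw (LA_nrm_symm hg)
  left_inv := by
    intro E
    ext w
    rw [LA_mem, LA_mem]
    show g.symm (g w) ∈ E ↔ w ∈ E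
    rw [g.symm_apply_apply]
  right_inv := by
    intro E
    ext w
    rw [LA_mem, LA_mem]
    show g (g.symm w) ∈ E ↔ w ∈ E
    rw [g.apply_symm_apply]
  map_rel_iff' := by
    intro E F
    constructor
    · intro h w hw
      have h1 : g w ∈ LA_tw hg E := by
        rw [LA_mem, g.symm_apply_apply]
        exact hw
      have h2 := h h1
      change g.symm (g w) ∈ F at h2
      rwa [g.symm_apply_apply] at h2
    · intro h w hw
      exact h hw

/-- **LA.** Clifford: an algebra normalised by a set of automorphisms such that both together act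
irreducibly acts semisimply.

PROOF. `W` is a module over `A` (`Subalgebra` of `Module.End ℂ W`: `T • w = T w`).  Let `E ≠ ⊥` be an
`A`-submodule of minimal dimension (it exists, `W` is nontrivial), `d = finrank ℂ E`.  Every nonzero
`A`-submodule has dimension `≥ d`, so the `A`-submodules of dimension `d` are simple.  Let `U` be the
sum (`sSup`) of all `A`-submodules of dimension `d`.  For `g ∈ S` and an `A`-submodule `F` the image `g F`
is an `A`-submodule (`x (g w) = g ((g⁻¹ x g) w)`, `Nrm`) of the same dimension.  So `U` is invariant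
under `A` and `S`, nonzero, `U = ⊤`, and `W` is a sum of simple submodules:
`isSemisimpleModule_of_isSemisimpleModule_submodule`, `isSemisimpleModule_biSup_..`,
`sSup_simples_eq_top_iff_isSemisimpleModule` or the like.  (Compare `irr_strand` in PB3/Clif.lean.) -/
theorem clifford_ss [Nontrivial W] (S : Set (W ≃ₗ[ℂ] W)) (hN : ∀ g ∈ S, Nrm A g)
    (hirr : ∀ U : Submodule ℂ W, (∀ T ∈ A, ∀ x ∈ U, T x ∈ U) → (∀ g ∈ S, ∀ x ∈ U, g x ∈ U) →
      U = ⊥ ∨ U = ⊤) : IsSemisimpleModule A W := by
  have hfin : IsArtinian A W := isArtinian_of_tower ℂ inferInstance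
  have hat : IsAtomic (Submodule A W) := inferInstance
  obtain ⟨U, hU⟩ : ∃ U : Submodule A W, U = sSup {E : Submodule A W | IsAtom E} := ⟨_, rfl⟩
  have hne : U ≠ ⊥ := by
    rcases hat.eq_bot_or_exists_atom_le (⊤ : Submodule A W) with h | ⟨E, hE, -⟩
    · exact absurd h top_ne_bot
    · intro h
      apply hE.1
      rw [eq_bot_iff, ← h, hU]
      exact le_sSup hE
  have hinv : ∀ g ∈ S, ∀ x ∈ U, g x ∈ U := by
    intro g hg
    have h1 : U ≤ (LA_iso (hN g hg)).symm U := by
      conv_lhs => rw [hU]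
      refine sSup_le fun E hE => ?_
      rw [OrderIso.le_symm_apply, hU]
      refine le_sSup ?_
      exact (OrderIso.isAtom_iff (LA_iso (hN g hg)) E).2 hE
    intro x hx
    have h2 := h1 hx
    exact h2
  have htop : U = ⊤ := by
    rcases hirr (U.restrictScalars ℂ) (fun T hT x hx => U.smul_mem (⟨T, hT⟩ : A) hx) hinv with h | h
    · exfalso
      apply hne
      rw [eq_bot_iff]
      intro x hx
      have h1 : x ∈ U.restrictScalars ℂ := hx
      rw [h] at h1
      exact h1
    · rw [eq_top_iff]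
      intro x _
      have h1 : x ∈ U.restrictScalars ℂ := by
        rw [h]
        trivial
      exact h1
  rw [hU] at htop
  have h2 := complementedLattice_of_sSup_atoms_eq_top htop
  exact (isSemisimpleModule_iff A W).2 h2
/- END LA -/

/- MODULE LB -/
/-- **LB.** A semisimple algebra of endomorphisms is a semisimple ring.

PROOF. `A` is finite dimensional over `ℂ`, so Artinian; the Jacobson radical annihilates semisimple
modules (`IsSemisimpleModule.jacobson_le_annihilator` or `Module.jacobson`), and `A` acts faithfully on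
`W`, so it is `⊥`; `IsArtinianRing.isSemisimpleRing_iff_jacobson`. -/
theorem semisimple_of_ss (hs : IsSemisimpleModule A W) : IsSemisimpleRing A := by
  let b := Module.finBasis ℂ W
  let Φ : A →ₗ[A] (Fin (finrank ℂ W) → W) :=
    { toFun := fun T i => T • b i
      map_add' := fun T T' => by
        funext i
        exact add_smul T T' (b i)
      map_smul' := fun T T' => by
        funext i
        exact mul_smul T T' (b i) }
  have hinj : Function.Injective Φ := by
    intro T T' h
    apply Subtype.ext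
    refine b.ext fun i => ?_
    exact congrFun h i
  exact IsSemisimpleModule.of_injective Φ hinj
/- END LB -/

/- MODULE LC -/
/-- **LC.** Blocks from Wedderburn's theorem.

PROOF. `IsSemisimpleRing.exists_algEquiv_pi_matrix_of_isAlgClosed ℂ A`: `ω : A ≃ₐ[ℂ] ((b : Fin m) →
Matrix (Fin (d b)) (Fin (d b)) ℂ)`, `d b ≠ 0`.  Let `u b i j ∈ A` be the preimage of the matrix unit
`Matrix.single i j 1` in the component `b` (`Pi.single b ..`); `u b i j * u b' k l = δ δ u b i l`,
`∑ b i, u b i i = 1`.  `M b := range (u b 0 0)` (as a linear map), `f b := finrank (M b) > 0` as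
`u b 0 0 ≠ 0`.  Choose bases `β b : M b ≃ₗ (Fin (f b) → ℂ)`.
`φ w b i j := (β b ⟨u b 0 i w, _⟩) j` (`u b 0 i w = u b 0 0 (u b 0 i w) ∈ M b`), inverse
`x ↦ ∑ b i, u b i 0 ((β b).symm (x b i))`.
`mem`: for `T = ω.symm X`: `u b 0 i * T = ∑ k, X b i k • u b 0 k` (apply `ω`), so
`φ (T w) b = X b * φ w b`.  Conversely `T` with this property equals `ω.symm X` as `φ` is injective. -/
theorem exists_blkV (hs : IsSemisimpleRing A) : ∃ (m : ℕ) (d f : Fin m → ℕ),
    (∀ b, 0 < d b) ∧ (∀ b, 0 < f b) ∧ Nonempty (BlkV A m d f) := by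
  classical
  obtain ⟨m, d, hd, ⟨ω⟩⟩ := IsSemisimpleRing.exists_algEquiv_pi_matrix_of_isAlgClosed ℂ A
  -- the matrix units
  obtain ⟨u, hu⟩ : ∃ u : (b : Fin m) → Fin (d b) → Fin (d b) → A,
      ∀ b i j, ω (u b i j) = Pi.single b (Matrix.single i j (1 : ℂ)) :=
    ⟨fun b i j => ω.symm (Pi.single b (Matrix.single i j (1 : ℂ))), fun b i j =>
      ω.apply_symm_apply _⟩
  have hmul : ∀ (b : Fin m) (i j k l : Fin (d b)), u b i j * u b k l =
      if j = k then u b i l else 0 := by
    intro b i j k l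
    apply ω.injective
    rw [map_mul, hu, hu, ← Pi.single_mul]
    by_cases h : j = k
    · subst h
      rw [if_pos rfl, hu, Matrix.single_mul_single_same, mul_one]
    · rw [if_neg h, map_zero, Matrix.single_mul_single_of_ne _ _ _ _ h, Pi.single_zero]
  have hmul0 : ∀ (b b' : Fin m) (i j : Fin (d b)) (k l : Fin (d b')), b ≠ b' →
      u b i j * u b' k l = 0 := by
    intro b b' i j k l h
    apply ω.injective
    rw [map_mul, hu, hu, map_zero]
    funext c
    rw [Pi.mul_apply]
    by_cases hc : c = b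
    · subst hc
      rw [Pi.single_eq_of_ne h, mul_zero]
      rfl
    · rw [Pi.single_eq_of_ne hc, zero_mul]
      rfl
  have hone : ∑ b, ∑ i, u b i i = 1 := by
    apply ω.injective
    rw [map_sum, map_one]
    funext c
    rw [Finset.sum_apply, Finset.sum_eq_single c]
    · rw [map_sum, Finset.sum_apply]
      have h1 : ∀ i ∈ (Finset.univ : Finset (Fin (d c))), ω (u c i i) c = Matrix.single i i 1 := by
        intro i _
        rw [hu, Pi.single_eq_same]
      rw [Finset.sum_congr rfl h1]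
      ext x y
      rw [Matrix.sum_apply]
      by_cases hxy : x = y
      · subst hxy
        rw [Finset.sum_eq_single x]
        · simp
        · intro i _ hi
          simp [Matrix.single_apply, hi]
        · intro h
          exact absurd (Finset.mem_univ _) h
      · rw [Pi.one_apply, Matrix.one_apply_ne hxy]
        refine Finset.sum_eq_zero fun i _ => ?_
        rw [Matrix.single_apply, if_neg]
        rintro ⟨h1, h2⟩
        exact hxy (h1.symm.trans h2)
    · intro b _ hb
      rw [map_sum, Finset.sum_apply]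
      refine Finset.sum_eq_zero fun i _ => ?_
      rw [hu, Pi.single_eq_of_ne hb.symm]
    · intro h
      exact absurd (Finset.mem_univ _) h
  have hrow : ∀ (T : A) (b : Fin m) (i : Fin (d b)), u b 0 i * T = ∑ k, ω T b i k • u b 0 k := by
    intro T b i
    apply ω.injective
    rw [map_mul, hu, map_sum]
    funext c
    rw [Pi.mul_apply, Finset.sum_apply]
    by_cases hc : c = b
    · subst hc
      rw [Pi.single_eq_same]
      ext x y
      rw [Matrix.sum_apply]
      have h1 : ∀ k ∈ (Finset.univ : Finset (Fin (d c))), (ω (ω T c i k • u c 0 k) c) x y =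
          ω T c i k * (Matrix.single 0 k (1 : ℂ) : Matrix (Fin (d c)) (Fin (d c)) ℂ) x y := by
        intro k _
        rw [map_smul, hu, Pi.smul_apply, Pi.single_eq_same, Matrix.smul_apply, smul_eq_mul]
      rw [Finset.sum_congr rfl h1, Matrix.mul_apply, Finset.sum_eq_single i]
      · rw [Finset.sum_eq_single y]
        · by_cases hx : (0 : Fin (d c)) = x
          · subst hx
            simp
          · simp [Matrix.single_apply, hx]
        · intro k _ hk
          simp [Matrix.single_apply, hk]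
        · intro h
          exact absurd (Finset.mem_univ _) h
      · intro k _ hk
        simp [Matrix.single_apply, Ne.symm hk]
      · intro h
        exact absurd (Finset.mem_univ _) h
    · rw [Pi.single_eq_of_ne hc, zero_mul]
      symm
      refine Finset.sum_eq_zero fun k _ => ?_
      rw [map_smul, hu, Pi.smul_apply, Pi.single_eq_of_ne hc, smul_zero]
  -- the multiplicity spaces
  let M : Fin m → Submodule ℂ W := fun b => LinearMap.range ((u b 0 0 : A) : Module.End ℂ W)
  have hM : ∀ b (v : W), v ∈ M b → ((u b 0 0 : A) : Module.End ℂ W) v = v := by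
    rintro b _ ⟨w, rfl⟩
    have h1 : ((u b 0 0 * u b 0 0 : A) : Module.End ℂ W) w = ((u b 0 0 : A) : Module.End ℂ W) w := by
      rw [hmul, if_pos rfl]
    exact h1
  have hMi : ∀ b i (w : W), ((u b 0 i : A) : Module.End ℂ W) w ∈ M b := by
    intro b i w
    refine ⟨((u b 0 i : A) : Module.End ℂ W) w, ?_⟩
    have h1 : ((u b 0 0 * u b 0 i : A) : Module.End ℂ W) w = ((u b 0 i : A) : Module.End ℂ W) w := by
      rw [hmul, if_pos rfl]
    exact h1
  let P : (b : Fin m) → Fin (d b) → W →ₗ[ℂ] M b := fun b i =>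
    LinearMap.codRestrict (M b) ((u b 0 i : A) : Module.End ℂ W) (hMi b i)
  have hP : ∀ b i w, ((P b i w : M b) : W) = ((u b 0 i : A) : Module.End ℂ W) w := fun b i w => rfl
  let β : (b : Fin m) → M b ≃ₗ[ℂ] (Fin (finrank ℂ (M b)) → ℂ) := fun b =>
    (Module.finBasis ℂ (M b)).equivFun
  have hP2 : ∀ (b b' : Fin m) (i : Fin (d b)) (i' : Fin (d b')) (v : M b'),
      P b i (((u b' i' 0 : A) : Module.End ℂ W) v) =
        if h : b' = b then (if h ▸ i' = i then (h ▸ v : M b) else 0) else 0 := by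
    intro b b' i i' v
    by_cases h : b' = b
    · subst h
      rw [dif_pos rfl]
      apply Subtype.ext
      rw [hP]
      have h1 : ((u b' 0 i : A) : Module.End ℂ W) (((u b' i' 0 : A) : Module.End ℂ W) v) =
          ((u b' 0 i * u b' i' 0 : A) : Module.End ℂ W) v := rfl
      rw [h1, hmul]
      by_cases hi : i = i'
      · rw [if_pos hi, if_pos hi.symm]
        exact hM b' v v.2
      · rw [if_neg hi, if_neg (Ne.symm hi)]
        rfl
    · rw [dif_neg h]
      apply Subtype.ext
      rw [hP]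
      have h1 : ((u b 0 i : A) : Module.End ℂ W) (((u b' i' 0 : A) : Module.End ℂ W) v) =
          ((u b 0 i * u b' i' 0 : A) : Module.End ℂ W) v := rfl
      rw [h1, hmul0 b b' _ _ _ _ (Ne.symm h)]
      rfl
  let φ : W ≃ₗ[ℂ] ((b : Fin m) → Matrix (Fin (d b)) (Fin (finrank ℂ (M b))) ℂ) :=
    { toFun := fun w b => Matrix.of fun i j => β b (P b i w) j
      map_add' := fun w w' => by
        funext b
        ext i j
        simp
      map_smul' := fun c w => by
        funext b
        ext i j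
        simp
      invFun := fun x => ∑ b, ∑ i, ((u b i 0 : A) : Module.End ℂ W)
        ((β b).symm (x b i) : M b)
      left_inv := fun w => by
        have h1 : ∀ b i, ((u b i 0 : A) : Module.End ℂ W) ((β b).symm (fun j => β b (P b i w) j) : M b) =
            ((u b i i : A) : Module.End ℂ W) w := by
          intro b i
          have h2 : (β b).symm (fun j => β b (P b i w) j) = P b i w := (β b).symm_apply_apply _
          rw [h2, hP]
          have h3 : ((u b i 0 : A) : Module.End ℂ W) (((u b 0 i : A) : Module.End ℂ W) w) =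
              ((u b i 0 * u b 0 i : A) : Module.End ℂ W) w := rfl
          rw [h3, hmul, if_pos rfl]
        have h4 : ∑ b, ∑ i, ((u b i i : A) : Module.End ℂ W) w = w := by
          have h5 := congrArg (fun T : A => (T : Module.End ℂ W) w) hone
          simp only [AddSubmonoidClass.coe_finsetSum, LinearMap.sum_apply] at h5
          exact h5
        conv_rhs => rw [← h4]
        exact Finset.sum_congr rfl fun b _ => Finset.sum_congr rfl fun i _ => h1 b i
      right_inv := fun x => by
        funext b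
        ext i j
        show β b (P b i (∑ b', ∑ i', ((u b' i' 0 : A) : Module.End ℂ W)
          ((β b').symm (x b' i') : M b'))) j = x b i j
        rw [map_sum, Finset.sum_eq_single b]
        · rw [map_sum, Finset.sum_eq_single i]
          · rw [hP2, dif_pos rfl, if_pos rfl]
            show β b ((β b).symm (x b i)) j = _
            rw [(β b).apply_symm_apply]
          · intro i' _ hi'
            rw [hP2, dif_pos rfl, if_neg hi']
          · intro h
            exact absurd (Finset.mem_univ _) h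
        · intro b' _ hb'
          rw [map_sum]
          refine Finset.sum_eq_zero fun i' _ => ?_
          rw [hP2, dif_neg hb']
        · intro h
          exact absurd (Finset.mem_univ _) h }
  have hφ : ∀ w b i j, φ w b i j = β b (P b i w) j := fun _ _ _ _ => rfl
  have hφT : ∀ (T : A) w b, φ ((T : Module.End ℂ W) w) b = ω T b * φ w b := by
    intro T w b
    ext i j
    rw [hφ, Matrix.mul_apply]
    have h1 : P b i ((T : Module.End ℂ W) w) = ∑ k, ω T b i k • P b k w := by
      apply Subtype.ext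
      rw [hP]
      have h2 : ((u b 0 i : A) : Module.End ℂ W) ((T : Module.End ℂ W) w) =
          ((u b 0 i * T : A) : Module.End ℂ W) w := rfl
      rw [h2, hrow]
      simp only [AddSubmonoidClass.coe_finsetSum, LinearMap.sum_apply, Submodule.coe_smul]
      exact Finset.sum_congr rfl fun k _ => rfl
    rw [h1, map_sum, Finset.sum_apply]
    refine Finset.sum_congr rfl fun k _ => ?_
    rw [map_smul, Pi.smul_apply, smul_eq_mul, hφ]
  refine ⟨m, d, fun b => finrank ℂ (M b), fun b => Nat.pos_of_ne_zero (hd b).out, fun b => ?_,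
    ⟨⟨φ, fun T => ⟨fun hT => ⟨ω ⟨T, hT⟩, fun w b => hφT ⟨T, hT⟩ w b⟩, ?_⟩⟩⟩⟩
  · have h1 : Nontrivial (M b) := by
      rw [Submodule.nontrivial_iff_ne_bot]
      intro h
      have h2 : u b 0 0 = 0 := by
        apply Subtype.ext
        exact LinearMap.range_eq_bot.1 h
      have h3 := hu b 0 0
      rw [h2, map_zero] at h3
      have h4 := congrFun (congrFun (congrFun h3 b) 0) 0
      rw [Pi.single_eq_same] at h4
      simp at h4
    exact Module.finrank_pos
  · rintro ⟨X, hX⟩
    have h1 : T = ((ω.symm X : A) : Module.End ℂ W) := by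
      refine LinearMap.ext fun w => φ.injective ?_
      funext b
      rw [hX, hφT, ω.apply_symm_apply]
    rw [h1]
    exact (ω.symm X).2
/- END LC -/

/- MODULE LD -/
/-- the operator with the matrix `X` in the block `b` -/
private noncomputable def LD_op {d f : Fin m → ℕ} (B : BlkV A m d f) (b : Fin m) :
    Matrix (Fin (d b)) (Fin (d b)) ℂ →ₗ[ℂ] Module.End ℂ W where
  toFun X :=
    { toFun := fun w => B.φ.symm (Pi.single b (X * B.φ w b))
      map_add' := fun w w' => by
        rw [map_add, Pi.add_apply, Matrix.mul_add, Pi.single_add, map_add]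
      map_smul' := fun c w => by
        rw [map_smul, Pi.smul_apply, Matrix.mul_smul, RingHom.id_apply, Pi.single_smul,
          map_smul] }
  map_add' X Y := by
    refine LinearMap.ext fun w => ?_
    show B.φ.symm (Pi.single b ((X + Y) * B.φ w b)) =
      B.φ.symm (Pi.single b (X * B.φ w b)) + B.φ.symm (Pi.single b (Y * B.φ w b))
    rw [Matrix.add_mul, Pi.single_add, map_add]
  map_smul' c X := by
    refine LinearMap.ext fun w => ?_
    show B.φ.symm (Pi.single b ((c • X) * B.φ w b)) =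
      c • B.φ.symm (Pi.single b (X * B.φ w b))
    rw [Matrix.smul_mul, Pi.single_smul, map_smul]

private theorem LD_op_same {d f : Fin m → ℕ} (B : BlkV A m d f) (b : Fin m)
    (X : Matrix (Fin (d b)) (Fin (d b)) ℂ) (w : W) : B.φ (LD_op B b X w) b = X * B.φ w b := by
  show B.φ (B.φ.symm (Pi.single b (X * B.φ w b))) b = _
  rw [LinearEquiv.apply_symm_apply, Pi.single_eq_same]

private theorem LD_op_ne {d f : Fin m → ℕ} (B : BlkV A m d f) (b : Fin m)
    (X : Matrix (Fin (d b)) (Fin (d b)) ℂ) (w : W) {c : Fin m} (hc : c ≠ b) :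
    B.φ (LD_op B b X w) c = 0 := by
  show B.φ (B.φ.symm (Pi.single b (X * B.φ w b))) c = _
  rw [LinearEquiv.apply_symm_apply, Pi.single_eq_of_ne hc]

private theorem LD_op_mem {d f : Fin m → ℕ} (B : BlkV A m d f) (b : Fin m)
    (X : Matrix (Fin (d b)) (Fin (d b)) ℂ) : LD_op B b X ∈ A := by
  refine (B.mem _).2 ⟨Pi.single b X, fun w c => ?_⟩
  by_cases hc : c = b
  · subst hc
    rw [LD_op_same, Pi.single_eq_same]
  · rw [LD_op_ne B b X w hc, Pi.single_eq_of_ne hc, Matrix.zero_mul]

/-- the projection to the block `b` -/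
private noncomputable def LD_z {d f : Fin m → ℕ} (B : BlkV A m d f) (b : Fin m) :
    Module.End ℂ W := LD_op B b 1

private theorem LD_z_same {d f : Fin m → ℕ} (B : BlkV A m d f) (b : Fin m) (w : W) :
    B.φ (LD_z B b w) b = B.φ w b := by
  unfold LD_z
  rw [LD_op_same, Matrix.one_mul]

private theorem LD_z_ne {d f : Fin m → ℕ} (B : BlkV A m d f) (b : Fin m) (w : W) {c : Fin m}
    (hc : c ≠ b) : B.φ (LD_z B b w) c = 0 := LD_op_ne B b 1 w hc

private theorem LD_z_eq {d f : Fin m → ℕ} (B : BlkV A m d f) (b : Fin m) (w : W)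
    (hw : ∀ c, c ≠ b → B.φ w c = 0) : LD_z B b w = w := by
  apply B.φ.injective
  funext c
  by_cases hc : c = b
  · subst hc
    exact LD_z_same B c w
  · rw [LD_z_ne B b w hc, hw c hc]

private theorem LD_z_sum {d f : Fin m → ℕ} (B : BlkV A m d f) (w : W) :
    ∑ b, LD_z B b w = w := by
  apply B.φ.injective
  rw [map_sum]
  funext c
  rw [Finset.sum_apply, Finset.sum_eq_single c]
  · exact LD_z_same B c w
  · intro b _ hb
    exact LD_z_ne B b w hb.symm
  · intro h
    exact absurd (Finset.mem_univ _) h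

private theorem LD_z_mul {d f : Fin m → ℕ} (B : BlkV A m d f) {b b' : Fin m} (h : b ≠ b') (w : W) :
    LD_z B b (LD_z B b' w) = 0 := by
  apply B.φ.injective
  rw [map_zero]
  funext c
  by_cases hc : c = b
  · subst hc
    rw [LD_z_same, LD_z_ne B b' w h]
    rfl
  · rw [LD_z_ne B b _ hc]
    rfl

private theorem LD_z_com {d f : Fin m → ℕ} (B : BlkV A m d f) (b : Fin m) {T : Module.End ℂ W}
    (hT : T ∈ A) (w : W) : LD_z B b (T w) = T (LD_z B b w) := by
  obtain ⟨X, hX⟩ := (B.mem T).1 hT
  apply B.φ.injective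
  funext c
  rw [hX]
  by_cases hc : c = b
  · subst hc
    rw [LD_z_same, LD_z_same, hX]
  · rw [LD_z_ne B b _ hc, LD_z_ne B b _ hc, Matrix.mul_zero]

/-- a vector in the block `c` -/
private noncomputable def LD_v {d f : Fin m → ℕ} (B : BlkV A m d f) (c : Fin m) :
    Matrix (Fin (d c)) (Fin (f c)) ℂ →ₗ[ℂ] W where
  toFun N := B.φ.symm (Pi.single c N)
  map_add' N N' := by rw [Pi.single_add, map_add]
  map_smul' r N := by rw [Pi.single_smul, map_smul, RingHom.id_apply]

private theorem LD_v_same {d f : Fin m → ℕ} (B : BlkV A m d f) (c : Fin m)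
    (N : Matrix (Fin (d c)) (Fin (f c)) ℂ) : B.φ (LD_v B c N) c = N := by
  show B.φ (B.φ.symm (Pi.single c N)) c = N
  rw [LinearEquiv.apply_symm_apply, Pi.single_eq_same]

private theorem LD_v_ne {d f : Fin m → ℕ} (B : BlkV A m d f) (c : Fin m)
    (N : Matrix (Fin (d c)) (Fin (f c)) ℂ) {b : Fin m} (h : b ≠ c) : B.φ (LD_v B c N) b = 0 := by
  show B.φ (B.φ.symm (Pi.single c N)) b = 0
  rw [LinearEquiv.apply_symm_apply, Pi.single_eq_of_ne h]

private theorem LD_cancel {d f : ℕ} (hf : 0 < f) {M M' : Matrix (Fin d) (Fin d) ℂ}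
    (h : ∀ N : Matrix (Fin d) (Fin f) ℂ, M * N = M' * N) : M = M' := by
  ext i k
  have h1 := congrFun (congrFun (h (Matrix.single k ⟨0, hf⟩ 1)) i) ⟨0, hf⟩
  simpa [Matrix.mul_apply, Matrix.single_apply] using h1

/-- a central element acts on each block as a scalar -/
private theorem LD_scal {d f : Fin m → ℕ} (B : BlkV A m d f) (hf : ∀ b, 0 < f b)
    {T : Module.End ℂ W} (hT : T ∈ A) (hc : ∀ x ∈ A, ∀ w, T (x w) = x (T w)) (b : Fin m) :
    ∃ r : ℂ, ∀ w, B.φ (T w) b = r • B.φ w b := by
  obtain ⟨X, hX⟩ := (B.mem T).1 hT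
  have h1 : ∀ Y : Matrix (Fin (d b)) (Fin (d b)) ℂ, Commute Y (X b) := by
    intro Y
    refine LD_cancel (hf b) fun N => ?_
    have h2 := hc _ (LD_op_mem B b Y) (LD_v B b N)
    have h3 := congrArg (fun w => B.φ w b) h2
    try simp only at h3
    rw [hX, LD_op_same, LD_op_same, hX, LD_v_same] at h3
    rw [Matrix.mul_assoc, Matrix.mul_assoc]
    exact h3.symm
  obtain ⟨r, hr⟩ := Matrix.mem_range_scalar_of_commute_single (M := X b) fun i j _ => h1 _
  refine ⟨r, fun w => ?_⟩
  rw [hX, ← hr, Matrix.scalar_apply, ← Matrix.smul_eq_diagonal_mul]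

/-- **LD.** Automorphisms which normalise the algebra permute the blocks.

PROOF. Let `z b ∈ A` be the projection to the block `b` (`φ (z b w) b = φ w b`, `φ (z b w) c = 0` for
`c ≠ b`; in `A` with `X b = 1`, the others `0`).  `T ∈ A` commutes with all elements of `A` iff all its
`X c` are scalar matrices; idempotent: iff all are `0` or `1`.  `z' = g * z b * g⁻¹ ∈ A` is central in
`A` (as `g⁻¹ x g ∈ A` for `x ∈ A`, and `z b` is central), idempotent: `z' = ∑ c ∈ J, z c`, `J` nonempty
(`z b ≠ 0` as `d b, f b > 0`).  In the same way for each `c ∈ J` `g⁻¹ * z c * g` is a sum of some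
`z`, and `g⁻¹ z' g = z b`, so `g⁻¹ z c g = z b` (it is nonzero and `≤ z b`), so `z c = z'`: `J = {c}`.
Let `σ b = c`.  `σ` is injective (`g z b g⁻¹ = z (σ b)`), so a permutation.  A `w` in the block `b`
satisfies `z b w = w`, so `g w = z (σ b) (g w)`: `Mv`.
Sizes: `x ↦ g x g⁻¹` is an isomorphism of the algebras `z b A` and `z (σ b) A`, of dimensions
`(d b)^2`, `(d (σ b))^2`; and `g` is an isomorphism of the blocks, of dimensions `d b * f b`.
(Alternative for `d`: `d b` is the largest number of orthogonal nonzero idempotents with sum `z b`.) -/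
theorem BlkV.perm {d f : Fin m → ℕ} (B : BlkV A m d f) (hd : ∀ b, 0 < d b) (hf : ∀ b, 0 < f b)
    {g : W ≃ₗ[ℂ] W} (hg : Nrm A g) : ∃ σ : Equiv.Perm (Fin m), ∀ b, B.Mv g b (σ b) ∧
      d (σ b) = d b ∧ f (σ b) = f b := by
  classical
  -- conjugates of the projections
  have hz : ∀ b c, ∃ r : ℂ, ∀ w, B.φ (g (LD_z B b (g.symm w))) c = r • B.φ w c := by
    intro b c
    have h1 := (hg _ (LD_op_mem B b 1)).1
    refine LD_scal B hf h1 ?_ c
    intro x hx w
    have h2 := (hg x hx).2
    have h3 := LD_z_com B b h2 (g.symm w)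
    show g (LD_z B b (g.symm (x w))) = x (g (LD_z B b (g.symm w)))
    have h4 : (g.symm.toLinearMap ∘ₗ x ∘ₗ g.toLinearMap) (g.symm w) = g.symm (x w) := by
      show g.symm (x (g (g.symm w))) = _
      rw [g.apply_symm_apply]
    have h5 : (g.symm.toLinearMap ∘ₗ x ∘ₗ g.toLinearMap) (LD_z B b (g.symm w)) =
        g.symm (x (g (LD_z B b (g.symm w)))) := rfl
    rw [h4, h5] at h3
    rw [h3, g.apply_symm_apply]
  choose ε hε using hz
  -- nonzero vectors
  have hne : ∀ c, ∃ w : W, B.φ w c ≠ 0 := by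
    intro c
    refine ⟨LD_v B c (Matrix.single ⟨0, hd c⟩ ⟨0, hf c⟩ 1), ?_⟩
    rw [LD_v_same]
    intro h
    have h1 := congrFun (congrFun h ⟨0, hd c⟩) ⟨0, hf c⟩
    simp at h1
  have hsum : ∀ c, ∑ b, ε b c = 1 := by
    intro c
    obtain ⟨w, hw⟩ := hne c
    have h1 : ∑ b, g (LD_z B b (g.symm w)) = w := by
      rw [← map_sum, LD_z_sum, g.apply_symm_apply]
    have h2 := congrArg (fun v => B.φ v c) h1
    simp only [map_sum, Finset.sum_apply] at h2
    rw [Finset.sum_congr rfl fun b _ => hε b c w, ← Finset.sum_smul] at h2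
    have h3 : (∑ b, ε b c - 1) • B.φ w c = 0 := by
      rw [sub_smul, h2, one_smul, sub_self]
    rcases smul_eq_zero.1 h3 with h4 | h4
    · exact sub_eq_zero.1 h4
    · exact absurd h4 hw
  have hmul : ∀ b b' c, b ≠ b' → ε b c * ε b' c = 0 := by
    intro b b' c h
    obtain ⟨w, hw⟩ := hne c
    have h1 : g (LD_z B b (g.symm (g (LD_z B b' (g.symm w))))) = 0 := by
      rw [g.symm_apply_apply, LD_z_mul B h, map_zero]
    have h2 := congrArg (fun v => B.φ v c) h1
    try simp only at h2
    rw [hε, hε, map_zero, Pi.zero_apply, smul_smul] at h2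
    rcases smul_eq_zero.1 h2 with h4 | h4
    · exact h4
    · exact absurd h4 hw
  have hex : ∀ c, ∃ b, ε b c ≠ 0 := by
    intro c
    by_contra h
    push Not at h
    have h1 := hsum c
    rw [Finset.sum_eq_zero fun b _ => h b] at h1
    exact zero_ne_one h1
  choose τ hτ using hex
  have huniq : ∀ b c, ε b c ≠ 0 → τ c = b := by
    intro b c h
    by_contra h1
    have h2 := hmul b (τ c) c (Ne.symm h1)
    rcases mul_eq_zero.1 h2 with h3 | h3
    · exact h h3
    · exact hτ c h3
  have hsurj : Function.Surjective τ := by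
    intro b
    by_contra h
    push Not at h
    have h1 : ∀ c, ε b c = 0 := by
      intro c
      by_contra h2
      exact h c (huniq b c h2)
    obtain ⟨w, hw⟩ := hne b
    apply hw
    have h2 : g (LD_z B b (g.symm (g w))) = 0 := by
      apply B.φ.injective
      rw [map_zero]
      funext c
      rw [hε, h1, zero_smul]
      rfl
    rw [g.symm_apply_apply] at h2
    have h3 : LD_z B b w = 0 := by
      apply g.injective
      rw [h2, map_zero]
    rw [← LD_z_same B b w, h3, map_zero]
    rfl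
  have hbij : Function.Bijective τ := Finite.injective_iff_surjective.2 hsurj |>.bijective_of_finite
  obtain ⟨σ, hσ⟩ : ∃ σ : Equiv.Perm (Fin m), ∀ b, τ (σ b) = b :=
    ⟨(Equiv.ofBijective τ hbij).symm, fun b => (Equiv.ofBijective τ hbij).apply_symm_apply b⟩
  have hoff : ∀ b c, c ≠ σ b → ε b c = 0 := by
    intro b c hc
    by_contra h
    apply hc
    apply hbij.1
    rw [hσ, huniq b c h]
  have hMv : ∀ b, B.Mv g b (σ b) := by
    intro b w hw c hc
    have h1 : g (LD_z B b (g.symm (g w))) = g w := by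
      rw [g.symm_apply_apply, LD_z_eq B b w hw]
    rw [← h1, hε, hoff b c hc, zero_smul]
  -- dimensions
  have hdf : ∀ b, d b * f b ≤ d (σ b) * f (σ b) := by
    intro b
    let Θ : Matrix (Fin (d b)) (Fin (f b)) ℂ →ₗ[ℂ] Matrix (Fin (d (σ b))) (Fin (f (σ b))) ℂ :=
      (LinearMap.proj (σ b)) ∘ₗ B.φ.toLinearMap ∘ₗ g.toLinearMap ∘ₗ LD_v B b
    have hinj : Function.Injective Θ := by
      rw [← LinearMap.ker_eq_bot, LinearMap.ker_eq_bot']
      intro N hN
      have h1 : g (LD_v B b N) = 0 := by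
        apply B.φ.injective
        rw [map_zero]
        funext c
        by_cases hc : c = σ b
        · subst hc
          exact hN
        · exact hMv b _ (fun c hc => LD_v_ne B b N hc) c hc
      have h2 : LD_v B b N = 0 := by
        apply g.injective
        rw [h1, map_zero]
      rw [← LD_v_same B b N, h2, map_zero]
      rfl
    have h1 := LinearMap.finrank_le_finrank_of_injective hinj
    simpa [Module.finrank_matrix] using h1
  have hdd : ∀ b, d b * d b ≤ d (σ b) * d (σ b) := by
    intro b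
    obtain ⟨j⟩ : Nonempty (Fin (f (σ b))) := ⟨⟨0, hf _⟩⟩
    let cj : Module.End ℂ W →ₗ[ℂ] Module.End ℂ W :=
      { toFun := fun T => g.toLinearMap ∘ₗ T ∘ₗ g.symm.toLinearMap
        map_add' := fun T T' => by
          refine LinearMap.ext fun w => ?_
          simp
        map_smul' := fun r T => by
          refine LinearMap.ext fun w => ?_
          simp }
    have hcj : ∀ T w, cj T w = g (T (g.symm w)) := fun _ _ => rfl
    let mt : Module.End ℂ W →ₗ[ℂ] Matrix (Fin (d (σ b))) (Fin (d (σ b))) ℂ :=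
      { toFun := fun T => Matrix.of fun i k => B.φ (T (LD_v B (σ b) (Matrix.single k j 1))) (σ b) i j
        map_add' := fun T T' => by
          ext i k
          simp
        map_smul' := fun r T => by
          ext i k
          simp }
    have hmt : ∀ (T : Module.End ℂ W) (i k : Fin (d (σ b))), mt T i k =
      B.φ (T (LD_v B (σ b) (Matrix.single k j 1))) (σ b) i j := fun _ _ _ => rfl
    let Θ : Matrix (Fin (d b)) (Fin (d b)) ℂ →ₗ[ℂ] Matrix (Fin (d (σ b))) (Fin (d (σ b))) ℂ :=
      mt ∘ₗ cj ∘ₗ LD_op B b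
    have hinj : Function.Injective Θ := by
      rw [← LinearMap.ker_eq_bot, LinearMap.ker_eq_bot']
      intro N hN
      have hN' : mt (cj (LD_op B b N)) = 0 := hN
      obtain ⟨Y, hY⟩ := (B.mem _).1 ((hg _ (LD_op_mem B b N)).1)
      have hY' : ∀ w c, B.φ (cj (LD_op B b N) w) c = Y c * B.φ w c := hY
      have h1 : Y (σ b) = 0 := by
        ext i k
        have h2 := congrFun (congrFun hN' i) k
        rw [hmt, hY', LD_v_same] at h2
        simpa [Matrix.mul_apply, Matrix.single_apply] using h2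
      have h2 : cj (LD_op B b N) = 0 := by
        refine LinearMap.ext fun w => ?_
        apply B.φ.injective
        rw [LinearMap.zero_apply, map_zero]
        funext c
        by_cases hc : c = σ b
        · subst hc
          rw [hY', h1, Matrix.zero_mul]
          rfl
        · rw [hcj]
          exact hMv b _ (fun c hc => LD_op_ne B b N _ hc) c hc
      refine LD_cancel (hf b) fun M => ?_
      have h3 : LD_op B b N (LD_v B b M) = 0 := by
        have h4 := congrArg (fun T => T (g (LD_v B b M))) h2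
        try simp only at h4
        rw [hcj, g.symm_apply_apply] at h4
        apply g.injective
        rw [h4, map_zero]
        rfl
      have h5 := congrArg (fun w => B.φ w b) h3
      try simp only at h5
      rw [LD_op_same, LD_v_same, map_zero] at h5
      rw [h5, Matrix.zero_mul]
      rfl
    have h1 := LinearMap.finrank_le_finrank_of_injective hinj
    simpa [Module.finrank_matrix] using h1
  have hdle : ∀ b ∈ (Finset.univ : Finset (Fin m)), d b ≤ d (σ b) := by
    intro b _
    by_contra h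
    push Not at h
    exact absurd (hdd b) (not_le.2 (Nat.mul_lt_mul'' h h))
  have hdeq : ∀ b, d b = d (σ b) := by
    have h1 : ∑ b, d b = ∑ b, d (σ b) := (Equiv.sum_comp σ d).symm
    intro b
    exact (Finset.sum_eq_sum_iff_of_le hdle).1 h1 b (Finset.mem_univ b)
  have hdfeq : ∀ b, d b * f b = d (σ b) * f (σ b) := by
    have h1 : ∑ b, d b * f b = ∑ b, d (σ b) * f (σ b) :=
      (Equiv.sum_comp σ (fun b => d b * f b)).symm
    intro b
    exact (Finset.sum_eq_sum_iff_of_le fun b _ => hdf b).1 h1 b (Finset.mem_univ b)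
  refine ⟨σ, fun b => ⟨hMv b, (hdeq b).symm, ?_⟩⟩
  have h1 := hdfeq b
  rw [← hdeq b] at h1
  exact (Nat.eq_of_mul_eq_mul_left (hd b) h1).symm
/- END LD -/

/- MODULE LE -/
/-- the sum of the blocks in `J` -/
private def LE_sub {d f : Fin m → ℕ} (B : BlkV A m d f) (J : Set (Fin m)) : Submodule ℂ W where
  carrier := {w | ∀ c, c ∉ J → B.φ w c = 0}
  add_mem' := by
    intro a b ha hb c hc
    rw [map_add, Pi.add_apply, ha c hc, hb c hc, add_zero]
  zero_mem' := by
    intro c _
    rw [map_zero]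
    rfl
  smul_mem' := by
    intro r a ha c hc
    rw [map_smul, Pi.smul_apply, ha c hc, smul_zero]

private theorem LE_mem {d f : Fin m → ℕ} (B : BlkV A m d f) (J : Set (Fin m)) (w : W) :
    w ∈ LE_sub B J ↔ ∀ c, c ∉ J → B.φ w c = 0 := Iff.rfl

private theorem LE_inv {d f : Fin m → ℕ} (B : BlkV A m d f) (J : Set (Fin m)) {g : W ≃ₗ[ℂ] W}
    (h : ∀ b ∈ J, ∃ b' ∈ J, B.Mv g b b') (w : W) (hw : w ∈ LE_sub B J) : g w ∈ LE_sub B J := by
  classical
  intro c hc
  have h1 : g w = ∑ b, g (LD_z B b w) := by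
    rw [← map_sum, LD_z_sum]
  rw [h1, map_sum, Finset.sum_apply]
  refine Finset.sum_eq_zero fun b _ => ?_
  by_cases hb : b ∈ J
  · obtain ⟨b', hb', hm⟩ := h b hb
    refine hm _ (fun c hc => LD_z_ne B b w hc) c ?_
    rintro rfl
    exact hc hb'
  · have h2 : LD_z B b w = 0 := by
      apply B.φ.injective
      rw [map_zero]
      funext x
      by_cases hx : x = b
      · subst hx
        rw [LD_z_same]
        exact hw x hb
      · rw [LD_z_ne B b w hx]
        rfl
    rw [h2, map_zero, map_zero]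
    rfl

private theorem LE_alg {d f : Fin m → ℕ} (B : BlkV A m d f) (J : Set (Fin m))
    {T : Module.End ℂ W} (hT : T ∈ A) (w : W) (hw : w ∈ LE_sub B J) : T w ∈ LE_sub B J := by
  intro c hc
  obtain ⟨X, hX⟩ := (B.mem T).1 hT
  rw [hX, hw c hc, Matrix.mul_zero]

private theorem LE_vec {d f : Fin m → ℕ} (B : BlkV A m d f) (hd : ∀ b, 0 < d b)
    (hf : ∀ b, 0 < f b) (c : Fin m) : ∃ w : W, B.φ w c ≠ 0 ∧ ∀ b, b ≠ c → B.φ w b = 0 := by
  refine ⟨LD_v B c (Matrix.single ⟨0, hd c⟩ ⟨0, hf c⟩ 1), ?_, fun b hb => LD_v_ne B c _ hb⟩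
  rw [LD_v_same]
  intro h
  have h1 := congrFun (congrFun h ⟨0, hd c⟩) ⟨0, hf c⟩
  simp at h1

private theorem LE_ne {d f : Fin m → ℕ} (B : BlkV A m d f) (hd : ∀ b, 0 < d b)
    (hf : ∀ b, 0 < f b) (J : Set (Fin m)) (hJ : J.Nonempty) : LE_sub B J ≠ ⊥ := by
  obtain ⟨b, hb⟩ := hJ
  obtain ⟨w, hw, hw'⟩ := LE_vec B hd hf b
  intro h
  have h1 : w ∈ LE_sub B J := by
    intro c hc
    refine hw' c ?_
    rintro rfl
    exact hc hb
  rw [h, Submodule.mem_bot] at h1
  apply hw
  rw [h1, map_zero]
  rfl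

private theorem LE_top {d f : Fin m → ℕ} (B : BlkV A m d f) (hd : ∀ b, 0 < d b)
    (hf : ∀ b, 0 < f b) (J : Set (Fin m)) (hJ : LE_sub B J = ⊤) : J = Set.univ := by
  rw [Set.eq_univ_iff_forall]
  intro c
  by_contra hc
  obtain ⟨w, hw, -⟩ := LE_vec B hd hf c
  have h1 : w ∈ LE_sub B J := by
    rw [hJ]
    trivial
  exact hw (h1 c hc)

/-- **LE.** Clifford's theorem: the blocks have the same sizes.

PROOF. `clifford_ss`, `semisimple_of_ss`, `exists_blkV` give a `BlkV`; `m > 0` as `W` is nontrivial; let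
`b₀ : Fin m`.  The set `J = {b | d b = d b₀ ∧ f b = f b₀}` is invariant under the permutations of
`BlkV.perm` for `g ∈ S`; `U = {w | ∀ c ∉ J, φ w c = 0}` is invariant under `A` and under `S` (write `w`
as a sum of elements of the blocks `b ∈ J`), nonzero, so `⊤`, so `J` is everything
(every block contains a nonzero vector).  Then `d = fun _ => e`, `f = fun _ => f₀` (`funext`, `subst`)
and a `BlkV` with constant sizes is a `Blk`. -/
theorem clifford [Nontrivial W] (S : Set (W ≃ₗ[ℂ] W)) (hN : ∀ g ∈ S, Nrm A g)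
    (hirr : ∀ U : Submodule ℂ W, (∀ T ∈ A, ∀ x ∈ U, T x ∈ U) → (∀ g ∈ S, ∀ x ∈ U, g x ∈ U) →
      U = ⊥ ∨ U = ⊤) :
    ∃ m e f : ℕ, 0 < m ∧ 0 < e ∧ 0 < f ∧ Nonempty (Blk A m e f) := by
  obtain ⟨m, d, f, hd, hf, ⟨B⟩⟩ := exists_blkV (semisimple_of_ss (clifford_ss S hN hirr))
  have hm : 0 < m := by
    rcases Nat.eq_zero_or_pos m with h | h
    · exfalso
      subst h
      obtain ⟨x, y, hxy⟩ := exists_pair_ne W
      apply hxy
      apply B.φ.injective
      funext b
      exact b.elim0
    · exact h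
  obtain ⟨b₀⟩ : Nonempty (Fin m) := ⟨⟨0, hm⟩⟩
  obtain ⟨J, hJ⟩ : ∃ J : Set (Fin m), ∀ b, b ∈ J ↔ d b = d b₀ ∧ f b = f b₀ :=
    ⟨{b | d b = d b₀ ∧ f b = f b₀}, fun b => Iff.rfl⟩
  have hJu : J = Set.univ := by
    refine LE_top B hd hf J ?_
    rcases hirr (LE_sub B J) (fun T hT x hx => LE_alg B J hT x hx) (fun g hg x hx => by
      obtain ⟨σ, hσ⟩ := B.perm hd hf (hN g hg)
      refine LE_inv B J (fun b hb => ⟨σ b, ?_, (hσ b).1⟩) x hx
      rw [hJ] at hb ⊢
      exact ⟨(hσ b).2.1.trans hb.1, (hσ b).2.2.trans hb.2⟩) with h | h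
    · exact absurd h (LE_ne B hd hf J ⟨b₀, (hJ b₀).2 ⟨rfl, rfl⟩⟩)
    · exact h
  have h1 : ∀ b, d b = d b₀ ∧ f b = f b₀ := by
    intro b
    rw [← hJ, hJu]
    trivial
  obtain ⟨e, he⟩ : ∃ e, e = d b₀ := ⟨_, rfl⟩
  obtain ⟨k, hk⟩ : ∃ k, k = f b₀ := ⟨_, rfl⟩
  have h2 : d = fun _ => e := funext fun b => (h1 b).1.trans he.symm
  have h3 : f = fun _ => k := funext fun b => (h1 b).2.trans hk.symm
  have he0 : 0 < e := by
    rw [he]
    exact hd b₀
  have hk0 : 0 < k := by
    rw [hk]
    exact hf b₀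
  clear he hk hJ h1
  subst h2 h3
  exact ⟨m, e, k, hm, he0, hk0, ⟨⟨B.φ, B.mem⟩⟩⟩
/- END LE -/

/- MODULE LF -/
/-- left multiplication by matrices, as an operator -/
private def LF_mk (B : Blk A m e f) (X : Fin m → Matrix (Fin e) (Fin e) ℂ) : Module.End ℂ W :=
  B.φ.symm.toLinearMap ∘ₗ
    ({ toFun := fun x b => X b * x b
       map_add' := fun x y => by funext b; simp [Matrix.mul_add]
       map_smul' := fun c x => by funext b; simp } :
      (Fin m → Matrix (Fin e) (Fin f) ℂ) →ₗ[ℂ] (Fin m → Matrix (Fin e) (Fin f) ℂ)) ∘ₗ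
    B.φ.toLinearMap

private theorem LF_mk_apply (B : Blk A m e f) (X : Fin m → Matrix (Fin e) (Fin e) ℂ) (w : W)
    (b : Fin m) : B.φ (LF_mk B X w) b = X b * B.φ w b := by
  unfold LF_mk
  rw [LinearMap.comp_apply, LinearMap.comp_apply, LinearEquiv.coe_coe, LinearEquiv.coe_coe,
    LinearEquiv.apply_symm_apply]
  rfl

private theorem LF_mk_mem (B : Blk A m e f) (X : Fin m → Matrix (Fin e) (Fin e) ℂ) :
    LF_mk B X ∈ A := (B.mem _).2 ⟨X, LF_mk_apply B X⟩

/-- the column `j` of the block `b` -/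
private def LF_col (B : Blk A m e f) (j : Fin f) : W →ₗ[ℂ] (Fin m × Fin e → ℂ) :=
  ({ toFun := fun x p => x p.1 p.2 j
     map_add' := fun x y => by funext p; rfl
     map_smul' := fun c x => by funext p; rfl } :
    (Fin m → Matrix (Fin e) (Fin f) ℂ) →ₗ[ℂ] (Fin m × Fin e → ℂ)) ∘ₗ B.φ.toLinearMap

private theorem LF_col_apply (B : Blk A m e f) (j : Fin f) (w : W) (p : Fin m × Fin e) :
    LF_col B j w p = B.φ w p.1 p.2 j := rfl

/-- the inclusion of the column `j` -/
private def LF_inc (B : Blk A m e f) (j : Fin f) : (Fin m × Fin e → ℂ) →ₗ[ℂ] W :=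
  B.φ.symm.toLinearMap ∘ₗ
    ({ toFun := fun u b => Matrix.of (fun i j' => if j' = j then u (b, i) else 0)
       map_add' := fun x y => by
        funext b; ext i j'
        simp only [Matrix.of_apply, Pi.add_apply, Matrix.add_apply]
        split_ifs <;> simp
       map_smul' := fun c x => by
        funext b; ext i j'
        simp only [Matrix.of_apply, Pi.smul_apply, Matrix.smul_apply, RingHom.id_apply]
        split_ifs <;> simp } :
    (Fin m × Fin e → ℂ) →ₗ[ℂ] (Fin m → Matrix (Fin e) (Fin f) ℂ))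

private theorem LF_inc_apply (B : Blk A m e f) (j : Fin f) (u : Fin m × Fin e → ℂ)
    (b : Fin m) (i : Fin e) (j' : Fin f) :
    B.φ (LF_inc B j u) b i j' = if j' = j then u (b, i) else 0 := by
  unfold LF_inc
  rw [LinearMap.comp_apply, LinearEquiv.coe_coe, LinearEquiv.apply_symm_apply]
  rfl

private theorem LF_ext (B : Blk A m e f) {v w : W} (h : ∀ b i j, B.φ v b i j = B.φ w b i j) :
    v = w := by
  apply B.φ.injective
  funext b
  ext i j
  exact h b i j

private theorem LF_sum (B : Blk A m e f) (w : W) : ∑ j, LF_inc B j (LF_col B j w) = w := by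
  apply LF_ext B
  intro b i j
  rw [map_sum, Finset.sum_apply, Matrix.sum_apply]
  simp only [LF_inc_apply, LF_col_apply]
  rw [Finset.sum_ite_eq]
  simp

/-- the matrices as an operator on one column -/
private def LF_op (X : Fin m → Matrix (Fin e) (Fin e) ℂ) :
    (Fin m × Fin e → ℂ) →ₗ[ℂ] (Fin m × Fin e → ℂ) :=
  { toFun := fun u p => ∑ k, X p.1 p.2 k * u (p.1, k)
    map_add' := fun x y => by
      funext p
      simp only [Pi.add_apply, mul_add, Finset.sum_add_distrib]
    map_smul' := fun c x => by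
      funext p
      simp only [Pi.smul_apply, smul_eq_mul, RingHom.id_apply, Finset.mul_sum]
      exact Finset.sum_congr rfl (fun k _ => by ring) }

private theorem LF_col_mul (B : Blk A m e f) (j : Fin f) {x : Module.End ℂ W}
    {X : Fin m → Matrix (Fin e) (Fin e) ℂ} (hX : ∀ w b, B.φ (x w) b = X b * B.φ w b) (w : W) :
    LF_col B j (x w) = LF_op X (LF_col B j w) := by
  funext p
  rw [LF_col_apply, hX, Matrix.mul_apply]
  rfl

private theorem LF_inc_mul (B : Blk A m e f) (j : Fin f) {x : Module.End ℂ W}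
    {X : Fin m → Matrix (Fin e) (Fin e) ℂ} (hX : ∀ w b, B.φ (x w) b = X b * B.φ w b)
    (u : Fin m × Fin e → ℂ) : x (LF_inc B j u) = LF_inc B j (LF_op X u) := by
  apply LF_ext B
  intro b i j'
  rw [hX, Matrix.mul_apply, LF_inc_apply]
  simp only [LF_inc_apply]
  split_ifs
  · rfl
  · simp

/-- **LF (a).** -/
theorem Blk.finrank_eq (B : Blk A m e f) : finrank ℂ W = m * e * f := by
  rw [B.φ.finrank_eq, Module.finrank_pi_fintype]
  simp only [Module.finrank_matrix, Module.finrank_self, Fintype.card_fin, mul_one,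
    Finset.sum_const, Finset.card_univ, smul_eq_mul]
  ring

/-- **LF (b).** Chains of centralisers in an algebra with blocks.

PROOF. Let `W₀ = Fin m × Fin e → ℂ`, of dimension `m * e` (nontrivial).  For `x ∈ A` with matrices `X b` let
`x' : W₀ → W₀` be `(x' u) (b, i) = ∑ k, X b i k * u (b, k)`.  For `j : Fin f` let `ι j : W₀ → W` put `u` into
the column `j` (`φ (ι j u) b i j' = if j' = j then u (b, i) else 0`) and `π j : W → W₀` take the column `j`.
`x * ι j = ι j * x'`, `π j * x = x' * π j`.  For `y : End W`: `π j' * (x * y - y * x) * ι j =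
x' * y' - y' * x'` with `y' = π j' * y * ι j`.  `x k * y k - y k * x k ≠ 0`, so for some `j = j(k)`,
`j' = j'(k)` this is not zero (`∑ j, ι j * π j = 1`).  With `x' k` and `y' k = π j'(k) * y k * ι j(k)`:
`x' l` commutes with `y' k` for `l < k`, `x' k` does not commute with `y' k`: `PB3.chain_bound`. -/
theorem Blk.chain (B : Blk A m e f) (hm : 0 < m) (he : 0 < e) (hf : 0 < f)
    (x y : Fin p → Module.End ℂ W) (hx : ∀ k, x k ∈ A) (h0 : ∀ k, x k * y k ≠ y k * x k)
    (h1 : ∀ l k, l < k → x l * y k = y k * x l) : p + 2 ≤ 2 * (m * e) := by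
  have hX : ∀ k, ∃ X : Fin m → Matrix (Fin e) (Fin e) ℂ, ∀ w b, B.φ (x k w) b = X b * B.φ w b :=
    fun k => (B.mem _).1 (hx k)
  choose X hX using hX
  have hj : ∀ k, ∃ j j' : Fin f, ∃ u, LF_col B j' (x k (y k (LF_inc B j u)))
      ≠ LF_col B j' (y k (x k (LF_inc B j u))) := by
    intro k
    by_contra hcon
    push Not at hcon
    apply h0 k
    apply LinearMap.ext
    intro w
    have h2 : ∀ j, x k (y k (LF_inc B j (LF_col B j w))) = y k (x k (LF_inc B j (LF_col B j w))) := by
      intro j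
      rw [← LF_sum B (x k (y k (LF_inc B j (LF_col B j w)))),
        ← LF_sum B (y k (x k (LF_inc B j (LF_col B j w))))]
      exact Finset.sum_congr rfl (fun j' _ => by rw [hcon j j'])
    rw [← LF_sum B w]
    show x k (y k _) = y k (x k _)
    rw [map_sum, map_sum, map_sum, map_sum]
    exact Finset.sum_congr rfl (fun j _ => h2 j)
  choose j j' u hu using hj
  have hp : Nonempty (Fin m × Fin e) := ⟨(⟨0, hm⟩, ⟨0, he⟩)⟩
  have hb := chain_bound (V := Fin m × Fin e → ℂ) (ι := Fin p) (fun k => LF_op (X k))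
    (fun k => LF_col B (j' k) ∘ₗ y k ∘ₗ LF_inc B (j k)) ?_ ?_
  · rw [Fintype.card_fin, Module.finrank_fintype_fun_eq_card, Fintype.card_prod, Fintype.card_fin,
      Fintype.card_fin] at hb
    exact hb
  · intro k h
    apply hu k
    have h2 := LinearMap.congr_fun h (u k)
    simp only [LinearMap.comp_apply] at h2
    rw [← LF_col_mul B (j' k) (hX k), ← LF_inc_mul B (j k) (hX k)] at h2
    exact h2
  · intro l k hlk
    apply LinearMap.ext
    intro v
    simp only [LinearMap.comp_apply]
    rw [← LF_col_mul B (j' k) (hX l), ← LF_inc_mul B (j k) (hX l)]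
    have h2 := LinearMap.congr_fun (h1 l k hlk) (LF_inc B (j k) v)
    exact congrArg (LF_col B (j' k)) h2
/- END LF -/

/- MODULE LG -/
/-- **LG (a).** A noncommutative algebra has blocks of size at least two.

PROOF. If `e ≤ 1` the matrices `X b` (1 by 1 or empty) commute, so `φ ((x * y) w) = φ ((y * x) w)`. -/
theorem Blk.two_le (B : Blk A m e f) {x y : Module.End ℂ W} (hx : x ∈ A) (hy : y ∈ A)
    (hxy : x * y ≠ y * x) : 2 ≤ e := by
  by_contra hcon
  have hs : ∀ i j : Fin e, i = j := fun i j => by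
    apply Fin.ext
    have := i.isLt
    have := j.isLt
    omega
  obtain ⟨X, hX⟩ := (B.mem _).1 hx
  obtain ⟨Y, hY⟩ := (B.mem _).1 hy
  apply hxy
  apply LinearMap.ext
  intro w
  apply B.φ.injective
  funext b
  show B.φ (x (y w)) b = B.φ (y (x w)) b
  rw [hX, hY, hY, hX, ← Matrix.mul_assoc, ← Matrix.mul_assoc]
  have h1 : X b * Y b = Y b * X b := by
    ext i k
    rw [Matrix.mul_apply, Matrix.mul_apply]
    refine Finset.sum_congr rfl (fun l _ => ?_)
    rw [hs l i, hs k i, mul_comm]
  rw [h1]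

/-- the inclusion of the row `(b, 0)` -/
private def LG_row (B : Blk A m e f) (p : Fin m × Fin e) : (Fin f → ℂ) →ₗ[ℂ] W :=
  B.φ.symm.toLinearMap ∘ₗ
    ({ toFun := fun v b => Matrix.of (fun i j => if (b, i) = p then v j else 0)
       map_add' := fun x y => by
        funext b; ext i j'
        simp only [Matrix.of_apply, Pi.add_apply, Matrix.add_apply]
        split_ifs <;> simp
       map_smul' := fun c x => by
        funext b; ext i j'
        simp only [Matrix.of_apply, Pi.smul_apply, Matrix.smul_apply, RingHom.id_apply]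
        split_ifs <;> simp } :
    (Fin f → ℂ) →ₗ[ℂ] (Fin m → Matrix (Fin e) (Fin f) ℂ))

private theorem LG_row_apply (B : Blk A m e f) (p : Fin m × Fin e) (v : Fin f → ℂ)
    (b : Fin m) (i : Fin e) (j : Fin f) :
    B.φ (LG_row B p v) b i j = if (b, i) = p then v j else 0 := by
  unfold LG_row
  rw [LinearMap.comp_apply, LinearEquiv.coe_coe, LinearEquiv.apply_symm_apply]
  rfl

/-- the matrix unit of the block `b` -/
private def LG_u (B : Blk A m e f) (b : Fin m) (i k : Fin e) : Module.End ℂ W :=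
  LF_mk B (fun c => if c = b then Matrix.single i k 1 else 0)

private theorem LG_u_apply (B : Blk A m e f) (b : Fin m) (i k : Fin e) (w : W)
    (c : Fin m) (l : Fin e) (j : Fin f) :
    B.φ (LG_u B b i k w) c l j = if (c, l) = (b, i) then B.φ w b k j else 0 := by
  unfold LG_u
  rw [LF_mk_apply]
  by_cases hc : c = b
  · subst hc
    rw [if_pos rfl]
    by_cases hl : l = i
    · subst hl
      rw [if_pos rfl, Matrix.single_mul_apply_same, one_mul]
    · rw [if_neg (fun h => hl (Prod.ext_iff.mp h).2), Matrix.single_mul_apply_of_ne]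
      exact hl
  · rw [if_neg hc, if_neg (fun h => hc (Prod.ext_iff.mp h).1), Matrix.zero_mul]
    rfl

private theorem LG_u_row (B : Blk A m e f) (b : Fin m) (i k : Fin e) (w : W) :
    LG_u B b i k w = LG_row B (b, i) (fun j => B.φ w b k j) := by
  apply LF_ext B
  intro c l j
  rw [LG_u_apply, LG_row_apply]

private theorem LG_row_inj (B : Blk A m e f) (p : Fin m × Fin e) :
    Function.Injective (LG_row B p) := by
  intro v w h
  funext j
  have h1 := congrArg (fun x => B.φ x p.1 p.2 j) h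
  simp only [LG_row_apply, if_true] at h1
  exact h1

/-- **LG (b).** The multiplicity space.

PROOF. `u ∈ A` with `X 0 = Matrix.single 0 0 1`, `X b = 0` for `b ≠ 0`; `M = range u =
{w | φ w b i j = 0 unless b = 0 ∧ i = 0}`, of dimension `f` (`(Fin f → ℂ) ≃ₗ M`).  An operator which
commutes with `u` maps `range u` into itself. -/
theorem Blk.exists_mult (B : Blk A m e f) (hm : 0 < m) (he : 0 < e) :
    ∃ M : Submodule ℂ W, finrank ℂ M = f ∧
      ∀ T : Module.End ℂ W, (∀ x ∈ A, T * x = x * T) → ∀ v ∈ M, T v ∈ M := by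
  refine ⟨LinearMap.range (LG_row B (⟨0, hm⟩, ⟨0, he⟩)), ?_, ?_⟩
  · rw [LinearMap.finrank_range_of_inj (LG_row_inj B _), Module.finrank_fintype_fun_eq_card,
      Fintype.card_fin]
  · rintro T hT _ ⟨v, rfl⟩
    have h1 : LG_u B ⟨0, hm⟩ ⟨0, he⟩ ⟨0, he⟩ (LG_row B (⟨0, hm⟩, ⟨0, he⟩) v)
        = LG_row B (⟨0, hm⟩, ⟨0, he⟩) v := by
      rw [LG_u_row]
      refine congrArg _ (funext (fun j => ?_))
      rw [LG_row_apply, if_pos rfl]
    have h2 := LinearMap.congr_fun (hT (LG_u B ⟨0, hm⟩ ⟨0, he⟩ ⟨0, he⟩) (LF_mk_mem B _))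
      (LG_row B (⟨0, hm⟩, ⟨0, he⟩) v)
    rw [Module.End.mul_apply, Module.End.mul_apply, h1, LG_u_row] at h2
    rw [h2]
    exact LinearMap.mem_range_self _ _

/-- **LG (c).** If one block is everything the algebra is the full endomorphism algebra.

PROOF. `φ : W ≃ (Fin 1 → Matrix (Fin e) (Fin 1) ℂ)`; every endomorphism of `Matrix (Fin e) (Fin 1) ℂ`
(columns) is left multiplication by a matrix (`LinearMap.toMatrix'`). -/
theorem Blk.top (B : Blk A 1 e 1) : A = ⊤ := by
  rw [eq_top_iff]
  intro T _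
  rw [B.mem]
  refine ⟨fun _ => Matrix.of
    (fun i k => B.φ (T (LF_inc B 0 (fun p => if (0, k) = p then 1 else 0))) 0 i 0), ?_⟩
  intro w b
  ext i j
  have hj : j = 0 := Subsingleton.elim _ _
  have hb : b = 0 := Subsingleton.elim _ _
  subst hj hb
  rw [Matrix.mul_apply]
  have h1 : w = LF_inc B 0 (LF_col B 0 w) := by
    have := LF_sum B w
    rw [Fin.sum_univ_one] at this
    exact this.symm
  have h2 := LinearMap.pi_apply_eq_sum_univ (LF_col B 0 ∘ₗ T ∘ₗ LF_inc B 0) (LF_col B 0 w)
  rw [LinearMap.comp_apply, LinearMap.comp_apply, ← h1] at h2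
  have h3 := congrFun h2 (0, i)
  rw [LF_col_apply, Finset.sum_apply, Fintype.sum_prod_type, Fin.sum_univ_one] at h3
  rw [h3]
  refine Finset.sum_congr rfl (fun k _ => ?_)
  rw [Pi.smul_apply, smul_eq_mul, mul_comm]
  rfl
/- END LG -/

/-- the automorphism `g` maps the block `b` into the block `b'` -/
def Blk.Mv (B : Blk A m e f) (g : W ≃ₗ[ℂ] W) (b b' : Fin m) : Prop :=
  ∀ w, (∀ c, c ≠ b → B.φ w c = 0) → ∀ c, c ≠ b' → B.φ (g w) c = 0

/-- a set of automorphisms is transitive on the blocks -/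
def Blk.Tr (B : Blk A m e f) (H : Set (W ≃ₗ[ℂ] W)) : Prop :=
  ∀ S : Set (Fin m), S.Nonempty → (∀ g ∈ H, ∀ b ∈ S, ∀ b', B.Mv g b b' → b' ∈ S) → S = Set.univ

/- MODULE LH -/
/-- blocks of constant size -/
private def LH_V (B : Blk A m e f) : BlkV A m (fun _ => e) (fun _ => f) := ⟨B.φ, B.mem⟩

/-- **LH (a).** Automorphisms which normalise the algebra permute the blocks (`BlkV.perm`). -/
theorem Blk.perm (B : Blk A m e f) (he : 0 < e) (hf : 0 < f) {g : W ≃ₗ[ℂ] W} (hg : Nrm A g) :
    ∃ σ : Equiv.Perm (Fin m), ∀ b, B.Mv g b (σ b) := by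
  obtain ⟨σ, hσ⟩ := (LH_V B).perm (fun _ => he) (fun _ => hf) hg
  exact ⟨σ, fun b => (hσ b).1⟩

/-- **LH (b).** Elements of the algebra and elements of its commutant preserve the blocks.

PROOF. The projection `z b ∈ A` to the block `b` is central in `A`, so it commutes with `g` in both
cases; `w ≠ 0` in the block `b` (it exists, `e, f > 0`): `g w = g (z b w) = z b (g w)` is in the block
`b`, and in the block `b'`, and not `0`: `b = b'`. -/
theorem Blk.fix (B : Blk A m e f) (he : 0 < e) (hf : 0 < f) {g : W ≃ₗ[ℂ] W}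
    (hg : g.toLinearMap ∈ A ∨ ∀ x ∈ A, g.toLinearMap ∘ₗ x = x ∘ₗ g.toLinearMap) {b b' : Fin m}
    (h : B.Mv g b b') : b' = b := by
  obtain ⟨w, hw, hw'⟩ := LE_vec (LH_V B) (fun _ => he) (fun _ => hf) b
  have hz : LD_z (LH_V B) b w = w := LD_z_eq (LH_V B) b w hw'
  have h1 : LD_z (LH_V B) b (g w) = g w := by
    rcases hg with hg | hg
    · have h2 := LD_z_com (LH_V B) b hg w
      rw [hz] at h2
      exact h2
    · have h2 := congrArg (fun T => T w) (hg _ (LD_op_mem (LH_V B) b 1))
      have h3 : g (LD_z (LH_V B) b w) = LD_z (LH_V B) b (g w) := h2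
      rw [← h3, hz]
  by_contra hb
  apply hw
  have h4 : g w = 0 := by
    apply B.φ.injective
    rw [map_zero]
    funext c
    by_cases hc : c = b'
    · subst hc
      have h5 := LD_z_ne (LH_V B) b (g w) (c := c) hb
      rw [h1] at h5
      exact h5
    · exact h w hw' c hc
  have h6 : w = 0 := by
    apply g.injective
    rw [h4, map_zero]
  rw [h6, map_zero]
  rfl

/-- **LH (c).** Transitivity from irreducibility.

PROOF. For `J : Set (Fin m)` nonempty and invariant: `U = {w | ∀ c ∉ J, φ w c = 0}` is invariant under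
all `g ∈ S` (write `w` as a sum of elements of blocks `b ∈ J`; `g` maps the block `b` into the block `σ b`
by `Blk.perm`, `σ b ∈ J`), nonzero, so `⊤`; so `J` is everything. -/
theorem Blk.tr_of_irr (B : Blk A m e f) (he : 0 < e) (hf : 0 < f) (S : Set (W ≃ₗ[ℂ] W))
    (hN : ∀ g ∈ S, Nrm A g)
    (hirr : ∀ U : Submodule ℂ W, (∀ g ∈ S, ∀ x ∈ U, g x ∈ U) → U = ⊥ ∨ U = ⊤) : B.Tr S := by
  intro J hJ hinv
  refine LE_top (LH_V B) (fun _ => he) (fun _ => hf) J ?_
  rcases hirr (LE_sub (LH_V B) J) (fun g hg x hx => by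
    obtain ⟨σ, hσ⟩ := B.perm he hf (hN g hg)
    exact LE_inv (LH_V B) J (fun b hb => ⟨σ b, hinv g hg b hb _ (hσ b), hσ b⟩) x hx) with h | h
  · exact absurd h (LE_ne (LH_V B) (fun _ => he) (fun _ => hf) J hJ)
  · exact h
/- END LH -/

/- MODULE LI -/
/-- the column `j` of the block `b₀` -/
private def LI_col (B : Blk A m e f) (b₀ : Fin m) (j : Fin f) : W →ₗ[ℂ] (Fin e → ℂ) :=
  ({ toFun := fun x i => x b₀ i j
     map_add' := fun x y => by funext p; rfl
     map_smul' := fun c x => by funext p; rfl } :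
    (Fin m → Matrix (Fin e) (Fin f) ℂ) →ₗ[ℂ] (Fin e → ℂ)) ∘ₗ B.φ.toLinearMap

private theorem LI_col_apply (B : Blk A m e f) (b₀ : Fin m) (j : Fin f) (w : W) (i : Fin e) :
    LI_col B b₀ j w i = B.φ w b₀ i j := rfl

/-- the inclusion of the column `j` of the block `b₀` -/
private def LI_inc (B : Blk A m e f) (b₀ : Fin m) (j : Fin f) : (Fin e → ℂ) →ₗ[ℂ] W :=
  B.φ.symm.toLinearMap ∘ₗ
    ({ toFun := fun u b => Matrix.of (fun i j' => if b = b₀ ∧ j' = j then u i else 0)
       map_add' := fun x y => by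
        funext b; ext i j'
        simp only [Matrix.of_apply, Pi.add_apply, Matrix.add_apply]
        split_ifs <;> simp
       map_smul' := fun c x => by
        funext b; ext i j'
        simp only [Matrix.of_apply, Pi.smul_apply, Matrix.smul_apply, RingHom.id_apply]
        split_ifs <;> simp } :
    (Fin e → ℂ) →ₗ[ℂ] (Fin m → Matrix (Fin e) (Fin f) ℂ))

private theorem LI_inc_apply (B : Blk A m e f) (b₀ : Fin m) (j : Fin f) (u : Fin e → ℂ)
    (b : Fin m) (i : Fin e) (j' : Fin f) :
    B.φ (LI_inc B b₀ j u) b i j' = if b = b₀ ∧ j' = j then u i else 0 := by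
  unfold LI_inc
  rw [LinearMap.comp_apply, LinearEquiv.coe_coe, LinearEquiv.apply_symm_apply]
  rfl

/-- a vector of the block `b₀` is the sum of its columns -/
private theorem LI_sum (B : Blk A m e f) (b₀ : Fin m) (w : W) (hw : ∀ c, c ≠ b₀ → B.φ w c = 0) :
    ∑ j, LI_inc B b₀ j (LI_col B b₀ j w) = w := by
  apply LF_ext B
  intro b i j
  rw [map_sum, Finset.sum_apply, Matrix.sum_apply]
  simp only [LI_inc_apply, LI_col_apply]
  by_cases hb : b = b₀
  · subst hb
    simp only [true_and]
    rw [Finset.sum_ite_eq]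
    simp
  · rw [hw b hb]
    simp [hb]

/-- the matrix as an operator on one column -/
private def LI_op (X : Matrix (Fin e) (Fin e) ℂ) : (Fin e → ℂ) →ₗ[ℂ] (Fin e → ℂ) :=
  { toFun := fun u i => ∑ k, X i k * u k
    map_add' := fun x y => by
      funext p
      simp only [Pi.add_apply, mul_add, Finset.sum_add_distrib]
    map_smul' := fun c x => by
      funext p
      simp only [Pi.smul_apply, smul_eq_mul, RingHom.id_apply, Finset.mul_sum]
      exact Finset.sum_congr rfl (fun k _ => by ring) }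

private theorem LI_col_mul (B : Blk A m e f) (b₀ : Fin m) (j : Fin f) {x : W ≃ₗ[ℂ] W}
    {X : Fin m → Matrix (Fin e) (Fin e) ℂ} (hX : ∀ w b, B.φ (x w) b = X b * B.φ w b) (w : W) :
    LI_col B b₀ j (x w) = LI_op (X b₀) (LI_col B b₀ j w) := by
  funext p
  rw [LI_col_apply, hX, Matrix.mul_apply]
  rfl

private theorem LI_inc_mul (B : Blk A m e f) (b₀ : Fin m) (j : Fin f) {x : W ≃ₗ[ℂ] W}
    {X : Fin m → Matrix (Fin e) (Fin e) ℂ} (hX : ∀ w b, B.φ (x w) b = X b * B.φ w b)
    (u : Fin e → ℂ) : x (LI_inc B b₀ j u) = LI_inc B b₀ j (LI_op (X b₀) u) := by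
  apply LF_ext B
  intro b i j'
  rw [hX, Matrix.mul_apply, LI_inc_apply]
  simp only [LI_inc_apply]
  by_cases hb : b = b₀
  · subst hb
    by_cases hj : j' = j
    · simp only [hj, and_self, if_true]
      rfl
    · simp [hj]
  · simp [hb]

/-- the component in the block `b` -/
private def LI_cmp (B : Blk A m e f) (b : Fin m) (w : W) : W :=
  B.φ.symm (fun c => if c = b then B.φ w c else 0)

private theorem LI_cmp_apply (B : Blk A m e f) (b : Fin m) (w : W) (c : Fin m) :
    B.φ (LI_cmp B b w) c = if c = b then B.φ w c else 0 := by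
  unfold LI_cmp
  rw [LinearEquiv.apply_symm_apply]

private theorem LI_cmp_sum (B : Blk A m e f) (w : W) : ∑ b, LI_cmp B b w = w := by
  apply B.φ.injective
  funext c
  rw [map_sum, Finset.sum_apply]
  simp only [LI_cmp_apply]
  rw [Finset.sum_ite_eq]
  simp

/-- the allowed automorphisms -/
private def LI_P (A : Subalgebra ℂ (Module.End ℂ W)) (x : Fin p → (W ≃ₗ[ℂ] W)) (z : W ≃ₗ[ℂ] W) :
    Prop := Nrm A z ∧ ∀ k, Commute (x k) z

private theorem LI_nrm_mul {g z : W ≃ₗ[ℂ] W} (hg : Nrm A g) (hz : Nrm A z) : Nrm A (g * z) := by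
  intro T hT
  exact ⟨(hg _ (hz T hT).1).1, (hz _ (hg T hT).2).2⟩

private theorem LI_nrm_one : Nrm A (1 : W ≃ₗ[ℂ] W) := fun _ hT => ⟨hT, hT⟩

private theorem LI_reach (B : Blk A m e f) (H : Set (W ≃ₗ[ℂ] W)) (hH : ∀ g ∈ H, Nrm A g)
    (hT : B.Tr H) (x : Fin p → (W ≃ₗ[ℂ] W)) (h2 : ∀ k, ∀ g ∈ H, Commute (x k) g)
    (b b' : Fin m) : ∃ z, LI_P A x z ∧ B.Mv z b b' := by
  have h := hT {c | ∃ z, LI_P A x z ∧ B.Mv z b c} ?_ ?_
  · have h3 : b' ∈ {c | ∃ z, LI_P A x z ∧ B.Mv z b c} := by
      rw [h]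
      exact Set.mem_univ b'
    exact h3
  · exact ⟨b, 1, ⟨LI_nrm_one, fun k => Commute.one_right _⟩, fun w hw => hw⟩
  · rintro g hg c ⟨z, ⟨hz1, hz2⟩, hz3⟩ c' hc'
    exact ⟨g * z, ⟨LI_nrm_mul (hH g hg) hz1, fun k => (h2 k g hg).mul_right (hz2 k)⟩,
      fun w hw => hc' _ (hz3 w hw)⟩

/-- an automorphism which maps the block `c` to the block `b₀` does not kill in `b₀` a vector with a
nonzero component in `c` -/
private theorem LI_hit (B : Blk A m e f) (he : 0 < e) (hf : 0 < f) {z : W ≃ₗ[ℂ] W} (hz : Nrm A z)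
    {c b₀ : Fin m} (hzc : B.Mv z c b₀) (v : W) (hv : B.φ v c ≠ 0) : B.φ (z v) b₀ ≠ 0 := by
  obtain ⟨σ, hσ⟩ := B.perm he hf hz
  have hcv : LI_cmp B c v ≠ 0 := by
    intro h
    apply hv
    have h3 := LI_cmp_apply B c v c
    rw [h, map_zero, if_pos rfl] at h3
    exact h3.symm
  have hblk : ∀ d, ∀ d', d' ≠ d → B.φ (LI_cmp B d v) d' = 0 := by
    intro d d' hd
    rw [LI_cmp_apply, if_neg hd]
  have hzne : z (LI_cmp B c v) ≠ 0 := by
    intro h
    exact hcv (z.map_eq_zero_iff.mp h)
  have h4 : B.φ (z (LI_cmp B c v)) b₀ ≠ 0 := by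
    intro h
    apply hzne
    apply B.φ.injective
    rw [map_zero]
    funext d
    by_cases hd : d = b₀
    · rw [hd, h]; rfl
    · exact hzc _ (hblk c) d hd
  have hσc : σ c = b₀ := by
    by_contra hne
    exact h4 (hσ c _ (hblk c) b₀ (Ne.symm hne))
  have h5 : B.φ (z v) b₀ = B.φ (z (LI_cmp B c v)) b₀ := by
    conv_lhs => rw [← LI_cmp_sum B v]
    rw [map_sum, map_sum, Finset.sum_apply]
    refine Finset.sum_eq_single c (fun d _ hd => ?_) (fun h => absurd (Finset.mem_univ _) h)
    refine hσ d _ (hblk d) b₀ ?_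
    rw [← hσc]
    intro h
    exact hd (σ.injective h).symm
  rw [h5]
  exact h4

/-- **LI.** Chains of centralisers in one block.

PROOF. Fix the block `b₀ = 0`.  (1) For all blocks `b, b'` there is a product `z` of elements of `H` (or
`1`) with `Mv z b b'`: the set of all `b'` reachable from `b` is invariant (`Mv` for `z` and for `g` gives
`Mv` for `g * z`); `Tr`.  Such `z` commute with all `x k` (`h2`).
(2) For each `k` there is a block `b` and `w` in the block `b` with `x k (y k w) ≠ y k (x k w)` (every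
vector is a sum of vectors in blocks).  Let `σ` be the permutation of `y k` (`Blk.perm`), choose `z₂` with
`Mv z₂ b₀ b` and `z₁` with `Mv z₁ (σ b) b₀`.  `y' = z₁ * y k * z₂` maps the block `b₀` into itself.
`z₂` maps the block `b₀` ONTO the block `b` (injective, same dimension `e * f`; or: `z₂` is in the
group generated by `H`, `Nrm A z₂`, `Blk.perm` and counting dimensions), so there is `w₀` in the block
`b₀` with `z₂ w₀ = w`, and `x k (y' w₀) = z₁ (x k (y k w)) ≠ z₁ (y k (x k w)) = y' (x k w₀)`.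
For `l < k` `x l` commutes with `y'`.
(3) Put `X k = ` the matrix of `x k` in the block `b₀`; `y'` restricted to the block `b₀`
(`Matrix (Fin e) (Fin f) ℂ`); columns as in `Blk.chain` (module LF) with `W₀ = Fin e → ℂ`:
`chain_bound` gives `p + 2 ≤ 2 * e`. -/
theorem Blk.chain_one (B : Blk A m e f) (hm : 0 < m) (he : 0 < e) (hf : 0 < f)
    (H : Set (W ≃ₗ[ℂ] W)) (hH : ∀ g ∈ H, Nrm A g) (hT : B.Tr H) (x y : Fin p → (W ≃ₗ[ℂ] W))
    (hx : ∀ k, (x k).toLinearMap ∈ A) (hy : ∀ k, Nrm A (y k))
    (h0 : ∀ k, ¬ Commute (x k) (y k)) (h1 : ∀ l k, l < k → Commute (x l) (y k))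
    (h2 : ∀ k, ∀ g ∈ H, Commute (x k) g) : p + 2 ≤ 2 * e := by
  have hX : ∀ k, ∃ X : Fin m → Matrix (Fin e) (Fin e) ℂ, ∀ w b, B.φ (x k w) b = X b * B.φ w b :=
    fun k => (B.mem _).1 (hx k)
  choose X hX using hX
  set b₀ : Fin m := ⟨0, hm⟩ with hb₀
  have hcom : ∀ {g h : W ≃ₗ[ℂ] W}, Commute g h → ∀ w, g (h w) = h (g w) := by
    intro g h hgh w
    exact LinearEquiv.congr_fun hgh w
  have hcoms : ∀ {g h : W ≃ₗ[ℂ] W}, Commute g h → ∀ w, g (h.symm w) = h.symm (g w) := by
    intro g h hgh w
    apply h.injective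
    rw [← hcom hgh, LinearEquiv.apply_symm_apply, LinearEquiv.apply_symm_apply]
  have key : ∀ k, ∃ z₁ z₂ : W ≃ₗ[ℂ] W, LI_P A x z₁ ∧ LI_P A x z₂ ∧ ∃ j j' : Fin f, ∃ u,
      LI_col B b₀ j' (z₁ (x k (y k (z₂.symm (LI_inc B b₀ j u)))
        - y k (x k (z₂.symm (LI_inc B b₀ j u))))) ≠ 0 := by
    intro k
    have hw : ∃ w, x k (y k w) - y k (x k w) ≠ 0 := by
      by_contra hcon
      push Not at hcon
      apply h0 k
      apply LinearEquiv.ext
      intro w
      exact sub_eq_zero.mp (hcon w)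
    obtain ⟨w, hw⟩ := hw
    have hb : ∃ b, x k (y k (LI_cmp B b w)) - y k (x k (LI_cmp B b w)) ≠ 0 := by
      by_contra hcon
      push Not at hcon
      apply hw
      rw [← LI_cmp_sum B w, map_sum, map_sum, map_sum, map_sum, ← Finset.sum_sub_distrib]
      exact Finset.sum_eq_zero (fun b _ => hcon b)
    obtain ⟨b, hb⟩ := hb
    obtain ⟨z₂, hz₂, hm₂⟩ := LI_reach B H hH hT x h2 b b₀
    have hw₀ := hm₂ (LI_cmp B b w) (fun c hc => by rw [LI_cmp_apply, if_neg hc])
    have hj : ∃ j, x k (y k (z₂.symm (LI_inc B b₀ j (LI_col B b₀ j (z₂ (LI_cmp B b w))))))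
        - y k (x k (z₂.symm (LI_inc B b₀ j (LI_col B b₀ j (z₂ (LI_cmp B b w)))))) ≠ 0 := by
      by_contra hcon
      push Not at hcon
      apply hb
      rw [← LinearEquiv.symm_apply_apply z₂ (LI_cmp B b w), ← LI_sum B b₀ _ hw₀, map_sum, map_sum,
        map_sum, map_sum, map_sum, ← Finset.sum_sub_distrib]
      exact Finset.sum_eq_zero (fun j _ => hcon j)
    obtain ⟨j, hj⟩ := hj
    set v := x k (y k (z₂.symm (LI_inc B b₀ j (LI_col B b₀ j (z₂ (LI_cmp B b w))))))
        - y k (x k (z₂.symm (LI_inc B b₀ j (LI_col B b₀ j (z₂ (LI_cmp B b w)))))) with hv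
    have hc : ∃ c, B.φ v c ≠ 0 := by
      by_contra hcon
      push Not at hcon
      apply hj
      apply B.φ.injective
      rw [map_zero]
      funext c
      exact hcon c
    obtain ⟨c, hc⟩ := hc
    obtain ⟨z₁, hz₁, hm₁⟩ := LI_reach B H hH hT x h2 c b₀
    have h3 := LI_hit B he hf hz₁.1 hm₁ v hc
    have hj' : ∃ j', LI_col B b₀ j' (z₁ v) ≠ 0 := by
      by_contra hcon
      push Not at hcon
      apply h3
      ext i j'
      exact congrFun (hcon j') i
    obtain ⟨j', hj'⟩ := hj'
    exact ⟨z₁, z₂, hz₁, hz₂, j, j', _, hj'⟩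
  choose z₁ z₂ hz₁ hz₂ j j' u hu using key
  have hp : Nonempty (Fin e) := ⟨⟨0, he⟩⟩
  have hb := chain_bound (V := Fin e → ℂ) (ι := Fin p) (fun k => LI_op (X k b₀))
    (fun k => LI_col B b₀ (j' k) ∘ₗ (z₁ k).toLinearMap ∘ₗ (y k).toLinearMap ∘ₗ
      (z₂ k).symm.toLinearMap ∘ₗ LI_inc B b₀ (j k)) ?_ ?_
  · rw [Fintype.card_fin, Module.finrank_fintype_fun_eq_card, Fintype.card_fin] at hb
    exact hb
  · intro k h
    apply hu k
    have h3 := LinearMap.congr_fun h (u k)
    simp only [LinearMap.comp_apply, LinearEquiv.coe_coe] at h3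
    rw [← LI_col_mul B b₀ (j' k) (hX k), ← LI_inc_mul B b₀ (j k) (hX k), hcom ((hz₁ k).2 k),
      ← hcoms ((hz₂ k).2 k)] at h3
    rw [map_sub, map_sub, h3, sub_self]
  · intro l k hlk
    apply LinearMap.ext
    intro v
    simp only [LinearMap.comp_apply, LinearEquiv.coe_coe]
    rw [← LI_col_mul B b₀ (j' k) (hX l), ← LI_inc_mul B b₀ (j k) (hX l), hcom ((hz₁ k).2 l),
      hcom (h1 l k hlk), hcoms ((hz₂ k).2 l)]
/- END LI -/

/- MODULE LJ -/
/-- the points reachable from `b₀` -/
private def LJ_reach {ι : Type*} (π : ι → Equiv.Perm (Fin m)) (T : Finset ι) (b₀ : Fin m) :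
    Set (Fin m) := {b | Relation.ReflTransGen (fun c c' => ∃ g ∈ T, c' = π g c) b₀ b}

private theorem LJ_step {ι : Type*} (π : ι → Equiv.Perm (Fin m))
    (htr : ∀ S : Set (Fin m), S.Nonempty → (∀ g, ∀ b ∈ S, π g b ∈ S) → S = Set.univ)
    (b₀ : Fin m) (k : ℕ) (hk : k < m) : ∃ T : Finset ι, T.card ≤ k ∧
      ∃ K : Finset (Fin m), k + 1 ≤ K.card ∧ ∀ b ∈ K, b ∈ LJ_reach π T b₀ := by
  classical
  induction k with
  | zero =>
    refine ⟨∅, by simp, {b₀}, by simp, fun b hb => ?_⟩
    rw [Finset.mem_singleton] at hb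
    subst hb
    exact Relation.ReflTransGen.refl
  | succ k ih =>
    obtain ⟨T, hT, K, hK, hKr⟩ := ih (by omega)
    by_cases hinv : ∀ g, ∀ b ∈ (K : Set (Fin m)), π g b ∈ (K : Set (Fin m))
    · have hne : (K : Set (Fin m)).Nonempty := by
        have : 0 < K.card := by omega
        exact Finset.coe_nonempty.mpr (Finset.card_pos.mp this)
      have h1 := htr K hne hinv
      have h2 : K = Finset.univ := by
        rw [← Finset.coe_inj, h1, Finset.coe_univ]
      refine ⟨T, by omega, K, ?_, hKr⟩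
      rw [h2, Finset.card_univ, Fintype.card_fin]
      omega
    · push Not at hinv
      obtain ⟨g, b, hb, hgb⟩ := hinv
      have hgb' : π g b ∉ K := fun h => hgb (Finset.mem_coe.mpr h)
      refine ⟨insert g T, (Finset.card_insert_le g T).trans (by omega), insert (π g b) K, ?_, ?_⟩
      · rw [Finset.card_insert_of_notMem hgb']
        omega
      · have hmono : ∀ c, c ∈ LJ_reach π T b₀ → c ∈ LJ_reach π (insert g T) b₀ := by
          intro c hc
          refine Relation.ReflTransGen.mono (r := fun c c' => ∃ g ∈ T, c' = π g c) ?_ b₀ c hc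
          rintro x y ⟨g', hg', h⟩
          exact ⟨g', Finset.mem_insert_of_mem hg', h⟩
        intro c hc
        rw [Finset.mem_insert] at hc
        rcases hc with rfl | hc
        · exact Relation.ReflTransGen.tail (hmono b (hKr b (Finset.mem_coe.mp hb)))
            ⟨g, Finset.mem_insert_self g T, rfl⟩
        · exact hmono c (hKr c hc)

private theorem LJ_closed (σ : Equiv.Perm (Fin m)) (S : Set (Fin m)) (h : ∀ b ∈ S, σ b ∈ S)
    (b : Fin m) (hb : σ b ∈ S) : b ∈ S := by
  have h1 : σ '' S ⊆ S := by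
    rintro _ ⟨c, hc, rfl⟩
    exact h c hc
  have h2 : σ '' S = S := by
    apply Set.eq_of_subset_of_ncard_le h1
    rw [Set.ncard_image_of_injective S σ.injective]
  rw [← h2] at hb
  obtain ⟨c, hc, hcb⟩ := hb
  rwa [σ.injective hcb] at hc

/-- **LJ.** At most `m - 1` of a transitive family of permutations of `m` points are transitive.

PROOF. For a finite set `T` of indices let `o T` be the number of orbits of the subgroup generated by
the `π g`, `g ∈ T` (or: the classes of the equivalence relation generated by `b ~ π g b`, `g ∈ T`).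
`o ∅ = m`.  If `o T > 1`: let `S` be one class; if all `π g` mapped all classes into themselves, `S`
would contradict `htr` (`S ≠ univ`); so some `π g`, `g ∉ T`, maps some `b` into another class, and
`o (insert g T) ≤ o T - 1`.  So starting from `∅` after at most `m - 1` steps `o T ≤ 1`.
Then `T` is as required: an invariant nonempty `S` is a union of classes (a permutation of a finite set
which maps `S` into itself maps it onto itself, so the complement too), so everything.
(Case `m = 0`: there is no nonempty `S`.)  A slick way: prove by induction on `k < m`: there are `T` with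
`card T ≤ k` and a set of at least `k + 1` points all in one class. Take `b₀`; the class `K` of `b₀` for
`T`; if `K ≠ univ` there are `b ∈ K` and `g` with `π g b ∉ K` (otherwise `K` is invariant); add `g`. -/
theorem exists_gens {ι : Type*} (π : ι → Equiv.Perm (Fin m))
    (htr : ∀ S : Set (Fin m), S.Nonempty → (∀ g, ∀ b ∈ S, π g b ∈ S) → S = Set.univ) :
    ∃ T : Finset ι, T.card ≤ m - 1 ∧
      ∀ S : Set (Fin m), S.Nonempty → (∀ g ∈ T, ∀ b ∈ S, π g b ∈ S) → S = Set.univ := by
  rcases Nat.eq_zero_or_pos m with hm | hm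
  · subst hm
    exact ⟨∅, by simp, fun S hS _ => by obtain ⟨x, _⟩ := hS; exact x.elim0⟩
  · obtain ⟨T, hT, K, hK, hKr⟩ := LJ_step π htr ⟨0, hm⟩ (m - 1) (by omega)
    have hKu : K = Finset.univ := by
      rw [← Finset.card_eq_iff_eq_univ, Fintype.card_fin]
      have h1 := Finset.card_le_univ K
      rw [Fintype.card_fin] at h1
      omega
    have hreach : ∀ S : Set (Fin m), (⟨0, hm⟩ : Fin m) ∈ S → (∀ g ∈ T, ∀ b ∈ S, π g b ∈ S) →
        S = Set.univ := by
      intro S h0 hS
      rw [Set.eq_univ_iff_forall]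
      intro b
      have h1 : b ∈ LJ_reach π T ⟨0, hm⟩ := hKr b (by rw [hKu]; exact Finset.mem_univ b)
      induction h1 with
      | refl => exact h0
      | tail _ h2 h3 =>
        obtain ⟨g, hg, rfl⟩ := h2
        exact hS g hg _ h3
    refine ⟨T, hT, fun S hne hS => ?_⟩
    by_cases h0 : (⟨0, hm⟩ : Fin m) ∈ S
    · exact hreach S h0 hS
    · exfalso
      have h1 := hreach Sᶜ h0 (fun g hg b hb h2 => hb (LJ_closed (π g) S (hS g hg) b h2))
      obtain ⟨c, hc⟩ := hne
      have h2 : c ∈ Sᶜ := by rw [h1]; exact Set.mem_univ c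
      exact h2 hc
/- END LJ -/

/- MODULE LK -/
/-- the rows of the block `b` of the elements of `M` -/
private def LK_N (B' : Blk A' m' e' f') (he' : 0 < e') (M : Submodule ℂ W) (b : Fin m') :
    Submodule ℂ (Fin f' → ℂ) := M.comap (LG_row B' (b, ⟨0, he'⟩))

private theorem LK_row (B' : Blk A' m' e' f') (he' : 0 < e') (b : Fin m') (i : Fin e')
    (v : Fin f' → ℂ) :
    LG_u B' b i ⟨0, he'⟩ (LG_row B' (b, ⟨0, he'⟩) v) = LG_row B' (b, i) v := by
  rw [LG_u_row]
  refine congrArg _ (funext (fun j => ?_))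
  rw [LG_row_apply, if_pos rfl]

private theorem LK_sum (B' : Blk A' m' e' f') (w : W) :
    ∑ b, ∑ i, LG_row B' (b, i) (fun j => B'.φ w b i j) = w := by
  apply LF_ext B'
  intro b i j
  rw [map_sum, Finset.sum_apply, Matrix.sum_apply, Finset.sum_eq_single b]
  · rw [map_sum, Finset.sum_apply, Matrix.sum_apply, Finset.sum_eq_single i]
    · rw [LG_row_apply, if_pos rfl]
    · intro k _ hk
      rw [LG_row_apply, if_neg]
      intro h
      exact hk (Prod.ext_iff.mp h).2.symm
    · intro h
      exact absurd (Finset.mem_univ _) h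
  · intro c _ hc
    rw [map_sum, Finset.sum_apply, Matrix.sum_apply]
    refine Finset.sum_eq_zero (fun k _ => ?_)
    rw [LG_row_apply, if_neg]
    intro h
    exact hc (Prod.ext_iff.mp h).1.symm
  · intro h
    exact absurd (Finset.mem_univ _) h

private theorem LK_mem (B' : Blk A' m' e' f') (he' : 0 < e') (M : Submodule ℂ W)
    (hM : ∀ y ∈ A', ∀ v ∈ M, y v ∈ M) (w : W) :
    w ∈ M ↔ ∀ b i, (fun j => B'.φ w b i j) ∈ LK_N B' he' M b := by
  constructor
  · intro hw b i
    show LG_row B' (b, ⟨0, he'⟩) _ ∈ M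
    rw [← LG_u_row]
    exact hM _ (LF_mk_mem B' _) w hw
  · intro h
    rw [← LK_sum B' w]
    refine Submodule.sum_mem _ (fun b _ => Submodule.sum_mem _ (fun i _ => ?_))
    rw [← LK_row B' he']
    exact hM _ (LF_mk_mem B' _) _ (h b i)

private theorem LK_finrank (B' : Blk A' m' e' f') (he' : 0 < e') (M : Submodule ℂ W)
    (hM : ∀ y ∈ A', ∀ v ∈ M, y v ∈ M) :
    finrank ℂ M = e' * ∑ b, finrank ℂ (LK_N B' he' M b) := by
  let F : M →ₗ[ℂ] ((b : Fin m') → (Fin e' → LK_N B' he' M b)) :=
    { toFun := fun w b i => ⟨fun j => B'.φ w.1 b i j, (LK_mem B' he' M hM w.1).1 w.2 b i⟩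
      map_add' := fun x y => by
        funext b i
        apply Subtype.ext
        funext j
        show B'.φ (x.1 + y.1) b i j = B'.φ x.1 b i j + B'.φ y.1 b i j
        rw [map_add]
        rfl
      map_smul' := fun c x => by
        funext b i
        apply Subtype.ext
        funext j
        show B'.φ (c • x.1) b i j = c * B'.φ x.1 b i j
        rw [map_smul]
        rfl }
  have hF : Function.Bijective F := by
    constructor
    · intro x y hxy
      apply Subtype.ext
      apply LF_ext B'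
      intro b i j
      have h1 := congrArg (fun z => ((z b i).1 : Fin f' → ℂ) j) hxy
      exact h1
    · intro x
      have hw : B'.φ.symm (fun b => Matrix.of (fun i j => (x b i).1 j)) ∈ M := by
        rw [LK_mem B' he' M hM]
        intro b i
        rw [LinearEquiv.apply_symm_apply]
        exact (x b i).2
      refine ⟨⟨_, hw⟩, ?_⟩
      funext b i
      apply Subtype.ext
      funext j
      show B'.φ (B'.φ.symm (fun b => Matrix.of (fun i j => (x b i).1 j))) b i j = _
      rw [LinearEquiv.apply_symm_apply]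
      rfl
  rw [(LinearEquiv.ofBijective F hF).finrank_eq, Module.finrank_pi_fintype, Finset.mul_sum]
  refine Finset.sum_congr rfl (fun b _ => ?_)
  rw [Module.finrank_pi_fintype, Finset.sum_const, Finset.card_univ, Fintype.card_fin, smul_eq_mul]

/-- **LK.** An algebra with blocks inside the commutant of a simple algebra.

PROOF. Let `M = range u`, `u ∈ A` the idempotent `Matrix.single 0 0 1` (as in `Blk.exists_mult` for `B`),
of dimension `f`, invariant under `A'` (`hc`).  Use the idempotents of `A'`: `z' b` (projection to the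
block `b` of `B'`) and `v' b i = ` matrix unit `(0, i)` etc. of the block `b`: `M = ⊕ b, z' b M`, and
`z' b M = ⊕ i, (matrix unit (i,i) of b) M`, all isomorphic to `N b = (matrix unit (0,0) of b) M` (by the
matrix units `(i,0)`, `(0,i)`, which map `M` into itself).  So `f = ∑ b, e' * finrank (N b)`; `k = ∑ b,
finrank (N b)`.  `N b ≠ 0`: otherwise the element `v = ` matrix unit `(0,0)` of the block `b` of `A'` is `0` on
`M = range u`, `v * u = 0`; for all matrix units `u i j` of `A` (one block): `v * u i 0 = u i 0 * v * u 0 0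
.. = 0`, and `∑ i, u i 0 * u 0 i = 1` gives `v = ∑ i, v * u i 0 * u 0 i = 0`, but `v ≠ 0` (`e', f' > 0`).
So `k ≥ m'`. -/
theorem Blk.sub (B : Blk A 1 e f) (B' : Blk A' m' e' f') (he : 0 < e) (hf : 0 < f)
    (he' : 0 < e') (hf' : 0 < f') (hc : ∀ x ∈ A, ∀ y ∈ A', x * y = y * x) :
    ∃ k, m' ≤ k ∧ f = e' * k := by
  set M : Submodule ℂ W := LinearMap.range (LG_row B ((0 : Fin 1), ⟨0, he⟩)) with hMdef
  have hMf : finrank ℂ M = f := by
    rw [hMdef, LinearMap.finrank_range_of_inj (LG_row_inj B _), Module.finrank_fintype_fun_eq_card,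
      Fintype.card_fin]
  have hM : ∀ y ∈ A', ∀ v ∈ M, y v ∈ M := by
    rintro y hy _ ⟨v, rfl⟩
    have h2 := LinearMap.congr_fun (hc (LG_u B 0 ⟨0, he⟩ ⟨0, he⟩) (LF_mk_mem B _) y hy)
      (LG_row B (0, ⟨0, he⟩) v)
    rw [Module.End.mul_apply, Module.End.mul_apply, LK_row B he, LG_u_row] at h2
    rw [← h2]
    exact LinearMap.mem_range_self _ _
  refine ⟨∑ b, finrank ℂ (LK_N B' he' M b), ?_, ?_⟩
  · have h1 : ∀ b, 1 ≤ finrank ℂ (LK_N B' he' M b) := by
      intro b
      rw [Submodule.one_le_finrank_iff]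
      intro hb
      have hv : ∀ w ∈ M, LG_u B' b ⟨0, he'⟩ ⟨0, he'⟩ w = 0 := by
        intro w hw
        have h3 := (LK_mem B' he' M hM w).1 hw b ⟨0, he'⟩
        rw [hb, Submodule.mem_bot] at h3
        rw [LG_u_row, h3, map_zero]
      have hv0 : ∀ w, LG_u B' b ⟨0, he'⟩ ⟨0, he'⟩ w = 0 := by
        intro w
        rw [← LK_sum B w, Fin.sum_univ_one, map_sum]
        refine Finset.sum_eq_zero (fun i _ => ?_)
        rw [← LK_row B he]
        have h2 := LinearMap.congr_fun (hc (LG_u B 0 i ⟨0, he⟩) (LF_mk_mem B _)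
          (LG_u B' b ⟨0, he'⟩ ⟨0, he'⟩) (LF_mk_mem B' _))
          (LG_row B (0, ⟨0, he⟩) (fun j => B.φ w 0 i j))
        rw [Module.End.mul_apply, Module.End.mul_apply,
          hv _ (LinearMap.mem_range_self _ _), map_zero] at h2
        exact h2.symm
      have h4 := hv0 (LG_row B' (b, ⟨0, he'⟩) (fun _ => 1))
      rw [LK_row B' he'] at h4
      have h5 := congrArg (fun x => B'.φ x b ⟨0, he'⟩ ⟨0, hf'⟩) h4
      simp only [LG_row_apply, if_true, map_zero] at h5
      exact one_ne_zero h5
    calc m' = ∑ _b : Fin m', 1 := by simp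
      _ ≤ _ := Finset.sum_le_sum (fun b _ => h1 b)
  · rw [← LK_finrank B' he' M hM, hMf]
/- END LK -/

end Pool.Agent.PF54
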