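import Pool.Agent.PF54.Geo
import Pool.Agent.PF54.Lin

/-! # Dimensions -/

set_option autoImplicit false

namespace Pool.Agent.PF54

open Pool.Agent.Conf14 (PB)
open Pool.Agent.PB3
open Pool.Agent.Bst88
open Module

variable {n : ℕ} {V : Type*} [AddCommGroup V] [Module ℂ V] [FiniteDimensional ℂ V] [Nontrivial V]
  {a : Fin n → Fin n → (V ≃ₗ[ℂ] V)}

/- MODULE DA -/
/-- `x` and `y` commute on the subspace `W` -/
private def DA_C (W : Submodule ℂ V) (x y : V ≃ₗ[ℂ] V) : Prop := ∀ w ∈ W, x (y w) = y (x w)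

/-- `x` preserves the subspace `W` -/
private def DA_S (W : Submodule ℂ V) (x : V ≃ₗ[ℂ] V) : Prop := ∀ w ∈ W, x w ∈ W

omit [FiniteDimensional ℂ V] [Nontrivial V] in
private theorem DA_mulS {W : Submodule ℂ V} {x y : V ≃ₗ[ℂ] V} (hx : DA_S W x) (hy : DA_S W y) :
    DA_S W (x * y) := fun w hw => hx _ (hy w hw)

omit [Nontrivial V] in
private theorem DA_invS {W : Submodule ℂ V} {x : V ≃ₗ[ℂ] V} (hx : DA_S W x) :
    DA_S W x⁻¹ := Pool.Agent.Conf14.inv_mem_of_mem x W hx

omit [FiniteDimensional ℂ V] [Nontrivial V] in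
private theorem DA_ofC {W : Submodule ℂ V} {x y : V ≃ₗ[ℂ] V} (h : Commute x y) : DA_C W x y :=
  fun w _ => LinearEquiv.congr_fun h.eq w

omit [FiniteDimensional ℂ V] [Nontrivial V] in
private theorem DA_symmC {W : Submodule ℂ V} {x y : V ≃ₗ[ℂ] V} (h : DA_C W x y) : DA_C W y x :=
  fun w hw => (h w hw).symm

omit [FiniteDimensional ℂ V] [Nontrivial V] in
private theorem DA_mulC {W : Submodule ℂ V} {x y z : V ≃ₗ[ℂ] V} (hz : DA_S W z)
    (h : DA_C W x y) (h' : DA_C W x z) : DA_C W x (y * z) := by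
  intro w hw
  show x (y (z w)) = y (z (x w))
  rw [h _ (hz w hw), h' w hw]

omit [Nontrivial V] in
private theorem DA_invC {W : Submodule ℂ V} {x y : V ≃ₗ[ℂ] V} (hy : DA_S W y)
    (h : DA_C W x y) : DA_C W x y⁻¹ := by
  intro w hw
  have h1 := h _ (DA_invS hy w hw)
  have h2 : y (y⁻¹ w) = w := LinearEquiv.congr_fun (mul_inv_cancel y) w
  rw [h2] at h1
  have h3 : y⁻¹ (y (x (y⁻¹ w))) = x (y⁻¹ w) := LinearEquiv.congr_fun (inv_mul_cancel y) _
  rw [← h3, ← h1]

omit [Nontrivial V] in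
/-- conjugates -/
private theorem DA_conjC {W : Submodule ℂ V} {x y u : V ≃ₗ[ℂ] V} (hu : DA_S W u)
    (h : DA_C W x y) : DA_C W (u * x * u⁻¹) (u * y * u⁻¹) := by
  intro w hw
  have h1 : ∀ z, u⁻¹ (u z) = z := fun z => LinearEquiv.congr_fun (inv_mul_cancel u) z
  show u (x (u⁻¹ (u (y (u⁻¹ w))))) = u (y (u⁻¹ (u (x (u⁻¹ w)))))
  rw [h1, h1, h _ (DA_invS hu w hw)]

omit [Nontrivial V] in
private theorem DA_clos {W : Submodule ℂ V} {x : V ≃ₗ[ℂ] V} {S : Set (V ≃ₗ[ℂ] V)}
    (hS : ∀ y ∈ S, DA_S W y ∧ DA_C W x y) {y : V ≃ₗ[ℂ] V} (hy : y ∈ Subgroup.closure S) :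
    DA_S W y ∧ DA_C W x y := by
  induction hy using Subgroup.closure_induction with
  | mem y hy => exact hS y hy
  | one => exact ⟨fun w hw => hw, fun w _ => rfl⟩
  | mul y z _ _ hy hz => exact ⟨DA_mulS hy.1 hz.1, DA_mulC hz.1 hy.2 hz.2⟩
  | inv y _ hy => exact ⟨DA_invS hy.1, DA_invC hy.1 hy.2⟩

omit [Nontrivial V] in
private theorem DA_tri0 {W : Submodule ℂ V} {x y z : V ≃ₗ[ℂ] V} (h : Tri x y z)
    (hx : DA_S W x) (hy : DA_S W y) (hz : DA_S W z) (hc : DA_C W x y) :
    DA_C W y z ∧ DA_C W z x := by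
  have e : z = (x * y)⁻¹ * (x * y * z) := by group
  have h1 : DA_S W (x * y * z) := DA_mulS (DA_mulS hx hy) hz
  have key : ∀ w, DA_C W w x → DA_C W w y → Commute (x * y * z) w → DA_C W w z := by
    intro w h2 h3 h4
    rw [e]
    exact DA_mulC h1 (DA_invC (DA_mulS hx hy) (DA_mulC hy h2 h3)) (DA_ofC h4.symm)
  exact ⟨key y (DA_symmC hc) (DA_ofC (Commute.refl y)) h.cy,
    DA_symmC (key x (DA_ofC (Commute.refl x)) hc h.cx)⟩

omit [Nontrivial V] in
/-- the triple `p, q, s`: if two of the generators commute on `W` then all do -/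
private theorem DA_tri (h : PB a) {W : Submodule ℂ V} {p q s : Fin n} (hpq : p ≠ q)
    (hsp : s ≠ p) (hsq : s ≠ q) (h1 : DA_S W (a p q)) (h2 : DA_S W (a q s)) (h3 : DA_S W (a p s))
    (hc : DA_C W (a p q) (a q s)) :
    DA_C W (a p s) (a q s) ∧ DA_C W (a p s) (a q p) := by
  rw [h.symm q p]
  rcases lt_or_gt_of_ne hpq with e1 | e1 <;> rcases lt_or_gt_of_ne hsp with e2 | e2 <;>
    rcases lt_or_gt_of_ne hsq with e3 | e3
  · -- s < p < q
    have t := PB.tri h e2 e1
    rw [h.symm s p, h.symm s q] at t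
    obtain ⟨t1, t2⟩ := DA_tri0 t.next h2 h1 h3 (DA_symmC hc)
    exact ⟨t2, DA_symmC t1⟩
  · exact absurd (e2.trans e1) (not_lt.2 e3.le)
  · -- p < s < q
    have t := PB.tri h e2 e3
    rw [h.symm s q] at t
    obtain ⟨t1, t2⟩ := DA_tri0 t.next h1 h2 h3 hc
    exact ⟨DA_symmC t1, t2⟩
  · -- p < q < s
    have t := PB.tri h e1 e3
    obtain ⟨t1, t2⟩ := DA_tri0 t.next.next h2 h1 h3 (DA_symmC hc)
    exact ⟨t2, DA_symmC t1⟩
  · -- s < q < p
    have t := PB.tri h e3 e1
    rw [h.symm s q, h.symm s p, h.symm q p] at t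
    obtain ⟨t1, t2⟩ := DA_tri0 t.next.next h1 h2 h3 hc
    exact ⟨DA_symmC t1, t2⟩
  · -- q < s < p
    have t := PB.tri h e3 e2
    rw [h.symm s p, h.symm q p] at t
    obtain ⟨t1, t2⟩ := DA_tri0 t h2 h1 h3 (DA_symmC hc)
    exact ⟨t2, DA_symmC t1⟩
  · exact absurd (e1.trans e2) (not_lt.2 e3.le)
  · -- q < p < s
    have t := PB.tri h e1 e2
    rw [h.symm q p] at t
    obtain ⟨t1, t2⟩ := DA_tri0 t h1 h2 h3 hc
    exact ⟨DA_symmC t1, t2⟩
omit [Nontrivial V] in
/-- `a p s` commutes on `W` with all generators on the strand `q` -/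
private theorem DA_two (h : PB a) {W : Submodule ℂ V} {p q s : Fin n} (hpq : p ≠ q)
    (hsp : s ≠ p) (hsq : s ≠ q) (h1 : ∀ j, j ≠ p → DA_S W (a p j))
    (h2 : ∀ j, j ≠ q → DA_S W (a q j)) (hc : DA_C W (a p q) (a q s)) {j : Fin n} (hj : j ≠ q) :
    DA_C W (a p s) (a q j) := by
  obtain ⟨t1, t2⟩ := DA_tri h hpq hsp hsq (h1 q hpq.symm) (h2 s hsq) (h1 s hsp) hc
  by_cases hjp : j = p
  · rw [hjp]; exact t2
  by_cases hjs : j = s
  · rw [hjs]; exact t1
  have hSp : DA_S W (a q p) := h2 p hpq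
  have hSs : DA_S W (a q s) := h2 s hsq
  have hSj : DA_S W (a q j) := h2 j hj
  -- from a conjugate
  have key : ∀ b : V ≃ₗ[ℂ] V, DA_S W b → DA_C W (a p s) b →
      Commute (a p s) (b * a q j * b⁻¹) → DA_C W (a p s) (a q j) := by
    intro b hb hb' hcom
    have e : a q j = b⁻¹ * (b * a q j * b⁻¹) * b := by group
    rw [e]
    exact DA_mulC hb (DA_mulC (DA_mulS (DA_mulS hb hSj) (DA_invS hb)) (DA_invC hb hb')
      (DA_ofC hcom)) hb'
  have key2 : ∀ b : V ≃ₗ[ℂ] V, DA_S W b → DA_C W (a p s) b →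
      Commute (a p s) (b⁻¹ * a q j * b) → DA_C W (a p s) (a q j) := by
    intro b hb hb' hcom
    apply key b⁻¹ (DA_invS hb) (DA_invC hb hb')
    rwa [inv_inv]
  rcases lt_or_gt_of_ne hsp with e1 | e1
  · -- s < p
    by_cases hx : (s < q ∧ q < p) ↔ (s < j ∧ j < p)
    · have := h.disj hsq.symm hpq.symm e1 hj hjs hjp hx
      rw [h.symm s p] at this
      exact DA_ofC this
    · rcases h.cross e1 hj hsq.symm hpq.symm hjs hjp hx with h3 | h3
      · rw [h.symm s p] at h3
        exact key _ hSp t2 h3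
      · rw [h.symm s p] at h3
        exact key2 _ hSp t2 h3
  · by_cases hx : (p < q ∧ q < s) ↔ (p < j ∧ j < s)
    · exact DA_ofC (h.disj hpq.symm hsq.symm e1 hj hjp hjs hx)
    · rcases h.cross e1 hj hpq.symm hsq.symm hjp hjs hx with h3 | h3
      · exact key _ hSs t1 h3
      · exact key2 _ hSs t1 h3

omit [FiniteDimensional ℂ V] [Nontrivial V] in
/-- pairs which commute on a nonzero subspace -/
private theorem DA_K (hirr : IrrF a) (P : (V ≃ₗ[ℂ] V) → (V ≃ₗ[ℂ] V) → Prop)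
    (hP : ∀ x y, P x y → ∀ i j, i ≠ j → P ((a i j)⁻¹ * x * a i j) ((a i j)⁻¹ * y * a i j))
    {W : Submodule ℂ V} (hW : W ≠ ⊥) (hc : ∀ x y, P x y → DA_C W x y) {x y : V ≃ₗ[ℂ] V}
    (hxy : P x y) : Commute x y := by
  let K : Submodule ℂ V :=
    { carrier := {v | ∀ x y, P x y → x (y v) = y (x v)}
      add_mem' := by
        intro u v hu hv x y hxy
        show x (y (u + v)) = y (x (u + v))
        rw [map_add, map_add, map_add, map_add, hu x y hxy, hv x y hxy]
      zero_mem' := by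
        intro x y _
        show x (y 0) = y (x 0)
        rw [map_zero, map_zero, map_zero]
      smul_mem' := by
        intro c u hu x y hxy
        show x (y (c • u)) = y (x (c • u))
        rw [map_smul, map_smul, map_smul, map_smul, hu x y hxy] }
  have hK : ∀ v, v ∈ K ↔ ∀ x y, P x y → x (y v) = y (x v) := fun v => Iff.rfl
  rcases hirr K (by
    intro i j hij v hv
    rw [hK] at hv ⊢
    intro x y hxy
    have h1 := hv _ _ (hP x y hxy i j hij)
    have h2 : ∀ u, a i j ((a i j)⁻¹ u) = u := fun u =>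
      LinearEquiv.congr_fun (mul_inv_cancel (a i j)) u
    have h3 := congrArg (a i j) h1
    change a i j ((a i j)⁻¹ (x (a i j ((a i j)⁻¹ (y (a i j v)))))) =
      a i j ((a i j)⁻¹ (y (a i j ((a i j)⁻¹ (x (a i j v)))))) at h3
    rwa [h2, h2, h2, h2] at h3) with h0 | h0
  · exfalso
    apply hW
    rw [eq_bot_iff, ← h0]
    intro w hw
    rw [hK]
    exact fun x y hxy => hc x y hxy w hw
  · refine LinearEquiv.ext fun v => ?_
    have : v ∈ K := by rw [h0]; exact Submodule.mem_top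
    exact this x y hxy

omit [Nontrivial V] in
private theorem DA_one (h : PB a) (hirr : IrrF a) {I : Finset (Fin n)} {p q s : Fin n} (hp : p ∈ I)
    (hq : q ∈ I) (hpq : p ≠ q) (hsp : s ≠ p) (hsq : s ≠ q) (hc : ¬ Commute (a p q) (a q s))
    {W : Submodule ℂ V} (hW : W ≠ ⊥) (hI : Inv a I W) : ¬ DA_C W (a p q) (a q s) := by
  intro hcon
  apply hc
  have h1 : ∀ j, j ≠ p → DA_S W (a p j) := fun j hj => hI p hp j hj
  have h2 : ∀ j, j ≠ q → DA_S W (a q j) := fun j hj => hI q hq j hj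
  have h3 : ∀ {j : Fin n}, j ≠ q → DA_C W (a p s) (a q j) :=
    fun hj => DA_two h hpq hsp hsq h1 h2 hcon hj
  -- the elements of the group of the strand `q`
  have h4 : ∀ v ∈ Subgroup.closure {y | ∃ j, j ≠ q ∧ y = a q j}, DA_S W v ∧
      DA_C W (a p s) v := by
    intro v hv
    refine DA_clos (x := a p s) ?_ hv
    rintro y ⟨j, hj, rfl⟩
    exact ⟨h2 j hj, h3 hj⟩
  have h5 : ∀ v ∈ Subgroup.closure {y | ∃ j, j ≠ p ∧ y = a p j}, DA_S W v := by
    intro v hv
    refine (DA_clos (x := 1) ?_ hv).1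
    rintro y ⟨j, hj, rfl⟩
    exact ⟨h1 j hj, fun w _ => rfl⟩
  have hgp : ∀ t : Fin n, Subgroup.closure {y | ∃ j, j ≠ t ∧ y = a t j} ≤ gp a := by
    intro t
    rw [Subgroup.closure_le]
    rintro y ⟨j, hj, rfl⟩
    exact mem_gp hj.symm
  have h6 : ∀ g₁ ∈ gp a, ∀ g₂ ∈ gp a, DA_C W (g₁ * a p s * g₁⁻¹) (g₂ * a q s * g₂⁻¹) := by
    intro g₁ hg₁ g₂ hg₂
    obtain ⟨u, hu, e1⟩ := conj_strand h hsp hg₁
    obtain ⟨v, hv, e2⟩ := conj_strand h hsq hg₂
    obtain ⟨v', hv', e3⟩ := conj_strand h hsq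
      ((gp a).mul_mem ((gp a).inv_mem (hgp p hu)) (hgp q hv))
    obtain ⟨hvS, hvC⟩ := h4 v' hv'
    have h7 : DA_C W (a p s) (v' * a q s * v'⁻¹) :=
      DA_mulC (DA_invS hvS) (DA_mulC (h2 s hsq) hvC (h3 hsq)) (DA_invC hvS hvC)
    have h8 := DA_conjC (h5 u hu) h7
    rw [← e3] at h8
    have e4 : u * (u⁻¹ * v * a q s * (u⁻¹ * v)⁻¹) * u⁻¹ = v * a q s * v⁻¹ := by group
    rw [e4, ← e1, ← e2] at h8
    exact h8
  have h7 : Commute (a p s) (a q s) := by
    refine DA_K hirr (fun x y => ∃ g₁ ∈ gp a, ∃ g₂ ∈ gp a, x = g₁ * a p s * g₁⁻¹ ∧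
      y = g₂ * a q s * g₂⁻¹) ?_ hW ?_ ⟨1, (gp a).one_mem, 1, (gp a).one_mem, by group, by group⟩
    · rintro x y ⟨g₁, hg₁, g₂, hg₂, rfl, rfl⟩ i j hij
      exact ⟨(a i j)⁻¹ * g₁, (gp a).mul_mem ((gp a).inv_mem (mem_gp hij)) hg₁,
        (a i j)⁻¹ * g₂, (gp a).mul_mem ((gp a).inv_mem (mem_gp hij)) hg₂, by group, by group⟩
    · rintro x y ⟨g₁, hg₁, g₂, hg₂, rfl, rfl⟩
      exact h6 g₁ hg₁ g₂ hg₂
  -- so the triple commutes
  rw [h.symm p s, h.symm q s] at h7
  have h8 := (h.conj (s := s) hsp hsq hpq hsp.symm).2 h7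
  have h9 := (h.conj (s := s) hsp hsq hpq hsq.symm).2 h7
  rwa [h.symm s q] at h9
/-- **DA (Lemma B).** -/
theorem not_comm_on (h : PB a) (hirr : IrrF a) {I : Finset (Fin n)} {p q s : Fin n} (hp : p ∈ I)
    (hq : q ∈ I) (hpq : p ≠ q) (hsp : s ≠ p) (hsq : s ≠ q) (hc : ¬ Commute (a p q) (a q s))
    {g : V ≃ₗ[ℂ] V} (hg : g ∈ gp a) {W : Submodule ℂ V} (hW : W ≠ ⊥) (hI : Inv a I W) :
    ∃ w ∈ W, (g * a p q * g⁻¹) ((g * a q s * g⁻¹) w) ≠ (g * a q s * g⁻¹) ((g * a p q * g⁻¹) w) := by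
  have hg1 : ∀ z, g⁻¹ (g z) = z := fun z => LinearEquiv.congr_fun (inv_mul_cancel g) z
  have hI' : Inv a I (W.map (g⁻¹ : V ≃ₗ[ℂ] V).toLinearMap) := by
    rintro t ht j hj _ ⟨w, hw, rfl⟩
    have h1 := strand_norm h hg (I := I) (x := a t j) (Subgroup.subset_closure ⟨t, ht, j, hj, rfl⟩)
    have h2 := Pool.Agent.Conf14.closure_mem {y | ∃ t ∈ I, ∃ j, j ≠ t ∧ y = a t j} W (by
      rintro f ⟨t, ht, j, hj, rfl⟩
      exact hI t ht j hj) _ h1 w hw
    refine ⟨_, h2, ?_⟩
    show g⁻¹ (g (a t j (g⁻¹ w))) = a t j (g⁻¹ w)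
    rw [hg1]
  have hW' : W.map (g⁻¹ : V ≃ₗ[ℂ] V).toLinearMap ≠ ⊥ := by
    intro h0
    apply hW
    rwa [Submodule.map_eq_bot_iff] at h0
  have h1 := DA_one h hirr hp hq hpq hsp hsq hc hW' hI'
  unfold DA_C at h1
  push Not at h1
  obtain ⟨_, ⟨w, hw, rfl⟩, h2⟩ := h1
  refine ⟨w, hw, ?_⟩
  show g (a p q (g⁻¹ (g (a q s (g⁻¹ w))))) ≠ g (a q s (g⁻¹ (g (a p q (g⁻¹ w)))))
  rw [hg1, hg1]
  exact fun h' => h2 (g.injective h')
/- END DA -/

/- MODULE DB -/
omit [Nontrivial V] in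
private theorem DB_comm {S : Set (V ≃ₗ[ℂ] V)} {W : Submodule ℂ V}
    (hS : ∀ f ∈ S, ∀ w ∈ W, f w ∈ W) (x : V ≃ₗ[ℂ] V) (hx : ∀ f ∈ S, ∀ w ∈ W, x (f w) = f (x w)) :
    ∀ g ∈ Subgroup.closure S, ∀ w ∈ W, x (g w) = g (x w) := by
  intro g hg
  induction hg using Subgroup.closure_induction with
  | mem f hf => exact hx f hf
  | one => exact fun w _ => rfl
  | mul u v hu hv ihu ihv =>
    intro w hw
    show x (u (v w)) = u (v (x w))
    rw [ihu (v w) (Pool.Agent.Conf14.closure_mem S W hS v hv w hw), ihv w hw]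
  | inv u hu ihu =>
    intro w hw
    have h1 : (u⁻¹ : V ≃ₗ[ℂ] V) w ∈ W :=
      Pool.Agent.Conf14.closure_mem S W hS _ (inv_mem hu) w hw
    have h2 := ihu _ h1
    have h3 : u ((u⁻¹ : V ≃ₗ[ℂ] V) w) = w := u.apply_symm_apply w
    rw [h3] at h2
    show x ((u⁻¹ : V ≃ₗ[ℂ] V) w) = u.symm (x w)
    rw [h2, u.symm_apply_apply]

/-- **DB.** The group of a component is not commutative on any subspace which is invariant under
the generators on the strand.

PROOF. Suppose `a i s`, `a i t` commute on `W` for all `s, t ∈ C`.  Then all elements of `H = closure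
{a i s | s ∈ C}` (they preserve `W`) commute on `W`.  `K = {v | ∀ x y ∈ H, x y v = y x v}` is invariant
under all `a k l` (`comp_norm`: `(a k l)⁻¹ * x * a k l ∈ H`), contains `W ≠ ⊥`, so it is `⊤`; but `hC.ne` gives
`s, t ∈ C` with `¬ Commute (a i s) (a i t)`. -/
theorem comp_not_comm_on (h : PB a) (hirr : IrrF a) {i : Fin n} {C : Finset (Fin n)}
    (hC : Comp a i C) {W : Submodule ℂ V} (hW : W ≠ ⊥) (hI : InvS a i W) :
    ∃ s ∈ C, ∃ t ∈ C, ∃ w ∈ W, a i s (a i t w) ≠ a i t (a i s w) := by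
  by_contra hcon
  push Not at hcon
  obtain ⟨H, hH⟩ : ∃ H, H = Subgroup.closure {y | ∃ s ∈ C, y = a i s} := ⟨_, rfl⟩
  have hpres : ∀ f ∈ {y | ∃ s ∈ C, y = a i s}, ∀ x ∈ W, f x ∈ W := by
    rintro f ⟨s, hs, rfl⟩ x hx
    exact hI s (fun h' => hC.ni (h' ▸ hs)) x hx
  have h1 : ∀ s ∈ C, ∀ y ∈ H, ∀ w ∈ W, a i s (y w) = y (a i s w) := by
    intro s hs
    rw [hH]
    refine DB_comm hpres (a i s) ?_
    rintro f ⟨t, ht, rfl⟩ w hw
    exact hcon s hs t ht w hw
  have h2 : ∀ x ∈ H, ∀ y ∈ H, ∀ w ∈ W, y (x w) = x (y w) := by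
    intro x hx y hy
    rw [hH] at hx
    refine DB_comm hpres y ?_ x hx
    rintro f ⟨t, ht, rfl⟩ w hw
    exact (h1 t ht y hy w hw).symm
  let K : Submodule ℂ V :=
    { carrier := {v | ∀ x ∈ H, ∀ y ∈ H, x (y v) = y (x v)}
      add_mem' := by
        intro u v hu hv x hx y hy
        rw [map_add, map_add, map_add, map_add, hu x hx y hy, hv x hx y hy]
      zero_mem' := by
        intro x _ y _
        rw [map_zero, map_zero, map_zero]
      smul_mem' := by
        intro c v hv x hx y hy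
        rw [map_smul, map_smul, map_smul, map_smul, hv x hx y hy] }
  have hK : ∀ k l, k ≠ l → ∀ v ∈ K, a k l v ∈ K := by
    intro k l hkl v hv x hx y hy
    obtain ⟨g, hgdef⟩ : ∃ g, g = a k l := ⟨_, rfl⟩
    have hg : g⁻¹ ∈ gp a := by
      rw [hgdef]
      exact inv_mem (mem_gp hkl)
    rw [hH] at hx hy
    have hx' := comp_norm h hC hg hx
    have hy' := comp_norm h hC hg hy
    rw [← hH, inv_inv] at hx' hy'
    have e : ∀ p q : V ≃ₗ[ℂ] V, g ((g⁻¹ * p * g) ((g⁻¹ * q * g) v)) = p (q (g v)) := by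
      intro p q
      show g (g.symm (p (g (g.symm (q (g v)))))) = p (q (g v))
      rw [g.apply_symm_apply, g.apply_symm_apply]
    rw [← hgdef]
    show x (y (g v)) = y (x (g v))
    rw [← e x y, ← e y x, hv _ hx' _ hy']
  have hWK : W ≤ K := fun w hw x hx y hy => h2 y hy x hx w hw
  rcases hirr K hK with h3 | h3
  · exact hW (le_bot_iff.1 (h3 ▸ hWK))
  · obtain ⟨s, hs, t, ht, hadj⟩ := hC.ne
    apply hadj.2.2.2
    have hs' : a i s ∈ H := hH ▸ Subgroup.subset_closure ⟨s, hs, rfl⟩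
    have ht' : a i t ∈ H := hH ▸ Subgroup.subset_closure ⟨t, ht, rfl⟩
    refine LinearEquiv.ext fun v => ?_
    have h4 : v ∈ K := h3 ▸ Submodule.mem_top
    exact h4 _ hs' _ ht'
/- END DB -/

/-- the algebra of restrictions to `W` of the `a i s`, `s ∈ C` -/
def algW (a : Fin n → Fin n → (V ≃ₗ[ℂ] V)) (i : Fin n) (C : Finset (Fin n)) (W : Submodule ℂ V) :
    Subalgebra ℂ (Module.End ℂ W) :=
  Algebra.adjoin ℂ {T | ∃ s ∈ C, ∀ w : W, (T w : V) = a i s (w : V)}

/- MODULE DC -/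
/-- a subalgebra contains the inverses of its injective elements -/
private theorem DC_inv {W : Type*} [AddCommGroup W] [Module ℂ W] [FiniteDimensional ℂ W]
    (A : Subalgebra ℂ (Module.End ℂ W)) {T : Module.End ℂ W} (hT : T ∈ A)
    (hinj : Function.Injective T) : ∃ T' ∈ A, T * T' = 1 := by
  let L : A →ₗ[ℂ] A := LinearMap.mulLeft ℂ (⟨T, hT⟩ : A)
  have hL : Function.Injective L := by
    intro x y hxy
    have h1 : T * (x : Module.End ℂ W) = T * (y : Module.End ℂ W) := congrArg Subtype.val hxy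
    apply Subtype.ext
    refine LinearMap.ext fun w => hinj ?_
    exact LinearMap.congr_fun h1 w
  obtain ⟨T', hT'⟩ := (LinearMap.injective_iff_surjective.1 hL) 1
  exact ⟨T', T'.2, congrArg Subtype.val hT'⟩

/-- conjugation of an algebra given by generators -/
private theorem DC_adj {W : Type*} [AddCommGroup W] [Module ℂ W]
    {S : Set (Module.End ℂ W)} {A : Subalgebra ℂ (Module.End ℂ W)} {g : W ≃ₗ[ℂ] W}
    (h : ∀ T ∈ S, g.toLinearMap ∘ₗ T ∘ₗ g.symm.toLinearMap ∈ A) {T : Module.End ℂ W}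
    (hT : T ∈ Algebra.adjoin ℂ S) : g.toLinearMap ∘ₗ T ∘ₗ g.symm.toLinearMap ∈ A := by
  induction hT using Algebra.adjoin_induction with
  | mem T hT => exact h T hT
  | algebraMap r =>
    have : g.toLinearMap ∘ₗ (algebraMap ℂ (Module.End ℂ W) r) ∘ₗ g.symm.toLinearMap =
        algebraMap ℂ (Module.End ℂ W) r := by
      refine LinearMap.ext fun w => ?_
      show g (r • g.symm w) = r • w
      rw [map_smul, g.apply_symm_apply]
    rw [this]
    exact A.algebraMap_mem r
  | add T T' _ _ hT hT' =>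
    have : g.toLinearMap ∘ₗ (T + T') ∘ₗ g.symm.toLinearMap =
        g.toLinearMap ∘ₗ T ∘ₗ g.symm.toLinearMap + g.toLinearMap ∘ₗ T' ∘ₗ g.symm.toLinearMap := by
      refine LinearMap.ext fun w => ?_
      show g (T (g.symm w) + T' (g.symm w)) = g (T (g.symm w)) + g (T' (g.symm w))
      rw [map_add]
    rw [this]
    exact A.add_mem hT hT'
  | mul T T' _ _ hT hT' =>
    have : g.toLinearMap ∘ₗ (T * T') ∘ₗ g.symm.toLinearMap =
        (g.toLinearMap ∘ₗ T ∘ₗ g.symm.toLinearMap) *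
          (g.toLinearMap ∘ₗ T' ∘ₗ g.symm.toLinearMap) := by
      refine LinearMap.ext fun w => ?_
      show g (T (T' (g.symm w))) = g (T (g.symm (g (T' (g.symm w)))))
      rw [g.symm_apply_apply]
    rw [this]
    exact A.mul_mem hT hT'

/-- the restriction of an automorphism to an invariant subspace -/
private noncomputable def DC_res {W : Submodule ℂ V} (x : V ≃ₗ[ℂ] V) (hx : ∀ w ∈ W, x w ∈ W) :
    W ≃ₗ[ℂ] W :=
  LinearEquiv.ofBijective (x.toLinearMap.restrict hx) (by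
    have h1 : Function.Injective (x.toLinearMap.restrict hx) := by
      intro u v huv
      apply Subtype.ext
      exact x.injective (congrArg Subtype.val huv)
    exact ⟨h1, LinearMap.injective_iff_surjective.1 h1⟩)

omit [Nontrivial V] in
private theorem DC_res_apply {W : Submodule ℂ V} (x : V ≃ₗ[ℂ] V) (hx : ∀ w ∈ W, x w ∈ W) (w : W) :
    ((DC_res x hx w : W) : V) = x (w : V) := rfl

omit [Nontrivial V] in
/-- the restrictions of the elements of the group of a component -/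
private theorem DC_mem {i : Fin n} {C : Finset (Fin n)} {W : Submodule ℂ V}
    (hI : ∀ s ∈ C, ∀ x ∈ W, a i s x ∈ W) {x : V ≃ₗ[ℂ] V}
    (hx : x ∈ Subgroup.closure {y | ∃ s ∈ C, y = a i s}) :
    ∃ T ∈ algW a i C W, ∀ w : W, (T w : V) = x (w : V) := by
  induction hx using Subgroup.closure_induction with
  | mem x hx =>
    obtain ⟨s, hs, rfl⟩ := hx
    exact ⟨(a i s).toLinearMap.restrict (hI s hs), Algebra.subset_adjoin ⟨s, hs, fun w => rfl⟩,
      fun w => rfl⟩
  | one => exact ⟨1, Subalgebra.one_mem _, fun w => rfl⟩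
  | mul x y _ _ hx hy =>
    obtain ⟨T, hT, h1⟩ := hx
    obtain ⟨T', hT', h2⟩ := hy
    refine ⟨T * T', Subalgebra.mul_mem _ hT hT', fun w => ?_⟩
    show (T (T' w) : V) = x (y w)
    rw [h1, h2]
  | inv x _ hx =>
    obtain ⟨T, hT, h1⟩ := hx
    obtain ⟨T', hT', h2⟩ := DC_inv (algW a i C W) hT (by
      intro u v huv
      apply Subtype.ext
      apply x.injective
      rw [← h1, ← h1, huv])
    refine ⟨T', hT', fun w => ?_⟩
    have h3 : (T (T' w) : V) = w := congrArg Subtype.val (LinearMap.congr_fun h2 w)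
    rw [h1] at h3
    rw [← h3]
    exact (LinearEquiv.congr_fun (inv_mul_cancel x) _).symm

omit [Nontrivial V] in
/-- restrictions of elements of the group normalise the algebra -/
private theorem DC_nrm (h : PB a) {i : Fin n} {C : Finset (Fin n)} (hC : Comp a i C)
    {W : Submodule ℂ V} (hI : ∀ s ∈ C, ∀ x ∈ W, a i s x ∈ W) {x : V ≃ₗ[ℂ] V} (hx : x ∈ gp a)
    {g : W ≃ₗ[ℂ] W} (hg : ∀ w, (g w : V) = x (w : V)) : Nrm (algW a i C W) g := by
  have key : ∀ (x : V ≃ₗ[ℂ] V) (g : W ≃ₗ[ℂ] W), x ∈ gp a → (∀ w, (g w : V) = x (w : V)) →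
      ∀ T ∈ algW a i C W, g.toLinearMap ∘ₗ T ∘ₗ g.symm.toLinearMap ∈ algW a i C W := by
    intro x g hx hg T hT
    refine DC_adj ?_ hT
    rintro T ⟨s, hs, h1⟩
    obtain ⟨T', hT', h2⟩ := DC_mem hI (comp_norm h hC hx
      (Subgroup.subset_closure ⟨s, hs, rfl⟩ : a i s ∈ Subgroup.closure {y | ∃ s ∈ C, y = a i s}))
    have h3 : g.toLinearMap ∘ₗ T ∘ₗ g.symm.toLinearMap = T' := by
      refine LinearMap.ext fun w => Subtype.ext ?_
      rw [h2]
      show (g (T (g.symm w)) : V) = x (a i s (x⁻¹ w))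
      rw [hg, h1]
      have h4 : (g.symm w : V) = x⁻¹ (w : V) := by
        have h5 := hg (g.symm w)
        rw [g.apply_symm_apply] at h5
        rw [h5]
        exact (LinearEquiv.congr_fun (inv_mul_cancel x) _).symm
      rw [h4]
    rw [h3]
    exact hT'
  intro T hT
  refine ⟨key x g hx hg T hT, ?_⟩
  exact key x⁻¹ g.symm ((gp a).inv_mem hx) (by
    intro w
    have h5 := hg (g.symm w)
    rw [g.apply_symm_apply] at h5
    rw [h5]
    exact (LinearEquiv.congr_fun (inv_mul_cancel x) _).symm) T hT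

/-- **DC.** The blocks on an irreducible subspace. -/
theorem clifford_on (h : PB a) {I : Finset (Fin n)} {i : Fin n} (hi : i ∈ I)
    {C : Finset (Fin n)} (hC : Comp a i C) {W : Submodule ℂ V} (hW : W ≠ ⊥) (hI : Inv a I W)
    (hmin : ∀ U : Submodule ℂ V, U ≤ W → U ≠ ⊥ → Inv a I U → U = W) :
    ∃ m e f : ℕ, 0 < m ∧ 0 < e ∧ 0 < f ∧ Nonempty (Blk (algW a i C W) m e f) := by
  have : Nontrivial W := (Submodule.nontrivial_iff_ne_bot).2 hW
  have hI' : ∀ s ∈ C, ∀ x ∈ W, a i s x ∈ W := fun s hs => hI i hi s (fun e => hC.ni (e ▸ hs))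
  refine clifford {g : W ≃ₗ[ℂ] W | ∃ t ∈ I, ∃ j, j ≠ t ∧ ∀ w, (g w : V) = a t j (w : V)} ?_ ?_
  · rintro g ⟨t, ht, j, hj, hg⟩
    exact DC_nrm h hC hI' (mem_gp hj.symm) hg
  · intro U _ hU
    by_cases hbot : U = ⊥
    · exact Or.inl hbot
    right
    have h1 : U.map W.subtype = W := by
      apply hmin
      · exact Submodule.map_subtype_le W U
      · intro h0
        apply hbot
        rw [eq_bot_iff]
        intro u hu
        have h2 : (u : V) ∈ U.map W.subtype := ⟨u, hu, rfl⟩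
        rw [h0, Submodule.mem_bot] at h2
        rw [Submodule.mem_bot]
        exact Subtype.ext h2
      · rintro t ht j hj _ ⟨u, hu, rfl⟩
        have hinv : ∀ w ∈ W, a t j w ∈ W := hI t ht j hj
        exact ⟨DC_res (a t j) hinv u, hU _ ⟨t, ht, j, hj, fun w => rfl⟩ u hu, rfl⟩
    rw [eq_top_iff]
    intro w _
    have h2 : (w : V) ∈ U.map W.subtype := by rw [h1]; exact w.2
    obtain ⟨u, hu, h3⟩ := h2
    have h4 : u = w := Subtype.ext h3
    rwa [← h4]
/- END DC -/

/- MODULE DD -/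
private theorem DD_aux (h : PB a) (hirr : IrrF a) {I : Finset (Fin n)} {i : Fin n} (hi : i ∈ I)
    {C : Finset (Fin n)} (hC : Comp a i C) {W : Submodule ℂ V} (hW : W ≠ ⊥) (hI : Inv a I W)
    {m e f : ℕ} (hm : 0 < m) (he : 0 < e) (hf : 0 < f) (B : Blk (algW a i C W) m e f)
    {R : Finset (Fin n)} (hR : R ⊆ C) (hne : R.Nonempty) (hRI : ∀ t ∈ C, t ∉ R → t ∈ I) :
    C.card + 2 ≤ 2 * (m * e) + R.card := by
  have hI' : ∀ s ∈ C, ∀ x ∈ W, a i s x ∈ W := fun s hs => hI i hi s (fun e => hC.ni (e ▸ hs))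
  obtain ⟨p, hp⟩ : ∃ p, p + R.card = C.card :=
    ⟨C.card - R.card, Nat.sub_add_cancel (Finset.card_le_card hR)⟩
  obtain ⟨x, y, t, t', ht, hxy, hnc, hcm, -⟩ := exists_chain h hC hR hne hp
  choose g hg hx hy using hxy
  have hX : ∀ k, ∃ T ∈ algW a i C W, ∀ w : W, (T w : V) = x k (w : V) := by
    intro k
    apply DC_mem hI'
    rw [hx]
    exact comp_norm h hC (hg k) (Subgroup.subset_closure ⟨t k, (ht k).1, rfl⟩)
  choose X hXA hXv using hX
  have hY : ∀ k, ∀ w ∈ W, y k w ∈ W := by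
    intro k
    apply Pool.Agent.Conf14.closure_mem {y | ∃ t ∈ I, ∃ j, j ≠ t ∧ y = a t j} W (by
      rintro f ⟨t, ht, j, hj, rfl⟩
      exact hI t ht j hj)
    rw [hy]
    exact strand_norm h (hg k) (Subgroup.subset_closure
      ⟨t k, hRI _ (ht k).1 (ht k).2.1, t' k, (ht k).2.2.2.2.2.1.symm, rfl⟩)
  have hch := B.chain hm he hf X (fun k => (y k).toLinearMap.restrict (hY k)) hXA (by
    intro k hk
    obtain ⟨htC, htR, -, hadj⟩ := ht k
    obtain ⟨w, hw, h1⟩ := not_comm_on h hirr hi (hRI _ htC htR) hadj.1.symm hadj.2.1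
      hadj.2.2.1.symm (by
        intro hc
        apply hnc k
        rw [hx, hy]
        exact conj_comm.2 hc) (hg k) hW hI
    apply h1
    rw [← hx, ← hy]
    have h2 : (X k (((y k).toLinearMap.restrict (hY k)) ⟨w, hw⟩) : V) =
        (((y k).toLinearMap.restrict (hY k)) (X k ⟨w, hw⟩) : V) :=
      congrArg Subtype.val (LinearMap.congr_fun hk ⟨w, hw⟩)
    rw [hXv] at h2
    have h3 : ((((y k).toLinearMap.restrict (hY k)) (X k ⟨w, hw⟩) : W) : V) =
      y k (X k ⟨w, hw⟩ : V) := rfl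
    rw [h3, hXv] at h2
    exact h2) (by
    intro l k hlk
    refine LinearMap.ext fun w => Subtype.ext ?_
    show (X l (((y k).toLinearMap.restrict (hY k)) w) : V) = y k (X l w : V)
    rw [hXv, hXv]
    exact LinearEquiv.congr_fun (hcm l k hlk).eq (w : V))
  omega

/-- **DD.** The chain on an irreducible subspace. -/
theorem chain_on (h : PB a) (hirr : IrrF a) {I : Finset (Fin n)} {i : Fin n} (hi : i ∈ I)
    {C : Finset (Fin n)} (hC : Comp a i C) {W : Submodule ℂ V} (hW : W ≠ ⊥) (hI : Inv a I W)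
    {m e f : ℕ} (hm : 0 < m) (he : 0 < e) (hf : 0 < f) (B : Blk (algW a i C W) m e f) :
    (C ∩ I).card + 1 ≤ 2 * (m * e) := by
  have hcard := Finset.card_inter_add_card_sdiff C I
  by_cases hne : (C \ I).Nonempty
  · have := DD_aux h hirr hi hC hW hI hm he hf B Finset.sdiff_subset hne (by
      intro t ht ht'
      by_contra hcon
      exact ht' (Finset.mem_sdiff.2 ⟨ht, hcon⟩))
    omega
  · rw [Finset.not_nonempty_iff_eq_empty] at hne
    obtain ⟨r, hr, -⟩ := hC.ne
    have := DD_aux h hirr hi hC hW hI hm he hf B (Finset.singleton_subset_iff.2 hr)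
      (Finset.singleton_nonempty r) (by
      intro t ht _
      by_contra hcon
      have : t ∈ C \ I := Finset.mem_sdiff.2 ⟨ht, hcon⟩
      rw [hne] at this
      exact Finset.notMem_empty t this)
    rw [hne, Finset.card_empty] at hcard
    rw [Finset.card_singleton] at this
    omega
/- END DD -/

/- MODULE DE -/
/-- **DE.** The multiplicity space is invariant under the strands outside the component.

PROOF. `B.exists_mult` gives `M₀ ≤ W` of dimension `f`; `M` = its image in `V` (`Submodule.map W.subtype`,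
same dimension).  For `t ∈ I \ (insert i C)` and `j ≠ t` the restriction of `a t j` to `W` commutes with
the generators of `algW` (`comp_comm`), so with the algebra, so it preserves `M₀`. -/
theorem mult_on (h : PB a) {I : Finset (Fin n)} {i : Fin n} (hi : i ∈ I)
    {C : Finset (Fin n)} (hC : Comp a i C) {W : Submodule ℂ V} (hI : Inv a I W)
    {m e f : ℕ} (hm : 0 < m) (he : 0 < e) (hf : 0 < f) (B : Blk (algW a i C W) m e f) :
    ∃ M : Submodule ℂ V, M ≤ W ∧ finrank ℂ M = f ∧ Inv a (I \ (insert i C)) M := by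
  obtain ⟨M₀, hf0, hM⟩ := B.exists_mult hm he
  refine ⟨M₀.map W.subtype, Submodule.map_subtype_le W M₀, ?_, ?_⟩
  · rw [Submodule.finrank_map_subtype_eq, hf0]
  · intro t ht j hj x hx
    obtain ⟨v, hv, rfl⟩ := Submodule.mem_map.1 hx
    rw [Finset.mem_sdiff, Finset.mem_insert, not_or] at ht
    obtain ⟨htI, hti, htC⟩ := ht
    obtain ⟨T, hT⟩ : ∃ T : Module.End ℂ W, ∀ w : W, (T w : V) = a t j (w : V) :=
      ⟨(a t j).toLinearMap.restrict (hI t htI j hj), fun w => rfl⟩
    have hcomm : ∀ x ∈ algW a i C W, T * x = x * T := by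
      intro x hx
      induction hx using Algebra.adjoin_induction with
      | mem x hx =>
        obtain ⟨s, hs, hx⟩ := hx
        refine LinearMap.ext fun w => Subtype.ext ?_
        show ((T (x w) : W) : V) = ((x (T w) : W) : V)
        rw [hT, hx, hx, hT]
        exact LinearEquiv.congr_fun (comp_comm h hC htC hti hj hs).eq (w : V)
      | algebraMap r => exact (Algebra.commutes r T).symm
      | add x y _ _ hx hy => rw [mul_add, add_mul, hx, hy]
      | mul x y _ _ hx hy => rw [← mul_assoc, hx, mul_assoc, hy, mul_assoc]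
    refine Submodule.mem_map.2 ⟨T v, hM T hcomm v hv, ?_⟩
    show (T v : V) = a t j (v : V)
    exact hT v
/- END DE -/

/- MODULE DG -/
/-- **DG.** An active strand has a component.

PROOF. `hi` gives `j ≠ i` with `¬ Cen (a i j)`; `PB3.exists_noncomm` gives `l ≠ i` with
`¬ Commute (a i j) (a i l)`, so `Adj a i j l` (`j ≠ l` as `a i j` commutes with itself); `comp_exists`. -/
theorem exists_comp (h : PB a) (hirr : IrrF a) {i : Fin n} (hi : Act a i) :
    ∃ C : Finset (Fin n), Comp a i C := by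
  obtain ⟨j, hj, hc⟩ := hi
  obtain ⟨l, hl, hnc⟩ := exists_noncomm h hirr hj.symm hc
  have hadj : Adj a i j l := by
    refine ⟨hj, hl, ?_, hnc⟩
    rintro rfl
    exact hnc (Commute.refl _)
  obtain ⟨C, hC, _⟩ := comp_exists hadj
  exact ⟨C, hC⟩
/- END DG -/

/- MODULE DF -/
private theorem DF_main (h : PB a) (hirr : IrrF a) (hact : ∀ s, Act a s) :
    ∀ N : ℕ, ∀ I : Finset (Fin n), I.card ≤ N → I.Nonempty → ∀ W : Submodule ℂ V, W ≠ ⊥ →
      Inv a I W → 2 ≤ finrank ℂ W ∧ I.card ≤ 2 * finrank ℂ W := by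
  intro N
  induction N with
  | zero =>
    intro I hIc hne
    exact absurd hIc (by have := hne.card_pos; omega)
  | succ N ih =>
    intro I hIc hne W hW hI
    obtain ⟨W₀, hW₀, hmin'⟩ := WellFounded.has_min
      (r := ((· < ·) : Submodule ℂ V → Submodule ℂ V → Prop)) wellFounded_lt
      {U | U ≤ W ∧ U ≠ ⊥ ∧ Inv a I U} ⟨W, le_rfl, hW, hI⟩
    obtain ⟨hle, hW0, hI0⟩ := hW₀
    have hmin : ∀ U : Submodule ℂ V, U ≤ W₀ → U ≠ ⊥ → Inv a I U → U = W₀ := by
      intro U h1 h2 h3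
      by_contra h4
      exact hmin' U ⟨h1.trans hle, h2, h3⟩ (lt_of_le_of_ne h1 h4)
    have hfin := Submodule.finrank_mono hle
    obtain ⟨t, ht⟩ := hne
    obtain ⟨K, hK⟩ := exists_comp h hirr (hact t)
    obtain ⟨m, e, f, hm, he, hf, ⟨B⟩⟩ := clifford_on h ht hK hW0 hI0 hmin
    have he2 : 2 ≤ e := by
      obtain ⟨s, hs, s', hs', w, hw, hne⟩ := comp_not_comm_on h hirr hK hW0
        (fun j hj x hx => hI0 t ht j hj x hx)
      have hst : s ≠ t := fun h' => hK.ni (h' ▸ hs)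
      have hst' : s' ≠ t := fun h' => hK.ni (h' ▸ hs')
      refine B.two_le (x := (a t s).toLinearMap.restrict (hI0 t ht s hst))
        (y := (a t s').toLinearMap.restrict (hI0 t ht s' hst'))
        (Algebra.subset_adjoin ⟨s, hs, fun w => rfl⟩) (Algebra.subset_adjoin ⟨s', hs', fun w => rfl⟩) ?_
      intro heq
      exact hne (congrArg Subtype.val (LinearMap.congr_fun heq (⟨w, hw⟩ : W₀)))
    have hr := B.finrank_eq
    have hch := chain_on h hirr ht hK hW0 hI0 hm he hf B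
    obtain ⟨M, hMW, hMf, hMI⟩ := mult_on h ht hK hI0 hm he hf B
    have hcard : I.card = 1 + (K ∩ I).card + (I \ (insert t K)).card := by
      have h1 := Finset.card_inter_add_card_sdiff I (insert t K)
      have h2 : I ∩ insert t K = insert t (K ∩ I) := by
        ext x
        simp only [Finset.mem_inter, Finset.mem_insert]
        constructor
        · rintro ⟨h3, h4 | h4⟩
          · exact Or.inl h4
          · exact Or.inr ⟨h4, h3⟩
        · rintro (h3 | ⟨h3, h4⟩)
          · exact ⟨h3 ▸ ht, Or.inl h3⟩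
          · exact ⟨h4, Or.inr h3⟩
      rw [h2, Finset.card_insert_of_notMem fun h3 => hK.ni (Finset.mem_inter.1 h3).1] at h1
      omega
    obtain ⟨w, hw⟩ : ∃ w, w = m * e := ⟨_, rfl⟩
    have hw2 : 2 ≤ w := by
      rw [hw]
      calc 2 ≤ e := he2
        _ ≤ m * e := Nat.le_mul_of_pos_left e hm
    rw [← hw] at hr hch
    rcases Finset.eq_empty_or_nonempty (I \ (insert t K)) with hJ | hJ
    · rw [hJ, Finset.card_empty] at hcard
      have h1 : w ≤ w * f := Nat.le_mul_of_pos_right w hf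
      omega
    · have hMne : M ≠ ⊥ := by
        intro h1
        rw [h1, finrank_bot] at hMf
        omega
      have hJc : (I \ (insert t K)).card ≤ N := by omega
      obtain ⟨h1, h2⟩ := ih _ hJc hJ M hMne hMI
      rw [hMf] at h1 h2
      obtain ⟨w', rfl⟩ : ∃ w', w = w' + 2 := ⟨w - 2, by omega⟩
      obtain ⟨f', rfl⟩ : ∃ f', f = f' + 2 := ⟨f - 2, by omega⟩
      have h3 : (w' + 2) * (f' + 2) = w' * f' + 2 * w' + 2 * f' + 4 := by ring
      have h4 : 0 ≤ w' * f' := Nat.zero_le _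
      omega

/-- **DF (Lemma D).** Invariant subspaces of the group of the strands in `I`.

PROOF. Strong induction on `I.card`, for all `W`.  Let `W₀ ≤ W` be a nonzero subspace with `Inv a I W₀` of
minimal dimension; it satisfies `hmin` of `clifford_on`, and it suffices to prove the claim for `W₀`.
Let `t ∈ I`.  If some component `K` of `t` (`Comp a t K`) has `(K ∩ I).Nonempty` take it, otherwise
take any component `K` (`exists_comp`).  `clifford_on` gives `m, e, f` and `B`.  `e ≥ 2`: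
`comp_not_comm_on` (`Inv a I W₀` gives `InvS a t W₀`) and `Blk.two_le` (restrictions of `a t s`, `a t s'`).
Let `w = m * e ≥ 2`.  `finrank W₀ = w * f` (`Blk.finrank_eq`).  `chain_on`: `(K ∩ I).card + 1 ≤ 2 * w`.
`J = I \ (insert t K)`, `I.card = 1 + (K ∩ I).card + J.card` (`t ∈ I`, `t ∉ K`).
`mult_on` gives `M` of dimension `f > 0` with `Inv a J M`.
If `J = ∅`: `I.card = 1 + (K ∩ I).card ≤ 2 * w ≤ 2 * (w * f)`, and `2 ≤ w ≤ w * f`.
If `J ≠ ∅`: by induction (`J.card < I.card`) `2 ≤ f`, `J.card ≤ 2 * f`.  `w * f ≥ w + f` as `w, f ≥ 2`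
(`(w - 1) * (f - 1) ≥ 1`), so `2 * (w * f) ≥ 2 * w + 2 * f ≥ (K ∩ I).card + 1 + J.card = I.card`. -/
theorem card_le_finrank (h : PB a) (hirr : IrrF a) (hact : ∀ s, Act a s) (I : Finset (Fin n))
    (hne : I.Nonempty) {W : Submodule ℂ V} (hW : W ≠ ⊥) (hI : Inv a I W) :
    2 ≤ finrank ℂ W ∧ I.card ≤ 2 * finrank ℂ W := by
  exact DF_main h hirr hact I.card I le_rfl hne W hW hI
/- END DF -/

/- MODULE DH -/
omit [Nontrivial V] in
private theorem DH_mem {i : Fin n} {C : Finset (Fin n)} {x : V ≃ₗ[ℂ] V}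
    (hx : x ∈ Subgroup.closure {y | ∃ s ∈ C, y = a i s}) : x.toLinearMap ∈ alg a i C := by
  induction hx using Subgroup.closure_induction with
  | mem x hx =>
    obtain ⟨s, hs, rfl⟩ := hx
    exact Algebra.subset_adjoin ⟨s, hs, rfl⟩
  | one => exact Subalgebra.one_mem _
  | mul x y _ _ hx hy => exact Subalgebra.mul_mem _ hx hy
  | inv x _ hx =>
    obtain ⟨T', hT', h2⟩ := DC_inv (alg a i C) hx x.injective
    have : (x⁻¹ : V ≃ₗ[ℂ] V).toLinearMap = T' := by
      refine LinearMap.ext fun v => x.injective ?_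
      show x (x⁻¹ v) = x (T' v)
      have h3 : x (T' v) = v := LinearMap.congr_fun h2 v
      rw [h3]
      exact LinearEquiv.congr_fun (mul_inv_cancel x) v
    rw [this]
    exact hT'

/-- **DH.** The generators normalise the algebra of a component. -/
theorem nrm_alg (h : PB a) {i : Fin n} {C : Finset (Fin n)} (hC : Comp a i C) {g : V ≃ₗ[ℂ] V}
    (hg : g ∈ gp a) : Nrm (alg a i C) g := by
  have key : ∀ g : V ≃ₗ[ℂ] V, g ∈ gp a → ∀ T ∈ alg a i C,
      g.toLinearMap ∘ₗ T ∘ₗ g.symm.toLinearMap ∈ alg a i C := by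
    intro g hg T hT
    refine DC_adj ?_ hT
    rintro T ⟨s, hs, rfl⟩
    exact DH_mem (comp_norm h hC hg (Subgroup.subset_closure ⟨s, hs, rfl⟩))
  intro T hT
  exact ⟨key g hg T hT, key g⁻¹ ((gp a).inv_mem hg) T hT⟩

/-- **DH (b).** The blocks of a component. -/
theorem exists_blk (h : PB a) (hirr : IrrF a) {i : Fin n} {C : Finset (Fin n)}
    (hC : Comp a i C) : ∃ m e f : ℕ, 0 < m ∧ 0 < e ∧ 0 < f ∧ Nonempty (Blk (alg a i C) m e f) := by
  refine clifford {g | g ∈ gp a} (fun g hg => nrm_alg h hC hg) ?_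
  intro U _ hU
  exact hirr U fun i j hij x hx => hU _ (mem_gp hij) x hx
/- END DH -/

/- MODULE DJ -/
omit [FiniteDimensional ℂ V] [Nontrivial V] in
private theorem DJ_comm {i : Fin n} {C : Finset (Fin n)} {g : V ≃ₗ[ℂ] V}
    (hg : ∀ s ∈ C, Commute g (a i s)) : ∀ x ∈ alg a i C,
      g.toLinearMap ∘ₗ x = x ∘ₗ g.toLinearMap := by
  intro x hx
  induction hx using Algebra.adjoin_induction with
  | mem x hx =>
    obtain ⟨s, hs, rfl⟩ := hx
    exact comp_eq_of_commute (hg s hs)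
  | algebraMap r => exact (Algebra.commutes r g.toLinearMap).symm
  | add x y _ _ hx hy => rw [LinearMap.comp_add, LinearMap.add_comp, hx, hy]
  | mul x y _ _ hx hy =>
    show g.toLinearMap ∘ₗ (x ∘ₗ y) = (x ∘ₗ y) ∘ₗ g.toLinearMap
    rw [← LinearMap.comp_assoc, hx, LinearMap.comp_assoc, hy, LinearMap.comp_assoc]

omit [FiniteDimensional ℂ V] [Nontrivial V] in
private theorem DJ_uniq {A : Subalgebra ℂ (Module.End ℂ V)} {m e f : ℕ} (B : Blk A m e f)
    (he : 0 < e) (hf : 0 < f) {g : V ≃ₗ[ℂ] V} {b c c' : Fin m} (h1 : B.Mv g b c)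
    (h2 : B.Mv g b c') : c = c' := by
  classical
  by_contra hne
  obtain ⟨M, hM⟩ : ∃ M : Matrix (Fin e) (Fin f) ℂ, M ≠ 0 := by
    refine ⟨Matrix.of fun _ _ => 1, fun h0 => ?_⟩
    have h3 : (Matrix.of fun _ _ => 1 : Matrix (Fin e) (Fin f) ℂ) ⟨0, he⟩ ⟨0, hf⟩ = 0 := by
      rw [h0, Matrix.zero_apply]
    exact one_ne_zero h3
  obtain ⟨w, hw⟩ : ∃ w, w = B.φ.symm (Pi.single b M) := ⟨_, rfl⟩
  have hwφ : B.φ w = Pi.single b M := by
    rw [hw, B.φ.apply_symm_apply]
  have hb : ∀ d, d ≠ b → B.φ w d = 0 := by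
    intro d hd
    rw [hwφ, Pi.single_eq_of_ne hd]
  have h3 : B.φ (g w) = 0 := by
    funext d
    by_cases hd : d = c
    · exact h2 w hb d (fun h' => hne (hd.symm.trans h'))
    · exact h1 w hb d hd
  have h4 : w = 0 := by
    have h5 := (LinearEquiv.map_eq_zero_iff B.φ).1 h3
    exact (LinearEquiv.map_eq_zero_iff g).1 h5
  rw [h4, map_zero] at hwφ
  apply hM
  have h5 := congrFun hwφ b
  rw [Pi.single_eq_same] at h5
  exact h5.symm

/-- **DJ.** Few strands which are transitive on the blocks.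

PROOF. `π g := ` the permutation of the blocks of `a s t` (`nrm_alg`, `Blk.perm`) for the index type
`ι = {(s, t) // s ∈ C ∧ t ∈ C ∧ s ≠ t}`.  `htr` of `exists_gens`: let `J` be nonempty and invariant under
these; it is invariant under all `a k l`, `k ≠ l`: if `k ∉ C ∪ {i}` (or `l`) `a k l` commutes with the
algebra (`comp_comm` and generation) and preserves each block (`Blk.fix` for the permutation of
`Blk.perm`); if `k = i`, `l ∈ C`, then `a i l` is in the algebra: `Blk.fix`; if both `k, l ∈ C` by assumption.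
`Blk.tr_of_irr` for `S = {a k l | k ≠ l}` (`hirr`): `J` is everything.  So `exists_gens` gives `T` with at most
`m - 1` pairs; `R` = all strands in these pairs, `R.card ≤ 2 * (m - 1)`; if `m = 1` (so `T = ∅`) or `R = ∅`
take `R = {r}`, `r ∈ C`, instead.  `B.Tr {a s t | s, t ∈ R}`: `J` invariant under them is invariant under
the `π g`, `g ∈ T` (`Mv (a s t) b (π b)`). -/
theorem exists_R (h : PB a) (hirr : IrrF a) {i : Fin n} {C : Finset (Fin n)} (hC : Comp a i C)
    {m e f : ℕ} (hm : 0 < m) (he : 0 < e) (hf : 0 < f) (B : Blk (alg a i C) m e f) :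
    ∃ R ⊆ C, R.Nonempty ∧ R.card ≤ max 1 (2 * (m - 1)) ∧
      B.Tr {g | ∃ s ∈ R, ∃ t ∈ R, s ≠ t ∧ g = a s t} := by
  have hex : ∀ g : {st : Fin n × Fin n // st.1 ∈ C ∧ st.2 ∈ C ∧ st.1 ≠ st.2},
      ∃ σ : Equiv.Perm (Fin m), ∀ b, B.Mv (a g.1.1 g.1.2) b (σ b) :=
    fun g => B.perm he hf (nrm_alg h hC (mem_gp g.2.2.2))
  choose π hπ using hex
  have hcomm : ∀ {t l : Fin n}, t ∉ C → t ≠ i → l ≠ t → ∀ x ∈ alg a i C,
      (a t l).toLinearMap ∘ₗ x = x ∘ₗ (a t l).toLinearMap := by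
    intro t l htC hti hlt
    refine DJ_comm fun s hs => ?_
    exact comp_comm h hC htC hti hlt hs
  obtain ⟨T, hTc, hT⟩ := exists_gens π (by
    intro J hJ hinv
    refine B.tr_of_irr he hf {g | ∃ k l, k ≠ l ∧ g = a k l} ?_ ?_ J hJ ?_
    · rintro g ⟨k, l, hkl, rfl⟩
      exact nrm_alg h hC (mem_gp hkl)
    · intro U hU
      exact hirr U fun k l hkl => hU _ ⟨k, l, hkl, rfl⟩
    · rintro g ⟨k, l, hkl, rfl⟩ b hb b' hMv
      by_cases hki : k = i
      · by_cases hlC : l ∈ C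
        · rw [B.fix he hf (Or.inl (Algebra.subset_adjoin ⟨l, hlC, by rw [hki]⟩)) hMv]
          exact hb
        · have hMv' : B.Mv (a l k) b b' := by rwa [h.symm l k]
          rw [B.fix he hf (Or.inr (hcomm hlC (by rw [← hki]; exact hkl.symm) hkl)) hMv']
          exact hb
      · by_cases hkC : k ∈ C
        · by_cases hli : l = i
          · have hMv' : B.Mv (a l k) b b' := by rwa [h.symm l k]
            rw [B.fix he hf (Or.inl (Algebra.subset_adjoin ⟨k, hkC, by rw [hli]⟩)) hMv']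
            exact hb
          · by_cases hlC : l ∈ C
            · have h1 := hπ ⟨(k, l), hkC, hlC, hkl⟩ b
              rw [DJ_uniq B he hf hMv h1]
              exact hinv ⟨(k, l), hkC, hlC, hkl⟩ b hb
            · have hMv' : B.Mv (a l k) b b' := by rwa [h.symm l k]
              rw [B.fix he hf (Or.inr (hcomm hlC hli hkl)) hMv']
              exact hb
        · rw [B.fix he hf (Or.inr (hcomm hkC hki hkl.symm)) hMv]
          exact hb)
  obtain ⟨R₀, hR₀⟩ : ∃ R₀, R₀ = T.image (fun g => g.1.1) ∪ T.image (fun g => g.1.2) := ⟨_, rfl⟩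
  have hR₀C : R₀ ⊆ C := by
    intro x hx
    rw [hR₀, Finset.mem_union] at hx
    rcases hx with hx | hx
    · obtain ⟨g, _, rfl⟩ := Finset.mem_image.1 hx
      exact g.2.1
    · obtain ⟨g, _, rfl⟩ := Finset.mem_image.1 hx
      exact g.2.2.1
  have hR₀c : R₀.card ≤ 2 * (m - 1) := by
    rw [hR₀]
    refine (Finset.card_union_le _ _).trans ?_
    have h1 : (T.image (fun g => g.1.1)).card ≤ T.card := Finset.card_image_le
    have h2 : (T.image (fun g => g.1.2)).card ≤ T.card := Finset.card_image_le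
    omega
  have hmem : ∀ g ∈ T, g.1.1 ∈ R₀ ∧ g.1.2 ∈ R₀ := by
    intro g hg
    rw [hR₀, Finset.mem_union, Finset.mem_union]
    exact ⟨Or.inl (Finset.mem_image_of_mem _ hg), Or.inr (Finset.mem_image_of_mem _ hg)⟩
  rcases Finset.eq_empty_or_nonempty R₀ with hE | hE
  · obtain ⟨r, hr, _⟩ := hC.ne
    refine ⟨{r}, Finset.singleton_subset_iff.2 hr, Finset.singleton_nonempty r, ?_, ?_⟩
    · rw [Finset.card_singleton]
      exact le_max_left _ _
    · intro J hJ _
      refine hT J hJ fun g hg => ?_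
      have h1 := (hmem g hg).1
      rw [hE] at h1
      exact absurd h1 (Finset.notMem_empty _)
  · refine ⟨R₀, hR₀C, hE, hR₀c.trans (le_max_right _ _), ?_⟩
    intro J hJ hinv
    refine hT J hJ fun g hg b hb => ?_
    exact hinv _ ⟨g.1.1, (hmem g hg).1, g.1.2, (hmem g hg).2, g.2.2.2, rfl⟩ b hb _ (hπ g b)
/- END DJ -/

/- MODULE DK -/
omit [Nontrivial V] in
private theorem DK_inv {A : Subalgebra ℂ (Module.End ℂ V)} {g : V ≃ₗ[ℂ] V}
    (hg : g.toLinearMap ∈ A) : (g⁻¹ : V ≃ₗ[ℂ] V).toLinearMap ∈ A := by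
  have hfin : FiniteDimensional ℂ A :=
    inferInstanceAs (FiniteDimensional ℂ (Subalgebra.toSubmodule A))
  let L : A →ₗ[ℂ] A := LinearMap.mulLeft ℂ (⟨g.toLinearMap, hg⟩ : A)
  have hinj : Function.Injective L := by
    rw [← LinearMap.ker_eq_bot, LinearMap.ker_eq_bot']
    intro x hx
    have h1 : g.toLinearMap ∘ₗ (x : Module.End ℂ V) = 0 := congrArg Subtype.val hx
    refine Subtype.ext (LinearMap.ext fun v => ?_)
    have h2 := LinearMap.congr_fun h1 v
    exact (LinearEquiv.map_eq_zero_iff g).1 h2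
  obtain ⟨x, hx⟩ := (LinearMap.injective_iff_surjective.1 hinj) 1
  have h1 : g.toLinearMap ∘ₗ (x : Module.End ℂ V) = LinearMap.id := congrArg Subtype.val hx
  have h2 : (g⁻¹ : V ≃ₗ[ℂ] V).toLinearMap = (x : Module.End ℂ V) := by
    refine LinearMap.ext fun v => ?_
    show g.symm v = (x : Module.End ℂ V) v
    rw [LinearEquiv.symm_apply_eq]
    exact (LinearMap.congr_fun h1 v).symm
  rw [h2]
  exact x.2

omit [Nontrivial V] in
private theorem DK_closure {i : Fin n} {C : Finset (Fin n)} :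
    ∀ g ∈ Subgroup.closure {y | ∃ s ∈ C, y = a i s}, g.toLinearMap ∈ alg a i C := by
  intro g hg
  induction hg using Subgroup.closure_induction with
  | mem g hg =>
    obtain ⟨s, hs, rfl⟩ := hg
    exact Algebra.subset_adjoin ⟨s, hs, rfl⟩
  | one => exact one_mem _
  | mul u v _ _ hu hv => exact mul_mem hu hv
  | inv u _ hu => exact DK_inv hu

/-- **DK (Lemma W).** The size of a component.

PROOF. `2 ≤ e`: `hC.ne` and `Blk.two_le`.  Take `R` from `exists_R`, `p = C.card - R.card`,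
`exists_chain` with this `R`: `x k, y k`.  `B.chain_one` with `H = {a s t | s, t ∈ R, s ≠ t}`:
`(x k).toLinearMap ∈ alg a i C` (`x k ∈ closure {a i s | s ∈ C}` by `comp_norm`, and this closure is in the
algebra, see DH); `y k` is a conjugate of `a (t k) (t' k)` by `g ∈ gp a`, so in `gp a`: `nrm_alg`.
So `p + 2 ≤ 2 * e`. -/
theorem card_comp (h : PB a) (hirr : IrrF a) {i : Fin n} {C : Finset (Fin n)} (hC : Comp a i C)
    {m e f : ℕ} (hm : 0 < m) (he : 0 < e) (hf : 0 < f) (B : Blk (alg a i C) m e f) :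
    2 ≤ e ∧ C.card + 2 ≤ 2 * e + max 1 (2 * (m - 1)) := by
  have h2e : 2 ≤ e := by
    obtain ⟨s, hs, t, ht, hadj⟩ := hC.ne
    refine B.two_le (Algebra.subset_adjoin ⟨s, hs, rfl⟩) (Algebra.subset_adjoin ⟨t, ht, rfl⟩) ?_
    intro heq
    exact hadj.2.2.2 (commute_of_comp_eq heq)
  refine ⟨h2e, ?_⟩
  obtain ⟨R, hRC, hRne, hRc, hTr⟩ := exists_R h hirr hC hm he hf B
  have hle := Finset.card_le_card hRC
  obtain ⟨x, y, t, t', ht, hg, hnc, hcm, hR⟩ := exists_chain h hC hRC hRne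
    (p := C.card - R.card) (by omega)
  have hp := B.chain_one hm he hf {g | ∃ s ∈ R, ∃ t ∈ R, s ≠ t ∧ g = a s t}
    (by
      rintro g ⟨s, hs, t, ht, hst, rfl⟩
      exact nrm_alg h hC (mem_gp hst)) hTr x y
    (by
      intro k
      obtain ⟨g, hg, hx, _⟩ := hg k
      rw [hx]
      refine DK_closure _ (comp_norm h hC hg (Subgroup.subset_closure ⟨t k, (ht k).1, rfl⟩)))
    (by
      intro k
      obtain ⟨g, hg, _, hy⟩ := hg k
      refine nrm_alg h hC ?_
      rw [hy]
      exact mul_mem (mul_mem hg (mem_gp (ht k).2.2.2.2.2.1)) (inv_mem hg)) hnc hcm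
    (by
      rintro k g ⟨s, hs, s', hs', hne, rfl⟩
      exact hR k s hs s' hs' hne)
  omega
/- END DK -/

/- MODULE DL -/
/-- **DL.** The strands outside the component.

PROOF. `B.exists_mult` gives `M` of dimension `f > 0`, invariant under the commutant of `alg a i C`, so
`Inv a (Finset.univ \ (insert i C)) M` (`comp_comm` and generation of the algebra); `card_le_finrank`. -/
theorem card_out (h : PB a) (hirr : IrrF a) (hact : ∀ s, Act a s) {i : Fin n}
    {C : Finset (Fin n)} (hC : Comp a i C) {m e f : ℕ} (hm : 0 < m) (he : 0 < e) (hf : 0 < f)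
    (B : Blk (alg a i C) m e f) (hne : (Finset.univ \ (insert i C)).Nonempty) :
    2 ≤ f ∧ (Finset.univ \ (insert i C)).card ≤ 2 * f := by
  obtain ⟨M, hMf, hM⟩ := B.exists_mult hm he
  have hMne : M ≠ ⊥ := by
    intro h1
    rw [h1, finrank_bot] at hMf
    omega
  have hI : Inv a (Finset.univ \ (insert i C)) M := by
    intro t ht j hj x hx
    rw [Finset.mem_sdiff, Finset.mem_insert, not_or] at ht
    obtain ⟨_, hti, htC⟩ := ht
    refine hM (a t j).toLinearMap ?_ x hx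
    intro y hy
    induction hy using Algebra.adjoin_induction with
    | mem y hy =>
      obtain ⟨s, hs, rfl⟩ := hy
      exact comp_eq_of_commute (comp_comm h hC htC hti hj hs)
    | algebraMap r => exact (Algebra.commutes r (a t j).toLinearMap).symm
    | add y z _ _ hy hz => rw [mul_add, add_mul, hy, hz]
    | mul y z _ _ hy hz => rw [← mul_assoc, hy, mul_assoc, hz, mul_assoc]
  have h1 := card_le_finrank h hirr hact _ hne hMne hI
  rw [hMf] at h1
  exact h1
/- END DL -/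

/- MODULE DM -/
/-- **DM.** If all strands are irreducible and active then all triples do not commute.

PROOF. `SchurP a` (PB3/Active.lean): a `T` which commutes with all `a s j` is a scalar (`PB3.schur` with
`AllIrr`), so `Cen` (`cen_of_scalar`); then `PB3.not_comm`. -/
theorem allNC_of_allIrr (h : PB a) (hact : ∀ s, Act a s) (hI : AllIrr a) : AllNC a := by
  have hS : SchurP a := by
    intro s _ T hT
    obtain ⟨c, hc⟩ := schur (S := {f | ∃ j, j ≠ s ∧ f = a s j})
      (fun W hW => hI s W fun j hj x hx => hW _ ⟨j, hj, rfl⟩ x hx) T (by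
        rintro f ⟨j, hj, rfl⟩
        exact hT j hj)
    exact cen_of_scalar hc
  intro i j k hij hik hjk
  exact not_comm h hS (hact i) (hact j) (hact k) hij hik hjk
/- END DM -/

/-- **The three cases.** -/
theorem trichotomy (h : PB a) (hirr : IrrF a) (hact : ∀ s, Act a s) :
    n ≤ finrank ℂ V + 1 ∨ (AllIrr a ∧ AllNC a) ∨
    ∃ (i : Fin n) (C : Finset (Fin n)) (e f : ℕ), Comp a i C ∧ 2 ≤ e ∧ 2 ≤ f ∧
      C.card + 1 ≤ 2 * e ∧ (Finset.univ \ (insert i C)).card ≤ 2 * f ∧ finrank ℂ V = e * f ∧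
      Nonempty (Blk (alg a i C) 1 e f) := by
  by_cases hall : ∀ (i : Fin n) (C : Finset (Fin n)) (m e f : ℕ), Comp a i C → 0 < m → 0 < e →
      0 < f → Nonempty (Blk (alg a i C) m e f) → Finset.univ \ (insert i C) = ∅ ∧ m = 1 ∧ f = 1
  · right; left
    have hI : AllIrr a := by
      intro s W hW
      obtain ⟨C, hC⟩ := exists_comp h hirr (hact s)
      obtain ⟨m, e, f, hm, he, hf, ⟨B⟩⟩ := exists_blk h hirr hC
      obtain ⟨h1, rfl, rfl⟩ := hall s C m e f hC hm he hf ⟨B⟩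
      have htop := B.top
      have hinv : ∀ T ∈ alg a s C, ∀ x ∈ W, T x ∈ W := by
        intro T hT
        induction hT using Algebra.adjoin_induction with
        | mem T hT =>
          obtain ⟨t, ht, rfl⟩ := hT
          intro x hx
          exact hW t (fun h' => hC.ni (h' ▸ ht)) x hx
        | algebraMap r =>
          intro x hx
          rw [Module.algebraMap_end_apply]
          exact W.smul_mem _ hx
        | add T T' _ _ hT hT' =>
          intro x hx
          exact W.add_mem (hT x hx) (hT' x hx)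
        | mul T T' _ _ hT hT' =>
          intro x hx
          exact hT _ (hT' x hx)
      by_cases hbot : W = ⊥
      · exact Or.inl hbot
      · right
        obtain ⟨w, hw, hw0⟩ := (Submodule.ne_bot_iff W).1 hbot
        rw [eq_top_iff]
        intro v _
        obtain ⟨φ, hφ⟩ : ∃ φ : V →ₗ[ℂ] ℂ, φ w ≠ 0 := by
          by_contra hcon
          push Not at hcon
          exact hw0 ((Module.forall_dual_apply_eq_zero_iff ℂ w).1 hcon)
        have hT : ((φ w)⁻¹ • LinearMap.smulRight φ v : Module.End ℂ V) ∈ alg a s C := by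
          rw [htop]; exact Algebra.mem_top
        have := hinv _ hT w hw
        simpa [smul_smul, inv_mul_cancel₀ hφ] using this
    exact ⟨hI, allNC_of_allIrr h hact hI⟩
  · push Not at hall
    obtain ⟨i, C, m, e, f, hC, hm, he, hf, ⟨B⟩, hX⟩ := hall
    obtain ⟨h2e, hcard⟩ := card_comp h hirr hC hm he hf B
    have hr := B.finrank_eq
    have hn : (Finset.univ \ (insert i C)).card + (C.card + 1) = n := by
      have h1 : (insert i C).card = C.card + 1 := Finset.card_insert_of_notMem hC.ni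
      have h2 := Finset.card_sdiff_add_card_eq_card (Finset.subset_univ (insert i C))
      rw [h1, Finset.card_univ, Fintype.card_fin] at h2
      exact h2
    rcases Finset.eq_empty_or_nonempty (Finset.univ \ (insert i C)) with hE | hE
    · left
      rw [hE, Finset.card_empty, zero_add] at hn
      rcases Nat.lt_or_ge 1 m with hm2 | hm1
      · -- at least two blocks
        have h1 : max 1 (2 * (m - 1)) = 2 * (m - 1) := max_eq_right (by omega)
        rw [h1] at hcard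
        obtain ⟨m', rfl⟩ : ∃ m', m = m' + 2 := ⟨m - 2, by omega⟩
        obtain ⟨e', rfl⟩ : ∃ e', e = e' + 2 := ⟨e - 2, by omega⟩
        obtain ⟨f', rfl⟩ : ∃ f', f = f' + 1 := ⟨f - 1, by omega⟩
        have h3 : C.card ≤ (m' + 2) * (e' + 2) := by
          have : m' + 2 - 1 = m' + 1 := by omega
          rw [this] at hcard
          nlinarith [Nat.zero_le (m' * e')]
        have h4 : (m' + 2) * (e' + 2) ≤ (m' + 2) * (e' + 2) * (f' + 1) :=
          Nat.le_mul_of_pos_right _ (by omega)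
        omega
      · have hm1' : m = 1 := by omega
        subst hm1'
        have hf2 : f ≠ 1 := hX hE rfl
        have h1 : max 1 (2 * (1 - 1)) = 1 := by norm_num
        rw [h1] at hcard
        have h3 : e * 2 ≤ 1 * e * f := by
          rw [one_mul]
          exact Nat.mul_le_mul_left e (by omega)
        omega
    · obtain ⟨hf2, hx⟩ := card_out h hirr hact hC hm he hf B hE
      rcases Nat.lt_or_ge 1 m with hm2 | hm1
      · left
        have h1 : max 1 (2 * (m - 1)) = 2 * (m - 1) := max_eq_right (by omega)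
        rw [h1] at hcard
        obtain ⟨m', rfl⟩ : ∃ m', m = m' + 2 := ⟨m - 2, by omega⟩
        obtain ⟨e', rfl⟩ : ∃ e', e = e' + 2 := ⟨e - 2, by omega⟩
        obtain ⟨f', rfl⟩ : ∃ f', f = f' + 2 := ⟨f - 2, by omega⟩
        have h3 : C.card ≤ (m' + 2) * (e' + 2) := by
          have : m' + 2 - 1 = m' + 1 := by omega
          rw [this] at hcard
          nlinarith [Nat.zero_le (m' * e')]
        have h5 : 4 ≤ (m' + 2) * (e' + 2) := by nlinarith [Nat.zero_le (m' * e')]
        obtain ⟨w, hw⟩ : ∃ w, (m' + 2) * (e' + 2) = w + 4 := ⟨(m' + 2) * (e' + 2) - 4, by omega⟩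
        rw [hw] at h3 hr
        have h6 : (w + 4) * (f' + 2) = w * f' + 2 * w + 4 * f' + 8 := by ring
        have h7 : 0 ≤ w * f' := Nat.zero_le _
        omega
      · have hm1' : m = 1 := by omega
        subst hm1'
        right; right
        have h1 : max 1 (2 * (1 - 1)) = 1 := by norm_num
        rw [h1] at hcard
        refine ⟨i, C, e, f, hC, h2e, hf2, by omega, hx, ?_, ⟨B⟩⟩
        rw [hr, one_mul]

end Pool.Agent.PF54
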