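import Pool.Agent.PF54.Defs
import Pool.Agent.K14.CaseA

/-! # The theorems of helper88 and of helper14, helper80 in the form of this library -/

set_option autoImplicit false

namespace Pool.Agent.PF54

open Pool.Agent.Conf14 (PB)
open Pool.Agent.PB3
open Pool.Agent.Bst88
open Module

variable {n : ℕ} {V : Type*} [AddCommGroup V] [Module ℂ V] [FiniteDimensional ℂ V] [Nontrivial V]
  {a : Fin n → Fin n → (V ≃ₗ[ℂ] V)}

/-- **Theorem S.** -/
theorem thmS (h : PB a) (hnc : AllNC a) : n ≤ finrank ℂ V + 2 :=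
  Pool.Agent.Bst88.thmS h hnc

/-- **The case of equality when all triples do not commute.** -/
theorem eq_lau (h : PB a) (hs : Sph a) (hI : AllIrr a) (hnc : AllNC a)
    (hn : n = finrank ℂ V + 2) (h4 : finrank ℂ V ≠ 4) {i j : Fin n} (hij : i ≠ j) :
    Lau (a i j).toLinearMap := by
  have hG : Pool.Agent.K14.GA a := ⟨h, hI, hnc, hs⟩
  rcases Nat.lt_or_ge n 4 with hn4 | hn4
  · -- rank one
    have hpos : 0 < finrank ℂ V := finrank_pos
    have h1 : finrank ℂ V = 1 := by omega
    refine ⟨0, ?_⟩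
    rw [← h1]
    exact Submodule.finrank_le _
  · exact (Pool.Agent.K14.caseA hG hn4 (by omega) (fun h' => h4 h'.2)).2 i j hij

end Pool.Agent.PF54
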