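import Pool.Agent.PB3.Defs
import Mathlib.LinearAlgebra.TensorProduct.Map

/-!
# The notions in the statement
-/

set_option autoImplicit false

namespace Pool.Agent.PF54

open Pool.Agent.Conf14 Pool.Agent.PB3
open scoped TensorProduct

variable {n : ℕ} {V : Type*} [AddCommGroup V] [Module ℂ V]

/-- the pure braid in which the strand `i` goes around all the other strands: the product of the
generators `A i j` (`A j i` if `j < i`), `j ≠ i`, in increasing order of `j` -/
def around {m : ℕ} (i : Fin m) : PureBraid m :=
  ((List.finRange m).map fun j =>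
    if h : i < j then A i j h else if h : j < i then A j i h else 1).prod

/-- `ρ` is, up to a character `χ`, the pullback of a representation `σ` of the pure braid group on
at most `b` strands under a forgetful homomorphism, or on `b + 1` strands if `σ` is scalar on the
loops of the strands around all the others (`σ` comes from the moduli space of `b + 1` points of the
projective line); if the eigenvalues of the generators are roots of unity, then `χ` has finite
order. -/
def FromFew (ρ : PureBraid n → V →ₗ[ℂ] V) (b : ℕ) : Prop :=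
  ∃ (m : ℕ) (e : Fin m ↪o Fin n) (F : PureBraid n →* PureBraid m)
    (σ : Representation ℂ (PureBraid m) V) (χ : PureBraid n →* ℂˣ),
    (m ≤ b ∨ (m = b + 1 ∧ ∀ i, ∃ c : ℂ, σ (around i) = c • LinearMap.id)) ∧
    IsForgetful e F ∧ (∀ g, ρ g = (χ g : ℂ) • σ (F g)) ∧
    (RootEig ρ → ∃ N : ℕ, 0 < N ∧ ∀ g, χ g ^ N = 1)

/-- `ρ` is isomorphic to the tensor product of `τ` and `σ` -/
def IsTensor {G E M : Type*} [AddCommGroup E] [Module ℂ E] [AddCommGroup M] [Module ℂ M]
    (ρ : G → V →ₗ[ℂ] V) (τ : G → E →ₗ[ℂ] E) (σ : G → M →ₗ[ℂ] M) : Prop :=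
  ∃ ψ : V ≃ₗ[ℂ] E ⊗[ℂ] M, ∀ g x, ψ (ρ g x) = TensorProduct.map (τ g) (σ g) (ψ x)

/-- `τ` is the pullback of a representation of the fundamental group of the line minus three
points under a forgetful map or a cross ratio map -/
def OnLine (τ : PureBraid n → V →ₗ[ℂ] V) : Prop :=
  ∃ (q : PureBraid n →* FreeGroup (Fin 2)) (τ' : Representation ℂ (FreeGroup (Fin 2)) V),
    (IsForget q ∨ IsCross q) ∧ ∀ g, τ g = τ' (q g)

/-- `ρ` is the tensor product of a representation `τ` of rank two which is the pullback of a
representation of the fundamental group of the line minus three points, and of an irreducible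
representation `σ` of rank `k`; if the eigenvalues of the generators are roots of unity for `ρ`
then they are so for both factors. -/
def TimesLine (ρ : PureBraid n → V →ₗ[ℂ] V) (k : ℕ) : Prop :=
  ∃ (τ : Representation ℂ (PureBraid n) (Fin 2 → ℂ))
    (σ : Representation ℂ (PureBraid n) (Fin k → ℂ)),
    OnLine τ ∧ σ.IsIrreducible ∧ IsTensor ρ τ σ ∧ (RootEig ρ → RootEig τ ∧ RootEig σ)

/-- the exceptional ranks -/
def IsExc (r : ℕ) : Prop := r = 4 ∨ r = 6 ∨ r = 8

/-- the number of points in rank `r` -/
def bnd (r : ℕ) : ℕ := if r = 4 then 5 else r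

end Pool.Agent.PF54
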