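import Pool.Agent.PF54.Prod
import Pool.Agent.PF54.Stmt
import Pool.Agent.PB3.StabMain
import Pool.Agent.PB3.Stmt

/-! # The final theorem -/

set_option autoImplicit false

namespace Pool.Agent.PF54

open Pool.Agent.Conf14 hiding IrrF
open Pool.Agent.PB3
open Pool.Agent.Bst88
open Module
open FreeGroup (of lift)
open scoped TensorProduct

variable {n : ℕ} {V : Type*} [AddCommGroup V] [Module ℂ V]

/-- factorisation over the active strands -/
theorem factor_active [FiniteDimensional ℂ V] [Nontrivial V]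
    (ρ : Representation ℂ (PureBraid n) V) [ρ.IsIrreducible] (T : Finset (Fin n))
    (hact : ∀ s, s ∈ T ↔ Act (fam ρ) s) :
    ∃ (F : PureBraid n →* PureBraid T.card)
      (σ : Representation ℂ (PureBraid T.card) V) (χ : PureBraid n →* ℂˣ),
      (∀ i j, fam σ i j = fam ρ (T.orderEmbOfFin rfl i) (T.orderEmbOfFin rfl j)) ∧
      IsForgetful (T.orderEmbOfFin rfl) F ∧ (∀ g, ρ g = (χ g : ℂ) • σ (F g)) ∧
      (RootEig ρ → ∃ N : ℕ, 0 < N ∧ ∀ g, χ g ^ N = 1) := by
  classical
  obtain ⟨e, he⟩ : ∃ e : Fin T.card ↪o Fin n, e = T.orderEmbOfFin rfl := ⟨_, rfl⟩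
  rw [← he]
  have hrange : ∀ s, s ∈ Set.range e ↔ Act (fam ρ) s := by
    intro s
    rw [← hact]
    have : Set.range e = (T : Set (Fin n)) := by rw [he]; exact Finset.range_orderEmbOfFin T rfl
    rw [this, Finset.mem_coe]
  obtain ⟨F, hF⟩ := exists_forgetful e
  obtain ⟨S, hS⟩ := exists_section e
  have hgen : ∀ s t : Fin n, s < t → (∃ i j, i < j ∧ e i = s ∧ e j = t) ∨
      ¬ (s ∈ Set.range e ∧ t ∈ Set.range e) := by
    intro s t hst
    by_cases h : s ∈ Set.range e ∧ t ∈ Set.range e
    · left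
      obtain ⟨⟨i, rfl⟩, ⟨j, rfl⟩⟩ := h
      exact ⟨i, j, e.lt_iff_lt.1 hst, rfl, rfl⟩
    · exact Or.inr h
  have hcen : ∀ g, Cen (toEq ρ g * ((((toEq ρ).comp S).comp F) g)⁻¹) := by
    apply factor_cen
    intro s t hst
    rw [MonoidHom.comp_apply, MonoidHom.comp_apply]
    rcases hgen s t hst with ⟨i, j, hij, rfl, rfl⟩ | h
    · rw [hF.1 i j hij, hS i j hij, mul_inv_cancel]
      exact Cen.one
    · rw [hF.2 s t hst h, map_one, map_one, inv_one, mul_one, ← B_lt hst]
      have h1 : ¬ (Act (fam ρ) s ∧ Act (fam ρ) t) := fun h' =>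
        h ⟨(hrange s).2 h'.1, (hrange t).2 h'.2⟩
      exact cen_of_not_act (fam_pb ρ) hst.ne h1
  obtain ⟨χ, hχ⟩ := exists_chi ρ (((toEq ρ).comp S).comp F) hcen
  have hρ : ∀ g, ρ g = (χ g : ℂ) • (MonoidHom.comp ρ S) (F g) := by
    intro g
    ext x
    exact hχ g x
  refine ⟨F, MonoidHom.comp ρ S, χ, ?_, hF, hρ, fun hroot => ?_⟩
  · have key : ∀ i j : Fin T.card, i < j →
        fam (MonoidHom.comp ρ S) i j = fam ρ (e i) (e j) := by
      intro i j hij
      refine LinearEquiv.ext fun x => ?_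
      rw [fam_lt _ hij, fam_lt ρ (e.strictMono hij)]
      show ρ (S (A i j hij)) x = _
      rw [hS i j hij]
    intro i j
    rcases lt_trichotomy i j with h | h | h
    · exact key i j h
    · subst h
      have e1 : ∀ {m : ℕ} (σ : Representation ℂ (PureBraid m) V) (i : Fin m),
          fam σ i i = 1 := by
        intro m σ i
        rw [fam, B, dif_neg (lt_irrefl _), dif_neg (lt_irrefl _), map_one]
      rw [e1, e1]
    · rw [(fam_pb _).symm i j, (fam_pb ρ).symm (e i)]
      exact key j i h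
  obtain ⟨u, hu⟩ := exists_ne (0 : V)
  have hfin : ∀ s t (hst : s < t), IsOfFinOrder (χ (A s t hst)) := by
    intro s t hst
    rcases hgen s t hst with ⟨i, j, hij, rfl, rfl⟩ | h
    · have h1 := hχ (A (e i) (e j) hst) u
      have h2 : (((toEq ρ).comp S).comp F) (A (e i) (e j) hst) u =
          ρ (A (e i) (e j) hst) u := by
        rw [MonoidHom.comp_apply, MonoidHom.comp_apply, hF.1 i j hij, hS i j hij]
        rfl
      rw [h2] at h1
      have h3 : ρ (A (e i) (e j) hst) u ≠ 0 := by
        intro h0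
        apply hu
        apply (toEq ρ (A (e i) (e j) hst)).injective
        rw [map_zero]
        exact h0
      have h4 : χ (A (e i) (e j) hst) = 1 := by
        apply Units.ext
        apply smul_left_injective ℂ h3
        show (χ (A (e i) (e j) hst) : ℂ) • ρ (A (e i) (e j) hst) u = ((1 : ℂˣ) : ℂ) •
          ρ (A (e i) (e j) hst) u
        rw [← h1, Units.val_one, one_smul]
      rw [h4]
      exact IsOfFinOrder.one
    · have h1 := hχ (A s t hst) u
      have h2 : (((toEq ρ).comp S).comp F) (A s t hst) u = u := by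
        rw [MonoidHom.comp_apply, hF.2 s t hst h, map_one]
        rfl
      rw [h2] at h1
      obtain ⟨k, hk, h3⟩ := hroot s t hst _ (Module.End.hasEigenvalue_of_hasEigenvector
        ⟨Module.End.mem_eigenspace_iff.mpr h1, hu⟩)
      rw [isOfFinOrder_iff_pow_eq_one]
      exact ⟨k, hk, Units.ext (by rw [Units.val_pow_eq_pow_val, h3, Units.val_one])⟩
  obtain ⟨N, hN, -, h5⟩ := common_exp (t := fun _ : Fin n => (1 : ℂˣ))
    (fun _ => IsOfFinOrder.one) hfin
  exact ⟨N, hN, h5⟩

/-- the image of the loop around all other strands -/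
theorem fam_around {m : ℕ} (σ : Representation ℂ (PureBraid m) V) (i : Fin m) :
    toEq σ (around i) = big (fam σ) i := by
  unfold around big pr
  rw [map_list_prod, List.map_map]
  congr 1
  apply List.map_congr_left
  intro j _
  simp only [Function.comp_apply]
  rcases lt_trichotomy i j with h | h | h
  · rw [dif_pos h, if_neg h.ne', fam, B_lt h]
  · subst h
    rw [dif_neg (lt_irrefl _), dif_neg (lt_irrefl _), if_pos rfl, map_one]
  · rw [dif_neg (not_lt.2 h.le), dif_pos h, if_neg h.ne, fam, B_gt h]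

/-- omitting central factors from the big loop -/
theorem big_restrict {G : Type*} [Group G] {a : Fin n → Fin n → G} (T : Finset (Fin n))
    (k : Fin T.card) (hT : ∀ l, l ∉ T → Cen (a (T.orderEmbOfFin rfl k) l))
    (h : Cen (big a (T.orderEmbOfFin rfl k))) :
    Cen (big (fun i j => a (T.orderEmbOfFin rfl i) (T.orderEmbOfFin rfl j)) k) := by
  classical
  obtain ⟨e, he⟩ : ∃ e : Fin T.card ↪o Fin n, e = T.orderEmbOfFin rfl := ⟨_, rfl⟩
  rw [← he] at hT h ⊢
  have hmem : ∀ l, l ∈ T ↔ ∃ j, e j = l := by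
    intro l
    have : Set.range e = (T : Set (Fin n)) := by rw [he]; exact Finset.range_orderEmbOfFin T rfl
    rw [← Finset.mem_coe, ← this]
    rfl
  -- the product over the list of the active strands
  have key : ∀ L : List (Fin n), ∃ z : G, Cen z ∧
      pr (fun l => if l = e k then 1 else a (e k) l) L =
        z * pr (fun l => if l = e k then 1 else a (e k) l) (L.filter (· ∈ T)) := by
    intro L
    induction L with
    | nil => exact ⟨1, Cen.one, by rw [one_mul]; rfl⟩
    | cons x L ih =>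
      obtain ⟨z, hz, hL⟩ := ih
      by_cases hx : x ∈ T
      · refine ⟨z, hz, ?_⟩
        rw [List.filter_cons_of_pos (by simpa using hx), pr_cons, pr_cons, hL]
        rw [← mul_assoc, ← mul_assoc, (hz _).eq]
      · have hxk : x ≠ e k := fun h' => hx ((hmem x).2 ⟨k, h'.symm⟩)
        refine ⟨a (e k) x * z, (hT x hx).mul hz, ?_⟩
        rw [List.filter_cons_of_neg (by simpa using hx), pr_cons, if_neg hxk, hL, mul_assoc]
  obtain ⟨z, hz, hL⟩ := key (List.finRange n)
  have hlist : (List.finRange n).filter (· ∈ T) = (List.finRange T.card).map e := by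
    apply List.Perm.eq_of_pairwise (le := (· < ·))
    · intro x y _ _ h1 h2
      exact absurd h1 (lt_asymm h2)
    · exact (List.pairwise_lt_finRange n).filter _
    · rw [List.pairwise_map]
      exact (List.pairwise_lt_finRange T.card).imp fun h => e.strictMono h
    · rw [List.perm_ext_iff_of_nodup ((List.nodup_finRange n).filter _)
        ((List.nodup_finRange T.card).map e.injective)]
      intro x
      rw [List.mem_filter, List.mem_map]
      simp [hmem]
  have hb : big a (e k) = z * big (fun i j => a (e i) (e j)) k := by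
    unfold big
    rw [hL, hlist]
    congr 1
    unfold pr
    rw [List.map_map]
    congr 1
    apply List.map_congr_left
    intro j _
    simp only [Function.comp_apply, e.injective.eq_iff]
  rw [hb] at h
  exact hz.of_mul_left h

/-- the extended family is irreducible -/
theorem ext_irr {a : Fin n → Fin n → (V ≃ₗ[ℂ] V)} (h : IrrF a) : IrrF (ext a) := by
  intro W hW
  apply h
  intro i j hij x hx
  exact hW i.succ j.succ (fun h' => hij (Fin.succ_injective _ h')) x hx

/-- the extended family is spherical -/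
theorem ext_sph [FiniteDimensional ℂ V] [Nontrivial V] {a : Fin n → Fin n → (V ≃ₗ[ℂ] V)}
    (hp : PB a) (h : IrrF a) : Sph (ext a) := by
  intro k
  obtain ⟨c, hc⟩ := schur (S := {f | ∃ i j, i ≠ j ∧ f = a i j}) (by
      intro U hU
      exact h U fun p q hpq => hU _ ⟨p, q, hpq, rfl⟩) (big (ext a) k) (by
    rintro f ⟨p, q, hpq, rfl⟩
    exact big_ext_comm hp k hpq)
  exact cen_of_scalar hc

theorem lau_of_cen [FiniteDimensional ℂ V] [Nontrivial V] {a : Fin n → Fin n → (V ≃ₗ[ℂ] V)}
    (hirr : IrrF a) {x : V ≃ₗ[ℂ] V} (h : Cen x) : Lau x.toLinearMap := by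
  obtain ⟨c, hc⟩ := schur (S := {f | ∃ i j, i ≠ j ∧ f = a i j}) (by
      intro U hU
      exact hirr U fun p q hpq => hU _ ⟨p, q, hpq, rfl⟩) x (fun f _ => h f)
  exact IsSc.lau ⟨c, LinearMap.ext hc⟩

/-- at most `b + 1` active points -/
theorem few_of_card [FiniteDimensional ℂ V] [Nontrivial V]
    (ρ : Representation ℂ (PureBraid n) V) [ρ.IsIrreducible] {b : ℕ}
    (T' : Finset (Fin (n + 1))) (hact' : ∀ s, s ∈ T' ↔ Act (ext (fam ρ)) s)
    (hb : T'.card ≤ b + 1) : FromFew ρ b := by
  classical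
  have hp := fam_pb ρ
  have hirr := fam_irr ρ
  set T : Finset (Fin n) := Finset.univ.filter (fun s => Act (fam ρ) s) with hT
  have hact : ∀ s, s ∈ T ↔ Act (fam ρ) s := fun s => by rw [hT]; simp
  have hsucc : ∀ s, s ∈ T → s.succ ∈ T' := by
    intro s hs
    obtain ⟨j, hj, hc⟩ := (hact s).1 hs
    exact (hact' _).2 ⟨j.succ, fun h' => hj (Fin.succ_injective _ h'), hc⟩
  have hcard : T.card ≤ (T'.erase 0).card := by
    have h1 : (T.map (Fin.succEmb n)) ⊆ T'.erase 0 := by
      intro x hx
      rw [Finset.mem_map] at hx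
      obtain ⟨s, hs, rfl⟩ := hx
      rw [Finset.mem_erase]
      exact ⟨Fin.succ_ne_zero s, hsucc s hs⟩
    have h2 := Finset.card_le_card h1
    rwa [Finset.card_map] at h2
  obtain ⟨F, σ, χ, hσ, hF, hρ, hroot⟩ := factor_active ρ T hact
  refine ⟨T.card, T.orderEmbOfFin rfl, F, σ, χ, ?_, hF, hρ, hroot⟩
  by_cases h0 : Act (ext (fam ρ)) 0
  · left
    have h1 : (0 : Fin (n + 1)) ∈ T' := (hact' 0).2 h0
    have h2 := Finset.card_erase_of_mem h1
    have h3 : 0 < T'.card := Finset.card_pos.2 ⟨0, h1⟩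
    omega
  · have h2 : T.card ≤ b + 1 := by
      have := Finset.card_le_card (Finset.erase_subset (0 : Fin (n + 1)) T')
      omega
    rcases Nat.lt_or_ge b T.card with h3 | h3
    · right
      refine ⟨by omega, fun i => ?_⟩
      have hbig : ∀ k, Cen (big (fam ρ) k) := by
        intro k
        by_contra hc
        apply h0
        refine ⟨k.succ, Fin.succ_ne_zero k, fun hc' => hc ?_⟩
        rw [ext_zero_succ] at hc'
        have := hc'.inv
        rwa [inv_inv] at this
      have h4 : Cen (big (fam σ) i) := by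
        have h5 : fam σ = fun i j => fam ρ (T.orderEmbOfFin rfl i) (T.orderEmbOfFin rfl j) := by
          funext i j
          exact hσ i j
        rw [h5]
        apply big_restrict T i
        · intro l hl
          have hne : T.orderEmbOfFin rfl i ≠ l := fun h' => hl (by
            rw [← h']
            exact Finset.orderEmbOfFin_mem T rfl i)
          exact cen_of_not_act hp hne fun h' => hl ((hact l).2 h'.2)
        · exact hbig _
      rw [← fam_around] at h4
      obtain ⟨z, hz⟩ := h4.scalar ρ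
      refine ⟨z, ?_⟩
      ext x
      exact hz x
    · exact Or.inl h3

/-- all generators are scalars plus maps of rank at most one -/
theorem cyclic_of_lau [FiniteDimensional ℂ V] [Nontrivial V]
    (ρ : Representation ℂ (PureBraid n) V) [ρ.IsIrreducible] (hr : 2 ≤ finrank ℂ V)
    (T' : Finset (Fin (n + 1))) (hact' : ∀ s, s ∈ T' ↔ Act (ext (fam ρ)) s)
    (hlau : ∀ i j, i ≠ j → Lau (ext (fam ρ) (T'.orderEmbOfFin rfl i)
      (T'.orderEmbOfFin rfl j)).toLinearMap) : InCyclicCovers ρ := by
  classical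
  have hp' : PB (ext (fam ρ)) := PB.ext (fam_pb ρ)
  have hirr' := ext_irr (fam_irr ρ)
  apply inCyclicCovers ρ hr
  intro i j hij
  have h3 : Lau (ext (fam ρ) i.succ j.succ).toLinearMap := by
    by_cases hin : i.succ ∈ T' ∧ j.succ ∈ T'
    · have hrange : ∀ s, s ∈ T' → ∃ x, T'.orderEmbOfFin rfl x = s := by
        intro s hs
        have : Set.range (T'.orderEmbOfFin rfl) = (T' : Set (Fin (n + 1))) :=
          Finset.range_orderEmbOfFin T' rfl
        rw [← Finset.mem_coe, ← this] at hs
        exact hs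
      obtain ⟨x, hx⟩ := hrange _ hin.1
      obtain ⟨y, hy⟩ := hrange _ hin.2
      have := hlau x y (fun h' => by
        rw [h', hy] at hx
        exact hij.ne (Fin.succ_injective _ hx).symm)
      rwa [hx, hy] at this
    · apply lau_of_cen hirr'
      exact cen_of_not_act hp' (fun h' => hij.ne (Fin.succ_injective _ h')) fun h' =>
        hin ⟨(hact' _).2 h'.1, (hact' _).2 h'.2⟩
  obtain ⟨c, hc⟩ := h3
  refine ⟨c, ?_⟩
  have e1 : (ext (fam ρ) i.succ j.succ).toLinearMap = ρ (A i j hij) := by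
    ext x
    exact fam_lt ρ hij x
  rwa [e1] at hc

/-- a factor of rank two -/
theorem times_of_split [FiniteDimensional ℂ V] [Nontrivial V]
    (ρ : Representation ℂ (PureBraid n) V) [ρ.IsIrreducible]
    (T' : Finset (Fin (n + 1))) (hact' : ∀ s, s ∈ T' ↔ Act (ext (fam ρ)) s)
    (hS : SplitTwo (fun i j => ext (fam ρ) (T'.orderEmbOfFin rfl i) (T'.orderEmbOfFin rfl j))) :
    TimesLine ρ (finrank ℂ V / 2) := by
  classical
  have hp' : PB (ext (fam ρ)) := PB.ext (fam_pb ρ)
  have hirr' := ext_irr (fam_irr ρ)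
  have hs' := ext_sph (fam_pb ρ) (fam_irr ρ)
  obtain ⟨i₀, C₀, f, hC₀, hc₀, ⟨B₀⟩, hf⟩ := hS
  obtain ⟨hC, halg⟩ := comp_lift hp' T' hact' hC₀
  rw [← halg] at B₀
  have hcard : (C₀.map (T'.orderEmbOfFin rfl).toEmbedding).card = C₀.card := Finset.card_map _
  obtain ⟨i, hi⟩ : ∃ i, i = T'.orderEmbOfFin rfl i₀ := ⟨_, rfl⟩
  obtain ⟨C, hCe⟩ : ∃ C, C = C₀.map (T'.orderEmbOfFin rfl).toEmbedding := ⟨_, rfl⟩
  rw [← hi, ← hCe] at hC B₀
  rw [← hCe] at hcard
  have h3 := comp_three hs' hC
  have hC3 : C.card = 3 := by omega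
  have hpos : 0 < finrank ℂ V := finrank_pos
  have hf0 : 0 < f := by omega
  have hfr : finrank ℂ V / 2 = f := by omega
  rw [hfr]
  have : Nonempty (Fin f) := ⟨⟨0, hf0⟩⟩
  obtain ⟨ψ, ε, μ, S, hμ, hε, hiE⟩ := exists_spl hp' hC (by norm_num) hf0 B₀
  have hpε := pb_four hp' hs' hC hC3 S hμ hε hiE
  have hiε := (S.irr hirr').1
  obtain ⟨q, hq, X, Y, hXY⟩ := exists_factor_fam (three_or_cross_four hpε hiε (S.sph hs').1
    (insert i C) (by rw [Finset.card_insert_of_notMem hC.ni, hC3]) (by
      intro t ht j hj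
      rw [Finset.mem_insert, not_or] at ht
      exact hε t ht.2 ht.1 j hj))
  have h2 : finrank ℂ (Fin 2 → ℂ) = 2 := by simp
  obtain ⟨X', Y', hX', hY', hcen⟩ := exists_sl h2 X Y
  obtain ⟨T, hT⟩ : ∃ T : PureBraid n →* ((Fin 2 → ℂ) ≃ₗ[ℂ] (Fin 2 → ℂ)),
      T = (lift ![X', Y']).comp q := ⟨_, rfl⟩
  have hsc : ∀ s t (hst : s < t), ∃ c : ℂ, c ≠ 0 ∧ ∀ u, ε s.succ t.succ u = c • T (A s t hst) u := by
    intro s t hst
    have h4 : Cen (ε s.succ t.succ * (T (A s t hst))⁻¹) := by
      have h5 := hXY s t hst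
      have h6 := hcen (q (A s t hst))
      have h7 := h5.mul h6
      have e : ε s.succ t.succ * (lift ![X, Y] (q (A s t hst)))⁻¹ *
          (lift ![X, Y] (q (A s t hst)) * (lift ![X', Y'] (q (A s t hst)))⁻¹) =
          ε s.succ t.succ * (T (A s t hst))⁻¹ := by
        rw [hT, MonoidHom.comp_apply]
        group
      rwa [e] at h7
    obtain ⟨c, hc⟩ := schur (S := {g | ∃ k l, k ≠ l ∧ g = ε k l}) (by
      intro U hU
      exact hiε U fun k l hkl => hU _ ⟨k, l, hkl, rfl⟩) _ (fun g _ => h4 g)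
    refine ⟨c, ?_, fun u => ?_⟩
    · rintro rfl
      obtain ⟨u, hu⟩ := exists_ne (0 : Fin 2 → ℂ)
      apply hu
      apply (ε s.succ t.succ * (T (A s t hst))⁻¹).injective
      rw [hc, zero_smul, map_zero]
    · have h5 := hc (T (A s t hst) u)
      have h6 : (ε s.succ t.succ * (T (A s t hst))⁻¹) (T (A s t hst) u) = ε s.succ t.succ u := by
        have : (ε s.succ t.succ * (T (A s t hst))⁻¹) * T (A s t hst) = ε s.succ t.succ := by group
        exact LinearEquiv.congr_fun this u
      rw [← h6, h5]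
  obtain ⟨σ, hσ⟩ := exists_second ρ ψ T (by
    intro s t hst
    obtain ⟨c, hc0, hc⟩ := hsc s t hst
    refine ⟨LinearEquiv.smulOfNeZero ℂ _ c hc0 * μ s.succ t.succ, fun v => ?_⟩
    have h5 := S.sp s.succ t.succ (fun h' => hst.ne (Fin.succ_injective _ h')) v
    have h6 : ext (fam ρ) s.succ t.succ v = ρ (A s t hst) v := fam_lt ρ hst v
    rw [← h6, h5]
    generalize ψ v = w
    induction w using TensorProduct.induction_on with
    | zero => rw [map_zero, map_zero]
    | add x y hx hy => rw [map_add, map_add, hx, hy]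
    | tmul u m =>
      rw [TensorProduct.congr_tmul, TensorProduct.congr_tmul, hc]
      show (c • T (A s t hst) u) ⊗ₜ[ℂ] (μ s.succ t.succ m) =
        (T (A s t hst) u) ⊗ₜ[ℂ] (c • μ s.succ t.succ m)
      rw [TensorProduct.smul_tmul])
  refine ⟨(LinearEquiv.automorphismGroup.toLinearMapMonoidHom).comp T, σ,
    ⟨q, (LinearEquiv.automorphismGroup.toLinearMapMonoidHom).comp (lift ![X', Y']), hq, ?_⟩,
    irr_second ρ ψ (fun g => (T g).toLinearMap) σ hσ, ⟨ψ, hσ⟩, ?_⟩
  · intro g
    rw [hT]
    rfl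
  · intro hroot
    have hdet : ∀ g, LinearEquiv.det (T g) = 1 := by
      intro g
      rw [hT, MonoidHom.comp_apply]
      generalize q g = w
      have hgen : ∀ l : Fin 2, LinearEquiv.det (lift ![X', Y'] (of l)) = 1 := by
        intro l
        fin_cases l
        · show LinearEquiv.det (lift ![X', Y'] (of 0)) = 1
          rw [lift_zero, hX']
        · show LinearEquiv.det (lift ![X', Y'] (of 1)) = 1
          rw [lift_one, hY']
      induction w using FreeGroup.induction_on with
      | C1 => rw [map_one, map_one]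
      | of l => exact hgen l
      | inv_of l ih => rw [map_inv, map_inv, ih, inv_one]
      | mul x y hx hy => rw [map_mul, map_mul, hx, hy, mul_one]
    obtain ⟨h7, h8⟩ := roots_second h2 ρ ψ T hdet σ hσ hroot
    exact ⟨h8, h7⟩

/-- **The final theorem.** -/
theorem final [FiniteDimensional ℂ V] (ρ : Representation ℂ (PureBraid n) V)
    [ρ.IsIrreducible] : InCyclicCovers ρ ∨ FromFew ρ (bnd (finrank ℂ V)) ∨
      (IsExc (finrank ℂ V) ∧ TimesLine ρ (finrank ℂ V / 2)) := by
  classical
  have hnt : Nontrivial V := by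
    by_contra hcon
    rw [not_nontrivial_iff_subsingleton] at hcon
    have h1 : (⊥ : Subrepresentation ρ) = ⊤ := by
      apply Subrepresentation.toSubmodule_injective
      exact Subsingleton.elim _ _
    exact bot_ne_top h1
  have hp := fam_pb ρ
  have hirr := fam_irr ρ
  have hp' : PB (ext (fam ρ)) := PB.ext hp
  have hirr' := ext_irr hirr
  have hs' := ext_sph hp hirr
  set T' : Finset (Fin (n + 1)) := Finset.univ.filter (fun s => Act (ext (fam ρ)) s) with hT'
  have hact' : ∀ s, s ∈ T' ↔ Act (ext (fam ρ)) s := fun s => by rw [hT']; simp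
  obtain ⟨b1, b2, b3, b4⟩ := restrict hp' hirr' hs' T' hact'
  have hpos : 0 < finrank ℂ V := finrank_pos
  by_cases hcard : T'.card ≤ bnd (finrank ℂ V) + 1
  · exact Or.inr (Or.inl (few_of_card ρ T' hact' hcard))
  push Not at hcard
  have hbnd : finrank ℂ V ≤ bnd (finrank ℂ V) := by
    unfold bnd
    split_ifs <;> omega
  rcases Nat.lt_or_ge (finrank ℂ V) 2 with hr | hr
  · -- rank one: no strand is active
    exfalso
    have h1 : finrank ℂ V = 1 := by omega
    have hpos' : 0 < T'.card := by omega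
    obtain ⟨s, hs⟩ := Finset.card_pos.1 hpos'
    obtain ⟨j, hj, hc⟩ := (hact' s).1 hs
    apply hc
    intro y
    have key : ∀ T : V ≃ₗ[ℂ] V, ∃ c : ℂ, ∀ x, T x = c • x := by
      intro T
      obtain ⟨v, hv, hv2⟩ := finrank_eq_one_iff'.1 h1
      obtain ⟨c, hc⟩ := hv2 (T v)
      refine ⟨c, fun x => ?_⟩
      obtain ⟨d, rfl⟩ := hv2 x
      rw [map_smul, ← hc, smul_comm]
    obtain ⟨c, hc⟩ := key (ext (fam ρ) s j)
    obtain ⟨d, hd⟩ := key y
    refine LinearEquiv.ext fun x => ?_
    show ext (fam ρ) s j (y x) = y (ext (fam ρ) s j x)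
    rw [hc, hc, map_smul]
  · obtain ⟨-, h2⟩ := step b1 b2 b3 b4 hr (fun f _ => bound f)
    rcases h2 (by omega) with ⟨hI, hnc⟩ | ⟨h468, hS⟩
    · have h3 := thmS b1 hnc
      have h4 : finrank ℂ V ≠ 4 := by
        intro h4
        rw [h4] at h3 hcard
        unfold bnd at hcard
        rw [if_pos rfl] at hcard
        omega
      left
      exact cyclic_of_lau ρ hr T' hact' fun i j hij =>
        eq_lau b1 b3 hI hnc (by omega) h4 hij
    · exact Or.inr (Or.inr ⟨h468, times_of_split ρ T' hact' hS⟩)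

end Pool.Agent.PF54
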