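import Pool.Agent.PF54.Defs

/-! # Geometry of the strands -/

set_option autoImplicit false

namespace Pool.Agent.PF54

open Pool.Agent.Conf14 (PB)
open Pool.Agent.PB3
open Pool.Agent.Bst88
open Module

variable {n : ℕ} {G : Type*} [Group G] {a b c : Fin n → Fin n → G}

/- MODULE GI -/
/-- normalisation can be checked on generators -/
private theorem GI_conj {G : Type*} [Group G] (S T : Set G)
    (hgen : ∀ g ∈ T, ∀ y ∈ S, g * y * g⁻¹ ∈ Subgroup.closure S ∧
      g⁻¹ * y * g ∈ Subgroup.closure S) {g : G} (hg : g ∈ Subgroup.closure T) :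
    ∀ x ∈ Subgroup.closure S, g * x * g⁻¹ ∈ Subgroup.closure S ∧
      g⁻¹ * x * g ∈ Subgroup.closure S := by
  induction hg using Subgroup.closure_induction with
  | mem g hg =>
    intro x hx
    induction hx using Subgroup.closure_induction with
    | mem y hy => exact hgen g hg y hy
    | one =>
      rw [mul_one, mul_inv_cancel, mul_one, inv_mul_cancel]
      exact ⟨one_mem _, one_mem _⟩
    | mul u v _ _ hu hv =>
      have e1 : g * (u * v) * g⁻¹ = (g * u * g⁻¹) * (g * v * g⁻¹) := by group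
      have e2 : g⁻¹ * (u * v) * g = (g⁻¹ * u * g) * (g⁻¹ * v * g) := by group
      rw [e1, e2]
      exact ⟨mul_mem hu.1 hv.1, mul_mem hu.2 hv.2⟩
    | inv u _ hu =>
      have e1 : g * u⁻¹ * g⁻¹ = (g * u * g⁻¹)⁻¹ := by group
      have e2 : g⁻¹ * u⁻¹ * g = (g⁻¹ * u * g)⁻¹ := by group
      rw [e1, e2]
      exact ⟨inv_mem hu.1, inv_mem hu.2⟩
  | one =>
    intro x hx
    rw [one_mul, inv_one, mul_one]
    exact ⟨hx, by simpa using hx⟩
  | mul u v _ _ hu hv =>
    intro x hx
    have e1 : u * v * x * (u * v)⁻¹ = u * (v * x * v⁻¹) * u⁻¹ := by group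
    have e2 : (u * v)⁻¹ * x * (u * v) = v⁻¹ * (u⁻¹ * x * u) * v := by group
    rw [e1, e2]
    exact ⟨(hu _ (hv x hx).1).1, (hv _ (hu x hx).2).2⟩
  | inv u _ hu =>
    intro x hx
    rw [inv_inv]
    exact ⟨(hu x hx).2, (hu x hx).1⟩

/-- `a k l` normalises the group generated by `a t k` and `a t l` -/
private theorem GI_K (h : PB a) {t k l : Fin n} (htk : t ≠ k) (htl : t ≠ l) (hkl : k ≠ l) {w : G}
    (hw : w ∈ Subgroup.closure {a t k, a t l}) :
    (a k l)⁻¹ * w * a k l ∈ Subgroup.closure {a t k, a t l} := by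
  wlog hlt : k < l generalizing k l
  · have := this (k := l) (l := k) htl htk hkl.symm (by rwa [Set.pair_comm])
      (lt_of_le_of_ne (not_lt.mp hlt) hkl.symm)
    rw [h.symm l k, Set.pair_comm] at this
    exact this
  obtain ⟨g, hg, e1, e2⟩ := h.conj0 htk htl hlt
  -- conjugation by `a k l` is conjugation by `g` on this group
  have key : ∀ u ∈ Subgroup.closure {a t k, a t l}, a k l * u * (a k l)⁻¹ = g * u * g⁻¹ := by
    intro u hu
    induction hu using Subgroup.closure_induction with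
    | mem y hy =>
      rcases hy with rfl | rfl
      · exact e1
      · exact e2
    | one => rw [mul_one, mul_inv_cancel, mul_one, mul_inv_cancel]
    | mul u v _ _ hu hv =>
      have f1 : a k l * (u * v) * (a k l)⁻¹ = (a k l * u * (a k l)⁻¹) * (a k l * v * (a k l)⁻¹) := by
        group
      rw [f1, hu, hv]
      group
    | inv u _ hu =>
      have f1 : a k l * u⁻¹ * (a k l)⁻¹ = (a k l * u * (a k l)⁻¹)⁻¹ := by group
      rw [f1, hu]
      group
  have hu : g⁻¹ * w * g ∈ Subgroup.closure {a t k, a t l} := mul_mem (mul_mem (inv_mem hg) hw) hg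
  have f2 := key _ hu
  have f3 : (a k l)⁻¹ * w * a k l = g⁻¹ * w * g := by
    calc (a k l)⁻¹ * w * a k l = (a k l)⁻¹ * (g * (g⁻¹ * w * g) * g⁻¹) * a k l := by group
      _ = (a k l)⁻¹ * (a k l * (g⁻¹ * w * g) * (a k l)⁻¹) * a k l := by rw [f2]
      _ = g⁻¹ * w * g := by group
  rw [f3]
  exact hu

/-- conjugation of `a t j` by `a k l` and its inverse -/
private theorem GI_two (h : PB a) {t k l j : Fin n} (htk : t ≠ k) (htl : t ≠ l) (hkl : k ≠ l)
    (hjt : j ≠ t) : (∃ w ∈ Subgroup.closure {a t k, a t l},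
      a k l * a t j * (a k l)⁻¹ = w * a t j * w⁻¹) ∧
    ∃ w ∈ Subgroup.closure {a t k, a t l}, (a k l)⁻¹ * a t j * a k l = w * a t j * w⁻¹ := by
  obtain ⟨w, hw, e⟩ := (h.conj htk htl hkl hjt).1
  refine ⟨⟨w, hw, e⟩, ((a k l)⁻¹ * w * a k l)⁻¹, inv_mem (GI_K h htk htl hkl hw), ?_⟩
  calc (a k l)⁻¹ * a t j * a k l =
      (a k l)⁻¹ * w⁻¹ * (w * a t j * w⁻¹) * w * a k l := by group
    _ = (a k l)⁻¹ * w⁻¹ * (a k l * a t j * (a k l)⁻¹) * w * a k l := by rw [e]
    _ = _ := by group

/-- **GI (a).** The group generated by the generators on the strands in `I` is normal.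

PROOF. For `x = a t j`, `t ∈ I`, and a generator `g = a k l` of `gp a`: if `t ∉ {k, l}` this is
`PB.conj` (`s := t`): `a k l * a t j * (a k l)⁻¹ = w * a t j * w⁻¹` with `w` in the closure of
`{a t k, a t l}`, and for the inverse: `w⁻¹ * a t j * w`?  no: apply the following: a group `H`
generated by a finite set of elements with `g * y * g⁻¹ ∈ H` need not be normalised by `g⁻¹`; so
prove for the inverse separately: from `PB.conj0` (`e1`, `e2`) conjugation by `a k l` maps the group
`⟨a t k, a t l⟩` onto itself (it is conjugation by `w` on it, `w` in it), so `w' := (a k l)⁻¹ * w⁻¹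
* a k l` is in it and `(a k l)⁻¹ * a t j * a k l = w' * a t j * w'⁻¹`.  If `t ∈ {k, l}` then `g` is a
generator on the strand `t` (use `h.symm`) and there is nothing to do.  Then closure induction for
`x`, and for `g` (`Subgroup.closure_induction''` or induction over `g` with generators and inverses
of generators). -/
theorem strand_norm (h : PB a) {I : Finset (Fin n)} {g : G} (hg : g ∈ gp a) {x : G}
    (hx : x ∈ Subgroup.closure {y | ∃ t ∈ I, ∃ j, j ≠ t ∧ y = a t j}) :
    g * x * g⁻¹ ∈ Subgroup.closure {y | ∃ t ∈ I, ∃ j, j ≠ t ∧ y = a t j} := by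
  refine (GI_conj _ _ ?_ hg x hx).1
  rintro _ ⟨k, l, hkl, rfl⟩ _ ⟨t, ht, j, hjt, rfl⟩
  have hsub : ∀ j, j ≠ t → a t j ∈ Subgroup.closure {y | ∃ t ∈ I, ∃ j, j ≠ t ∧ y = a t j} :=
    fun j hj => Subgroup.subset_closure ⟨t, ht, j, hj, rfl⟩
  by_cases hk : t = k
  · have hg : a k l ∈ Subgroup.closure {y | ∃ t ∈ I, ∃ j, j ≠ t ∧ y = a t j} := by
      rw [← hk]
      exact hsub l (by rw [hk]; exact hkl.symm)
    exact ⟨mul_mem (mul_mem hg (hsub j hjt)) (inv_mem hg),
      mul_mem (mul_mem (inv_mem hg) (hsub j hjt)) hg⟩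
  by_cases hl : t = l
  · have hg : a k l ∈ Subgroup.closure {y | ∃ t ∈ I, ∃ j, j ≠ t ∧ y = a t j} := by
      rw [h.symm k l, ← hl]
      exact hsub k (by rw [hl]; exact hkl)
    exact ⟨mul_mem (mul_mem hg (hsub j hjt)) (inv_mem hg),
      mul_mem (mul_mem (inv_mem hg) (hsub j hjt)) hg⟩
  obtain ⟨⟨w, hw, e1⟩, w', hw', e2⟩ := GI_two h hk hl hkl hjt
  have hle : Subgroup.closure {a t k, a t l} ≤
      Subgroup.closure {y | ∃ t ∈ I, ∃ j, j ≠ t ∧ y = a t j} := by
    rw [Subgroup.closure_le]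
    rintro z (rfl | rfl)
    · exact hsub k (Ne.symm hk)
    · exact hsub l (Ne.symm hl)
  rw [e1, e2]
  exact ⟨mul_mem (mul_mem (hle hw) (hsub j hjt)) (inv_mem (hle hw)),
    mul_mem (mul_mem (hle hw') (hsub j hjt)) (inv_mem (hle hw'))⟩

/-- **GI (b).** A conjugate of `a t s` is a conjugate by an element of the group of the strand `t`.

PROOF. The set of all `g ∈ gp a` such that the claim holds for `g` (`∃ u ∈ U, g * a t s * g⁻¹ =
u * a t s * u⁻¹`, `U` the group of the strand `t`) contains the generators and their inverses (see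
GI (a)) and is closed under products: `g₁ * g₂ * a * g₂⁻¹ * g₁⁻¹ = g₁ * (u₂ * a * u₂⁻¹) * g₁⁻¹ =
(g₁ * u₂ * g₁⁻¹) * (g₁ * a * g₁⁻¹) * (..)⁻¹` and `g₁ * u₂ * g₁⁻¹ ∈ U` by GI (a), `I = {t}`. -/
theorem conj_strand (h : PB a) {t s : Fin n} (hst : s ≠ t) {g : G} (hg : g ∈ gp a) :
    ∃ u ∈ Subgroup.closure {y | ∃ j, j ≠ t ∧ y = a t j}, g * a t s * g⁻¹ = u * a t s * u⁻¹ := by
  have hset : {y : G | ∃ j, j ≠ t ∧ y = a t j} =
      {y | ∃ t' ∈ ({t} : Finset (Fin n)), ∃ j, j ≠ t' ∧ y = a t' j} := by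
    ext y
    constructor
    · rintro ⟨j, hj, rfl⟩
      exact ⟨t, Finset.mem_singleton_self t, j, hj, rfl⟩
    · rintro ⟨t', ht', j, hj, rfl⟩
      rw [Finset.mem_singleton] at ht'
      subst ht'
      exact ⟨j, hj, rfl⟩
  have hnorm : ∀ g ∈ gp a, ∀ u ∈ Subgroup.closure {y | ∃ j, j ≠ t ∧ y = a t j},
      g * u * g⁻¹ ∈ Subgroup.closure {y | ∃ j, j ≠ t ∧ y = a t j} := by
    intro g hg u hu
    rw [hset] at hu ⊢
    exact strand_norm h hg hu
  have hsub : ∀ j, j ≠ t → a t j ∈ Subgroup.closure {y | ∃ j, j ≠ t ∧ y = a t j} :=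
    fun j hj => Subgroup.subset_closure ⟨j, hj, rfl⟩
  unfold gp at hg
  induction hg using Subgroup.closure_induction with
  | mem g hg =>
    obtain ⟨k, l, hkl, rfl⟩ := hg
    by_cases hk : t = k
    · refine ⟨a k l, ?_, rfl⟩
      rw [← hk]
      exact hsub l (by rw [hk]; exact hkl.symm)
    by_cases hl : t = l
    · refine ⟨a k l, ?_, rfl⟩
      rw [h.symm k l, ← hl]
      exact hsub k (by rw [hl]; exact hkl)
    obtain ⟨⟨w, hw, e1⟩, -⟩ := GI_two h hk hl hkl hst
    refine ⟨w, ?_, e1⟩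
    have hle : Subgroup.closure {a t k, a t l} ≤
        Subgroup.closure {y | ∃ j, j ≠ t ∧ y = a t j} := by
      rw [Subgroup.closure_le]
      rintro z (rfl | rfl)
      · exact hsub k (Ne.symm hk)
      · exact hsub l (Ne.symm hl)
    exact hle hw
  | one => exact ⟨1, one_mem _, rfl⟩
  | mul g₁ g₂ h₁ h₂ ih₁ ih₂ =>
    obtain ⟨u₁, hu₁, e₁⟩ := ih₁
    obtain ⟨u₂, hu₂, e₂⟩ := ih₂
    refine ⟨(g₁ * u₂ * g₁⁻¹) * u₁, mul_mem (hnorm g₁ h₁ u₂ hu₂) hu₁, ?_⟩
    calc g₁ * g₂ * a t s * (g₁ * g₂)⁻¹ = g₁ * (g₂ * a t s * g₂⁻¹) * g₁⁻¹ := by group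
      _ = g₁ * (u₂ * a t s * u₂⁻¹) * g₁⁻¹ := by rw [e₂]
      _ = (g₁ * u₂ * g₁⁻¹) * (g₁ * a t s * g₁⁻¹) * (g₁ * u₂ * g₁⁻¹)⁻¹ := by group
      _ = (g₁ * u₂ * g₁⁻¹) * (u₁ * a t s * u₁⁻¹) * (g₁ * u₂ * g₁⁻¹)⁻¹ := by rw [e₁]
      _ = _ := by group
  | inv g hg ih =>
    obtain ⟨u, hu, e⟩ := ih
    have hv : g⁻¹ * u * g ∈ Subgroup.closure {y | ∃ j, j ≠ t ∧ y = a t j} := by
      have := hnorm g⁻¹ ((gp a).inv_mem hg) u hu
      rwa [inv_inv] at this
    refine ⟨(g⁻¹ * u * g)⁻¹, inv_mem hv, ?_⟩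
    calc g⁻¹ * a t s * g⁻¹⁻¹ = g⁻¹ * u⁻¹ * (u * a t s * u⁻¹) * u * g := by group
      _ = g⁻¹ * u⁻¹ * (g * a t s * g⁻¹) * u * g := by rw [e]
      _ = _ := by group
/- END GI -/

/- MODULE GA -/
/-- a conjugate family satisfies the same relations -/
private theorem GA_pb {b : Fin n → Fin n → G} (h : PB b) (g : G) :
    PB fun i j => g * b i j * g⁻¹ := by
  have e3 : ∀ u v w : G, g * u * g⁻¹ * (g * v * g⁻¹) * (g * w * g⁻¹) = g * (u * v * w) * g⁻¹ := by
    intro u v w
    group
  have e4 : ∀ u v : G, g * u * g⁻¹ * (g * v * g⁻¹) * (g * u * g⁻¹)⁻¹ =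
      g * (u * v * u⁻¹) * g⁻¹ := by
    intro u v
    group
  refine ⟨fun i j => ?_, fun i j k h1 h2 => ?_, fun i j k h1 h2 => ?_,
    fun i j k l h1 h2 h3 => ?_, fun i j k l h1 h2 h3 => ?_, fun i j k l h1 h2 h3 => ?_⟩
  · show g * b i j * g⁻¹ = g * b j i * g⁻¹
    rw [h.symm]
  · show Commute (g * b i j * g⁻¹ * (g * b i k * g⁻¹) * (g * b j k * g⁻¹)) (g * b i k * g⁻¹)
    rw [e3, conj_comm]
    exact h.t1 i j k h1 h2
  · show Commute (g * b i j * g⁻¹ * (g * b i k * g⁻¹) * (g * b j k * g⁻¹)) (g * b j k * g⁻¹)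
    rw [e3, conj_comm]
    exact h.t2 i j k h1 h2
  · show Commute (g * b i j * g⁻¹) (g * b k l * g⁻¹)
    rw [conj_comm]
    exact h.q1 i j k l h1 h2 h3
  · show Commute (g * b i l * g⁻¹) (g * b j k * g⁻¹)
    rw [conj_comm]
    exact h.q2 i j k l h1 h2 h3
  · show Commute (g * b k l * g⁻¹ * (g * b i k * g⁻¹) * (g * b k l * g⁻¹)⁻¹) (g * b j l * g⁻¹)
    rw [e4, conj_comm]
    exact h.q3 i j k l h1 h2 h3

/-- conjugation by an element which normalises the group -/
private theorem GA_cl {S : Set G} {g : G}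
    (hn : ∀ y ∈ Subgroup.closure S, g * y * g⁻¹ ∈ Subgroup.closure S ∧
      g⁻¹ * y * g⁻¹⁻¹ ∈ Subgroup.closure S) :
    Subgroup.closure ((fun y => g * y * g⁻¹) '' S) = Subgroup.closure S := by
  apply le_antisymm
  · rw [Subgroup.closure_le]
    rintro _ ⟨y, hy, rfl⟩
    exact (hn y (Subgroup.subset_closure hy)).1
  · have h1 : ∀ y ∈ Subgroup.closure S,
        g * y * g⁻¹ ∈ Subgroup.closure ((fun y => g * y * g⁻¹) '' S) := by
      intro y hy
      induction hy using Subgroup.closure_induction with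
      | mem y hy => exact Subgroup.subset_closure ⟨y, hy, rfl⟩
      | one =>
        rw [mul_one, mul_inv_cancel]
        exact one_mem _
      | mul u v _ _ hu hv =>
        have e1 : g * (u * v) * g⁻¹ = (g * u * g⁻¹) * (g * v * g⁻¹) := by group
        rw [e1]
        exact mul_mem hu hv
      | inv u _ hu =>
        have e1 : g * u⁻¹ * g⁻¹ = (g * u * g⁻¹)⁻¹ := by group
        rw [e1]
        exact inv_mem hu
    intro y hy
    have h2 := h1 _ (hn y hy).2
    have e : g * (g⁻¹ * y * g⁻¹⁻¹) * g⁻¹ = y := by group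
    rwa [e] at h2

private theorem GA_gp {c : Fin n → Fin n → G} {g : G} (hg : g ∈ gp c) :
    gp (fun i j => g * c i j * g⁻¹) = gp c := by
  have hset : {y : G | ∃ i j, i ≠ j ∧ y = g * c i j * g⁻¹} =
      (fun y => g * y * g⁻¹) '' {y | ∃ i j, i ≠ j ∧ y = c i j} := by
    ext y
    constructor
    · rintro ⟨i, j, hij, rfl⟩
      exact ⟨_, ⟨i, j, hij, rfl⟩, rfl⟩
    · rintro ⟨_, ⟨i, j, hij, rfl⟩, rfl⟩
      exact ⟨i, j, hij, rfl⟩
  show Subgroup.closure {y : G | ∃ i j, i ≠ j ∧ y = g * c i j * g⁻¹} = gp c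
  rw [hset]
  refine GA_cl fun y hy => ?_
  exact ⟨(gp c).mul_mem ((gp c).mul_mem hg hy) ((gp c).inv_mem hg),
    (gp c).mul_mem ((gp c).mul_mem ((gp c).inv_mem hg) hy) ((gp c).inv_mem ((gp c).inv_mem hg))⟩

/-- **GA.** Two neighbours change places; the strand in `R` (if one of the two is in `R`) keeps its
generators.

PROOF. `p := k`, `q := l`, `x = a p q`.  If `p ∉ R` (the strand `p`, which moves to the position
`q`, may be conjugated): `b := sw a p q` (Bst88/Swap.lean): `b p j = a q j`, `b q j = x * a p j * x⁻¹`,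
`b p q = a p q`, the others are unchanged; `pb := PB.sw h hkl`, `ge := gp_sw h hkl`.
If `p ∈ R`, so `q ∉ R`: `b i j := x⁻¹ * sw a p q i j * x`: conjugate of a `PB` family; now
`b q j = a p j`, `b p j = x⁻¹ * a q j * x`, and the others are unchanged because `x` commutes with
`a i j`, `i, j ∉ {p, q}` (`PB.adj`).
`pr` for `sw` (for the conjugate: compose with `x⁻¹`), `σ = swap p q`; `i, j, k` with `i ≠ j`,
`i ≠ k`.  `i ∉ {p, q}`: if `j, k ≠ q` then `g = 1` (`sw_a`); if `j, k ≠ p` then `g = x` (`sw_b`); if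
`{j, k} = {p, q}`, say `j = p`, `k = q`: `b i p = a i q`, `b i q = x * a i p * x⁻¹`:
`Tri` of `a p q, a i p, a i q` in the right cyclic order (`PB.tri`, `Tri.e1`, `Tri.e2`, see `tri_adj` in
Bst88/Inf.lean) gives `x * a i p * x⁻¹ = (a i q)⁻¹ * a i p * a i q` or the like (`i < p` or `i > q`), so
`g = (a i q)⁻¹` works for both.  `i = p`: `b p j = a q j` for all `j` (also `j = q`): `g = 1`.
`i = q`: `b q j = x * a p j * x⁻¹` for all `j` (also `j = p`: `x * x * x⁻¹ = x`): `g = x`.
`fx`: at most one of the strands `p, q` is in `R`, the one which keeps its generators.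
`st`: `i = p`: the set `{b p j}` is `{a q j}`.  `i = q`: the set is `x` conjugated `{a p j}`, and `x` is in the
group.  `i ∉ {p, q}`: the sets are equal up to `a i p, a i q` versus `a i q, x * a i p * x⁻¹ =
(a i q)⁻¹ * a i p * a i q` (as above): same group. -/
theorem arr_swap (h : PB a) {k l : Fin n} (hkl : (l : ℕ) = k + 1) (R : Set (Fin n))
    (hR : ¬ (k ∈ R ∧ l ∈ R)) : ∃ b, Arr a b (Equiv.swap k l) R := by
  have hne : k ≠ l := by
    intro e
    rw [e] at hkl
    omega
  have hx : a k l ∈ gp a := mem_gp hne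
  -- the properties of `sw`
  have hpr : ∀ i j j', i ≠ j → i ≠ j' → ∃ g ∈ gp a,
      sw a k l i j = g * a (Equiv.swap k l i) (Equiv.swap k l j) * g⁻¹ ∧
      sw a k l i j' = g * a (Equiv.swap k l i) (Equiv.swap k l j') * g⁻¹ := by
    intro i j j' hij hij'
    have hone : ∀ j, i ≠ j → (i ≠ l ∧ j ≠ l ∨ i = k) →
        sw a k l i j = 1 * a (Equiv.swap k l i) (Equiv.swap k l j) * 1⁻¹ := by
      intro j hij hc
      rw [one_mul, inv_one, mul_one]
      rcases hc with hc | hc
      · exact sw_a hc.1 hc.2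
      · subst hc
        by_cases hjl : j = l
        · subst hjl
          rw [sw_pq h hkl, Equiv.swap_apply_left, Equiv.swap_apply_right, h.symm]
        · exact sw_a hne hjl
    by_cases hik : i = k
    · exact ⟨1, one_mem _, hone j hij (Or.inr hik), hone j' hij' (Or.inr hik)⟩
    have hgx : ∀ j, i ≠ j → (j ≠ k ∨ i = l) →
        sw a k l i j = a k l * a (Equiv.swap k l i) (Equiv.swap k l j) * (a k l)⁻¹ := by
      intro j hij hc
      rcases hc with hc | hc
      · exact sw_b h hkl hik hc hij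
      · subst hc
        by_cases hjk : j = k
        · subst hjk
          rw [sw_symm h, sw_pq h hkl, Equiv.swap_apply_left, Equiv.swap_apply_right]
          group
        · exact sw_b h hkl hik hjk hij
    by_cases hil : i = l
    · exact ⟨a k l, hx, hgx j hij (Or.inr hil), hgx j' hij' (Or.inr hil)⟩
    by_cases hA : j ≠ l ∧ j' ≠ l
    · exact ⟨1, one_mem _, hone j hij (Or.inl ⟨hil, hA.1⟩), hone j' hij' (Or.inl ⟨hil, hA.2⟩)⟩
    by_cases hB : j ≠ k ∧ j' ≠ k
    · exact ⟨a k l, hx, hgx j hij (Or.inl hB.1), hgx j' hij' (Or.inl hB.2)⟩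
    -- `{j, j'} = {k, l}`
    have hg : ∀ j, (j = k ∨ j = l) → sw a k l i j =
        (a i l)⁻¹ * a (Equiv.swap k l i) (Equiv.swap k l j) * (a i l)⁻¹⁻¹ := by
      intro j hj
      rcases hj with rfl | rfl
      · rw [sw_p' hik hil hne, Equiv.swap_apply_left, Equiv.swap_apply_of_ne_of_ne hik hil]
        group
      · rw [sw_q' hik hil, Equiv.swap_apply_right, Equiv.swap_apply_of_ne_of_ne hik hil]
        have e := (tri_adj h hkl hik hil).2
        have e2 : a k j * a i k * (a k j)⁻¹ = (a i j)⁻¹ * (a i k * a i j) := by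
          rw [← e]
          group
        rw [e2]
        group
    have hj : (j = k ∨ j = l) ∧ (j' = k ∨ j' = l) := by
      by_cases c1 : j = l <;> by_cases c2 : j' = l <;> by_cases c3 : j = k <;>
        by_cases c4 : j' = k <;> simp_all
    exact ⟨(a i l)⁻¹, (gp a).inv_mem (mem_gp hil), hg j hj.1, hg j' hj.2⟩
  have hst : ∀ i, Subgroup.closure {y | ∃ j, j ≠ i ∧ y = sw a k l i j} =
      Subgroup.closure {y | ∃ j, j ≠ Equiv.swap k l i ∧ y = a (Equiv.swap k l i) j} := by
    intro i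
    by_cases hik : i = k
    · subst hik
      rw [Equiv.swap_apply_left]
      have hv : ∀ j, j ≠ i → sw a i l i j = a l (Equiv.swap i l j) := by
        intro j hj
        by_cases hjl : j = l
        · subst hjl
          rw [sw_pq h hkl, Equiv.swap_apply_right, h.symm]
        · rw [sw_a hne hjl, Equiv.swap_apply_left]
      congr 1
      ext y
      constructor
      · rintro ⟨j, hj, rfl⟩
        refine ⟨Equiv.swap i l j, ?_, hv j hj⟩
        intro e
        apply hj
        rw [← Equiv.swap_apply_self i l j, e, Equiv.swap_apply_right]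
      · rintro ⟨j, hj, rfl⟩
        refine ⟨Equiv.swap i l j, ?_, ?_⟩
        · intro e
          apply hj
          rw [← Equiv.swap_apply_self i l j, e, Equiv.swap_apply_left]
        · rw [hv, Equiv.swap_apply_self]
          intro e
          apply hj
          rw [← Equiv.swap_apply_self i l j, e, Equiv.swap_apply_left]
    by_cases hil : i = l
    · subst hil
      rw [Equiv.swap_apply_right]
      have hv : ∀ j, j ≠ i → sw a k i i j = a k i * a k (Equiv.swap k i j) * (a k i)⁻¹ := by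
        intro j hj
        by_cases hjk : j = k
        · subst hjk
          rw [sw_symm h, sw_pq h hkl, Equiv.swap_apply_left]
          group
        · rw [sw_b h hkl (Ne.symm hne) hjk hj.symm, Equiv.swap_apply_right]
      have hxb : a k i ∈ Subgroup.closure {y | ∃ j, j ≠ i ∧ y = sw a k i i j} :=
        Subgroup.subset_closure ⟨k, hne, by rw [sw_symm h, sw_pq h hkl]⟩
      have hxa : a k i ∈ Subgroup.closure {y | ∃ j, j ≠ k ∧ y = a k j} :=
        Subgroup.subset_closure ⟨i, hne.symm, rfl⟩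
      apply le_antisymm
      · rw [Subgroup.closure_le]
        rintro _ ⟨j, hj, rfl⟩
        rw [hv j hj]
        refine mul_mem (mul_mem hxa (Subgroup.subset_closure ⟨_, ?_, rfl⟩)) (inv_mem hxa)
        intro e
        apply hj
        rw [← Equiv.swap_apply_self k i j, e, Equiv.swap_apply_left]
      · rw [Subgroup.closure_le]
        rintro _ ⟨j, hj, rfl⟩
        have hj' : Equiv.swap k i j ≠ i := by
          intro e
          apply hj
          rw [← Equiv.swap_apply_self k i j, e, Equiv.swap_apply_right]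
        have e1 := hv _ hj'
        rw [Equiv.swap_apply_self] at e1
        have e2 : a k j = (a k i)⁻¹ * sw a k i i (Equiv.swap k i j) * a k i := by
          rw [e1]
          group
        rw [e2]
        exact mul_mem (mul_mem (inv_mem hxb) (Subgroup.subset_closure ⟨_, hj', rfl⟩)) hxb
    rw [Equiv.swap_apply_of_ne_of_ne hik hil]
    have e := (tri_adj h hkl hik hil).2
    have v1 : sw a k l i k = a i l := sw_p' hik hil hne
    have v2 : sw a k l i l = a k l * a i k * (a k l)⁻¹ := sw_q' hik hil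
    have v3 : ∀ j, j ≠ k → j ≠ l → sw a k l i j = a i j := fun j hjk hjl => sw_o hik hil hjk hjl
    apply le_antisymm
    · rw [Subgroup.closure_le]
      rintro _ ⟨j, hj, rfl⟩
      have m1 : a i k ∈ Subgroup.closure {y | ∃ j, j ≠ i ∧ y = a i j} :=
        Subgroup.subset_closure ⟨k, Ne.symm hik, rfl⟩
      have m2 : a i l ∈ Subgroup.closure {y | ∃ j, j ≠ i ∧ y = a i j} :=
        Subgroup.subset_closure ⟨l, Ne.symm hil, rfl⟩
      by_cases hjk : j = k
      · subst hjk
        rw [v1]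
        exact m2
      by_cases hjl : j = l
      · subst hjl
        have e2 : sw a k j i j = (a i j)⁻¹ * (a i k * a i j) := by
          rw [← e, v2]
          group
        rw [e2]
        exact mul_mem (inv_mem m2) (mul_mem m1 m2)
      rw [v3 j hjk hjl]
      exact Subgroup.subset_closure ⟨j, hj, rfl⟩
    · rw [Subgroup.closure_le]
      rintro _ ⟨j, hj, rfl⟩
      have m1 : a i l ∈ Subgroup.closure {y | ∃ j, j ≠ i ∧ y = sw a k l i j} :=
        Subgroup.subset_closure ⟨k, Ne.symm hik, v1.symm⟩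
      have m2 : a k l * a i k * (a k l)⁻¹ ∈
          Subgroup.closure {y | ∃ j, j ≠ i ∧ y = sw a k l i j} :=
        Subgroup.subset_closure ⟨l, Ne.symm hil, v2.symm⟩
      by_cases hjk : j = k
      · subst hjk
        have e2 : a i j = (a i l * (a j l * a i j * (a j l)⁻¹)) * (a i l)⁻¹ := by
          rw [e]
          group
        rw [e2]
        exact mul_mem (mul_mem m1 m2) (inv_mem m1)
      by_cases hjl : j = l
      · subst hjl
        exact m1
      rw [← v3 j hjk hjl]
      exact Subgroup.subset_closure ⟨j, hj, rfl⟩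
  by_cases hk : k ∈ R
  · -- `l ∉ R`
    have hl : l ∉ R := fun hl => hR ⟨hk, hl⟩
    refine ⟨fun i j => (a k l)⁻¹ * sw a k l i j * (a k l)⁻¹⁻¹, ⟨GA_pb (PB.sw h hkl) _, ?_, ?_, ?_,
      ?_⟩⟩
    · intro i j j' hij hij'
      obtain ⟨g, hg, e1, e2⟩ := hpr i j j' hij hij'
      refine ⟨(a k l)⁻¹ * g, mul_mem ((gp a).inv_mem hx) hg, ?_, ?_⟩
      · show (a k l)⁻¹ * sw a k l i j * (a k l)⁻¹⁻¹ = _
        rw [e1]
        group
      · show (a k l)⁻¹ * sw a k l i j' * (a k l)⁻¹⁻¹ = _
        rw [e2]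
        group
    · intro i j hij hi hj
      have hik : i ≠ k := by
        rintro rfl
        rw [Equiv.swap_apply_left] at hi
        exact hl hi
      have hjk : j ≠ k := by
        rintro rfl
        rw [Equiv.swap_apply_left] at hj
        exact hl hj
      show (a k l)⁻¹ * sw a k l i j * (a k l)⁻¹⁻¹ = _
      rw [sw_b h hkl hik hjk hij]
      group
    · rw [← gp_sw h hkl] at hx ⊢
      exact GA_gp ((gp (sw a k l)).inv_mem hx)
    · intro i
      rw [← hst i]
      have hset : {y : G | ∃ j, j ≠ i ∧ y = (a k l)⁻¹ * sw a k l i j * (a k l)⁻¹⁻¹} =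
          (fun y => (a k l)⁻¹ * y * (a k l)⁻¹⁻¹) '' {y | ∃ j, j ≠ i ∧ y = sw a k l i j} := by
        ext y
        constructor
        · rintro ⟨j, hj, rfl⟩
          exact ⟨_, ⟨j, hj, rfl⟩, rfl⟩
        · rintro ⟨_, ⟨j, hj, rfl⟩, rfl⟩
          exact ⟨j, hj, rfl⟩
      show Subgroup.closure {y : G | ∃ j, j ≠ i ∧
        y = (a k l)⁻¹ * sw a k l i j * (a k l)⁻¹⁻¹} = _
      rw [hset]
      apply GA_cl
      have hset2 : {y : G | ∃ j, j ≠ i ∧ y = sw a k l i j} =
          {y | ∃ t' ∈ ({i} : Finset (Fin n)), ∃ j, j ≠ t' ∧ y = sw a k l t' j} := by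
        ext y
        constructor
        · rintro ⟨j, hj, rfl⟩
          exact ⟨i, Finset.mem_singleton_self i, j, hj, rfl⟩
        · rintro ⟨t', ht', j, hj, rfl⟩
          rw [Finset.mem_singleton] at ht'
          subst ht'
          exact ⟨j, hj, rfl⟩
      have hxs : a k l ∈ gp (sw a k l) := by
        rw [gp_sw h hkl]
        exact hx
      intro y hy
      rw [hset2] at hy ⊢
      refine ⟨strand_norm (PB.sw h hkl) ((gp _).inv_mem hxs) hy, ?_⟩
      have h3 := strand_norm (PB.sw h hkl) hxs hy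
      rw [inv_inv]
      exact h3
  · refine ⟨sw a k l, ⟨PB.sw h hkl, hpr, ?_, gp_sw h hkl, hst⟩⟩
    intro i j hij hi hj
    have hil : i ≠ l := by
      rintro rfl
      rw [Equiv.swap_apply_right] at hi
      exact hk hi
    have hjl : j ≠ l := by
      rintro rfl
      rw [Equiv.swap_apply_right] at hj
      exact hk hj
    exact sw_a hil hjl
/- END GA -/

/- MODULE GB -/
private theorem GB_desc {n : ℕ} {σ : Equiv.Perm (Fin n)} (h : σ ≠ 1) :
    ∃ k l : Fin n, (l : ℕ) = k + 1 ∧ σ l < σ k := by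
  by_contra hno
  push Not at hno
  apply h
  rcases n with _ | m
  · ext i
    exact i.elim0
  · have hm : StrictMono σ := by
      rw [Fin.strictMono_iff_lt_succ]
      intro i
      have h1 := hno i.castSucc i.succ (by simp)
      refine lt_of_le_of_ne h1 fun e => ?_
      have h2 := σ.injective e
      rw [Fin.ext_iff] at h2
      simp at h2
    have h3 : (σ : Fin (m + 1) → Fin (m + 1)) = id :=
      (StrictMono.range_inj hm strictMono_id).1 (by
        rw [Set.range_id, σ.surjective.range_eq])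
    exact Equiv.ext fun i => congrFun h3 i

private theorem GB_pot {n : ℕ} {σ : Equiv.Perm (Fin n)} {k l : Fin n} (hkl : (l : ℕ) = k + 1)
    (hlt : σ l < σ k) :
    ∑ i : Fin n, (i : ℕ) * (σ i : ℕ) <
      ∑ i : Fin n, (i : ℕ) * ((σ * Equiv.swap k l) i : ℕ) := by
  have hne : k ≠ l := by
    intro e
    rw [e] at hkl
    omega
  have h1 : ∑ i : Fin n, (i : ℕ) * ((σ * Equiv.swap k l) i : ℕ) =
      ∑ i : Fin n, ((Equiv.swap k l i : Fin n) : ℕ) * (σ i : ℕ) := by
    rw [← Equiv.sum_comp (Equiv.swap k l)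
      (fun i => ((Equiv.swap k l i : Fin n) : ℕ) * (σ i : ℕ))]
    refine Finset.sum_congr rfl fun i _ => ?_
    rw [Equiv.swap_apply_self, Equiv.Perm.mul_apply]
  rw [h1]
  have h2 : ∑ i : Fin n, ((((Equiv.swap k l i : Fin n) : ℕ) : ℤ) - ((i : ℕ) : ℤ)) *
      ((σ i : ℕ) : ℤ) = ((((Equiv.swap k l k : Fin n) : ℕ) : ℤ) - ((k : ℕ) : ℤ)) *
      ((σ k : ℕ) : ℤ) + ((((Equiv.swap k l l : Fin n) : ℕ) : ℤ) - ((l : ℕ) : ℤ)) *
      ((σ l : ℕ) : ℤ) := by
    refine Fintype.sum_eq_add k l hne fun i hi => ?_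
    rw [Equiv.swap_apply_of_ne_of_ne hi.1 hi.2, sub_self, zero_mul]
  rw [Equiv.swap_apply_left, Equiv.swap_apply_right] at h2
  have h3 : (∑ i : Fin n, (((Equiv.swap k l i : Fin n) : ℕ) : ℤ) * ((σ i : ℕ) : ℤ)) -
      ∑ i : Fin n, ((i : ℕ) : ℤ) * ((σ i : ℕ) : ℤ) = ((σ k : ℕ) : ℤ) - ((σ l : ℕ) : ℤ) := by
    rw [← Finset.sum_sub_distrib, Finset.sum_congr rfl (fun i _ => (sub_mul _ _ _).symm), h2,
      hkl]
    push_cast
    ring
  have h4 : ((σ l : ℕ) : ℤ) < ((σ k : ℕ) : ℤ) := by exact_mod_cast hlt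
  have h5 : ((∑ i : Fin n, (i : ℕ) * (σ i : ℕ) : ℕ) : ℤ) <
      ((∑ i : Fin n, ((Equiv.swap k l i : Fin n) : ℕ) * (σ i : ℕ) : ℕ) : ℤ) := by
    push_cast
    linarith
  exact_mod_cast h5

private theorem GB_bound {n : ℕ} (σ : Equiv.Perm (Fin n)) :
    ∑ i : Fin n, (i : ℕ) * (σ i : ℕ) ≤ n * (n * n) := by
  have h1 : ∀ i ∈ (Finset.univ : Finset (Fin n)), (i : ℕ) * (σ i : ℕ) ≤ n * n := fun i _ =>
    Nat.mul_le_mul i.2.le (σ i).2.le
  have h2 := Finset.sum_le_card_nsmul _ _ _ h1
  rw [Finset.card_univ, Fintype.card_fin, smul_eq_mul] at h2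
  exact h2

/-- **GB (a).** -/
theorem Arr.refl (h : PB a) (R : Set (Fin n)) : Arr a a 1 R := by
  exact ⟨h, fun i j k _ _ => ⟨1, one_mem _, by simp, by simp⟩, fun i j _ _ _ => rfl, rfl,
    fun i => rfl⟩

/-- **GB (b).**  PROOF: `pr`: `c i j = g * b (τ i) (τ j) * g⁻¹`, `g ∈ gp b = gp a`, and
`b (τ i) (τ j) = g' * a (σ (τ i)) (σ (τ j)) * g'⁻¹` with the same `g'` for `j` and `k`. -/
theorem Arr.trans {σ τ : Equiv.Perm (Fin n)} {R : Set (Fin n)} (h1 : Arr a b σ R)
    (h2 : Arr b c τ (σ ⁻¹' R)) : Arr a c (σ * τ) R := by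
  refine ⟨h2.pb, fun i j k hij hik => ?_, fun i j hij hi hj => ?_, h2.ge.trans h1.ge,
    fun i => (h2.st i).trans (h1.st (τ i))⟩
  · obtain ⟨g2, hg2, e1, e2⟩ := h2.pr i j k hij hik
    obtain ⟨g1, hg1, f1, f2⟩ := h1.pr (τ i) (τ j) (τ k) (fun e => hij (τ.injective e))
      (fun e => hik (τ.injective e))
    rw [h1.ge] at hg2
    refine ⟨g2 * g1, mul_mem hg2 hg1, ?_, ?_⟩
    · rw [e1, f1, Equiv.Perm.mul_apply, Equiv.Perm.mul_apply]
      group
    · rw [e2, f2, Equiv.Perm.mul_apply, Equiv.Perm.mul_apply]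
      group
  · rw [h2.fx i j hij hi hj, h1.fx (τ i) (τ j) (fun e => hij (τ.injective e)) hi hj]
    rfl

/-- **GB (c).** Reordering of the strands.

PROOF. Induction on the number of inversions of `σ` (pairs `i < j` with `σ j < σ i`).  If there is
none, `σ = 1` (`Arr.refl`).  Otherwise there are neighbours `k, l`, `l = k + 1`, with `σ l < σ k`; by `hR`
not both `σ k, σ l ∈ R`.  `τ := σ * swap k l` has one inversion less and satisfies `hR`; by induction
`Arr a b τ R`, and `arr_swap` for `b`, `k`, `l`, `τ ⁻¹' R` gives `c` with `Arr b c (swap k l) (τ ⁻¹' R)`;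
`Arr.trans`: `τ * swap k l = σ`.  (Alternative: `Equiv.Perm` sorting lemmas, `Tuple.bubble_sort_induction`.) -/
theorem arrange (h : PB a) (σ : Equiv.Perm (Fin n)) (R : Set (Fin n))
    (hR : ∀ i j, i < j → σ i ∈ R → σ j ∈ R → σ i < σ j) : ∃ b, Arr a b σ R := by
  have main : ∀ d : ℕ, ∀ σ : Equiv.Perm (Fin n),
      n * (n * n) - ∑ i : Fin n, (i : ℕ) * (σ i : ℕ) ≤ d →
      (∀ i j, i < j → σ i ∈ R → σ j ∈ R → σ i < σ j) → ∃ b, Arr a b σ R := by
    intro d
    induction d with
    | zero =>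
      intro σ hd hR
      by_cases h1 : σ = 1
      · subst h1
        exact ⟨a, Arr.refl h R⟩
      · obtain ⟨k, l, hkl, hlt⟩ := GB_desc h1
        have := GB_pot hkl hlt
        have := GB_bound (σ * Equiv.swap k l)
        omega
    | succ d ih =>
      intro σ hd hR
      by_cases h1 : σ = 1
      · subst h1
        exact ⟨a, Arr.refl h R⟩
      obtain ⟨k, l, hkl, hlt⟩ := GB_desc h1
      have hklt : k < l := by
        rw [Fin.lt_def]
        omega
      have p1 := GB_pot hkl hlt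
      have p2 := GB_bound (σ * Equiv.swap k l)
      have hnot : ¬ (σ k ∈ R ∧ σ l ∈ R) := fun hh =>
        absurd (hR k l hklt hh.1 hh.2) (not_lt.2 hlt.le)
      have hR' : ∀ i j, i < j → (σ * Equiv.swap k l) i ∈ R → (σ * Equiv.swap k l) j ∈ R →
          (σ * Equiv.swap k l) i < (σ * Equiv.swap k l) j := by
        intro i j hij hi hj
        rw [Equiv.Perm.mul_apply] at hi hj ⊢
        rw [Equiv.Perm.mul_apply]
        by_cases hc : i = k ∧ j = l
        · exfalso
          rw [hc.1, Equiv.swap_apply_left] at hi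
          rw [hc.2, Equiv.swap_apply_right] at hj
          exact hnot ⟨hj, hi⟩
        · have hm : Equiv.swap k l i < Equiv.swap k l j := by
            refine swap_mono hkl hij ?_
            rw [Fin.lt_def] at hij
            simp only [Fin.ext_iff, ne_eq] at hc ⊢
            omega
          exact hR _ _ hm hi hj
      obtain ⟨b, hb⟩ := ih (σ * Equiv.swap k l) (by omega) hR'
      obtain ⟨c, hc⟩ := arr_swap hb.pb hkl ((σ * Equiv.swap k l) ⁻¹' R) (by
        rintro ⟨h3, h4⟩
        rw [Set.mem_preimage, Equiv.Perm.mul_apply] at h3 h4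
        rw [Equiv.swap_apply_left] at h3
        rw [Equiv.swap_apply_right] at h4
        exact hnot ⟨h4, h3⟩)
      have h5 := Arr.trans hb hc
      rw [mul_assoc, Equiv.swap_mul_self, mul_one] at h5
      exact ⟨c, h5⟩
  exact main _ σ le_rfl hR
/- END GB -/

/- MODULE GC -/
/-- **GC.** An enumeration of `C \ R` such that each element has a neighbour which is later or in
`R`.

PROOF. Induction on `p`.  `p = 0`: nothing.  `p + 1`: `R ≠ C` (cardinalities), so by `hC.cn R` there are
`s ∈ R`, `t ∈ C \ R` with `Adj a i s t` (`Adj` is symmetric).  Apply the induction hypothesis to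
`R' = insert t R` and put `t` at the end (`Fin.snoc`): `t` has the neighbour `s ∈ R`, the others have a
neighbour which is later or in `R' = R ∪ {t}`, and `t` is later. -/
theorem exists_order {i : Fin n} {C R : Finset (Fin n)} (hC : Comp a i C) (hR : R ⊆ C)
    (hne : R.Nonempty) {p : ℕ} (hp : p + R.card = C.card) :
    ∃ t : Fin p → Fin n, Function.Injective t ∧ (∀ k, t k ∈ C ∧ t k ∉ R) ∧
      ∀ k, ∃ s ∈ C, Adj a i (t k) s ∧ (s ∈ R ∨ ∃ l, k < l ∧ t l = s) := by
  induction p generalizing R with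
  | zero =>
    exact ⟨fun k => k.elim0, fun k => k.elim0, fun k => k.elim0, fun k => k.elim0⟩
  | succ p ih =>
    have hRC : R ≠ C := by
      rintro rfl
      omega
    obtain ⟨s, hs, t0, ht0, hadj⟩ := hC.cn R hR hne hRC
    rw [Finset.mem_sdiff] at ht0
    have hadj' : Adj a i t0 s := ⟨hadj.2.1, hadj.1, hadj.2.2.1.symm, fun h => hadj.2.2.2 h.symm⟩
    obtain ⟨t, h1, h2, h3⟩ := ih (R := insert t0 R) (Finset.insert_subset ht0.1 hR)
      (Finset.insert_nonempty _ _) (by rw [Finset.card_insert_of_notMem ht0.2]; omega)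
    refine ⟨Fin.snoc t t0, ?_, ?_, ?_⟩
    · intro u v huv
      induction u using Fin.lastCases with
      | last =>
        induction v using Fin.lastCases with
        | last => rfl
        | cast v =>
          rw [Fin.snoc_last, Fin.snoc_castSucc] at huv
          exact absurd (huv ▸ Finset.mem_insert_self t0 R) (h2 v).2
      | cast u =>
        induction v using Fin.lastCases with
        | last =>
          rw [Fin.snoc_last, Fin.snoc_castSucc] at huv
          exact absurd (huv.symm ▸ Finset.mem_insert_self t0 R) (h2 u).2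
        | cast v =>
          rw [Fin.snoc_castSucc, Fin.snoc_castSucc] at huv
          rw [h1 huv]
    · intro u
      induction u using Fin.lastCases with
      | last =>
        rw [Fin.snoc_last]
        exact ht0
      | cast u =>
        rw [Fin.snoc_castSucc]
        exact ⟨(h2 u).1, fun hh => (h2 u).2 (Finset.mem_insert_of_mem hh)⟩
    · intro u
      induction u using Fin.lastCases with
      | last =>
        rw [Fin.snoc_last]
        exact ⟨s, hR hs, hadj', Or.inl hs⟩
      | cast u =>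
        rw [Fin.snoc_castSucc]
        obtain ⟨s', hs', ha', hc⟩ := h3 u
        refine ⟨s', hs', ha', ?_⟩
        rcases hc with hc | ⟨l, hl, hlt⟩
        · rw [Finset.mem_insert] at hc
          rcases hc with hc | hc
          · right
            exact ⟨Fin.last p, Fin.castSucc_lt_last u, by rw [Fin.snoc_last, hc]⟩
          · exact Or.inl hc
        · right
          exact ⟨l.castSucc, Fin.castSucc_lt_castSucc_iff.2 hl, by rw [Fin.snoc_castSucc, hlt]⟩
/- END GC -/

/- MODULE GD -/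
/-- **GD.** The chain of pairs in the link of `i`.

PROOF. Take `t` from `exists_order` and let `t' k` be the neighbour `s`.  Let `σ` be a permutation of
`Fin n` with `σ 0 = i`, `σ (k + 1) = t k` (`k < p`), then the elements of `R` in increasing order, then
the rest in any order; `hR` of `arrange` holds as the elements of `R` are in increasing order.  (E.g.
take an injective list `i :: t 0 :: .. :: t (p-1) :: sorted R ++ sorted rest` of length `n` without
duplicates and `Equiv.ofBijective` of `List.get`; or define a rank function and `Tuple.sort`.)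
Let `b` be the rearranged family, `x k = b 0 (k+1)`, `y k = b (k+1) (position of t' k)`.  The position
of `t' k` is greater than `k + 1`.  `Arr.pr` for `i := k + 1` gives `g` (`b` is symmetric).  For `l < k`:
`Commute (b 0 (l+1)) (b (k+1) pos)` is `q1` as `0 < l+1 < k+1 < pos`.  For `s ≠ s' ∈ R`:
`a s s' = b pos pos'` (`fx`), positions `> p`, so `q1` again (`a s s' = a s' s`).
`¬ Commute (x k) (y k)`: conjugate by `g`: `¬ Commute (a i (t k)) (a (t k) (t' k))`, which follows from
`¬ Commute (a i (t k)) (a i (t' k))` (`Adj`) by the relations of the triple (`PB.tri`, `Tri.com` in all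
cyclic orders; or `PB.conj`: if `a (t k) i` and `a (t k) (t' k)` commute then `a i (t' k)` commutes with
`a (t k) i`, and then `a i (t k)` commutes with ... ).  In all other properties just unfold. -/
theorem exists_chain (h : PB a) {i : Fin n} {C R : Finset (Fin n)} (hC : Comp a i C) (hR : R ⊆ C)
    (hne : R.Nonempty) {p : ℕ} (hp : p + R.card = C.card) :
    ∃ (x y : Fin p → G) (t t' : Fin p → Fin n),
      (∀ k, t k ∈ C ∧ t k ∉ R ∧ t' k ∈ C ∧ Adj a i (t k) (t' k)) ∧
      (∀ k, ∃ g ∈ gp a, x k = g * a i (t k) * g⁻¹ ∧ y k = g * a (t k) (t' k) * g⁻¹) ∧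
      (∀ k, ¬ Commute (x k) (y k)) ∧ (∀ l k, l < k → Commute (x l) (y k)) ∧
      ∀ k, ∀ s ∈ R, ∀ s' ∈ R, s ≠ s' → Commute (x k) (a s s') := by
  classical
  obtain ⟨t, ht1, ht2, ht3⟩ := exists_order hC hR hne hp
  choose t' ht4 ht5 ht6 using ht3
  have hti : ∀ k, t k ≠ i := fun k e => hC.ni (e ▸ (ht2 k).1)
  let c : Fin n → ℕ := fun v => if v = i then 0 else if h : ∃ k, t k = v then
    ((h.choose : Fin p) : ℕ) + 1 else if v ∈ R then p + 1 else p + 2
  have ci : c i = 0 := if_pos rfl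
  have ct : ∀ k, c (t k) = (k : ℕ) + 1 := by
    intro k
    have hex : ∃ k', t k' = t k := ⟨k, rfl⟩
    show (if t k = i then 0 else if h : ∃ k', t k' = t k then
      ((h.choose : Fin p) : ℕ) + 1 else if t k ∈ R then p + 1 else p + 2) = _
    rw [if_neg (hti k), dif_pos hex, ht1 hex.choose_spec]
  have cR : ∀ s ∈ R, c s = p + 1 := by
    intro s hs
    have h1 : s ≠ i := fun e => hC.ni (e ▸ hR hs)
    have h2 : ¬ ∃ k, t k = s := by
      rintro ⟨k, rfl⟩
      exact (ht2 k).2 hs
    show (if s = i then 0 else if h : ∃ k', t k' = s then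
      ((h.choose : Fin p) : ℕ) + 1 else if s ∈ R then p + 1 else p + 2) = _
    rw [if_neg h1, dif_neg h2, if_pos hs]
  let key : Fin n → ℕ := fun v => c v * n + (v : ℕ)
  have hkinj : Function.Injective key := by
    intro u v huv
    have h1 : (c u * n + (u : ℕ)) % n = (c v * n + (v : ℕ)) % n := congrArg (· % n) huv
    rw [Nat.mul_add_mod_of_lt u.2, Nat.mul_add_mod_of_lt v.2] at h1
    exact Fin.ext h1
  have hkey : ∀ u v, c u < c v → key u < key v := by
    intro u v huv
    have h1 : (c u + 1) * n ≤ c v * n := Nat.mul_le_mul_right n huv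
    have h2 := u.2
    show c u * n + (u : ℕ) < c v * n + (v : ℕ)
    rw [Nat.add_mul, one_mul] at h1
    omega
  let σ : Equiv.Perm (Fin n) := Tuple.sort key
  have hmono : StrictMono (key ∘ σ) :=
    (Tuple.monotone_sort key).strictMono_of_injective (hkinj.comp σ.injective)
  have hP : ∀ u v, key u < key v → σ⁻¹ u < σ⁻¹ v := by
    intro u v huv
    apply hmono.lt_iff_lt.1
    show key (σ (σ⁻¹ u)) < key (σ (σ⁻¹ v))
    have hσ : ∀ u, σ (σ⁻¹ u) = u := fun u => Equiv.apply_symm_apply σ u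
    rw [hσ, hσ]
    exact huv
  have hRσ : ∀ u v, u < v → σ u ∈ (R : Set (Fin n)) → σ v ∈ (R : Set (Fin n)) → σ u < σ v := by
    intro u v huv hu hv
    have h1 : c (σ u) * n + (σ u : ℕ) < c (σ v) * n + (σ v : ℕ) := hmono huv
    rw [cR _ (Finset.mem_coe.1 hu), cR _ (Finset.mem_coe.1 hv)] at h1
    rw [Fin.lt_def]
    omega
  obtain ⟨b, hb⟩ := arrange h σ (R : Set (Fin n)) hRσ
  have hσ : ∀ u, σ (σ⁻¹ u) = u := fun u => Equiv.apply_symm_apply σ u
  have hit : ∀ k, σ⁻¹ i < σ⁻¹ (t k) := fun k => hP _ _ (hkey _ _ (by rw [ci, ct]; omega))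
  have htt : ∀ l k, l < k → σ⁻¹ (t l) < σ⁻¹ (t k) := fun l k hlk =>
    hP _ _ (hkey _ _ (by rw [ct, ct]; rw [Fin.lt_def] at hlk; omega))
  have htt' : ∀ k, σ⁻¹ (t k) < σ⁻¹ (t' k) := by
    intro k
    apply hP
    apply hkey
    rw [ct]
    rcases ht6 k with h1 | ⟨l, hl, hlt⟩
    · rw [cR _ h1]
      have := k.2
      omega
    · rw [← hlt, ct]
      rw [Fin.lt_def] at hl
      omega
  have htR : ∀ k, ∀ s ∈ R, σ⁻¹ (t k) < σ⁻¹ s := by
    intro k s hs
    apply hP
    apply hkey
    rw [ct, cR _ hs]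
    have := k.2
    omega
  have hxy : ∀ k, ∃ g ∈ gp a, b (σ⁻¹ i) (σ⁻¹ (t k)) = g * a i (t k) * g⁻¹ ∧
      b (σ⁻¹ (t k)) (σ⁻¹ (t' k)) = g * a (t k) (t' k) * g⁻¹ := by
    intro k
    obtain ⟨g, hg, e1, e2⟩ := hb.pr (σ⁻¹ (t k)) (σ⁻¹ i) (σ⁻¹ (t' k)) (hit k).ne' (htt' k).ne
    rw [hσ, hσ] at e1 e2
    refine ⟨g, hg, ?_, e2⟩
    rw [hb.pb.symm, e1, h.symm]
  refine ⟨fun k => b (σ⁻¹ i) (σ⁻¹ (t k)), fun k => b (σ⁻¹ (t k)) (σ⁻¹ (t' k)), t, t',
    fun k => ⟨(ht2 k).1, (ht2 k).2, ht4 k, ht5 k⟩, hxy, ?_, ?_, ?_⟩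
  · intro k hcom
    obtain ⟨g, -, e1, e2⟩ := hxy k
    have hcom' : Commute (b (σ⁻¹ i) (σ⁻¹ (t k))) (b (σ⁻¹ (t k)) (σ⁻¹ (t' k))) := hcom
    rw [e1, e2, conj_comm, h.symm i (t k)] at hcom'
    have hadj := ht5 k
    have h1 := (h.conj (s := t k) (k := i) (l := t' k) (j := i) hadj.1 hadj.2.2.1 hadj.2.1.symm
      hadj.1.symm).2 hcom'
    rw [h.symm (t k) i] at h1
    exact hadj.2.2.2 h1.symm
  · intro l k hlk
    exact hb.pb.q1 _ _ _ _ (hit l) (htt l k hlk) (htt' k)
  · intro k s hs s' hs' hss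
    have e1 := hb.fx (σ⁻¹ s) (σ⁻¹ s') (fun e => hss (σ⁻¹.injective e))
      (by rw [hσ]; exact hs) (by rw [hσ]; exact hs')
    rw [hσ, hσ] at e1
    show Commute (b (σ⁻¹ i) (σ⁻¹ (t k))) (a s s')
    rw [← e1]
    rcases lt_or_gt_of_ne (fun e => hss (σ⁻¹.injective e) : σ⁻¹ s ≠ σ⁻¹ s') with h1 | h1
    · exact hb.pb.q1 _ _ _ _ (hit k) (htR k s hs) h1
    · rw [hb.pb.symm (σ⁻¹ s)]
      exact hb.pb.q1 _ _ _ _ (hit k) (htR k s' hs') h1
/- END GD -/

/- MODULE GE -/
/-- **GE.** A non commuting pair lies in a component.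

PROOF. `C` = the set of all `t` which can be reached from `s` by steps `Adj a i` (`Adj a i` is symmetric;
`Relation.ReflTransGen (Adj a i) s t`, or `SimpleGraph.Reachable` for the graph with `Adj a i`; `classical`).
`ni`: by induction all reachable elements are `≠ i`.  `cl`: one more step.  `cn`: if no step leads
from `S` to `C \ S` then (with symmetry) `S` and `C \ S` are both closed under steps inside `C`; `s` is in one
of them, so everything reachable is in this one; the other is empty. -/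
theorem comp_exists {i s t : Fin n} (hst : Adj a i s t) :
    ∃ C : Finset (Fin n), Comp a i C ∧ s ∈ C := by
  classical
  have hsym : ∀ u v, Adj a i u v → Adj a i v u := fun u v h =>
    ⟨h.2.1, h.1, h.2.2.1.symm, fun hc => h.2.2.2 hc.symm⟩
  have hrs : ∀ u v, Relation.ReflTransGen (Adj a i) u v →
      Relation.ReflTransGen (Adj a i) v u := by
    intro u v h
    induction h with
    | refl => exact Relation.ReflTransGen.refl
    | tail _ hbc ih => exact Relation.ReflTransGen.head (hsym _ _ hbc) ih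
  let C : Finset (Fin n) := Finset.univ.filter fun u => Relation.ReflTransGen (Adj a i) s u
  have hC : ∀ u, u ∈ C ↔ Relation.ReflTransGen (Adj a i) s u := fun u => by
    rw [Finset.mem_filter]
    exact ⟨fun h => h.2, fun h => ⟨Finset.mem_univ _, h⟩⟩
  refine ⟨C, ⟨?_, ?_, ?_, ?_⟩, (hC s).2 Relation.ReflTransGen.refl⟩
  · intro hi
    rcases Relation.ReflTransGen.cases_tail ((hC i).1 hi) with h1 | ⟨u, -, hu⟩
    · exact hst.1 h1.symm
    · exact hu.2.1 rfl
  · exact ⟨s, (hC s).2 Relation.ReflTransGen.refl, t,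
      (hC t).2 (Relation.ReflTransGen.single hst), hst⟩
  · intro u hu v huv
    exact (hC v).2 (((hC u).1 hu).tail huv)
  · intro S hS hne hSC
    by_contra hno
    push Not at hno
    obtain ⟨u, hu⟩ := hne
    apply hSC
    apply Finset.Subset.antisymm hS
    intro v hv
    have huv : Relation.ReflTransGen (Adj a i) u v :=
      (hrs _ _ ((hC u).1 (hS hu))).trans ((hC v).1 hv)
    clear hv
    induction huv with
    | refl => exact hu
    | tail h1 hbc ih =>
      rename_i w w'
      by_contra hw'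
      have hwC : w' ∈ C := (hC w').2 (((hC w).1 (hS ih)).tail hbc)
      exact hno w ih w' (Finset.mem_sdiff.2 ⟨hwC, hw'⟩) hbc
/- END GE -/

/- MODULE GF -/
/-- **GF.** With the relations of the sphere a component has at least three elements.

PROOF. `C` has two elements by `hC.ne`.  Suppose `C = {s, t}`, `Adj a i s t`.  Then `a i s` commutes with
`a i j` for all `j ≠ i, t` (`j ∉ C`: not adjacent by `hC.cl`; `j = s`).  `big a i` is the ordered product
of the `a i l`, `l ≠ i`; it is central and all factors but one (`a i t`, exactly one factor as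
`List.finRange n` has no duplicates) commute with `a i s`: so `a i t` commutes with `a i s`
(split `List.finRange n = L ++ t :: M`, `exists_cut`; `pr_comm`).  Contradiction. -/
theorem comp_three (hs : Sph a) {i : Fin n} {C : Finset (Fin n)} (hC : Comp a i C) :
    3 ≤ C.card := by
  obtain ⟨s, hs1, t, ht1, hadj⟩ := hC.ne
  by_contra hlt
  have hst : s ≠ t := hadj.2.2.1
  have hCst : ∀ u ∈ C, u = s ∨ u = t := by
    intro u hu
    by_contra hno
    push Not at hno
    have h3 : ({s, t, u} : Finset (Fin n)) ⊆ C := by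
      intro v hv
      simp only [Finset.mem_insert, Finset.mem_singleton] at hv
      rcases hv with rfl | rfl | rfl
      · exact hs1
      · exact ht1
      · exact hu
    have h4 := Finset.card_le_card h3
    rw [Finset.card_eq_three.2 ⟨s, t, u, hst, hno.1.symm, hno.2.symm, rfl⟩] at h4
    exact hlt h4
  have hcom : ∀ j, j ≠ i → j ≠ t → Commute (a i s) (a i j) := by
    intro j hji hjt
    by_contra hnc
    have hsj : s ≠ j := by
      rintro rfl
      exact hnc (Commute.refl _)
    have hj := hC.cl s hs1 j ⟨hadj.1, hji, hsj, hnc⟩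
    rcases hCst j hj with h1 | h1
    · exact hsj h1.symm
    · exact hjt h1
  apply hadj.2.2.2
  obtain ⟨L, M, hLM, -, -, hL, hM, -⟩ := exists_cut t
  have hbig := hs i (a i s)
  unfold big at hbig
  rw [hLM, pr_append, pr_cons, if_neg hadj.2.1] at hbig
  have hf : ∀ u, u ≠ t → Commute (if u = i then (1 : G) else a i u) (a i s) := by
    intro u hut
    by_cases hui : u = i
    · rw [if_pos hui]
      exact Commute.one_left _
    · rw [if_neg hui]
      exact (hcom u hui hut).symm
  have hcL : Commute (pr (fun l => if l = i then (1 : G) else a i l) L) (a i s) :=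
    pr_comm fun u hu => hf u (hL u hu).ne
  have hcM : Commute (pr (fun l => if l = i then (1 : G) else a i l) M) (a i s) :=
    pr_comm fun u hu => hf u (hM u hu).ne'
  have e : a i t = (pr (fun l => if l = i then (1 : G) else a i l) L)⁻¹ *
      (pr (fun l => if l = i then (1 : G) else a i l) L *
        (a i t * pr (fun l => if l = i then (1 : G) else a i l) M)) *
      (pr (fun l => if l = i then (1 : G) else a i l) M)⁻¹ := by group
  have h5 : Commute (a i t) (a i s) := by
    rw [e]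
    exact (hcL.inv_left.mul_left hbig).mul_left hcM.inv_left
  exact h5.symm
/- END GF -/

/- MODULE GG -/
/-- **GG.** The group generated by the `a i s`, `s ∈ C`, is normal.

PROOF. Let `H` be this group.  Generators `g = a k l` of `gp a` and `x = a i s`, `s ∈ C`.
(1) `i ∉ {k, l}`.  If `a i k`, `a i l` commute then `a k l` commutes with `a i s` (`PB.conj`, `.2`).
Otherwise `k` and `l` are adjacent: both in `C` or both not in `C`.  `PB.conj` gives `w` in the closure
of `{a i k, a i l}` with `a k l * a i s * (a k l)⁻¹ = w * a i s * w⁻¹`.  Both in `C`: `w ∈ H`.  Both not in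
`C`: `a i k`, `a i l` commute with `a i s` (`hC.cl`, no edge from `C`), so `w` does: the result is `a i s`.
The same for the inverse `(a k l)⁻¹ * a i s * a k l` (see GI (a)).
(2) `i = k` (or `i = l`, `h.symm`): `a i l`, `l ∈ C`: in `H`; `l ∉ C`: commutes with `a i s`.
Then closure induction in `x`, then in `g` (with inverses of generators). -/
theorem comp_norm (h : PB a) {i : Fin n} {C : Finset (Fin n)} (hC : Comp a i C) {g : G}
    (hg : g ∈ gp a) {x : G} (hx : x ∈ Subgroup.closure {y | ∃ s ∈ C, y = a i s}) :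
    g * x * g⁻¹ ∈ Subgroup.closure {y | ∃ s ∈ C, y = a i s} := by
  refine (GI_conj _ _ ?_ hg x hx).1
  rintro _ ⟨k, l, hkl, rfl⟩ _ ⟨s, hs, rfl⟩
  have hsub : ∀ s ∈ C, a i s ∈ Subgroup.closure {y | ∃ s ∈ C, y = a i s} :=
    fun s hs => Subgroup.subset_closure ⟨s, hs, rfl⟩
  have hsi : s ≠ i := fun e => hC.ni (e ▸ hs)
  have hcomOut : ∀ j, j ≠ i → j ∉ C → Commute (a i j) (a i s) := by
    intro j hji hjC
    by_contra hnc
    have hsj : s ≠ j := fun e => hjC (e ▸ hs)
    exact hjC (hC.cl s hs j ⟨hsi, hji, hsj, fun hc => hnc hc.symm⟩)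
  have hfix : ∀ g : G, Commute g (a i s) →
      g * a i s * g⁻¹ ∈ Subgroup.closure {y | ∃ s ∈ C, y = a i s} ∧
      g⁻¹ * a i s * g ∈ Subgroup.closure {y | ∃ s ∈ C, y = a i s} := by
    intro g hg
    rw [hg.eq, mul_inv_cancel_right, hg.inv_left.eq, inv_mul_cancel_right]
    exact ⟨hsub s hs, hsub s hs⟩
  have hin : ∀ g ∈ Subgroup.closure {y | ∃ s ∈ C, y = a i s},
      g * a i s * g⁻¹ ∈ Subgroup.closure {y | ∃ s ∈ C, y = a i s} ∧
      g⁻¹ * a i s * g ∈ Subgroup.closure {y | ∃ s ∈ C, y = a i s} := fun g hg =>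
    ⟨mul_mem (mul_mem hg (hsub s hs)) (inv_mem hg), mul_mem (mul_mem (inv_mem hg) (hsub s hs)) hg⟩
  by_cases hik : i = k
  · by_cases hl : l ∈ C
    · exact hin _ (by rw [← hik]; exact hsub l hl)
    · exact hfix _ (by rw [← hik]; exact hcomOut l (by rw [hik]; exact hkl.symm) hl)
  by_cases hil : i = l
  · by_cases hk : k ∈ C
    · exact hin _ (by rw [h.symm k l, ← hil]; exact hsub k hk)
    · exact hfix _ (by
        rw [h.symm k l, ← hil]
        exact hcomOut k (by rw [hil]; exact hkl) hk)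
  by_cases hc : Commute (a i k) (a i l)
  · exact hfix _ ((h.conj hik hil hkl hsi).2 hc)
  obtain ⟨⟨w, hw, e1⟩, w', hw', e2⟩ := GI_two h hik hil hkl hsi
  by_cases hk : k ∈ C
  · have hl : l ∈ C := hC.cl k hk l ⟨Ne.symm hik, Ne.symm hil, hkl, hc⟩
    have hle : Subgroup.closure {a i k, a i l} ≤
        Subgroup.closure {y | ∃ s ∈ C, y = a i s} := by
      rw [Subgroup.closure_le]
      rintro z (rfl | rfl)
      · exact hsub k hk
      · exact hsub l hl
    rw [e1, e2]
    exact ⟨(hin w (hle hw)).1, (hin w' (hle hw')).1⟩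
  · have hl : l ∉ C := fun hl =>
      hk (hC.cl l hl k ⟨Ne.symm hil, Ne.symm hik, hkl.symm, fun h' => hc h'.symm⟩)
    have hcw : ∀ w ∈ Subgroup.closure {a i k, a i l}, Commute w (a i s) := by
      intro w hw
      induction hw using Subgroup.closure_induction with
      | mem z hz =>
        rcases hz with rfl | rfl
        · exact hcomOut k (Ne.symm hik) hk
        · exact hcomOut l (Ne.symm hil) hl
      | one => exact Commute.one_left _
      | mul u v _ _ hu hv => exact hu.mul_left hv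
      | inv u _ hu => exact hu.inv_left
    rw [e1, e2]
    exact ⟨(hfix w (hcw w hw)).1, (hfix w' (hcw w' hw')).1⟩
/- END GG -/

/- MODULE GH -/
/-- **GH.** The generators on the strands outside `C ∪ {i}` commute with the `a i s`, `s ∈ C`.

PROOF. `t ∉ C`, so `t`, `s` are not adjacent: `a i s`, `a i t` commute (`hC.cl`; `s ≠ i` by `hC.ni`,
`s ≠ t`).  By the relations of the triple `a t i`, `a t s` commute, so `a i s` commutes with all `a t j`
(`PB.conj`, `s := t`, `k := i`, `l := s`, `.2`). -/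
theorem comp_comm (h : PB a) {i : Fin n} {C : Finset (Fin n)} (hC : Comp a i C) {t : Fin n}
    (htC : t ∉ C) (hti : t ≠ i) {j : Fin n} (hj : j ≠ t) {s : Fin n} (hs : s ∈ C) :
    Commute (a t j) (a i s) := by
  have hsi : s ≠ i := fun e => hC.ni (e ▸ hs)
  have hst : s ≠ t := fun e => htC (e ▸ hs)
  have h1 : Commute (a i s) (a i t) := by
    by_contra hnc
    exact htC (hC.cl s hs t ⟨hsi, hti, hst, hnc⟩)
  have h2 : Commute (a t s) (a i t) :=
    (h.conj (s := i) (k := t) (l := s) (j := t) hti.symm hsi.symm hst.symm hti).2 h1.symm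
  have h3 : Commute (a i s) (a t j) :=
    (h.conj (s := t) (k := i) (l := s) (j := j) hti hst.symm hsi.symm hj).2 (by
      rw [h.symm t i]
      exact h2.symm)
  exact h3.symm
/- END GH -/

end Pool.Agent.PF54
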