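import Pool.Agent.PF54.Ten

/-! # Assembly: the number of active strands -/

set_option autoImplicit false

namespace Pool.Agent.PF54

open Pool.Agent.Conf14 (PB)
open Pool.Agent.PB3
open Pool.Agent.Bst88
open Module
open scoped TensorProduct

/-- the statement in rank `r` -/
def Bound (r : ℕ) : Prop :=
  ∀ (n : ℕ) (a : Fin n → Fin n → ((Fin r → ℂ) ≃ₗ[ℂ] (Fin r → ℂ))), PB a → IrrF a → Sph a →
    (∀ s, Act a s) → n ≤ bd r

variable {n : ℕ} {V : Type*} [AddCommGroup V] [Module ℂ V] [FiniteDimensional ℂ V] [Nontrivial V]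
  {a : Fin n → Fin n → (V ≃ₗ[ℂ] V)}

/-- rank three -/
theorem rank_three_le (h : PB a) (hirr : IrrF a) (hact : ∀ s, Act a s)
    (h3 : finrank ℂ V = 3) : n ≤ 5 := by
  rcases trichotomy h hirr hact with h1 | ⟨-, h2⟩ | ⟨i, C, e, f, -, he, hf, -, -, hr, -⟩
  · omega
  · have := thmS h h2
    omega
  · rw [h3] at hr
    have h4 : 4 ≤ e * f := Nat.mul_le_mul he hf
    omega

/-- the active strands of a rank three factor -/
theorem act_three {M : Type*} [AddCommGroup M] [Module ℂ M] [FiniteDimensional ℂ M]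
    [Nontrivial M] {μ : Fin n → Fin n → (M ≃ₗ[ℂ] M)} (h : PB μ) (hirr : IrrF μ) (hs : Sph μ)
    (h3 : finrank ℂ M = 3) (T : Finset (Fin n)) (hT : ∀ s, s ∈ T ↔ Act μ s) : T.card ≤ 5 := by
  obtain ⟨h1, h2, -, h4⟩ := restrict h hirr hs T hT
  exact rank_three_le h1 h2 h4 h3

/-- a component of a strand outside: one block of the complementary size -/
theorem other_comp (h : PB a) (hirr : IrrF a) (hact : ∀ s, Act a s) {i : Fin n}
    {C : Finset (Fin n)} (hC : Comp a i C) {e f : ℕ} (he : 0 < e) (hf : f.Prime)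
    (B : Blk (alg a i C) 1 e f) {t : Fin n} (ht : t ∉ insert i C) :
    ∃ K, Comp a t K ∧ Nonempty (Blk (alg a t K) 1 f e) ∧ K.card + 1 ≤ 2 * f := by
  obtain ⟨K, hK⟩ := exists_comp h hirr (hact t)
  obtain ⟨m', e', f', hm', he', hf', ⟨B'⟩⟩ := exists_blk h hirr hK
  obtain ⟨h2, hcard⟩ := card_comp h hirr hK hm' he' hf' B'
  rw [Finset.mem_insert, not_or] at ht
  obtain ⟨k, hk, hfk⟩ := B.sub B' he hf.pos he' hf' (by
    intro x hx y hy
    -- both algebras are generated by commuting elements
    have h1 : ∀ s ∈ C, ∀ u ∈ K, Commute (a i s) (a t u) := by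
      intro s hs u hu
      exact (comp_comm h hC ht.2 ht.1 (fun h' => hK.ni (h' ▸ hu)) hs).symm
    have h2 : ∀ y ∈ alg a t K, ∀ s ∈ C, Commute (S := Module.End ℂ V) (a i s).toLinearMap y := by
      intro y hy s hs
      induction hy using Algebra.adjoin_induction with
      | mem y hy =>
        obtain ⟨u, hu, rfl⟩ := hy
        exact LinearMap.ext fun v => LinearEquiv.congr_fun (h1 s hs u hu).eq v
      | algebraMap r => exact (Algebra.commutes r _).symm
      | add y y' _ _ hy hy' => exact hy.add_right hy'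
      | mul y y' _ _ hy hy' => exact hy.mul_right hy'
    have h3 : Commute x y := by
      induction hx using Algebra.adjoin_induction with
      | mem x hx =>
        obtain ⟨s, hs, rfl⟩ := hx
        exact h2 y hy s hs
      | algebraMap r => exact Algebra.commutes r _
      | add x x' _ _ hx hx' => exact hx.add_left hx'
      | mul x x' _ _ hx hx' => exact hx.mul_left hx'
    exact h3.eq)
  have he'f : e' ∣ f := ⟨k, hfk⟩
  have he'' : e' = f := by
    rcases (Nat.dvd_prime hf).1 he'f with h3 | h3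
    · omega
    · exact h3
  subst he''
  have hk1 : k = 1 := by
    have : e' * k = e' * 1 := by omega
    exact Nat.eq_of_mul_eq_mul_left he' this
  subst hk1
  have hm1 : m' = 1 := by omega
  subst hm1
  have hr := B.finrank_eq
  rw [B'.finrank_eq] at hr
  have hfe : f' = e := by
    have h4 : e' * f' = e' * e := by
      rw [one_mul, one_mul] at hr
      rw [hr, mul_comm]
    exact Nat.eq_of_mul_eq_mul_left he' h4
  subst hfe
  have h5 : max 1 (2 * (1 - 1)) = 1 := by norm_num
  rw [h5] at hcard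
  exact ⟨K, hK, ⟨B'⟩, by omega⟩

/-- the number of strands -/
theorem card_split {i : Fin n} {C : Finset (Fin n)} (hi : i ∉ C) :
    (Finset.univ \ (insert i C)).card + (C.card + 1) = n := by
  have h1 : (insert i C).card = C.card + 1 := Finset.card_insert_of_notMem hi
  have h2 := Finset.card_sdiff_add_card_eq_card (Finset.subset_univ (insert i C))
  rw [h1, Finset.card_univ, Fintype.card_fin] at h2
  exact h2

/-- a strand which is inactive on the first factor is active on the second factor -/
theorem act_right {E M : Type*} [AddCommGroup E] [Module ℂ E] [FiniteDimensional ℂ E]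
    [Nontrivial E] [AddCommGroup M] [Module ℂ M] [FiniteDimensional ℂ M] [Nontrivial M]
    {ψ : V ≃ₗ[ℂ] E ⊗[ℂ] M} {ε : Fin n → Fin n → (E ≃ₗ[ℂ] E)} {μ : Fin n → Fin n → (M ≃ₗ[ℂ] M)}
    (S : Spl a ψ ε μ) {s : Fin n} (hact : Act a s) (hε : ∀ j, j ≠ s → Cen (ε s j)) :
    Act μ s := by
  obtain ⟨j, hj, hc⟩ := hact
  exact ⟨j, hj, fun h => hc ((S.cen hj.symm).2 ⟨hε j hj, h⟩)⟩

/-- a factor of rank two from four strands -/
theorem four_case (h : PB a) (hirr : IrrF a) (hs : Sph a) (hact : ∀ s, Act a s) {i : Fin n}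
    {C : Finset (Fin n)} (hC : Comp a i C) {f : ℕ} (hf : 0 < f) (hc : C.card + 1 ≤ 2 * 2)
    (B : Blk (alg a i C) 1 2 f) (hB : Bound f) : n ≤ 4 + bd f := by
  classical
  have h3 := comp_three hs hC
  have hC3 : C.card = 3 := by omega
  have : Nonempty (Fin f) := ⟨⟨0, hf⟩⟩
  obtain ⟨ψ, ε, μ, S, hμ, hε, hi⟩ := exists_spl h hC (by norm_num) hf B
  have hpε := pb_four h hs hC hC3 S hμ hε hi
  have hpμ := S.pb_right h hpε
  set T : Finset (Fin n) := Finset.univ.filter (fun s => Act μ s) with hT
  have hT' : ∀ s, s ∈ T ↔ Act μ s := fun s => by rw [hT]; simp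
  obtain ⟨h1, h2, h4, h5⟩ := restrict hpμ (S.irr hirr).2 (S.sph hs).2 T hT'
  have h6 : T.card ≤ bd f := hB T.card _ h1 h2 h4 h5
  have h7 : (Finset.univ \ (insert i C)) ⊆ T := by
    intro s hs'
    rw [Finset.mem_sdiff, Finset.mem_insert, not_or] at hs'
    exact (hT' s).2 (act_right S (hact s) (hε s hs'.2.2 hs'.2.1))
  have h8 := Finset.card_le_card h7
  have h9 := card_split hC.ni
  omega

/-- the strands of a component are active on the first factor -/
theorem act_left {E M : Type*} [AddCommGroup E] [Module ℂ E] [FiniteDimensional ℂ E]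
    [Nontrivial E] [AddCommGroup M] [Module ℂ M] [FiniteDimensional ℂ M] [Nontrivial M]
    {ψ : V ≃ₗ[ℂ] E ⊗[ℂ] M} {ε : Fin n → Fin n → (E ≃ₗ[ℂ] E)} {μ : Fin n → Fin n → (M ≃ₗ[ℂ] M)}
    (S : Spl a ψ ε μ) {i : Fin n} {C : Finset (Fin n)} (hC : Comp a i C)
    (hμ : ∀ s ∈ C, Cen (μ i s)) {s : Fin n} (hs : s ∈ insert i C) : Act ε s := by
  have key : ∀ s ∈ C, ¬ Cen (ε i s) := by
    intro s hs hc
    have hne : i ≠ s := fun h' => hC.ni (h' ▸ hs)
    have hcen : Cen (a i s) := (S.cen hne).2 ⟨hc, hμ s hs⟩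
    by_cases h1 : ({s} : Finset (Fin n)) = C
    · obtain ⟨u, hu, t, ht, hadj⟩ := hC.ne
      rw [← h1, Finset.mem_singleton] at hu ht
      exact hadj.2.2.1 (hu.trans ht.symm)
    · obtain ⟨u, hu, t, -, hadj⟩ := hC.cn {s} (Finset.singleton_subset_iff.2 hs)
        (Finset.singleton_nonempty s) h1
      rw [Finset.mem_singleton] at hu
      subst hu
      exact hadj.2.2.2 (hcen _)
  rw [Finset.mem_insert] at hs
  rcases hs with rfl | hs
  · obtain ⟨u, hu, -⟩ := hC.ne
    exact ⟨u, fun h' => hC.ni (h' ▸ hu), key u hu⟩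
  · refine ⟨i, fun h' => hC.ni (h' ▸ hs), ?_⟩
    rw [S.se]
    exact key s hs

/-- the two factors have rank three -/
theorem three_three (h : PB a) (hirr : IrrF a) (hs : Sph a) (hact : ∀ s, Act a s) {i : Fin n}
    {C : Finset (Fin n)} (hC : Comp a i C) (hc : C.card + 1 ≤ 2 * 3)
    (B : Blk (alg a i C) 1 3 3) (hn : 11 ≤ n) : False := by
  classical
  have h9 := card_split hC.ni
  have hne : (Finset.univ \ (insert i C)).Nonempty := by
    rw [← Finset.card_pos]
    omega
  obtain ⟨t, ht⟩ := hne
  rw [Finset.mem_sdiff] at ht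
  obtain ⟨K, hK, ⟨B'⟩, hKc⟩ := other_comp h hirr hact hC (by norm_num) Nat.prime_three B ht.2
  rw [Finset.mem_insert, not_or] at ht
  obtain ⟨ψ, ε, μ, S, hμ, hε, hi⟩ := exists_spl h hC (by norm_num) (by norm_num) B
  have h3 : finrank ℂ (Fin 3 → ℂ) = 3 := by simp
  have hir := irr_right S hK (hε t ht.2.2 ht.2.1) (e' := 3) (by norm_num) (by rw [h3]; exact B')
  -- the second factor is active only on `K ∪ {t}`
  have hout : ∀ s, s ∉ insert t K → ∀ j, j ≠ s → Cen (μ s j) := by
    intro s hs' j hj
    rw [Finset.mem_insert, not_or] at hs'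
    obtain ⟨c, hc⟩ := schur (S := {g | ∃ u ∈ K, g = μ t u}) (by
      intro U hU
      exact hir U fun u hu x hx => hU _ ⟨u, hu, rfl⟩ x hx) (μ s j) (by
      rintro g ⟨u, hu, rfl⟩
      have h1 : Commute (a s j) (a t u) := comp_comm h hK hs'.2 hs'.1 hj hu
      have hut : t ≠ u := fun h' => hK.ni (h' ▸ hu)
      have h2 : Commute (TensorProduct.congr (ε s j) (μ s j))
          (TensorProduct.congr (ε t u) (μ t u)) := by
        refine LinearEquiv.ext fun w => ?_
        obtain ⟨v, rfl⟩ := ψ.surjective w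
        show TensorProduct.congr (ε s j) (μ s j) (TensorProduct.congr (ε t u) (μ t u) (ψ v)) =
          TensorProduct.congr (ε t u) (μ t u) (TensorProduct.congr (ε s j) (μ s j) (ψ v))
        rw [← S.sp t u hut, ← S.sp s j hj.symm, ← S.sp s j hj.symm, ← S.sp t u hut]
        exact congrArg ψ (LinearEquiv.congr_fun h1.eq v)
      obtain ⟨c, -, -, h4, h5⟩ := comm_split h2
      have h6 : c = 1 := by
        obtain ⟨x, hx⟩ := exists_ne (0 : Fin 3 → ℂ)
        have h7 := h4 x
        have h8 : ε s j (ε t u x) = ε t u (ε s j x) :=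
          (LinearEquiv.congr_fun ((hε t ht.2.2 ht.2.1 u hut.symm) (ε s j)).eq x).symm
        rw [h8] at h7
        have h10 : ε t u (ε s j x) ≠ 0 := by
          intro h0
          apply hx
          apply (ε s j).injective
          apply (ε t u).injective
          rw [h0, map_zero, map_zero]
        by_contra hne
        apply h10
        have h11 : (1 - c) • ε t u (ε s j x) = 0 := by
          rw [sub_smul, one_smul, ← h7, sub_self]
        rcases smul_eq_zero.1 h11 with h12 | h12
        · exact absurd (sub_eq_zero.1 h12).symm hne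
        · exact h12
      refine LinearEquiv.ext fun x => ?_
      have := h5 x
      rw [h6, one_smul] at this
      exact this.symm)
    exact cen_of_scalar hc
  set TE : Finset (Fin n) := Finset.univ.filter (fun s => Act ε s) with hTE
  have hTE' : ∀ s, s ∈ TE ↔ Act ε s := fun s => by rw [hTE]; simp
  set TM : Finset (Fin n) := Finset.univ.filter (fun s => Act μ s) with hTM
  have hTM' : ∀ s, s ∈ TM ↔ Act μ s := fun s => by rw [hTM]; simp
  have hE6 : TE ⊆ insert i C := by
    intro s hs'
    by_contra hcon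
    rw [Finset.mem_insert, not_or] at hcon
    obtain ⟨j, hj, hc⟩ := (hTE' s).1 hs'
    exact hc (hε s hcon.2 hcon.1 j hj)
  have hM6 : TM ⊆ insert t K := by
    intro s hs'
    by_contra hcon
    obtain ⟨j, hj, hc⟩ := (hTM' s).1 hs'
    exact hc (hout s hcon j hj)
  have hcov : (Finset.univ : Finset (Fin n)) ⊆ TE ∪ TM := by
    intro s _
    obtain ⟨j, hj, hc⟩ := hact s
    rw [Finset.mem_union, hTE', hTM']
    by_contra hcon
    rw [not_or] at hcon
    apply hc
    refine (S.cen hj.symm).2 ⟨?_, ?_⟩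
    · by_contra h1
      exact hcon.1 ⟨j, hj, h1⟩
    · by_contra h1
      exact hcon.2 ⟨j, hj, h1⟩
  have c1 := Finset.card_le_card hE6
  have c2 := Finset.card_le_card hM6
  rw [Finset.card_insert_of_notMem hC.ni] at c1
  rw [Finset.card_insert_of_notMem hK.ni] at c2
  have c3 := Finset.card_le_card hcov
  have c4 := Finset.card_union_add_card_inter TE TM
  rw [Finset.card_univ, Fintype.card_fin] at c3
  have c5 : (TE ∩ TM).card ≤ 1 := by omega
  obtain ⟨p1, p2⟩ := S.pb_few h (by
    rintro p q hpq ⟨⟨hp1, hp2⟩, ⟨hq1, hq2⟩⟩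
    have hp : p ∈ TE ∩ TM := Finset.mem_inter.2 ⟨(hTE' p).2 hp1, (hTM' p).2 hp2⟩
    have hq : q ∈ TE ∩ TM := Finset.mem_inter.2 ⟨(hTE' q).2 hq1, (hTM' q).2 hq2⟩
    exact hpq (Finset.card_le_one.1 c5 p hp q hq))
  have k1 := act_three p1 (S.irr hirr).1 (S.sph hs).1 h3 TE hTE'
  have k2 := act_three p2 (S.irr hirr).2 (S.sph hs).2 h3 TM hTM'
  omega

/-- ranks three and four -/
theorem three_four (h : PB a) (hirr : IrrF a) (hs : Sph a) {i : Fin n}
    {C : Finset (Fin n)} (hC : Comp a i C) (B : Blk (alg a i C) 1 3 4) (hc : 5 ≤ C.card) :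
    False := by
  classical
  obtain ⟨ψ, ε, μ, S, hμ, hε, hi⟩ := exists_spl h hC (by norm_num) (by norm_num) B
  have h3 : finrank ℂ (Fin 3 → ℂ) = 3 := by simp
  have h4 : finrank ℂ (Fin 4 → ℂ) = 4 := by simp
  obtain ⟨p1, -⟩ := S.pb_coprime h (by rw [h3, h4]; decide)
  set TE : Finset (Fin n) := Finset.univ.filter (fun s => Act ε s) with hTE
  have hTE' : ∀ s, s ∈ TE ↔ Act ε s := fun s => by rw [hTE]; simp
  have k1 := act_three p1 (S.irr hirr).1 (S.sph hs).1 h3 TE hTE'
  have hsub : insert i C ⊆ TE := fun s hs' => (hTE' s).2 (act_left S hC hμ hs')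
  have c1 := Finset.card_le_card hsub
  rw [Finset.card_insert_of_notMem hC.ni] at c1
  omega

/-- ranks four and three -/
theorem four_three (h : PB a) (hirr : IrrF a) (hs : Sph a) (hact : ∀ s, Act a s) {i : Fin n}
    {C : Finset (Fin n)} (hC : Comp a i C) (B : Blk (alg a i C) 1 4 3)
    (hx : 6 ≤ (Finset.univ \ (insert i C)).card) : False := by
  classical
  obtain ⟨ψ, ε, μ, S, hμ, hε, hi⟩ := exists_spl h hC (by norm_num) (by norm_num) B
  have h3 : finrank ℂ (Fin 3 → ℂ) = 3 := by simp
  have h4 : finrank ℂ (Fin 4 → ℂ) = 4 := by simp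
  obtain ⟨-, p2⟩ := S.pb_coprime h (by rw [h3, h4]; decide)
  set TM : Finset (Fin n) := Finset.univ.filter (fun s => Act μ s) with hTM
  have hTM' : ∀ s, s ∈ TM ↔ Act μ s := fun s => by rw [hTM]; simp
  have k1 := act_three p2 (S.irr hirr).2 (S.sph hs).2 h3 TM hTM'
  have hsub : (Finset.univ \ (insert i C)) ⊆ TM := by
    intro s hs'
    rw [Finset.mem_sdiff, Finset.mem_insert, not_or] at hs'
    exact (hTM' s).2 (act_right S (hact s) (hε s hs'.2.2 hs'.2.1))
  have c1 := Finset.card_le_card hsub
  omega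

/-- some component of a link has four points and acts on a factor of rank two -/
def SplitTwo (a : Fin n → Fin n → (V ≃ₗ[ℂ] V)) : Prop :=
  ∃ (i : Fin n) (C : Finset (Fin n)) (f : ℕ), Comp a i C ∧ C.card + 1 ≤ 4 ∧
    Nonempty (Blk (alg a i C) 1 2 f) ∧ 2 * f = finrank ℂ V

/-- **The number of active strands.**  Induction step. -/
theorem step (h : PB a) (hirr : IrrF a) (hs : Sph a) (hact : ∀ s, Act a s)
    (h2 : 2 ≤ finrank ℂ V) (hB : ∀ f, f < finrank ℂ V → Bound f) :
    n ≤ bd (finrank ℂ V) ∧ (finrank ℂ V + 2 ≤ n → (AllIrr a ∧ AllNC a) ∨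
      ((finrank ℂ V = 4 ∨ finrank ℂ V = 6 ∨ finrank ℂ V = 8) ∧ SplitTwo a)) := by
  obtain ⟨r, hr⟩ : ∃ r, r = finrank ℂ V := ⟨_, rfl⟩
  rw [← hr] at h2 hB ⊢
  have hbd : r + 2 ≤ bd r := by
    unfold bd
    split_ifs <;> omega
  have hbd' : ∀ m, r ≠ 2 → r ≠ 4 → r ≠ 6 → r ≠ 8 → 2 * m = r → 4 + bd m ≤ r + 1 := by
    intro m hr2 h4 h6 h8 h2m
    clear hbd
    unfold bd
    split_ifs <;> omega
  rcases trichotomy h hirr hact with h1 | ⟨h1, h1'⟩ | ⟨i, C, e, f, hC, he, hf, hc, hx, hef, ⟨B⟩⟩
  · rw [← hr] at h1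
    refine ⟨by omega, fun h3 => by omega⟩
  · have h3 := thmS h h1'
    rw [← hr] at h3
    exact ⟨by omega, fun _ => Or.inl ⟨h1, h1'⟩⟩
  · rw [← hr] at hef
    have h9 := card_split hC.ni
    -- a factor of rank two
    have key2 : ∀ m, r = 2 * m → n ≤ 4 + bd m → SplitTwo a → n ≤ bd r ∧ (r + 2 ≤ n →
        (AllIrr a ∧ AllNC a) ∨ ((r = 4 ∨ r = 6 ∨ r = 8) ∧ SplitTwo a)) := by
      intro m hm hn hS
      have hm0 : 0 < m := by omega
      refine ⟨?_, fun h3 => ?_⟩
      · by_cases h4 : r = 4
        · have : m = 2 := by omega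
          subst this
          rw [h4]
          have e1 : bd 2 = 4 := by decide
          have e2 : bd 4 = 8 := by decide
          omega
        by_cases h6 : r = 6
        · have : m = 3 := by omega
          subst this
          rw [h6]
          have e1 : bd 3 = 5 := by decide
          have e2 : bd 6 = 9 := by decide
          omega
        by_cases h8 : r = 8
        · have : m = 4 := by omega
          subst this
          rw [h8]
          have e1 : bd 4 = 8 := by decide
          have e2 : bd 8 = 12 := by decide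
          omega
        by_cases hr2 : r = 2
        · have : m = 1 := by omega
          subst this
          rw [hr2]
          have e1 : bd 1 = 0 := by decide
          have e2 : bd 2 = 4 := by decide
          omega
        have := hbd' m hr2 h4 h6 h8 (by omega)
        omega
      · by_cases h468 : r = 4 ∨ r = 6 ∨ r = 8
        · exact Or.inr ⟨h468, hS⟩
        exfalso
        rw [not_or, not_or] at h468
        obtain ⟨h4, h6, h8⟩ := h468
        by_cases hr2 : r = 2
        · have : m = 1 := by omega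
          subst this
          have e3 : 4 ≤ e * f := Nat.mul_le_mul he hf
          omega
        have := hbd' m hr2 h4 h6 h8 (by omega)
        omega
    by_cases hn : n ≤ r + 1
    · exact ⟨by omega, fun h3 => by omega⟩
    push Not at hn
    have hne : (Finset.univ \ (insert i C)).Nonempty := by
      rw [← Finset.card_pos]
      by_contra h0
      have h01 : (Finset.univ \ (insert i C)).card = 0 := by omega
      have h02 : e * 2 ≤ e * f := Nat.mul_le_mul_left e hf
      omega
    obtain ⟨t, ht⟩ := hne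
    rw [Finset.mem_sdiff] at ht
    by_cases he2 : e = 2
    · subst he2
      have hfr : f < r := by omega
      exact key2 f (by omega) (four_case h hirr hs hact hC (by omega) (by omega) B (hB f hfr))
        ⟨i, C, f, hC, by omega, ⟨B⟩, by rw [← hr]; omega⟩
    by_cases hf2 : f = 2
    · subst hf2
      obtain ⟨K, hK, ⟨B'⟩, hKc⟩ := other_comp h hirr hact hC (by omega) Nat.prime_two B ht.2
      exact key2 e (by omega) (four_case h hirr hs hact hK (by omega) hKc B'
        (hB e (by omega))) ⟨t, K, e, hK, by omega, ⟨B'⟩, by rw [← hr]; omega⟩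
    exfalso
    -- `(e - 2) * (f - 2) ≤ 2`
    obtain ⟨e', rfl⟩ : ∃ e', e = e' + 3 := ⟨e - 3, by omega⟩
    obtain ⟨f', rfl⟩ : ∃ f', f = f' + 3 := ⟨f - 3, by omega⟩
    have h10 : (e' + 3) * (f' + 3) = e' * f' + 3 * e' + 3 * f' + 9 := by ring
    have h11 : e' * f' + e' + f' ≤ 1 := by omega
    have h12 : e' ≤ 1 := by omega
    have h13 : f' ≤ 1 := by omega
    interval_cases e' <;> interval_cases f'
    · exact three_three h hirr hs hact hC (by omega) B (by omega)
    · exact three_four h hirr hs hC B (by omega)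
    · exact four_three h hirr hs hact hC B (by omega)
    · omega

/-- **The number of active strands.** -/
theorem bound (r : ℕ) : Bound r := by
  induction r using Nat.strong_induction_on with
  | _ r ih =>
    intro n a h hirr hs hact
    have hr : finrank ℂ (Fin r → ℂ) = r := by simp
    rcases Nat.lt_or_ge r 2 with hr2 | hr2
    · -- rank at most one: no strand is active
      have : bd r = 0 := by
        unfold bd
        rw [if_pos (by omega)]
      rw [this]
      by_contra hcon
      obtain ⟨j, hj, hc⟩ := hact ⟨0, by omega⟩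
      apply hc
      intro y
      refine LinearEquiv.ext fun x => ?_
      rcases Nat.lt_or_ge r 1 with h0 | h1
      · have h00 : r = 0 := by omega
        subst h00
        exact Subsingleton.elim _ _
      · have h11 : r = 1 := by omega
        subst h11
        have key : ∀ (T : (Fin 1 → ℂ) ≃ₗ[ℂ] (Fin 1 → ℂ)) (x : Fin 1 → ℂ), ∃ c : ℂ,
            ∀ y, T y = c • y := by
          intro T x
          refine ⟨T 1 0, fun y => ?_⟩
          have hy : y = y 0 • (1 : Fin 1 → ℂ) := by
            ext i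
            fin_cases i
            simp
          rw [hy, map_smul]
          ext i
          fin_cases i
          simp [mul_comm]
        obtain ⟨c, hc⟩ := key (a ⟨0, by omega⟩ j) x
        obtain ⟨d, hd⟩ := key y x
        show a ⟨0, _⟩ j (y x) = y (a ⟨0, _⟩ j x)
        rw [hc, hc, map_smul]
    · have : Nontrivial (Fin r → ℂ) := Module.nontrivial_of_finrank_pos (R := ℂ) (by rw [hr]; omega)
      have := (step h hirr hs hact (by rw [hr]; exact hr2) (by rw [hr]; exact ih)).1
      rwa [hr] at this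

end Pool.Agent.PF54
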