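import Pool.Agent.PF54.Main
import Pool.Agent.PB3.Stmt

/-! # Splitting off a factor of rank two -/

set_option autoImplicit false

namespace Pool.Agent.PF54

open Pool.Agent.Conf14 hiding IrrF
open Pool.Agent.PB3
open Pool.Agent.Bst88
open Module
open FreeGroup (of lift)
open scoped TensorProduct

variable {n : ℕ}

section Groups
variable {Γ : Type*} [Group Γ]

/- MODULE UA -/
/-- **UA.** A family (not necessarily a homomorphism) from three strands or from the cross ratio of
four strands comes from the free group, up to central elements.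

PROOF. Copy the proof of `PB3.exists_factor` (PB3/Fact.lean), with `R (B i j)` replaced by `c i j`: it is
exactly what is checked there before `factor_cen` is applied.  In the first case `X = c i j`,
`Y = c j k`, in the second case `X = c b c'`, `Y = c c' d`. -/
theorem exists_factor_fam {c : Fin n → Fin n → Γ} (h : Three c ∨ Cross c) :
    ∃ q : PureBraid n →* FreeGroup (Fin 2), (IsForget q ∨ IsCross q) ∧
      ∃ X Y : Γ, ∀ s t (hst : s < t), Cen (c s t * (lift ![X, Y] (q (A s t hst)))⁻¹) := by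
  rcases h with ⟨i, j, k, hij, hjk, hZ, ho⟩ | ⟨b, c', d, e, hbc, hcd, hde, ⟨k1, k2, k3, k4⟩, ho⟩
  · obtain ⟨q, q1, q2, q3, q4⟩ := exists_forget hij hjk
    refine ⟨q, Or.inl ⟨i, j, k, hij, hjk, q1, q2, q3, q4⟩, c i j, c j k, ?_⟩
    intro s t hst
    by_cases hs : (s = i ∨ s = j ∨ s = k) ∧ (t = i ∨ t = j ∨ t = k)
    · obtain ⟨hs, ht⟩ := hs
      rcases hs with rfl | rfl | rfl <;> rcases ht with rfl | rfl | rfl
      · exact absurd hst (lt_irrefl _)
      · rw [q1, lift_zero, mul_inv_cancel]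
        exact Cen.one
      · rw [q3, map_inv, map_mul, lift_zero, lift_one, inv_inv]
        have h1 : Cen (c s j * (c s t * c j t)) := by rw [← mul_assoc]; exact hZ
        have h2 := h1.cyc
        rwa [mul_assoc] at h2
      · exact absurd hst (lt_asymm hij)
      · exact absurd hst (lt_irrefl _)
      · rw [q2, lift_one, mul_inv_cancel]
        exact Cen.one
      · exact absurd hst (lt_asymm (hij.trans hjk))
      · exact absurd hst (lt_asymm hjk)
      · exact absurd hst (lt_irrefl _)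
    · rw [q4 s t hst hs, map_one, inv_one, mul_one]
      exact ho s t hst.ne hs
  · obtain ⟨q, q1, q2, q3, q4, q5, q6, q7⟩ := exists_cross hbc hcd hde
    refine ⟨q, Or.inr ⟨b, c', d, e, hbc, hcd, hde, q1, q2, q3, q4, q5, q6, q7⟩,
      c b c', c c' d, ?_⟩
    intro s t hst
    by_cases hs : (s = b ∨ s = c' ∨ s = d ∨ s = e) ∧ (t = b ∨ t = c' ∨ t = d ∨ t = e)
    · obtain ⟨hs, ht⟩ := hs
      rcases hs with rfl | rfl | rfl | rfl <;> rcases ht with rfl | rfl | rfl | rfl
      · exact absurd hst (lt_irrefl _)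
      · rw [q1, lift_zero, mul_inv_cancel]
        exact Cen.one
      · rw [q5, map_inv, map_mul, lift_zero, lift_one, inv_inv]
        exact k3
      · rw [q4, lift_one]
        exact k2
      · exact absurd hst (lt_asymm hbc)
      · exact absurd hst (lt_irrefl _)
      · rw [q3, lift_one, mul_inv_cancel]
        exact Cen.one
      · rw [q6, map_inv, map_mul, lift_zero, lift_one, inv_inv]
        exact k4
      · exact absurd hst (lt_asymm (hbc.trans hcd))
      · exact absurd hst (lt_asymm hcd)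
      · exact absurd hst (lt_irrefl _)
      · rw [q2, lift_zero]
        exact k1
      · exact absurd hst (lt_asymm ((hbc.trans hcd).trans hde))
      · exact absurd hst (lt_asymm (hcd.trans hde))
      · exact absurd hst (lt_asymm hde)
      · exact absurd hst (lt_irrefl _)
    · rw [q7 s t hst hs, map_one, inv_one, mul_one]
      exact ho s t hst.ne hs
/- END UA -/

end Groups

section Spaces
variable {V : Type*} [AddCommGroup V] [Module ℂ V] [FiniteDimensional ℂ V] [Nontrivial V]
  {E M : Type*} [AddCommGroup E] [Module ℂ E] [FiniteDimensional ℂ E] [Nontrivial E]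
  [AddCommGroup M] [Module ℂ M] [FiniteDimensional ℂ M] [Nontrivial M]

/- MODULE UB -/
/-- **UB.** A component for the active strands is a component for the whole family, with the same
algebra.

PROOF. `e = T.orderEmbOfFin rfl` has range `T`.  `Adj a (e i) (e s) (e t) ↔ Adj b i s t` (`b` the subfamily)
by definition and injectivity.  `Comp.cl`: `Adj a (e i) (e s) t`: then `t ∈ T` (otherwise `¬ Act a t`, so
`a t (e i)` is central (`hT`), `a (e i) t = a t (e i)` (`h.symm`), and `Commute` holds), so `t = e t'`.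
`Comp.cn`: a subset `S` of `C.map e` is the image of its preimage.  `alg`: the same set of generators. -/
theorem comp_lift {a : Fin n → Fin n → (V ≃ₗ[ℂ] V)} (h : PB a) (T : Finset (Fin n))
    (hT : ∀ s, s ∈ T ↔ Act a s) {i : Fin T.card} {C : Finset (Fin T.card)}
    (hC : Comp (fun i j => a (T.orderEmbOfFin rfl i) (T.orderEmbOfFin rfl j)) i C) :
    Comp a (T.orderEmbOfFin rfl i) (C.map (T.orderEmbOfFin rfl).toEmbedding) ∧
      alg a (T.orderEmbOfFin rfl i) (C.map (T.orderEmbOfFin rfl).toEmbedding) =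
        alg (fun i j => a (T.orderEmbOfFin rfl i) (T.orderEmbOfFin rfl j)) i C := by
  classical
  set e := T.orderEmbOfFin rfl with he
  have hinj : Function.Injective e := e.injective
  have hr : ∀ t, t ∈ T → ∃ t', e t' = t := by
    intro t ht
    have h1 : t ∈ Set.range e := by
      rw [he, Finset.range_orderEmbOfFin]
      exact ht
    exact h1
  have hadj : ∀ s t, Adj a (e i) (e s) (e t) ↔ Adj (fun i j => a (e i) (e j)) i s t := by
    intro s t
    constructor
    · rintro ⟨h1, h2, h3, h4⟩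
      exact ⟨fun h5 => h1 (congrArg e h5), fun h5 => h2 (congrArg e h5),
        fun h5 => h3 (congrArg e h5), h4⟩
    · rintro ⟨h1, h2, h3, h4⟩
      exact ⟨fun h5 => h1 (hinj h5), fun h5 => h2 (hinj h5), fun h5 => h3 (hinj h5), h4⟩
  have hmem : ∀ s, e s ∈ C.map e.toEmbedding ↔ s ∈ C := by
    intro s
    rw [Finset.mem_map]
    constructor
    · rintro ⟨s', hs', h1⟩
      have h2 : e s' = e s := h1
      rw [← hinj h2]
      exact hs'
    · intro hs
      exact ⟨s, hs, rfl⟩
  have hex : ∀ s, s ∈ C.map e.toEmbedding → ∃ s' ∈ C, e s' = s := by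
    intro s hs
    rw [Finset.mem_map] at hs
    obtain ⟨s', h1, h2⟩ := hs
    exact ⟨s', h1, h2⟩
  refine ⟨⟨?_, ?_, ?_, ?_⟩, ?_⟩
  · rw [hmem]
    exact hC.ni
  · obtain ⟨s, hs, t, ht, h1⟩ := hC.ne
    exact ⟨e s, (hmem s).2 hs, e t, (hmem t).2 ht, (hadj s t).2 h1⟩
  · intro s hs t ht
    obtain ⟨s', hs', rfl⟩ := hex s hs
    have h1 : t ∈ T := by
      by_contra h2
      rw [hT] at h2
      apply ht.2.2.2
      have h3 : Cen (a t (e i)) := by
        by_contra h4
        exact h2 ⟨e i, fun h5 => ht.2.1 h5.symm, h4⟩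
      rw [h.symm (e i) t]
      exact (h3 _).symm
    obtain ⟨t', rfl⟩ := hr t h1
    exact (hmem t').2 (hC.cl s' hs' t' ((hadj s' t').1 ht))
  · intro S hS hne hSC
    obtain ⟨S', hS'⟩ : ∃ S' : Finset (Fin T.card), S' = C.filter (fun x => e x ∈ S) := ⟨_, rfl⟩
    have hm' : ∀ x, x ∈ S' ↔ x ∈ C ∧ e x ∈ S := by
      intro x
      rw [hS', Finset.mem_filter]
    obtain ⟨s, hs, t, ht, h1⟩ := hC.cn S' (by rw [hS']; exact Finset.filter_subset _ _) (by
      obtain ⟨x, hx⟩ := hne
      obtain ⟨x', hx', rfl⟩ := hex x (hS hx)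
      exact ⟨x', (hm' x').2 ⟨hx', hx⟩⟩) (by
      intro h1
      apply hSC
      apply Finset.Subset.antisymm hS
      intro x hx
      obtain ⟨x', hx', rfl⟩ := hex x hx
      rw [← h1] at hx'
      exact ((hm' x').1 hx').2)
    rw [Finset.mem_sdiff] at ht
    refine ⟨e s, ((hm' s).1 hs).2, e t, ?_, (hadj s t).2 h1⟩
    rw [Finset.mem_sdiff]
    exact ⟨(hmem t).2 ht.1, fun h2 => ht.2 ((hm' t).2 ⟨ht.1, h2⟩)⟩
  · unfold alg
    apply congrArg
    ext X
    constructor
    · rintro ⟨s, hs, rfl⟩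
      obtain ⟨s', hs', rfl⟩ := hex s hs
      exact ⟨s', hs', rfl⟩
    · rintro ⟨s, hs, rfl⟩
      exact ⟨e s, (hmem s).2 hs, rfl⟩
/- END UB -/

/- MODULE UC -/
/-- ordered products with central factors left out -/
private theorem UC_list {ι Γ : Type*} [Group Γ] (f : ι → Γ) (P : ι → Prop) [DecidablePred P] :
    ∀ L : List ι, (∀ t ∈ L, ¬ P t → Cen (f t)) →
      ∃ z : Γ, Cen z ∧ pr f L = z * pr f (L.filter P) := by
  intro L
  induction L with
  | nil => intro _; exact ⟨1, Cen.one, by simp⟩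
  | cons u L ih =>
    intro h
    obtain ⟨z, hz, e⟩ := ih fun t ht => h t (List.mem_cons_of_mem _ ht)
    by_cases hu : P u
    · refine ⟨z, hz, ?_⟩
      rw [List.filter_cons_of_pos (by simpa using hu), pr_cons, pr_cons, e, ← mul_assoc,
        ← mul_assoc, (hz (f u)).eq]
    · refine ⟨f u * z, (h u (List.mem_cons_self) hu).mul hz, ?_⟩
      rw [List.filter_cons_of_neg (by simpa using hu), pr_cons, e, mul_assoc]

/-- the big loop as a product over the set of the active strands -/
private theorem UC_big {m : ℕ} {Γ : Type*} [Group Γ] {ε : Fin m → Fin m → Γ} {s : Fin m}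
    (hs : Cen (big ε s)) (M : List (Fin m)) (hM : M.Pairwise (· < ·)) (hsM : s ∉ M)
    (hc : ∀ t, t ∉ M → t ≠ s → Cen (ε s t)) : Cen (pr (ε s) M) := by
  classical
  obtain ⟨z, hz, e⟩ := UC_list (fun l => if l = s then 1 else ε s l) (fun t => t ∈ M)
    (List.finRange m) (by
      intro t _ ht
      by_cases hts : t = s
      · show Cen (if t = s then 1 else ε s t)
        rw [if_pos hts]
        exact Cen.one
      · show Cen (if t = s then 1 else ε s t)
        rw [if_neg hts]
        exact hc t ht hts)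
  have h1 : (List.finRange m).filter (fun t => decide (t ∈ M)) = M := by
    have hp : ((List.finRange m).filter (fun t => decide (t ∈ M))).Pairwise (· < ·) :=
      (List.pairwise_lt_finRange m).filter _
    apply List.Perm.eq_of_pairwise (le := (· < ·)) ?_ hp hM
    · rw [List.perm_ext_iff_of_nodup (hp.imp (fun h => ne_of_lt h)) (hM.imp (fun h => ne_of_lt h))]
      intro x
      rw [List.mem_filter]
      simp
    · intro x y _ _ h1 h2
      exact absurd h1 (lt_asymm h2)
  rw [h1] at e
  have h2 : pr (fun l => if l = s then 1 else ε s l) M = pr (ε s) M :=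
    pr_congr fun u hu => if_neg (fun h3 : u = s => hsM (h3 ▸ hu))
  rw [h2] at e
  have h3 : Cen (z * pr (ε s) M) := by
    rw [← e]
    exact hs
  exact hz.of_mul_left h3

/-- the elements of a set with four elements -/
private theorem UC_four {m : ℕ} {X : Finset (Fin m)} (hX : X.card = 4) :
    ∃ a b c d : Fin m, a < b ∧ b < c ∧ c < d ∧ ∀ t, t ∈ X ↔ t = a ∨ t = b ∨ t = c ∨ t = d := by
  have hr := Finset.range_orderEmbOfFin X hX
  refine ⟨X.orderEmbOfFin hX 0, X.orderEmbOfFin hX 1, X.orderEmbOfFin hX 2,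
    X.orderEmbOfFin hX 3, (X.orderEmbOfFin hX).strictMono (by decide),
    (X.orderEmbOfFin hX).strictMono (by decide), (X.orderEmbOfFin hX).strictMono (by decide), ?_⟩
  intro t
  have h1 : t ∈ X ↔ t ∈ Set.range (X.orderEmbOfFin hX) := by
    rw [hr]
    rfl
  rw [h1]
  constructor
  · rintro ⟨i, rfl⟩
    fin_cases i
    · exact Or.inl rfl
    · exact Or.inr (Or.inl rfl)
    · exact Or.inr (Or.inr (Or.inl rfl))
    · exact Or.inr (Or.inr (Or.inr rfl))
  · rintro (rfl | rfl | rfl | rfl)
    · exact ⟨0, rfl⟩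
    · exact ⟨1, rfl⟩
    · exact ⟨2, rfl⟩
    · exact ⟨3, rfl⟩

/-- **UC.** An irreducible family which is active only on four points of the sphere comes from three
strands or from the cross ratio of four strands (strand `0` is the point at infinity, which is
forgotten).

PROOF. (1) An element which commutes with all `ε k l`, `k ≠ l`, is central (`PB3.schur` with `hirr`, then
`cen_of_scalar`); `ε k l` is central unless `k, l ∈ X` (`hout`, `h.symm`).
(2) `0 ∈ X`: `X = {0, i.succ, j.succ, k.succ}`, `i < j < k`.  `Three`: the product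
`T = ε i' j' * ε i' k' * ε j' k'` (primes: `succ`) commutes with its three factors (`h.t0`, `h.t1`, `h.t2`), and
`ε 0 s` for `s ∈ X` is by `hs s` (`big ε s`, all factors outside of `X` central, `0` is the first) equal to
`((product of the two others)⁻¹)` up to a central element: so `T` commutes with `ε 0 s` too, so `T` is
central by (1).
(3) `0 ∉ X`: `X = {b, c, d, e}`, `b < c < d < e` (all successors).  Write `x12 = ε b c, .., x34 = ε d e`; `P4 =
PB.four h ..`.  The full twist commutes with the six generators (`PB4.full`, `PB4.central`: see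
PB3/Four.lean), so it is central by (1): `x12 * x13 * x23 * (x14 * x24 * x34)` and
`(x12 * x13 * x14) * (x23 * x24 * x34)` (the same element).  `hs`: `x12 * x13 * x14`, `x12 * x23 * x24`,
`x13 * x23 * x34`, `x14 * x24 * x34` are central (the ordered products; factors outside of `X` are
central).  So `x12 * x13 * x23` and `x23 * x24 * x34` are central.  Then (`Cen.cyc`, `Cen.of_mul_left`, as in the
proof of `PB4.cross` in PB3/Active.lean): `x34 * x12⁻¹` (compare `x12 * (x13 * x23)` with
`x34 * (x13 * x23)`), `x14 * x23⁻¹` (compare `x14 * (x24 * x34)` with `x23 * (x24 * x34)`),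
`x13 * (x23 * x12)`, and `x24 * (x12 * x23)` (from `x24 * (x34 * x23)`) are central: `Cross`. -/
theorem three_or_cross_four {ε : Fin (n + 1) → Fin (n + 1) → (E ≃ₗ[ℂ] E)} (h : PB ε)
    (hirr : IrrF ε) (hs : Sph ε) (X : Finset (Fin (n + 1))) (hX : X.card = 4)
    (hout : ∀ t, t ∉ X → ∀ j, j ≠ t → Cen (ε t j)) :
    Three (fun i j : Fin n => ε i.succ j.succ) ∨ Cross (fun i j : Fin n => ε i.succ j.succ) := by
  obtain ⟨a, b, c, d, hab, hbc, hcd, hm⟩ := UC_four hX
  have hac : a < c := hab.trans hbc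
  have had : a < d := hac.trans hcd
  have hbd : b < d := hbc.trans hcd
  have hout' : ∀ s t, s ≠ t → ¬ (s ∈ X ∧ t ∈ X) → Cen (ε s t) := by
    intro s t hst hn
    by_cases h1 : s ∈ X
    · rw [h.symm s t]
      exact hout t (fun h2 => hn ⟨h1, h2⟩) s hst
    · exact hout s h1 t hst.symm
  have hcen : ∀ T : E ≃ₗ[ℂ] E, (∀ k l, k ≠ l → Commute T (ε k l)) → Cen T := by
    intro T hT
    obtain ⟨z, hz⟩ := schur (S := {f | ∃ i j, i ≠ j ∧ f = ε i j}) (by
      intro U hU
      exact hirr U fun i j hij => hU _ ⟨i, j, hij, rfl⟩) T (by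
      rintro f ⟨i, j, hij, rfl⟩
      exact hT i j hij)
    exact cen_of_scalar hz
  -- an element which commutes with the six generators
  have hcen6 : ∀ T : E ≃ₗ[ℂ] E, Commute T (ε a b) → Commute T (ε a c) → Commute T (ε a d) →
      Commute T (ε b c) → Commute T (ε b d) → Commute T (ε c d) → Cen T := by
    intro T h1 h2 h3 h4 h5 h6
    apply hcen
    intro k l hkl
    by_cases hh : k ∈ X ∧ l ∈ X
    · obtain ⟨hk, hl⟩ := hh
      rw [hm] at hk hl
      rcases hk with rfl | rfl | rfl | rfl <;> rcases hl with rfl | rfl | rfl | rfl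
      · exact absurd rfl hkl
      · exact h1
      · exact h2
      · exact h3
      · rw [h.symm]; exact h1
      · exact absurd rfl hkl
      · exact h4
      · exact h5
      · rw [h.symm]; exact h2
      · rw [h.symm]; exact h4
      · exact absurd rfl hkl
      · exact h6
      · rw [h.symm]; exact h3
      · rw [h.symm]; exact h5
      · rw [h.symm]; exact h6
      · exact absurd rfl hkl
    · exact (hout' k l hkl hh _).symm
  -- the big loops
  have B1 : Cen (ε a b * (ε a c * ε a d)) := by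
    have h1 := UC_big (hs a) [b, c, d] (by simp [hbc, hbd, hcd]) (by
      simp [hab.ne, hac.ne, had.ne]) (by
      intro t ht hta
      apply hout' a t hta.symm
      rintro ⟨-, h2⟩
      rw [hm] at h2
      rcases h2 with h2 | h2
      · exact hta h2
      · exact ht (by simpa using h2))
    simpa using h1
  have B2 : Cen (ε a b * (ε b c * ε b d)) := by
    have h1 := UC_big (hs b) [a, c, d] (by simp [hac, had, hcd]) (by
      simp [hab.ne', hbc.ne, hbd.ne]) (by
      intro t ht hta
      apply hout' b t hta.symm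
      rintro ⟨-, h2⟩
      rw [hm] at h2
      rcases h2 with h2 | h2 | h2
      · exact ht (by simp [h2])
      · exact hta h2
      · exact ht (by
          rcases h2 with h2 | h2 <;> simp [h2]))
    rw [h.symm a b]
    simpa using h1
  have B3 : Cen (ε a c * (ε b c * ε c d)) := by
    have h1 := UC_big (hs c) [a, b, d] (by simp [hab, had, hbd]) (by
      simp [hac.ne', hbc.ne', hcd.ne]) (by
      intro t ht hta
      apply hout' c t hta.symm
      rintro ⟨-, h2⟩
      rw [hm] at h2
      rcases h2 with h2 | h2 | h2 | h2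
      · exact ht (by simp [h2])
      · exact ht (by simp [h2])
      · exact hta h2
      · exact ht (by simp [h2]))
    rw [h.symm a c, h.symm b c]
    simpa using h1
  have B4 : Cen (ε a d * (ε b d * ε c d)) := by
    have h1 := UC_big (hs d) [a, b, c] (by simp [hab, hac, hbc]) (by
      simp [had.ne', hbd.ne', hcd.ne']) (by
      intro t ht hta
      apply hout' d t hta.symm
      rintro ⟨-, h2⟩
      rw [hm] at h2
      rcases h2 with h2 | h2 | h2 | h2
      · exact ht (by simp [h2])
      · exact ht (by simp [h2])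
      · exact ht (by simp [h2])
      · exact hta h2)
    rw [h.symm a d, h.symm b d, h.symm c d]
    simpa using h1
  have P4 := PB.four h hab hbc hcd
  -- the full twist
  have F1 : Cen (ε a b * ε a c * ε b c * (ε a d * ε b d * ε c d)) := by
    obtain ⟨e1, e2, e3⟩ := P4.central
    obtain ⟨d1, d2, d3⟩ := P4.dcomm
    refine hcen6 _ ?_ ?_ e1 ?_ e2 e3
    · exact P4.a1.mul_left d1
    · exact P4.a2.mul_left d2
    · exact P4.a3.mul_left d3
  have C1 : Cen (ε a b * (ε a c * ε b c)) := by
    have h1 : Cen (ε a d * ε b d * ε c d) := by rw [mul_assoc]; exact B4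
    have h2 := h1.of_mul_right F1
    rwa [mul_assoc] at h2
  have C2 : Cen (ε b c * (ε b d * ε c d)) := by
    rw [P4.full] at F1
    have h1 : Cen (ε a b * ε a c * ε a d) := by rw [mul_assoc]; exact B1
    have h2 := h1.of_mul_right F1
    rwa [mul_assoc] at h2
  by_cases h0 : a = 0
  · -- infinity is one of the four points
    left
    subst h0
    obtain ⟨i, rfl⟩ := Fin.exists_succ_eq.2 (Fin.pos_iff_ne_zero.1 hab)
    obtain ⟨j, rfl⟩ := Fin.exists_succ_eq.2 (Fin.pos_iff_ne_zero.1 hac)
    obtain ⟨k, rfl⟩ := Fin.exists_succ_eq.2 (Fin.pos_iff_ne_zero.1 had)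
    refine ⟨i, j, k, Fin.succ_lt_succ_iff.1 hbc, Fin.succ_lt_succ_iff.1 hcd, ?_, ?_⟩
    · show Cen (ε i.succ j.succ * ε i.succ k.succ * ε j.succ k.succ)
      rw [mul_assoc]
      exact C2
    · intro s t hst hn
      apply hout' s.succ t.succ (fun h1 => hst (Fin.succ_injective _ h1))
      rintro ⟨h1, h2⟩
      rw [hm] at h1 h2
      apply hn
      constructor
      · rcases h1 with h1 | h1 | h1 | h1
        · exact absurd h1 (Fin.succ_ne_zero s)
        · exact Or.inl (Fin.succ_injective _ h1)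
        · exact Or.inr (Or.inl (Fin.succ_injective _ h1))
        · exact Or.inr (Or.inr (Fin.succ_injective _ h1))
      · rcases h2 with h1 | h1 | h1 | h1
        · exact absurd h1 (Fin.succ_ne_zero t)
        · exact Or.inl (Fin.succ_injective _ h1)
        · exact Or.inr (Or.inl (Fin.succ_injective _ h1))
        · exact Or.inr (Or.inr (Fin.succ_injective _ h1))
  · right
    have ha0 : (0 : Fin (n + 1)) < a := Fin.pos_iff_ne_zero.2 h0
    obtain ⟨b', rfl⟩ := Fin.exists_succ_eq.2 h0
    obtain ⟨c', rfl⟩ := Fin.exists_succ_eq.2 (Fin.pos_iff_ne_zero.1 (ha0.trans hab))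
    obtain ⟨d', rfl⟩ := Fin.exists_succ_eq.2 (Fin.pos_iff_ne_zero.1 (ha0.trans hac))
    obtain ⟨e', rfl⟩ := Fin.exists_succ_eq.2 (Fin.pos_iff_ne_zero.1 (ha0.trans had))
    obtain ⟨x12, e12⟩ : ∃ x, x = ε b'.succ c'.succ := ⟨_, rfl⟩
    obtain ⟨x13, e13⟩ : ∃ x, x = ε b'.succ d'.succ := ⟨_, rfl⟩
    obtain ⟨x14, e14⟩ : ∃ x, x = ε b'.succ e'.succ := ⟨_, rfl⟩
    obtain ⟨x23, e23⟩ : ∃ x, x = ε c'.succ d'.succ := ⟨_, rfl⟩
    obtain ⟨x24, e24⟩ : ∃ x, x = ε c'.succ e'.succ := ⟨_, rfl⟩
    obtain ⟨x34, e34⟩ : ∃ x, x = ε d'.succ e'.succ := ⟨_, rfl⟩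
    rw [← e12, ← e13, ← e14] at B1
    rw [← e12, ← e23, ← e24] at B2
    rw [← e13, ← e23, ← e34] at B3
    rw [← e14, ← e24, ← e34] at B4
    rw [← e12, ← e13, ← e23] at C1
    rw [← e23, ← e24, ← e34] at C2
    have K1 : Cen (x34 * x12⁻¹) := by
      -- `x12 * (x13 * x23)` and `x34 * (x13 * x23)`
      have h1 : Cen (x34 * (x13 * x23)) := by
        rw [← mul_assoc] at B3
        exact B3.cyc
      have h2 := h1.mul C1.inv
      have e : x34 * (x13 * x23) * (x12 * (x13 * x23))⁻¹ = x34 * x12⁻¹ := by group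
      rwa [e] at h2
    have K2 : Cen (x14 * x23⁻¹) := by
      have h2 := B4.mul C2.inv
      have e : x14 * (x24 * x34) * (x23 * (x24 * x34))⁻¹ = x14 * x23⁻¹ := by group
      rwa [e] at h2
    have K3 : Cen (x13 * (x23 * x12)) := by
      have h2 := C1.cyc
      rwa [mul_assoc] at h2
    have K4 : Cen (x24 * (x12 * x23)) := by
      -- `x12 * (x23 * x24)` is central
      have h2 : Cen ((x12 * x23) * x24) := by rw [mul_assoc]; exact B2
      exact h2.cyc
    refine ⟨b', c', d', e', Fin.succ_lt_succ_iff.1 hab, Fin.succ_lt_succ_iff.1 hbc,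
      Fin.succ_lt_succ_iff.1 hcd, ⟨?_, ?_, ?_, ?_⟩, ?_⟩
    · show Cen (ε d'.succ e'.succ * (ε b'.succ c'.succ)⁻¹)
      rw [← e12, ← e34]
      exact K1
    · show Cen (ε b'.succ e'.succ * (ε c'.succ d'.succ)⁻¹)
      rw [← e14, ← e23]
      exact K2
    · show Cen (ε b'.succ d'.succ * (ε c'.succ d'.succ * ε b'.succ c'.succ))
      rw [← e13, ← e23, ← e12]
      exact K3
    · show Cen (ε c'.succ e'.succ * (ε b'.succ c'.succ * ε c'.succ d'.succ))
      rw [← e24, ← e23, ← e12]
      exact K4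
    · intro s t hst hn
      apply hout' s.succ t.succ (fun h1 => hst (Fin.succ_injective _ h1))
      rintro ⟨h1, h2⟩
      rw [hm] at h1 h2
      apply hn
      constructor
      · rcases h1 with h1 | h1 | h1 | h1
        · exact Or.inl (Fin.succ_injective _ h1)
        · exact Or.inr (Or.inl (Fin.succ_injective _ h1))
        · exact Or.inr (Or.inr (Or.inl (Fin.succ_injective _ h1)))
        · exact Or.inr (Or.inr (Or.inr (Fin.succ_injective _ h1)))
      · rcases h2 with h1 | h1 | h1 | h1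
        · exact Or.inl (Fin.succ_injective _ h1)
        · exact Or.inr (Or.inl (Fin.succ_injective _ h1))
        · exact Or.inr (Or.inr (Or.inl (Fin.succ_injective _ h1)))
        · exact Or.inr (Or.inr (Or.inr (Fin.succ_injective _ h1)))
/- END UC -/

/- MODULE UD -/
private theorem UD_one (h2 : finrank ℂ E = 2) (X : E ≃ₗ[ℂ] E) :
    ∃ X' : E ≃ₗ[ℂ] E, LinearEquiv.det X' = 1 ∧ Cen (X * X'⁻¹) := by
  obtain ⟨z, hz⟩ := IsAlgClosed.exists_pow_nat_eq ((LinearEquiv.det X)⁻¹ : ℂˣ).val
    (n := 2) (by norm_num)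
  have hz0 : z ≠ 0 := by
    rintro rfl
    rw [zero_pow (by norm_num)] at hz
    exact (LinearEquiv.det X)⁻¹.ne_zero hz.symm
  obtain ⟨w, hw⟩ : ∃ w : ℂˣ, w = Units.mk0 z hz0 := ⟨_, rfl⟩
  have hwz : (w : ℂ) = z := by rw [hw]; rfl
  refine ⟨Pool.Agent.Conf14.sc w * X, ?_, ?_⟩
  · rw [map_mul]
    have h3 : LinearEquiv.det (Pool.Agent.Conf14.sc w : E ≃ₗ[ℂ] E) = w ^ 2 := by
      apply Units.ext
      rw [LinearEquiv.coe_det, Units.val_pow_eq_pow_val]
      have : ((Pool.Agent.Conf14.sc w : E ≃ₗ[ℂ] E) : E →ₗ[ℂ] E) =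
          (w : ℂ) • LinearMap.id := by
        ext x
        rfl
      rw [this, LinearMap.det_smul, LinearMap.det_id, mul_one, h2]
    rw [h3]
    apply Units.ext
    rw [Units.val_mul, Units.val_pow_eq_pow_val, hwz, hz, ← Units.val_mul, inv_mul_cancel]
  · have e : X * (Pool.Agent.Conf14.sc w * X)⁻¹ = (Pool.Agent.Conf14.sc w : E ≃ₗ[ℂ] E)⁻¹ := by
      group
    rw [e]
    apply Cen.inv
    apply cen_of_scalar (c := (w : ℂ))
    intro x
    rfl

/-- **UD.** Normalisation of the determinants.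

PROOF. Over `ℂ` there is `z` with `z ^ 2 = (det X)⁻¹` (`IsAlgClosed.exists_pow_nat_eq`); `X' = z • X` (the
product of `X` with the homothety, `LinearEquiv.smulOfUnit` or `LinearEquiv.smulOfNeZero`), `det X' =
z ^ 2 * det X = 1` (`LinearMap.det_smul`, `h2`).  The same for `Y`.  The last claim by induction on the word
(`FreeGroup.induction_on`): `Cen` of a product: `x * y * (x' * y')⁻¹ = (x * (y * y'⁻¹) * x⁻¹) * (x * x'⁻¹)`. -/
theorem exists_sl (h2 : finrank ℂ E = 2) (X Y : E ≃ₗ[ℂ] E) :
    ∃ X' Y' : E ≃ₗ[ℂ] E, LinearEquiv.det X' = 1 ∧ LinearEquiv.det Y' = 1 ∧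
      ∀ w : FreeGroup (Fin 2), Cen (lift ![X, Y] w * (lift ![X', Y'] w)⁻¹) := by
  obtain ⟨X', hX', hX⟩ := UD_one h2 X
  obtain ⟨Y', hY', hY⟩ := UD_one h2 Y
  refine ⟨X', Y', hX', hY', ?_⟩
  have hgen : ∀ l : Fin 2, Cen (lift ![X, Y] (of l) * (lift ![X', Y'] (of l))⁻¹) := by
    intro l
    fin_cases l
    · show Cen (lift ![X, Y] (of (0 : Fin 2)) * (lift ![X', Y'] (of (0 : Fin 2)))⁻¹)
      rw [lift_zero, lift_zero]
      exact hX
    · show Cen (lift ![X, Y] (of (1 : Fin 2)) * (lift ![X', Y'] (of (1 : Fin 2)))⁻¹)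
      rw [lift_one, lift_one]
      exact hY
  have hinv : ∀ w : FreeGroup (Fin 2), Cen (lift ![X, Y] w * (lift ![X', Y'] w)⁻¹) →
      Cen (lift ![X, Y] w⁻¹ * (lift ![X', Y'] w⁻¹)⁻¹) := by
    intro w hw
    have e : lift ![X, Y] w⁻¹ * (lift ![X', Y'] w⁻¹)⁻¹ = (lift ![X', Y'] w)⁻¹ *
        (lift ![X, Y] w * (lift ![X', Y'] w)⁻¹)⁻¹ * (lift ![X', Y'] w)⁻¹⁻¹ := by
      rw [map_inv, map_inv]
      group
    rw [e]
    exact hw.inv.conj _
  intro w
  induction w using FreeGroup.induction_on with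
  | C1 => rw [map_one, map_one, inv_one, mul_one]; exact Cen.one
  | of l => exact hgen l
  | inv_of l ih => exact hinv _ ih
  | mul x y hx hy =>
    have e : lift ![X, Y] (x * y) * (lift ![X', Y'] (x * y))⁻¹ =
        (lift ![X, Y] x * (lift ![X', Y'] x)⁻¹) *
          (lift ![X', Y'] x * (lift ![X, Y] y * (lift ![X', Y'] y)⁻¹) *
            (lift ![X', Y'] x)⁻¹) := by
      rw [map_mul, map_mul]
      group
    rw [e]
    exact hx.mul (hy.conj _)
/- END UD -/

/- MODULE UE -/
private theorem UE_mul (a b : E ≃ₗ[ℂ] E) (c d : M ≃ₗ[ℂ] M) (x : E ⊗[ℂ] M) :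
    TensorProduct.congr (a * b) (c * d) x =
      TensorProduct.congr a c (TensorProduct.congr b d x) := by
  induction x using TensorProduct.induction_on with
  | zero => rw [map_zero, map_zero, map_zero]
  | tmul u m =>
    rw [TensorProduct.congr_tmul, TensorProduct.congr_tmul, TensorProduct.congr_tmul]
    rfl
  | add x y hx hy => rw [map_add, map_add, map_add, hx, hy]

private theorem UE_one (x : E ⊗[ℂ] M) :
    TensorProduct.congr (1 : E ≃ₗ[ℂ] E) (1 : M ≃ₗ[ℂ] M) x = x := by
  induction x using TensorProduct.induction_on with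
  | zero => rw [map_zero]
  | tmul u m =>
    rw [TensorProduct.congr_tmul]
    rfl
  | add x y hx hy => rw [map_add, hx, hy]

/-- the tensor product with a nonzero vector is injective -/
private theorem UE_inj {u : E} (hu : u ≠ 0) {m m' : M}
    (h : u ⊗ₜ[ℂ] m = u ⊗ₜ[ℂ] m') : m = m' := by
  obtain ⟨φ, hφ⟩ : ∃ φ : E →ₗ[ℂ] ℂ, φ u ≠ 0 := by
    by_contra h1
    push Not at h1
    exact hu ((Module.forall_dual_apply_eq_zero_iff ℂ u).1 h1)
  have h1 := congrArg (TensorProduct.lid ℂ M) (congrArg (TensorProduct.map φ LinearMap.id) h)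
  rw [TensorProduct.map_tmul, TensorProduct.map_tmul, TensorProduct.lid_tmul,
    TensorProduct.lid_tmul] at h1
  have h2 : φ u • m = φ u • m' := h1
  exact smul_right_injective M hφ h2

private theorem UE_uniq (a : E ≃ₗ[ℂ] E) (y y' : M ≃ₗ[ℂ] M)
    (h : ∀ x : E ⊗[ℂ] M, TensorProduct.congr a y x = TensorProduct.congr a y' x) : y = y' := by
  obtain ⟨u, hu⟩ := exists_ne (0 : E)
  refine LinearEquiv.ext fun m => ?_
  have h1 := h (u ⊗ₜ[ℂ] m)
  rw [TensorProduct.congr_tmul, TensorProduct.congr_tmul] at h1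
  exact UE_inj (fun h2 => hu (a.map_eq_zero_iff.1 h2)) h1

/-- **UE.** The second factor of a representation whose first factor is given.

PROOF. The elements `g` such that there is `y : M ≃ₗ[ℂ] M` with `∀ v, ψ (ρ g v) = congr (T g) y (ψ v)` are a
subgroup (`TensorProduct.congr` of products and inverses), so by `hgen` and `pb_top` (Conf14; used in
`PB3.factor_cen`) all `g`.  `y` is unique: `E` is nontrivial (`u ⊗ m = u ⊗ m'` for `u ≠ 0` implies `m = m'`:
apply `φ ⊗ id` with `φ u = 1`; `T g` is bijective and `ψ` is surjective).  So `g ↦ y` is a homomorphism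
(`choose`), `σ g = y` as a linear map. -/
theorem exists_second (ρ : Representation ℂ (PureBraid n) V) (ψ : V ≃ₗ[ℂ] E ⊗[ℂ] M)
    (T : PureBraid n →* (E ≃ₗ[ℂ] E))
    (hgen : ∀ i j (hij : i < j), ∃ y : M ≃ₗ[ℂ] M, ∀ v,
      ψ (ρ (A i j hij) v) = TensorProduct.congr (T (A i j hij)) y (ψ v)) :
    ∃ σ : Representation ℂ (PureBraid n) M, ∀ g v,
      ψ (ρ g v) = TensorProduct.map (T g).toLinearMap (σ g) (ψ v) := by
  have hmul : ∀ g k v, ρ (g * k) v = ρ g (ρ k v) := by
    intro g k v
    rw [map_mul]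
    rfl
  have hone : ∀ v, ρ 1 v = v := by
    intro v
    rw [map_one]
    rfl
  have hall : ∀ g, ∃ y : M ≃ₗ[ℂ] M, ∀ v, ψ (ρ g v) = TensorProduct.congr (T g) y (ψ v) := by
    let S : Subgroup (PureBraid n) :=
      { carrier := {g | ∃ y : M ≃ₗ[ℂ] M, ∀ v, ψ (ρ g v) = TensorProduct.congr (T g) y (ψ v)}
        one_mem' := by
          refine ⟨1, fun v => ?_⟩
          rw [hone, map_one, UE_one]
        mul_mem' := by
          rintro g k ⟨y, hy⟩ ⟨z, hz⟩
          refine ⟨y * z, fun v => ?_⟩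
          rw [hmul, map_mul, UE_mul, ← hz, ← hy]
        inv_mem' := by
          rintro g ⟨y, hy⟩
          refine ⟨y⁻¹, fun v => ?_⟩
          have h1 := hy (ρ g⁻¹ v)
          rw [← hmul, mul_inv_cancel, hone] at h1
          rw [h1, ← UE_mul, map_inv T g, inv_mul_cancel, inv_mul_cancel, UE_one] }
    have hS : S = ⊤ := pb_top S hgen
    intro g
    have hg : g ∈ S := hS ▸ Subgroup.mem_top g
    exact hg
  choose y hy using hall
  have huniq : ∀ g (z : M ≃ₗ[ℂ] M), (∀ v, ψ (ρ g v) = TensorProduct.congr (T g) z (ψ v)) →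
      y g = z := by
    intro g z hz
    apply UE_uniq (T g)
    intro x
    have h1 := hy g (ψ.symm x)
    have h2 := hz (ψ.symm x)
    rw [LinearEquiv.apply_symm_apply] at h1 h2
    rw [← h1, ← h2]
  have y1 : y 1 = 1 := huniq 1 1 fun v => by rw [hone, map_one, UE_one]
  have ym : ∀ g k, y (g * k) = y g * y k := fun g k => huniq _ _ fun v => by
    rw [hmul, map_mul, UE_mul, ← hy, ← hy]
  refine ⟨{ toFun := fun g => (y g).toLinearMap, map_one' := ?_, map_mul' := ?_ }, fun g v => ?_⟩
  · show (y 1).toLinearMap = 1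
    rw [y1]
    rfl
  · intro g k
    show (y (g * k)).toLinearMap = (y g).toLinearMap * (y k).toLinearMap
    rw [ym]
    rfl
  · exact hy g v
/- END UE -/

/- MODULE UF -/
/-- a nonzero vector `u` and a functional with value one -/
private theorem UF_dual : ∃ (u : E) (φ : E →ₗ[ℂ] ℂ), φ u = 1 := by
  obtain ⟨u, hu⟩ := exists_ne (0 : E)
  obtain ⟨φ, hφ⟩ : ∃ φ : E →ₗ[ℂ] ℂ, φ u ≠ 0 := by
    by_contra h1
    push Not at h1
    exact hu ((Module.forall_dual_apply_eq_zero_iff ℂ u).1 h1)
  exact ⟨(φ u)⁻¹ • u, φ, by rw [map_smul, smul_eq_mul, inv_mul_cancel₀ hφ]⟩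

/-- **UF.** The second factor is irreducible.

PROOF. `Representation.IsIrreducible` (see `irr_sub` in Conf14 and its use in PB3/Fact.lean for the
translation, in the other direction `IsSimpleOrder (Subrepresentation σ)`): a subrepresentation `U` of `σ`;
the range of `E ⊗ U → E ⊗ M` is invariant under all `map (τ g) (σ g)`, so its preimage under `ψ` is invariant
under `ρ`, so it is `⊥` or `⊤`; dimensions (or elements: `u ⊗ m` is in the range iff `m ∈ U`, `u ≠ 0`) give
`U = ⊥` or `⊤`.  `M` is nontrivial. -/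
theorem irr_second (ρ : Representation ℂ (PureBraid n) V) [ρ.IsIrreducible]
    (ψ : V ≃ₗ[ℂ] E ⊗[ℂ] M) (τ : PureBraid n → Module.End ℂ E)
    (σ : Representation ℂ (PureBraid n) M)
    (h : ∀ g v, ψ (ρ g v) = TensorProduct.map (τ g) (σ g) (ψ v)) : σ.IsIrreducible := by
  obtain ⟨u, φ, hφ⟩ := UF_dual (E := E)
  -- contraction with the functional
  let c : E ⊗[ℂ] M →ₗ[ℂ] M :=
    (TensorProduct.lid ℂ M).toLinearMap ∘ₗ TensorProduct.map φ LinearMap.id
  have hc : ∀ (w : E) (m : M), c (w ⊗ₜ[ℂ] m) = φ w • m := fun w m => by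
    show TensorProduct.lid ℂ M (TensorProduct.map φ LinearMap.id (w ⊗ₜ[ℂ] m)) = φ w • m
    rw [TensorProduct.map_tmul, TensorProduct.lid_tmul]
    rfl
  have key : ∀ U : Submodule ℂ M, (∀ g, ∀ x ∈ U, σ g x ∈ U) → U = ⊥ ∨ U = ⊤ := by
    intro U hU
    let R : Submodule ℂ (E ⊗[ℂ] M) :=
      Submodule.span ℂ {x | ∃ (w : E) (m : M), m ∈ U ∧ x = w ⊗ₜ[ℂ] m}
    have hRg : ∀ g, ∀ x ∈ R, TensorProduct.map (τ g) (σ g) x ∈ R := by
      intro g x hx
      induction hx using Submodule.span_induction with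
      | mem x hx =>
        obtain ⟨w, m, hm, rfl⟩ := hx
        rw [TensorProduct.map_tmul]
        exact Submodule.subset_span ⟨_, _, hU g m hm, rfl⟩
      | zero => rw [map_zero]; exact R.zero_mem
      | add x y _ _ hx hy => rw [map_add]; exact R.add_mem hx hy
      | smul a x _ hx => rw [map_smul]; exact R.smul_mem a hx
    have hRc : ∀ x ∈ R, c x ∈ U := by
      intro x hx
      induction hx using Submodule.span_induction with
      | mem x hx =>
        obtain ⟨w, m, hm, rfl⟩ := hx
        rw [hc]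
        exact U.smul_mem _ hm
      | zero => rw [map_zero]; exact U.zero_mem
      | add x y _ _ hx hy => rw [map_add]; exact U.add_mem hx hy
      | smul a x _ hx => rw [map_smul]; exact U.smul_mem a hx
    rcases Pool.Agent.Conf14.irr_sub ρ (R.comap ψ.toLinearMap) (by
      intro g x hx
      show ψ (ρ g x) ∈ R
      rw [h]
      exact hRg g _ hx) with h1 | h1
    · left
      rw [eq_bot_iff]
      intro m hm
      have h2 : ψ.symm (u ⊗ₜ[ℂ] m) ∈ R.comap ψ.toLinearMap := by
        show ψ (ψ.symm (u ⊗ₜ[ℂ] m)) ∈ R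
        rw [LinearEquiv.apply_symm_apply]
        exact Submodule.subset_span ⟨u, m, hm, rfl⟩
      rw [h1, Submodule.mem_bot] at h2
      have h3 : u ⊗ₜ[ℂ] m = 0 := by
        rw [← LinearEquiv.apply_symm_apply ψ (u ⊗ₜ[ℂ] m), h2, map_zero]
      have h4 := hc u m
      rw [h3, map_zero, hφ, one_smul] at h4
      rw [Submodule.mem_bot]
      exact h4.symm
    · right
      rw [eq_top_iff]
      intro m _
      have h2 : ψ.symm (u ⊗ₜ[ℂ] m) ∈ R.comap ψ.toLinearMap := by
        rw [h1]
        exact Submodule.mem_top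
      have h3 : u ⊗ₜ[ℂ] m ∈ R := by
        have h4 : ψ (ψ.symm (u ⊗ₜ[ℂ] m)) ∈ R := h2
        rwa [LinearEquiv.apply_symm_apply] at h4
      have h4 := hRc _ h3
      rwa [hc, hφ, one_smul] at h4
  have hnt : Nontrivial (Subrepresentation σ) := by
    refine ⟨⊥, ⊤, fun h1 => ?_⟩
    have h2 : (⊥ : Submodule ℂ M) = ⊤ := congrArg Subrepresentation.toSubmodule h1
    exact bot_ne_top h2
  exact
    { toNontrivial := hnt
      eq_bot_or_eq_top := fun U => by
        rcases key U.toSubmodule (fun g x hx => U.apply_mem_toSubmodule g hx) with h1 | h1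
        · exact Or.inl (Subrepresentation.toSubmodule_injective h1)
        · exact Or.inr (Subrepresentation.toSubmodule_injective h1) }
/- END UF -/

/- MODULE UG -/
/-- an automorphism of a plane of determinant one: the inverse of an eigenvalue -/
private theorem UG_inv (h2 : finrank ℂ E = 2) (T : E ≃ₗ[ℂ] E) (hT : LinearEquiv.det T = 1)
    {c : ℂ} (hc : End.HasEigenvalue T.toLinearMap c) :
    ∃ c', c * c' = 1 ∧ End.HasEigenvalue T.toLinearMap c' := by
  classical
  have hs : (LinearMap.charpoly T.toLinearMap).Splits := IsAlgClosed.splits _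
  have h1 := Module.End.det_eq_prod_roots_charpoly_of_splits hs
  have hdet : LinearMap.det T.toLinearMap = 1 := by
    have h3 := congrArg Units.val hT
    rwa [LinearEquiv.coe_det, Units.val_one] at h3
  have hcard : (LinearMap.charpoly T.toLinearMap).roots.card = 2 := by
    rw [← hs.natDegree_eq_card_roots, LinearMap.charpoly_natDegree, h2]
  have hmem : c ∈ (LinearMap.charpoly T.toLinearMap).roots := by
    rw [Polynomial.mem_roots (LinearMap.charpoly_monic _).ne_zero]
    rw [← Module.End.hasEigenvalue_iff_isRoot_charpoly]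
    exact hc
  obtain ⟨s, hs'⟩ := Multiset.exists_cons_of_mem hmem
  rw [hs', Multiset.card_cons] at hcard
  obtain ⟨c', hc'⟩ := Multiset.card_eq_one.1 (by omega : s.card = 1)
  rw [hs', hc', Multiset.prod_cons, Multiset.prod_singleton, hdet] at h1
  refine ⟨c', h1.symm, ?_⟩
  rw [Module.End.hasEigenvalue_iff_isRoot_charpoly]
  apply Polynomial.isRoot_of_mem_roots
  rw [hs', hc']
  simp

/-- the product of eigenvalues -/
private theorem UG_mul (ρ : Representation ℂ (PureBraid n) V)
    (ψ : V ≃ₗ[ℂ] E ⊗[ℂ] M) (T : PureBraid n →* (E ≃ₗ[ℂ] E))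
    (σ : Representation ℂ (PureBraid n) M)
    (h : ∀ g v, ψ (ρ g v) = TensorProduct.map (T g).toLinearMap (σ g) (ψ v))
    (g : PureBraid n) {c d : ℂ} (hc : End.HasEigenvalue (T g).toLinearMap c)
    (hd : End.HasEigenvalue (σ g) d) : End.HasEigenvalue (ρ g) (c * d) := by
  obtain ⟨u, hu⟩ := hc.exists_hasEigenvector
  obtain ⟨m, hm⟩ := hd.exists_hasEigenvector
  have hu1 : (T g).toLinearMap u = c • u := hu.apply_eq_smul
  have hm1 : σ g m = d • m := hm.apply_eq_smul
  have hne : u ⊗ₜ[ℂ] m ≠ 0 := by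
    intro h0
    obtain ⟨φ, hφ⟩ : ∃ φ : E →ₗ[ℂ] ℂ, φ u ≠ 0 := by
      by_contra h1
      push Not at h1
      exact hu.2 ((Module.forall_dual_apply_eq_zero_iff ℂ u).1 h1)
    have h1 := congrArg (TensorProduct.lid ℂ M) (congrArg (TensorProduct.map φ LinearMap.id) h0)
    rw [TensorProduct.map_tmul, TensorProduct.lid_tmul, map_zero, map_zero] at h1
    have h2 : φ u • m = 0 := h1
    rcases smul_eq_zero.1 h2 with h3 | h3
    · exact hφ h3
    · exact hm.2 h3
  apply End.hasEigenvalue_of_hasEigenvector (x := ψ.symm (u ⊗ₜ[ℂ] m))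
  refine ⟨?_, ?_⟩
  · rw [End.mem_eigenspace_iff]
    apply ψ.injective
    rw [h, LinearEquiv.apply_symm_apply, TensorProduct.map_tmul, hu1, hm1, map_smul,
      LinearEquiv.apply_symm_apply, TensorProduct.smul_tmul_smul]
  · intro h0
    apply hne
    rw [← LinearEquiv.apply_symm_apply ψ (u ⊗ₜ[ℂ] m), h0, map_zero]

private theorem UG_root {x y : ℂ} (hxy : ∃ k : ℕ, 0 < k ∧ (x * y) ^ k = 1)
    (hx : ∃ k : ℕ, 0 < k ∧ x ^ k = 1) : ∃ k : ℕ, 0 < k ∧ y ^ k = 1 := by
  obtain ⟨k, hk, h1⟩ := hxy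
  obtain ⟨l, hl, h2⟩ := hx
  refine ⟨k * l, Nat.mul_pos hk hl, ?_⟩
  have h3 : (x * y) ^ (k * l) = 1 := by rw [pow_mul, h1, one_pow]
  have h4 : x ^ (k * l) = 1 := by rw [mul_comm k l, pow_mul, h2, one_pow]
  rwa [mul_pow, h4, one_mul] at h3

/-- **UG.** The eigenvalues of the factors.

PROOF. Let `g = A i j hij`.  `T g` is an automorphism of a plane of determinant one: if `c` is an eigenvalue
then `c ≠ 0` and `c⁻¹` is an eigenvalue (the characteristic polynomial is `X² - t X + 1`:
`LinearMap.charpoly` of degree 2, or Cayley-Hamilton by hand; or: the determinant is the product of the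
roots of the characteristic polynomial, see `PB3.det_fin`).  `σ g` has an eigenvalue `d`
(`Module.End.exists_eigenvalue`).  If `c`, `d` are eigenvalues of `T g`, `σ g` then `c * d` is an eigenvalue of
`ρ g`: the vector `ψ.symm (u ⊗ₜ m)`.  So `c * d` and `c⁻¹ * d` are roots of unity, so `c ^ 2` and `c` are roots
of unity; so every eigenvalue of `T g` is a root of unity; and then `d` is one for every eigenvalue `d` of
`σ g` (`T g` has an eigenvalue). -/
theorem roots_second (h2 : finrank ℂ E = 2) (ρ : Representation ℂ (PureBraid n) V)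
    (ψ : V ≃ₗ[ℂ] E ⊗[ℂ] M) (T : PureBraid n →* (E ≃ₗ[ℂ] E))
    (hT : ∀ g, LinearEquiv.det (T g) = 1) (σ : Representation ℂ (PureBraid n) M)
    (h : ∀ g v, ψ (ρ g v) = TensorProduct.map (T g).toLinearMap (σ g) (ψ v)) (hr : RootEig ρ) :
    RootEig σ ∧ RootEig fun g => (T g).toLinearMap := by
  -- every eigenvalue of the first factor
  have hfst : ∀ i j (hij : i < j) (c : ℂ), End.HasEigenvalue (T (A i j hij)).toLinearMap c →
      ∃ k : ℕ, 0 < k ∧ c ^ k = 1 := by
    intro i j hij c hc
    obtain ⟨d, hd⟩ := Module.End.exists_eigenvalue (σ (A i j hij))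
    obtain ⟨c', hcc', hc'⟩ := UG_inv h2 (T (A i j hij)) (hT _) hc
    obtain ⟨k, hk, h3⟩ := hr i j hij _ (UG_mul ρ ψ T σ h _ hc hd)
    obtain ⟨l, hl, h4⟩ := hr i j hij _ (UG_mul ρ ψ T σ h _ hc' hd)
    refine ⟨2 * (k * l), by positivity, ?_⟩
    have h5 : (c * d) ^ (k * l) = 1 := by rw [pow_mul, h3, one_pow]
    have h6 : (c' * d) ^ (k * l) = 1 := by rw [mul_comm k l, pow_mul, h4, one_pow]
    rw [mul_pow] at h5 h6
    have h7 : c ^ (k * l) * c' ^ (k * l) = 1 := by rw [← mul_pow, hcc', one_pow]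
    rw [mul_comm 2, pow_mul, pow_two]
    calc c ^ (k * l) * c ^ (k * l) = (c ^ (k * l) * c ^ (k * l)) * (c' ^ (k * l) * d ^ (k * l)) := by
          rw [h6, mul_one]
      _ = (c ^ (k * l) * c' ^ (k * l)) * (c ^ (k * l) * d ^ (k * l)) := by ring
      _ = 1 := by rw [h7, h5, mul_one]
  refine ⟨?_, fun i j hij c hc => hfst i j hij c hc⟩
  intro i j hij d hd
  obtain ⟨c, hc⟩ := Module.End.exists_eigenvalue (T (A i j hij)).toLinearMap
  exact UG_root (hr i j hij _ (UG_mul ρ ψ T σ h _ hc hd)) (hfst i j hij c hc)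
/- END UG -/

end Spaces

end Pool.Agent.PF54
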