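import Pool.Agent.PF54.Dim
import Pool.Agent.PF54.Ext
import Mathlib.LinearAlgebra.GeneralLinearGroup.AlgEquiv

/-! # Tensor decompositions -/

set_option autoImplicit false

namespace Pool.Agent.PF54

open Pool.Agent.Conf14 (PB)
open Pool.Agent.PB3
open Pool.Agent.Bst88
open Module
open scoped TensorProduct

section one
variable {W : Type*} [AddCommGroup W] [Module ℂ W] [FiniteDimensional ℂ W]
  {A : Subalgebra ℂ (Module.End ℂ W)} {e f : ℕ}

/- MODULE TA -/
private theorem TA_dual {F : Type*} [AddCommGroup F] [Module ℂ F] {v : F} (hv : v ≠ 0) :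
    ∃ φ : F →ₗ[ℂ] ℂ, φ v = 1 := by
  by_contra hc
  push Not at hc
  apply hv
  rw [← Module.forall_dual_apply_eq_zero_iff ℂ v]
  intro φ
  by_contra h0
  exact hc ((φ v)⁻¹ • φ) (by rw [LinearMap.smul_apply, smul_eq_mul, inv_mul_cancel₀ h0])

private theorem TA_rid {E' M' : Type*} [AddCommGroup E'] [Module ℂ E'] [AddCommGroup M']
    [Module ℂ M'] (φ : M' →ₗ[ℂ] ℂ) (u : E') (v : M') :
    TensorProduct.rid ℂ E' (TensorProduct.map LinearMap.id φ (u ⊗ₜ[ℂ] v)) = φ v • u := by
  rw [TensorProduct.map_tmul, TensorProduct.rid_tmul, LinearMap.id_apply]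

private theorem TA_lid {E' M' : Type*} [AddCommGroup E'] [Module ℂ E'] [AddCommGroup M']
    [Module ℂ M'] (φ : E' →ₗ[ℂ] ℂ) (u : E') (v : M') :
    TensorProduct.lid ℂ M' (TensorProduct.map φ LinearMap.id (u ⊗ₜ[ℂ] v)) = φ u • v := by
  rw [TensorProduct.map_tmul, TensorProduct.lid_tmul, LinearMap.id_apply]

/-- the tensor product of coordinate spaces is the space of matrices -/
private theorem TA_mat (e f : ℕ) :
    ∃ θ : (Fin e → ℂ) ⊗[ℂ] (Fin f → ℂ) ≃ₗ[ℂ] Matrix (Fin e) (Fin f) ℂ,
      ∀ u v, θ (u ⊗ₜ v) = Matrix.vecMulVec u v := by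
  let b : (Fin e → ℂ) →ₗ[ℂ] (Fin f → ℂ) →ₗ[ℂ] Matrix (Fin e) (Fin f) ℂ :=
    LinearMap.mk₂ ℂ (fun u v => Matrix.vecMulVec u v)
      (fun u u' v => by
        ext i j
        simp only [Matrix.vecMulVec_apply, Matrix.add_apply, Pi.add_apply, add_mul])
      (fun c u v => by
        ext i j
        simp only [Matrix.vecMulVec_apply, Matrix.smul_apply, Pi.smul_apply, smul_eq_mul,
          mul_assoc])
      (fun u v v' => by
        ext i j
        simp only [Matrix.vecMulVec_apply, Matrix.add_apply, Pi.add_apply, mul_add])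
      (fun c u v => by
        ext i j
        simp only [Matrix.vecMulVec_apply, Matrix.smul_apply, Pi.smul_apply, smul_eq_mul]
        ring)
  have h1 : ∀ u v, TensorProduct.lift b (u ⊗ₜ v) = Matrix.vecMulVec u v := fun u v =>
    TensorProduct.lift.tmul u v
  have hs : Function.Surjective (TensorProduct.lift b) := by
    intro X
    refine ⟨∑ i, ∑ j, X i j • (Pi.single i (1 : ℂ) ⊗ₜ[ℂ] Pi.single j (1 : ℂ)), ?_⟩
    rw [map_sum]
    ext k l
    rw [Matrix.sum_apply, Finset.sum_eq_single k]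
    · rw [map_sum, Matrix.sum_apply, Finset.sum_eq_single l]
      · rw [map_smul, h1, Matrix.smul_apply, Matrix.vecMulVec_apply, Pi.single_eq_same,
          Pi.single_eq_same, mul_one, smul_eq_mul, mul_one]
      · intro j _ hj
        rw [map_smul, h1, Matrix.smul_apply, Matrix.vecMulVec_apply,
          Pi.single_eq_of_ne (Ne.symm hj), mul_zero, smul_zero]
      · intro h
        exact absurd (Finset.mem_univ l) h
    · intro i _ hi
      rw [map_sum, Matrix.sum_apply]
      refine Finset.sum_eq_zero fun j _ => ?_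
      rw [map_smul, h1, Matrix.smul_apply, Matrix.vecMulVec_apply,
        Pi.single_eq_of_ne (Ne.symm hi), zero_mul, smul_zero]
    · intro h
      exact absurd (Finset.mem_univ k) h
  have hd : finrank ℂ ((Fin e → ℂ) ⊗[ℂ] (Fin f → ℂ)) =
      finrank ℂ (Matrix (Fin e) (Fin f) ℂ) := by
    rw [Module.finrank_tensorProduct, Module.finrank_matrix, Module.finrank_fin_fun,
      Module.finrank_fin_fun, Fintype.card_fin, Fintype.card_fin, Module.finrank_self, mul_one]
  exact ⟨LinearEquiv.ofBijective (TensorProduct.lift b)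
    ⟨(LinearMap.injective_iff_surjective_of_finrank_eq_finrank hd).2 hs, hs⟩, h1⟩

private theorem TA_smulRight {E' M' : Type*} [AddCommGroup E'] [Module ℂ E'] [AddCommGroup M']
    [Module ℂ M'] (φ : E' →ₗ[ℂ] ℂ) (u : E') (z : E' ⊗[ℂ] M') :
    TensorProduct.map (φ.smulRight u) LinearMap.id z =
      u ⊗ₜ TensorProduct.lid ℂ M' (TensorProduct.map φ LinearMap.id z) := by
  induction z using TensorProduct.induction_on with
  | zero => rw [map_zero, map_zero, map_zero, TensorProduct.tmul_zero]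
  | tmul a b =>
    rw [TA_lid, TensorProduct.map_tmul, LinearMap.smulRight_apply, LinearMap.id_apply,
      TensorProduct.smul_tmul]
  | add a b ha hb => rw [map_add, map_add, map_add, ha, hb, TensorProduct.tmul_add]

private theorem TA_uniq {E' M' : Type*} [AddCommGroup E'] [Module ℂ E'] [AddCommGroup M']
    [Module ℂ M'] [Nontrivial M'] {X Y : Module.End ℂ E'}
    (h : ∀ z : E' ⊗[ℂ] M', TensorProduct.map X LinearMap.id z =
      TensorProduct.map Y LinearMap.id z) : X = Y := by
  obtain ⟨v, hv⟩ := exists_ne (0 : M')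
  obtain ⟨φ, hφ⟩ := TA_dual hv
  refine LinearMap.ext fun u => ?_
  have h1 := congrArg (fun z => TensorProduct.rid ℂ E' (TensorProduct.map LinearMap.id φ z))
    (h (u ⊗ₜ v))
  simp only [TensorProduct.map_tmul, TensorProduct.rid_tmul, LinearMap.id_apply] at h1
  rwa [hφ, one_smul, one_smul] at h1

private theorem TA_map_map {E' M' : Type*} [AddCommGroup E'] [Module ℂ E'] [AddCommGroup M']
    [Module ℂ M'] (X Y : Module.End ℂ E') (X' Y' : Module.End ℂ M') (z : E' ⊗[ℂ] M') :
    TensorProduct.map X X' (TensorProduct.map Y Y' z) =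
      TensorProduct.map (X ∘ₗ Y) (X' ∘ₗ Y') z := by
  rw [TensorProduct.map_comp, LinearMap.comp_apply]

/-- an automorphism which commutes with all `X ⊗ 1` is `1 ⊗ y` -/
private theorem TA_comm {E' M' : Type*} [AddCommGroup E'] [Module ℂ E'] [AddCommGroup M']
    [Module ℂ M'] [FiniteDimensional ℂ M'] [Nontrivial E']
    (H : E' ⊗[ℂ] M' ≃ₗ[ℂ] E' ⊗[ℂ] M')
    (h : ∀ (X : Module.End ℂ E') z, H (TensorProduct.map X LinearMap.id z) =
      TensorProduct.map X LinearMap.id (H z)) :
    ∃ y : M' ≃ₗ[ℂ] M', ∀ u v, H (u ⊗ₜ v) = u ⊗ₜ y v := by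
  obtain ⟨e0, he0⟩ := exists_ne (0 : E')
  obtain ⟨φ, hφ⟩ := TA_dual he0
  let y : M' →ₗ[ℂ] M' := (TensorProduct.lid ℂ M').toLinearMap ∘ₗ
    TensorProduct.map φ LinearMap.id ∘ₗ H.toLinearMap ∘ₗ TensorProduct.mk ℂ E' M' e0
  have hy : ∀ v, y v = TensorProduct.lid ℂ M' (TensorProduct.map φ LinearMap.id
    (H (e0 ⊗ₜ v))) := fun v => rfl
  have key : ∀ u v, H (u ⊗ₜ v) = u ⊗ₜ y v := by
    intro u v
    rw [hy, ← TA_smulRight, ← h, TensorProduct.map_tmul, LinearMap.smulRight_apply, hφ, one_smul,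
      LinearMap.id_apply]
  have hinj : Function.Injective y := by
    rw [← LinearMap.ker_eq_bot, LinearMap.ker_eq_bot']
    intro v hv
    have h1 := key e0 v
    rw [hv, TensorProduct.tmul_zero] at h1
    have h2 := H.map_eq_zero_iff.1 h1
    have h3 := TA_lid φ e0 v
    rw [h2, map_zero, map_zero, hφ, one_smul] at h3
    exact h3.symm
  exact ⟨LinearEquiv.ofInjectiveEndo y hinj, key⟩

/-- an automorphism which normalises the algebra `{X ⊗ 1}` is decomposable -/
private theorem TA_norm {E' M' : Type*} [AddCommGroup E'] [Module ℂ E'] [AddCommGroup M']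
    [Module ℂ M'] [FiniteDimensional ℂ E'] [FiniteDimensional ℂ M'] [Nontrivial E']
    [Nontrivial M'] (G : E' ⊗[ℂ] M' ≃ₗ[ℂ] E' ⊗[ℂ] M')
    (h : ∀ X : Module.End ℂ E', ∃ X' : Module.End ℂ E', ∀ z,
      G (TensorProduct.map X LinearMap.id z) = TensorProduct.map X' LinearMap.id (G z)) :
    ∃ (x : E' ≃ₗ[ℂ] E') (y : M' ≃ₗ[ℂ] M'), ∀ z, G z = TensorProduct.congr x y z := by
  choose α hα using h
  have hα' : ∀ X z, TensorProduct.map (α X) LinearMap.id z =
      G (TensorProduct.map X LinearMap.id (G.symm z)) := by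
    intro X z
    rw [hα, G.apply_symm_apply]
  let α' : Module.End ℂ E' →ₐ[ℂ] Module.End ℂ E' :=
    { toFun := α
      map_one' := by
        apply TA_uniq (M' := M')
        intro z
        rw [hα']
        show G (TensorProduct.map LinearMap.id LinearMap.id (G.symm z)) =
          TensorProduct.map LinearMap.id LinearMap.id z
        rw [TensorProduct.map_id, LinearMap.id_apply, LinearMap.id_apply, G.apply_symm_apply]
      map_mul' := by
        intro X Y
        apply TA_uniq (M' := M')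
        intro z
        have h1 : TensorProduct.map (α X * α Y) LinearMap.id z =
          TensorProduct.map (α X) LinearMap.id (TensorProduct.map (α Y) LinearMap.id z) := by
          rw [TA_map_map, LinearMap.id_comp]
          rfl
        have h2 : TensorProduct.map (X * Y) LinearMap.id (G.symm z) =
          TensorProduct.map X LinearMap.id (TensorProduct.map Y LinearMap.id (G.symm z)) := by
          rw [TA_map_map, LinearMap.id_comp]
          rfl
        rw [h1, hα', hα', hα', G.symm_apply_apply, h2]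
      map_zero' := by
        apply TA_uniq (M' := M')
        intro z
        rw [hα', TensorProduct.map_zero_left, LinearMap.zero_apply, LinearMap.zero_apply, map_zero]
      map_add' := by
        intro X Y
        apply TA_uniq (M' := M')
        intro z
        rw [hα', TensorProduct.map_add_left, TensorProduct.map_add_left, LinearMap.add_apply,
          LinearMap.add_apply, map_add, hα', hα']
      commutes' := by
        intro c
        apply TA_uniq (M' := M')
        intro z
        rw [hα']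
        have h1 : (algebraMap ℂ (Module.End ℂ E') c) = c • LinearMap.id := by
          rw [Algebra.algebraMap_eq_smul_one]
          rfl
        rw [h1, TensorProduct.map_smul_left, TensorProduct.map_id, LinearMap.smul_apply,
          LinearMap.smul_apply, LinearMap.id_apply, LinearMap.id_apply, map_smul,
          G.apply_symm_apply] }
  have hinj : Function.Injective α' := by
    intro X Y hXY
    have h0 : α X = α Y := hXY
    apply TA_uniq (M' := M')
    intro z
    apply G.injective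
    rw [hα, hα, h0]
  have hsur : Function.Surjective α' :=
    (LinearMap.injective_iff_surjective (f := α'.toLinearMap)).1 hinj
  obtain ⟨x, hx⟩ := (AlgEquiv.ofBijective α' ⟨hinj, hsur⟩).eq_linearEquivConjAlgEquiv
  have hx' : ∀ X, α X = x.toLinearMap ∘ₗ X ∘ₗ x.symm.toLinearMap := by
    intro X
    have := DFunLike.congr_fun hx X
    rw [LinearEquiv.conjAlgEquiv_apply] at this
    exact this
  obtain ⟨y, hy⟩ := TA_comm (G.trans (TensorProduct.congr x.symm (LinearEquiv.refl ℂ M'))) (by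
    intro X z
    show TensorProduct.map x.symm.toLinearMap LinearMap.id
      (G (TensorProduct.map X LinearMap.id z)) = TensorProduct.map X LinearMap.id
      (TensorProduct.map x.symm.toLinearMap LinearMap.id (G z))
    rw [hα, TA_map_map, TA_map_map, hx', LinearMap.id_comp]
    have h1 : x.symm.toLinearMap ∘ₗ x.toLinearMap ∘ₗ X ∘ₗ x.symm.toLinearMap =
      X ∘ₗ x.symm.toLinearMap := by
      refine LinearMap.ext fun u => ?_
      show x.symm (x (X (x.symm u))) = X (x.symm u)
      rw [x.symm_apply_apply]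
    rw [h1])
  refine ⟨x, y, fun z => ?_⟩
  induction z using TensorProduct.induction_on with
  | zero => rw [map_zero, map_zero]
  | tmul u v =>
    have h1 := hy u v
    have h2 : TensorProduct.congr x.symm (LinearEquiv.refl ℂ M') (G (u ⊗ₜ v)) = u ⊗ₜ y v := h1
    have h3 := congrArg (TensorProduct.congr x (LinearEquiv.refl ℂ M')) h2
    rw [TensorProduct.congr_tmul] at h3
    rw [TensorProduct.congr_tmul]
    rw [LinearEquiv.refl_apply] at h3
    rw [← h3]
    have h4 : ∀ z' : E' ⊗[ℂ] M', TensorProduct.congr x (LinearEquiv.refl ℂ M')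
        (TensorProduct.congr x.symm (LinearEquiv.refl ℂ M') z') = z' := by
      intro z'
      show TensorProduct.map x.toLinearMap LinearMap.id
        (TensorProduct.map x.symm.toLinearMap LinearMap.id z') = z'
      rw [TA_map_map, LinearMap.id_comp]
      have h5 : x.toLinearMap ∘ₗ x.symm.toLinearMap = LinearMap.id := by
        refine LinearMap.ext fun u => ?_
        show x (x.symm u) = u
        rw [x.apply_symm_apply]
      rw [h5, TensorProduct.map_id, LinearMap.id_apply]
    exact (h4 _).symm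
  | add a b ha hb => rw [map_add, map_add, ha, hb]

/-- **TA.** One block is a tensor product; automorphisms which normalise the algebra are
decomposable.

PROOF. `ψ` = `B.φ` (one block) followed by `Matrix (Fin e) (Fin f) ℂ ≃ (Fin e → ℂ) ⊗ (Fin f → ℂ)`
(`e_i ⊗ e_j` corresponds to `Matrix.single i j 1`; `Matrix (Fin e) (Fin f) ℂ ≃ (Fin e × Fin f → ℂ)`,
`Basis.tensorProduct` or `Matrix.kroneckerTMul`..).  Left multiplication by a matrix `X` becomes
`TensorProduct.map X.toLin' id`: first claim (`B.mem`).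
Second claim.  `g` normalises `A`, so `X ↦ X'` with `g * (X ⊗ 1) * g⁻¹ = X' ⊗ 1` is an algebra
automorphism of `Module.End ℂ (Fin e → ℂ)`: `AlgEquiv.eq_linearEquivConjAlgEquiv` gives `x` with
`X' = x X x⁻¹`.  `(x⁻¹ ⊗ 1) * g` commutes with all `X ⊗ 1`, so it is `1 ⊗ y`: (an endomorphism `T` of
`E ⊗ M` which commutes with all `X ⊗ 1`: with `X = ` the projection `e_i e_j^*` one sees
`T (e_j ⊗ v) = e_j ⊗ y v` with `y` independent of `j`); `y` is bijective as `1 ⊗ y` is (`e > 0`). -/
theorem Blk.exists_ten (B : Blk A 1 e f) (he : 0 < e) (hf : 0 < f) :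
    ∃ ψ : W ≃ₗ[ℂ] (Fin e → ℂ) ⊗[ℂ] (Fin f → ℂ),
      (∀ T : Module.End ℂ W, T ∈ A ↔ ∃ X : Module.End ℂ (Fin e → ℂ),
        ∀ w, ψ (T w) = TensorProduct.map X LinearMap.id (ψ w)) ∧
      ∀ g : W ≃ₗ[ℂ] W, Nrm A g → ∃ (x : (Fin e → ℂ) ≃ₗ[ℂ] (Fin e → ℂ))
        (y : (Fin f → ℂ) ≃ₗ[ℂ] (Fin f → ℂ)), ∀ w, ψ (g w) = TensorProduct.congr x y (ψ w) := by
  have : Nonempty (Fin e) := ⟨⟨0, he⟩⟩
  have : Nonempty (Fin f) := ⟨⟨0, hf⟩⟩
  obtain ⟨θ, hθ⟩ := TA_mat e f
  let ψ : W ≃ₗ[ℂ] (Fin e → ℂ) ⊗[ℂ] (Fin f → ℂ) :=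
    B.φ.trans ((LinearEquiv.funUnique (Fin 1) ℂ (Matrix (Fin e) (Fin f) ℂ)).trans θ.symm)
  have hψ : ∀ w, θ (ψ w) = B.φ w 0 := by
    intro w
    show θ (θ.symm (LinearEquiv.funUnique (Fin 1) ℂ (Matrix (Fin e) (Fin f) ℂ) (B.φ w))) = _
    rw [θ.apply_symm_apply]
    rfl
  have hmul : ∀ (X : Module.End ℂ (Fin e → ℂ)) z,
      θ (TensorProduct.map X LinearMap.id z) = LinearMap.toMatrix' X * θ z := by
    intro X z
    induction z using TensorProduct.induction_on with
    | zero => rw [map_zero, map_zero, Matrix.mul_zero]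
    | tmul u v =>
      rw [TensorProduct.map_tmul, hθ, hθ, Matrix.mul_vecMulVec, LinearMap.id_apply,
        ← Matrix.toLin'_apply, Matrix.toLin'_toMatrix']
    | add a b ha hb => rw [map_add, map_add, map_add, ha, hb, Matrix.mul_add]
  have h1 : ∀ T : Module.End ℂ W, T ∈ A ↔ ∃ X : Module.End ℂ (Fin e → ℂ),
        ∀ w, ψ (T w) = TensorProduct.map X LinearMap.id (ψ w) := by
    intro T
    rw [B.mem]
    constructor
    · rintro ⟨X, hX⟩
      refine ⟨Matrix.toLin' (X 0), fun w => ?_⟩
      apply θ.injective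
      rw [hψ, hmul, LinearMap.toMatrix'_toLin', hψ]
      exact hX w 0
    · rintro ⟨X, hX⟩
      refine ⟨fun _ => LinearMap.toMatrix' X, fun w b => ?_⟩
      rw [Subsingleton.elim b 0, ← hψ, ← hψ, hX, hmul]
  refine ⟨ψ, h1, fun g hg => ?_⟩
  obtain ⟨x, y, hxy⟩ := TA_norm (ψ.symm.trans (g.trans ψ)) (by
    intro X
    obtain ⟨X', hX'⟩ := (h1 _).1 (hg (ψ.symm.toLinearMap ∘ₗ TensorProduct.map X LinearMap.id ∘ₗ
      ψ.toLinearMap) ((h1 _).2 ⟨X, fun w => by
        show ψ (ψ.symm (TensorProduct.map X LinearMap.id (ψ w))) = _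
        rw [ψ.apply_symm_apply]⟩)).1
    refine ⟨X', fun z => ?_⟩
    have h2 := hX' (g (ψ.symm z))
    have h3 : ψ (g (ψ.symm (TensorProduct.map X LinearMap.id (ψ (g.symm (g (ψ.symm z))))))) =
      TensorProduct.map X' LinearMap.id (ψ (g (ψ.symm z))) := h2
    rw [g.symm_apply_apply, ψ.apply_symm_apply] at h3
    exact h3)
  refine ⟨x, y, fun w => ?_⟩
  have h2 := hxy (ψ w)
  rw [← h2]
  show ψ (g w) = ψ (g (ψ.symm (ψ w)))
  rw [ψ.symm_apply_apply]
/- END TA -/

end one

variable {E M : Type*} [AddCommGroup E] [Module ℂ E] [FiniteDimensional ℂ E] [Nontrivial E]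
  [AddCommGroup M] [Module ℂ M] [FiniteDimensional ℂ M] [Nontrivial M]

/- MODULE TB -/
private theorem TB_dual {F : Type*} [AddCommGroup F] [Module ℂ F] {v : F} (hv : v ≠ 0) :
    ∃ φ : F →ₗ[ℂ] ℂ, φ v = 1 := by
  by_contra hc
  push Not at hc
  apply hv
  rw [← Module.forall_dual_apply_eq_zero_iff ℂ v]
  intro φ
  by_contra h0
  exact hc ((φ v)⁻¹ • φ) (by rw [LinearMap.smul_apply, smul_eq_mul, inv_mul_cancel₀ h0])

private theorem TB_ne {F : Type*} [AddCommGroup F] [Module ℂ F] (g : F ≃ₗ[ℂ] F) {v : F}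
    (hv : v ≠ 0) : g v ≠ 0 := fun h => hv (g.map_eq_zero_iff.1 h)

private theorem TB_rid {E' M' : Type*} [AddCommGroup E'] [Module ℂ E'] [AddCommGroup M']
    [Module ℂ M'] (φ : M' →ₗ[ℂ] ℂ) (u : E') (v : M') :
    TensorProduct.rid ℂ E' (TensorProduct.map LinearMap.id φ (u ⊗ₜ[ℂ] v)) = φ v • u := by
  rw [TensorProduct.map_tmul, TensorProduct.rid_tmul, LinearMap.id_apply]

private theorem TB_lid {E' M' : Type*} [AddCommGroup E'] [Module ℂ E'] [AddCommGroup M']
    [Module ℂ M'] (φ : E' →ₗ[ℂ] ℂ) (u : E') (v : M') :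
    TensorProduct.lid ℂ M' (TensorProduct.map φ LinearMap.id (u ⊗ₜ[ℂ] v)) = φ u • v := by
  rw [TensorProduct.map_tmul, TensorProduct.lid_tmul, LinearMap.id_apply]

private theorem TB_det {F : Type*} [AddCommGroup F] [Module ℂ F] [FiniteDimensional ℂ F]
    {x x' : F ≃ₗ[ℂ] F} {c : ℂ} (h : ∀ u, x (x' u) = c • x' (x u)) : c ^ finrank ℂ F = 1 := by
  have h1 : x.toLinearMap ∘ₗ x'.toLinearMap = c • (x'.toLinearMap ∘ₗ x.toLinearMap) :=
    LinearMap.ext h
  have h2 := congrArg LinearMap.det h1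
  rw [LinearMap.det_smul, LinearMap.det_comp, LinearMap.det_comp] at h2
  have h3 := (LinearEquiv.isUnit_det' x).ne_zero
  have h4 := (LinearEquiv.isUnit_det' x').ne_zero
  have h5 : (c ^ finrank ℂ F - 1) * (LinearMap.det x.toLinearMap * LinearMap.det x'.toLinearMap) =
      0 := by linear_combination -h2
  rcases mul_eq_zero.1 h5 with h6 | h6
  · exact sub_eq_zero.1 h6
  · exact absurd h6 (mul_ne_zero h3 h4)

/-- **TB (a).** Decomposable automorphisms which commute: the factors commute up to a scalar.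

PROOF. Let `P = x x'`, `P' = x' x`, `Q = y y'`, `Q' = y' y`: `P ⊗ Q = P' ⊗ Q'`, all invertible.  So
`(P'⁻¹ P) ⊗ 1 = 1 ⊗ (Q' Q⁻¹)` (multiply by `P'⁻¹ ⊗ Q⁻¹`); `R ⊗ 1 = 1 ⊗ R'` implies that `R` is a scalar
`c` (apply both sides to `u ⊗ v`, `v ≠ 0`, and apply `φ : M → ℂ` with `φ v = 1` to the second factor:
`R u = φ (R' v) u`), and then `R' = c`.  So `P = c P'`, `Q' = c Q`.  Determinants (`LinearEquiv.det` or
`LinearMap.det`): `det P = det P' ≠ 0`, `det (c • P') = c ^ finrank E * det P'`: `c ^ finrank E = 1`;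
the same for `M`. -/
theorem comm_split {x x' : E ≃ₗ[ℂ] E} {y y' : M ≃ₗ[ℂ] M}
    (h : Commute (TensorProduct.congr x y) (TensorProduct.congr x' y')) :
    ∃ c : ℂ, c ^ finrank ℂ E = 1 ∧ c ^ finrank ℂ M = 1 ∧ (∀ u, x (x' u) = c • x' (x u)) ∧
      ∀ u, y' (y u) = c • y (y' u) := by
  have key : ∀ u v, x (x' u) ⊗ₜ[ℂ] y (y' v) = x' (x u) ⊗ₜ[ℂ] y' (y v) := fun u v => by
    have := LinearEquiv.congr_fun h.eq (u ⊗ₜ v)
    simpa only [LinearEquiv.mul_apply, TensorProduct.congr_tmul] using this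
  obtain ⟨v0, hv0⟩ := exists_ne (0 : M)
  obtain ⟨u0, hu0⟩ := exists_ne (0 : E)
  obtain ⟨φ, hφ⟩ := TB_dual (TB_ne y (TB_ne y' hv0))
  have hP : ∀ u, x (x' u) = φ (y' (y v0)) • x' (x u) := fun u => by
    have := congrArg (fun z => TensorProduct.rid ℂ E (TensorProduct.map LinearMap.id φ z))
      (key u v0)
    simp only [TB_rid] at this
    rwa [hφ, one_smul] at this
  obtain ⟨χ, hχ⟩ := TB_dual (TB_ne x' (TB_ne x hu0))
  have hQ : ∀ v, y' (y v) = φ (y' (y v0)) • y (y' v) := fun v => by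
    have := congrArg (fun z => TensorProduct.lid ℂ M (TensorProduct.map χ LinearMap.id z))
      (key u0 v)
    simp only [TB_lid] at this
    rw [hχ, one_smul, hP u0, map_smul, hχ, smul_eq_mul, mul_one] at this
    exact this.symm
  exact ⟨_, TB_det hP, TB_det hQ, hP, hQ⟩

private theorem TB_scalar {F : Type*} [AddCommGroup F] [Module ℂ F] [Nontrivial F]
    {x : F ≃ₗ[ℂ] F} (hx : Cen x) : ∃ c : ℂ, ∀ u, x u = c • u := by
  have key : ∀ (φ : F →ₗ[ℂ] ℂ) (w u : F), φ u • x w = φ (x u) • w := by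
    intro φ w u
    obtain ⟨s, hs, hs1⟩ : ∃ s : ℂ, s ≠ 0 ∧ 1 + s * φ w ≠ 0 := by
      by_cases h : 1 + 1 * φ w = 0
      · refine ⟨2, by norm_num, ?_⟩
        have : φ w = -1 := by linear_combination h
        rw [this]
        norm_num
      · exact ⟨1, one_ne_zero, h⟩
    have hst : s - s / (1 + s * φ w) - s * (s / (1 + s * φ w)) * φ w = 0 := by
      field_simp
      ring
    let t : ℂ := s / (1 + s * φ w)
    let T : F →ₗ[ℂ] F := LinearMap.id + s • φ.smulRight w
    let T' : F →ₗ[ℂ] F := LinearMap.id - t • φ.smulRight w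
    have hT : ∀ u, T u = u + (s * φ u) • w := fun u => by
      simp only [T, LinearMap.add_apply, LinearMap.id_apply, LinearMap.smul_apply,
        LinearMap.smulRight_apply, smul_smul]
    have hT' : ∀ u, T' u = u - (t * φ u) • w := fun u => by
      simp only [T', LinearMap.sub_apply, LinearMap.id_apply, LinearMap.smul_apply,
        LinearMap.smulRight_apply, smul_smul]
    let e : F ≃ₗ[ℂ] F := LinearEquiv.ofLinearMap T T' (by
      refine LinearMap.ext fun u => ?_
      rw [LinearMap.comp_apply, hT', hT, LinearMap.id_apply, map_sub, map_smul, smul_eq_mul]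
      have : (s - t - s * t * φ w) * φ u = 0 := by
        rw [hst, zero_mul]
      have h2 : u - (t * φ u) • w + (s * (φ u - t * φ u * φ w)) • w =
        u + ((s - t - s * t * φ w) * φ u) • w := by module
      rw [h2, this, zero_smul, add_zero]) (by
      refine LinearMap.ext fun u => ?_
      rw [LinearMap.comp_apply, hT, hT', LinearMap.id_apply, map_add, map_smul, smul_eq_mul]
      have : (s - t - s * t * φ w) * φ u = 0 := by
        rw [hst, zero_mul]
      have h2 : u + (s * φ u) • w - (t * (φ u + s * φ u * φ w)) • w =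
        u + ((s - t - s * t * φ w) * φ u) • w := by module
      rw [h2, this, zero_smul, add_zero])
    have he : ∀ u, e u = u + (s * φ u) • w := hT
    have h1 := LinearEquiv.congr_fun (hx e).eq u
    rw [LinearEquiv.mul_apply, LinearEquiv.mul_apply, he, he, map_add, map_smul] at h1
    have h2 := add_left_cancel h1
    rw [mul_smul, mul_smul] at h2
    exact smul_right_injective F hs h2
  obtain ⟨u0, hu0⟩ := exists_ne (0 : F)
  obtain ⟨φ, hφ⟩ := TB_dual hu0
  refine ⟨φ (x u0), fun w => ?_⟩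
  have := key φ w u0
  rwa [hφ, one_smul] at this

private theorem TB_one {F : Type*} [AddCommGroup F] [Module ℂ F] [Nontrivial F]
    {y : F ≃ₗ[ℂ] F} {c : ℂ} (h : ∀ u, y u = c • y u) : c = 1 := by
  obtain ⟨v, hv⟩ := exists_ne (0 : F)
  have h1 := h v
  have h2 : (1 - c) • y v = 0 := by rw [sub_smul, one_smul, ← h1, sub_self]
  rcases smul_eq_zero.1 h2 with h3 | h3
  · exact (sub_eq_zero.1 h3).symm
  · exact absurd h3 (TB_ne y hv)

/-- commuting with all automorphisms of the first factor -/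
private theorem TB_left {x x' : E ≃ₗ[ℂ] E} {y : M ≃ₗ[ℂ] M}
    (h : Commute (TensorProduct.congr x y) (TensorProduct.congr x' 1)) : Commute x x' := by
  obtain ⟨c, -, -, h1, h2⟩ := comm_split h
  have hc : c = 1 := TB_one (y := y) fun u => h2 u
  refine LinearEquiv.ext fun u => ?_
  have := h1 u
  rwa [hc, one_smul] at this

private theorem TB_right {x : E ≃ₗ[ℂ] E} {y y' : M ≃ₗ[ℂ] M}
    (h : Commute (TensorProduct.congr x y) (TensorProduct.congr 1 y')) : Commute y y' := by
  obtain ⟨c, -, -, h1, h2⟩ := comm_split h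
  have hc : c = 1 := TB_one (y := x) fun u => h1 u
  refine LinearEquiv.ext fun u => ?_
  have := h2 u
  rw [hc, one_smul] at this
  exact this.symm


/-- **TB (b).** A decomposable automorphism is a scalar iff both factors are.

PROOF. `←`: `x = c`, `y = d` (`Cen` in `V ≃ₗ V` implies scalar: Schur for the full group, e.g. `T` commutes
with all transvections; or use `PB3.schur` with `S` = everything).  `→`: `x ⊗ y` commutes with all
`x' ⊗ 1` and `comm_split` with `y' = 1`: `y u = c • y u`, so `c = 1` and `x` commutes with `x'`. -/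
theorem cen_split {x : E ≃ₗ[ℂ] E} {y : M ≃ₗ[ℂ] M} :
    Cen (TensorProduct.congr x y) ↔ Cen x ∧ Cen y := by
  constructor
  · intro h
    exact ⟨fun x' => TB_left (h _), fun y' => TB_right (h _)⟩
  · rintro ⟨hx, hy⟩
    obtain ⟨c, hc⟩ := TB_scalar hx
    obtain ⟨d, hd⟩ := TB_scalar hy
    apply cen_of_scalar (c := c * d)
    intro z
    induction z using TensorProduct.induction_on with
    | zero => rw [map_zero, smul_zero]
    | tmul u v =>
      rw [TensorProduct.congr_tmul, hc, hd, TensorProduct.smul_tmul_smul]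
    | add a b ha hb => rw [map_add, ha, hb, smul_add]
/- END TB -/

variable {n : ℕ} {V : Type*} [AddCommGroup V] [Module ℂ V] [FiniteDimensional ℂ V] [Nontrivial V]
  {a : Fin n → Fin n → (V ≃ₗ[ℂ] V)}

/-- `ψ` decomposes the family `a` into the families `ε` and `μ` -/
structure Spl (a : Fin n → Fin n → (V ≃ₗ[ℂ] V)) (ψ : V ≃ₗ[ℂ] E ⊗[ℂ] M)
    (ε : Fin n → Fin n → (E ≃ₗ[ℂ] E)) (μ : Fin n → Fin n → (M ≃ₗ[ℂ] M)) : Prop where
  sp : ∀ i j, i ≠ j → ∀ v, ψ (a i j v) = TensorProduct.congr (ε i j) (μ i j) (ψ v)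
  se : ∀ i j, ε i j = ε j i
  sm : ∀ i j, μ i j = μ j i

variable {ψ : V ≃ₗ[ℂ] E ⊗[ℂ] M} {ε : Fin n → Fin n → (E ≃ₗ[ℂ] E)}
  {μ : Fin n → Fin n → (M ≃ₗ[ℂ] M)}

/- MODULE TC -/
private noncomputable def TC_iso {V' V'' : Type*} [AddCommGroup V'] [Module ℂ V']
    [AddCommGroup V''] [Module ℂ V''] (ψ : V' ≃ₗ[ℂ] V'') : (V' ≃ₗ[ℂ] V') →* (V'' ≃ₗ[ℂ] V'') where
  toFun g := ψ.symm.trans (g.trans ψ)
  map_one' := by
    refine LinearEquiv.ext fun v => ?_
    show ψ (ψ.symm v) = v
    exact ψ.apply_symm_apply v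
  map_mul' g h := by
    refine LinearEquiv.ext fun v => ?_
    show ψ (g (h (ψ.symm v))) = ψ (g (ψ.symm (ψ (h (ψ.symm v)))))
    rw [ψ.symm_apply_apply]

private theorem TC_iso_apply {V' V'' : Type*} [AddCommGroup V'] [Module ℂ V']
    [AddCommGroup V''] [Module ℂ V''] (ψ : V' ≃ₗ[ℂ] V'') (g : V' ≃ₗ[ℂ] V') (v : V'') :
    TC_iso ψ g v = ψ (g (ψ.symm v)) := rfl

private theorem TC_inj {V' V'' : Type*} [AddCommGroup V'] [Module ℂ V']
    [AddCommGroup V''] [Module ℂ V''] (ψ : V' ≃ₗ[ℂ] V'') : Function.Injective (TC_iso ψ) := by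
  intro g h hgh
  refine LinearEquiv.ext fun v => ?_
  have := LinearEquiv.congr_fun hgh (ψ v)
  rw [TC_iso_apply, TC_iso_apply, ψ.symm_apply_apply] at this
  exact ψ.injective this

private theorem TC_cen {V' V'' : Type*} [AddCommGroup V'] [Module ℂ V']
    [AddCommGroup V''] [Module ℂ V''] (ψ : V' ≃ₗ[ℂ] V'') (g : V' ≃ₗ[ℂ] V') :
    Cen (TC_iso ψ g) ↔ Cen g := by
  constructor
  · intro h y
    exact Commute.of_map (TC_inj ψ) (h _)
  · intro h y
    have h1 : TC_iso ψ (TC_iso ψ.symm y) = y := by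
      refine LinearEquiv.ext fun v => ?_
      rw [TC_iso_apply, TC_iso_apply, LinearEquiv.symm_symm, ψ.apply_symm_apply,
        ψ.apply_symm_apply]
    rw [← h1]
    exact (h _).map (TC_iso ψ)

private theorem TC_eq (S : Spl a ψ ε μ) {i j : Fin n} (hij : i ≠ j) :
    TC_iso ψ (a i j) = TensorProduct.congr (ε i j) (μ i j) := by
  refine LinearEquiv.ext fun v => ?_
  rw [TC_iso_apply, S.sp i j hij, ψ.apply_symm_apply]

private theorem TC_one {E' M' : Type*} [AddCommGroup E'] [Module ℂ E'] [AddCommGroup M']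
    [Module ℂ M'] : TensorProduct.congr (1 : E' ≃ₗ[ℂ] E') (1 : M' ≃ₗ[ℂ] M') = 1 :=
  TensorProduct.congr_refl_refl

private theorem TC_congr_inv (x : E ≃ₗ[ℂ] E) (y : M ≃ₗ[ℂ] M) :
    (TensorProduct.congr x y)⁻¹ = TensorProduct.congr x⁻¹ y⁻¹ := by
  apply inv_eq_of_mul_eq_one_left
  rw [← TensorProduct.congr_mul, inv_mul_cancel, inv_mul_cancel]
  exact TC_one

private theorem TC_pr {f : Fin n → (V ≃ₗ[ℂ] V)} {g : Fin n → (E ≃ₗ[ℂ] E)}
    {h : Fin n → (M ≃ₗ[ℂ] M)} (L : List (Fin n))
    (hL : ∀ l, TC_iso ψ (f l) = TensorProduct.congr (g l) (h l)) :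
    TC_iso ψ (pr f L) = TensorProduct.congr (pr g L) (pr h L) := by
  unfold pr
  induction L with
  | nil =>
    simp only [List.map_nil, List.prod_nil, map_one]
    exact TC_one.symm
  | cons l L ih =>
    simp only [List.map_cons, List.prod_cons, map_mul]
    rw [hL, ih, ← TensorProduct.congr_mul]

/-- the span of the pure tensors with factors in two subspaces -/
private def TC_R {E' M' : Type*} [AddCommGroup E'] [Module ℂ E'] [AddCommGroup M']
    [Module ℂ M'] (P : Submodule ℂ E') (Q : Submodule ℂ M') :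
    Submodule ℂ (E' ⊗[ℂ] M') :=
  Submodule.span ℂ {z | ∃ e ∈ P, ∃ m ∈ Q, z = e ⊗ₜ[ℂ] m}

private theorem TC_R_map {E' M' : Type*} [AddCommGroup E'] [Module ℂ E'] [AddCommGroup M']
    [Module ℂ M'] {P : Submodule ℂ E'} {Q : Submodule ℂ M'}
    {x : E' →ₗ[ℂ] E'} {y : M' →ₗ[ℂ] M'}
    (hx : ∀ e ∈ P, x e ∈ P) (hy : ∀ m ∈ Q, y m ∈ Q) {z : E' ⊗[ℂ] M'}
    (hz : z ∈ TC_R P Q) : TensorProduct.map x y z ∈ TC_R P Q := by
  unfold TC_R at hz
  induction hz using Submodule.span_induction with
  | mem z hz =>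
    obtain ⟨e, he, m, hm, rfl⟩ := hz
    rw [TensorProduct.map_tmul]
    exact Submodule.subset_span ⟨_, hx e he, _, hy m hm, rfl⟩
  | zero => rw [map_zero]; exact Submodule.zero_mem _
  | add u v _ _ hu hv => rw [map_add]; exact Submodule.add_mem _ hu hv
  | smul c u _ hu => rw [map_smul]; exact Submodule.smul_mem _ c hu

private theorem TC_R_bot {P : Submodule ℂ E} {Q : Submodule ℂ M} (h : TC_R P Q = ⊥)
    {e : E} (he : e ∈ P) (he0 : e ≠ 0) {m : M} (hm : m ∈ Q) : m = 0 := by
  obtain ⟨φ, hφ⟩ := TB_dual he0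
  have h1 : e ⊗ₜ[ℂ] m ∈ TC_R P Q := Submodule.subset_span ⟨e, he, m, hm, rfl⟩
  rw [h, Submodule.mem_bot] at h1
  have h2 := TB_lid φ e m
  rw [h1, map_zero, map_zero, hφ, one_smul] at h2
  exact h2.symm

private theorem TC_R_bot' {P : Submodule ℂ E} {Q : Submodule ℂ M} (h : TC_R P Q = ⊥)
    {e : E} (he : e ∈ P) {m : M} (hm : m ∈ Q) (hm0 : m ≠ 0) : e = 0 := by
  obtain ⟨φ, hφ⟩ := TB_dual hm0
  have h1 : e ⊗ₜ[ℂ] m ∈ TC_R P Q := Submodule.subset_span ⟨e, he, m, hm, rfl⟩
  rw [h, Submodule.mem_bot] at h1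
  have h2 := TB_rid φ e m
  rw [h1, map_zero, map_zero, hφ, one_smul] at h2
  exact h2.symm

private theorem TC_R_top {P : Submodule ℂ E} {Q : Submodule ℂ M} (h : TC_R P Q = ⊤) :
    P = ⊤ ∧ Q = ⊤ := by
  obtain ⟨v0, hv0⟩ := exists_ne (0 : M)
  obtain ⟨u0, hu0⟩ := exists_ne (0 : E)
  constructor
  · by_contra hP
    obtain ⟨φ, hφ0, hφ⟩ := Submodule.exists_le_ker_of_lt_top P (lt_top_iff_ne_top.2 hP)
    have h1 : ∀ z ∈ TC_R P Q, TensorProduct.lid ℂ M (TensorProduct.map φ LinearMap.id z) = 0 := by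
      intro z hz
      unfold TC_R at hz
      induction hz using Submodule.span_induction with
      | mem z hz =>
        obtain ⟨e, he, m, hm, rfl⟩ := hz
        rw [TB_lid, LinearMap.mem_ker.1 (hφ he), zero_smul]
      | zero => rw [map_zero, map_zero]
      | add u v _ _ hu hv => rw [map_add, map_add, hu, hv, add_zero]
      | smul c u _ hu => rw [map_smul, map_smul, hu, smul_zero]
    apply hφ0
    refine LinearMap.ext fun e => ?_
    have h2 := h1 (e ⊗ₜ v0) (h ▸ Submodule.mem_top)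
    rw [TB_lid] at h2
    exact (smul_eq_zero.1 h2).resolve_right hv0
  · by_contra hP
    obtain ⟨φ, hφ0, hφ⟩ := Submodule.exists_le_ker_of_lt_top Q (lt_top_iff_ne_top.2 hP)
    have h1 : ∀ z ∈ TC_R P Q, TensorProduct.rid ℂ E (TensorProduct.map LinearMap.id φ z) = 0 := by
      intro z hz
      unfold TC_R at hz
      induction hz using Submodule.span_induction with
      | mem z hz =>
        obtain ⟨e, he, m, hm, rfl⟩ := hz
        rw [TB_rid, LinearMap.mem_ker.1 (hφ hm), zero_smul]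
      | zero => rw [map_zero, map_zero]
      | add u v _ _ hu hv => rw [map_add, map_add, hu, hv, add_zero]
      | smul c u _ hu => rw [map_smul, map_smul, hu, smul_zero]
    apply hφ0
    refine LinearMap.ext fun m => ?_
    have h2 := h1 (u0 ⊗ₜ m) (h ▸ Submodule.mem_top)
    rw [TB_rid] at h2
    exact (smul_eq_zero.1 h2).resolve_right hu0

private theorem TC_comap (S : Spl a ψ ε μ) (h : IrrF a) {P : Submodule ℂ E} {Q : Submodule ℂ M}
    (hP : ∀ i j, i ≠ j → ∀ x ∈ P, ε i j x ∈ P) (hQ : ∀ i j, i ≠ j → ∀ x ∈ Q, μ i j x ∈ Q) :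
    TC_R P Q = ⊥ ∨ TC_R P Q = ⊤ := by
  rcases h ((TC_R P Q).comap ψ.toLinearMap) (fun i j hij x hx => by
    rw [Submodule.mem_comap] at hx ⊢
    have h1 : ψ (a i j x) = TensorProduct.map (ε i j).toLinearMap (μ i j).toLinearMap (ψ x) :=
      S.sp i j hij x
    show ψ (a i j x) ∈ _
    rw [h1]
    exact TC_R_map (hP i j hij) (hQ i j hij) hx) with h1 | h1
  · left
    rw [eq_bot_iff]
    intro z hz
    have h2 : ψ.symm z ∈ (TC_R P Q).comap ψ.toLinearMap := by
      rw [Submodule.mem_comap]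
      show ψ (ψ.symm z) ∈ _
      rwa [ψ.apply_symm_apply]
    rw [h1, Submodule.mem_bot] at h2
    rw [Submodule.mem_bot]
    exact ψ.symm.map_eq_zero_iff.1 h2
  · right
    rw [eq_top_iff]
    intro z _
    have h2 : ψ.symm z ∈ (TC_R P Q).comap ψ.toLinearMap := h1 ▸ Submodule.mem_top
    rw [Submodule.mem_comap] at h2
    have h3 : ψ (ψ.symm z) ∈ TC_R P Q := h2
    rwa [ψ.apply_symm_apply] at h3

/-- **TC (a).** PROOF. `a i j` is conjugate by `ψ` to `congr (ε i j) (μ i j)`; `Cen` is preserved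
(`LinearEquiv` conjugation `g ↦ ψ.symm.trans (g.trans ψ)` is bijective); `cen_split`. -/
theorem Spl.cen (S : Spl a ψ ε μ) {i j : Fin n} (hij : i ≠ j) :
    Cen (a i j) ↔ Cen (ε i j) ∧ Cen (μ i j) := by
  rw [← TC_cen ψ, TC_eq S hij]
  exact cen_split

/-- **TC (b).** PROOF. `ψ (big a k v) = congr (big ε k) (big μ k) (ψ v)` (product over a list:
induction; factor `1` for `l = k`), then as in (a). -/
theorem Spl.sph (S : Spl a ψ ε μ) (h : Sph a) : Sph ε ∧ Sph μ := by
  have key : ∀ k, Cen (big ε k) ∧ Cen (big μ k) := by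
    intro k
    have h1 := h k
    rw [← TC_cen ψ] at h1
    unfold big at h1 ⊢
    rw [TC_pr (ψ := ψ) (g := fun l => if l = k then 1 else ε k l)
      (h := fun l => if l = k then 1 else μ k l)] at h1
    · exact cen_split.1 h1
    · intro l
      split_ifs with hl
      · rw [map_one]
        exact TC_one.symm
      · exact TC_eq S (Ne.symm hl)
  exact ⟨fun k => (key k).1, fun k => (key k).2⟩

/-- **TC (c).** PROOF. If `U ≤ M` is invariant under all `μ i j`, the range of `E ⊗ U → E ⊗ M`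
(`LinearMap.range (TensorProduct.map id U.subtype)`) is invariant under all `congr (ε i j) (μ i j)`, so its
preimage under `ψ` is `⊥` or `⊤` by `h`; its dimension is `finrank E * finrank U` (`TensorProduct.map id`
of an injective map is injective: `Module.Flat` or `rTensor/lTensor` preserves injectivity over a field), so
`U = ⊥` or `U = ⊤`.  The same for `E`. -/
theorem Spl.irr (S : Spl a ψ ε μ) (h : IrrF a) : IrrF ε ∧ IrrF μ := by
  obtain ⟨v0, hv0⟩ := exists_ne (0 : M)
  obtain ⟨u0, hu0⟩ := exists_ne (0 : E)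
  constructor
  · intro P hP
    rcases TC_comap S h (P := P) (Q := ⊤) hP (fun _ _ _ _ _ => Submodule.mem_top) with h1 | h1
    · left
      rw [eq_bot_iff]
      intro e he
      exact TC_R_bot' h1 he (m := v0) Submodule.mem_top hv0
    · right
      exact (TC_R_top h1).1
  · intro Q hQ
    rcases TC_comap S h (P := ⊤) (Q := Q) (fun _ _ _ _ _ => Submodule.mem_top) hQ with h1 | h1
    · left
      rw [eq_bot_iff]
      intro m hm
      exact TC_R_bot h1 (e := u0) Submodule.mem_top hu0 hm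
    · right
      exact (TC_R_top h1).2
/- END TC -/

/- MODULE TE -/
private theorem TE_right {w₁ w₂ : E ≃ₗ[ℂ] E} {z₁ z₂ : M ≃ₗ[ℂ] M}
    (h : Commute (TensorProduct.congr w₁ z₁) (TensorProduct.congr w₂ z₂)) (hw : Commute w₁ w₂) :
    Commute z₁ z₂ := by
  obtain ⟨c, -, -, h1, h2⟩ := comm_split h
  have hc : c = 1 := TB_one (y := w₂ * w₁) fun u => by
    have h3 := LinearEquiv.congr_fun hw.eq u
    have h4 := h1 u
    show w₂ (w₁ u) = c • w₂ (w₁ u)
    rw [← h4]
    exact h3.symm
  refine LinearEquiv.ext fun u => ?_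
  have := h2 u
  rw [hc, one_smul] at this
  exact this.symm

private theorem TE_left {w₁ w₂ : E ≃ₗ[ℂ] E} {z₁ z₂ : M ≃ₗ[ℂ] M}
    (h : Commute (TensorProduct.congr w₁ z₁) (TensorProduct.congr w₂ z₂)) (hz : Commute z₁ z₂) :
    Commute w₁ w₂ := by
  obtain ⟨c, -, -, h1, h2⟩ := comm_split h
  have hc : c = 1 := TB_one (y := z₁ * z₂) fun u => by
    have h3 := LinearEquiv.congr_fun hz.eq u
    have h4 := h2 u
    show z₁ (z₂ u) = c • z₁ (z₂ u)
    rw [← h4]
    exact h3
  refine LinearEquiv.ext fun u => ?_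
  have := h1 u
  rwa [hc, one_smul] at this

private theorem TE_cop (hco : Nat.Coprime (finrank ℂ E) (finrank ℂ M)) {w₁ w₂ : E ≃ₗ[ℂ] E}
    {z₁ z₂ : M ≃ₗ[ℂ] M}
    (h : Commute (TensorProduct.congr w₁ z₁) (TensorProduct.congr w₂ z₂)) :
    Commute w₁ w₂ ∧ Commute z₁ z₂ := by
  obtain ⟨c, hcE, hcM, h1, h2⟩ := comm_split h
  have hc : c = 1 := by
    have := pow_gcd_eq_one.2 ⟨hcE, hcM⟩
    rwa [hco, pow_one] at this
  constructor
  · refine LinearEquiv.ext fun u => ?_
    have := h1 u
    rwa [hc, one_smul] at this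
  · refine LinearEquiv.ext fun u => ?_
    have := h2 u
    rw [hc, one_smul] at this
    exact this.symm

private theorem TE_tr (S : Spl a ψ ε μ) {i j k : Fin n} (hij : i < j) (hjk : j < k)
    {p q : Fin n} (hpq : p ≠ q) (h : Commute (a i j * a i k * a j k) (a p q)) :
    Commute (TensorProduct.congr (ε i j * ε i k * ε j k) (μ i j * μ i k * μ j k))
      (TensorProduct.congr (ε p q) (μ p q)) := by
  have h1 := h.map (TC_iso ψ)
  rw [map_mul, map_mul, TC_eq S hij.ne, TC_eq S (hij.trans hjk).ne, TC_eq S hjk.ne,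
    TC_eq S hpq, ← TensorProduct.congr_mul, ← TensorProduct.congr_mul] at h1
  exact h1

private theorem TE_qd (S : Spl a ψ ε μ) {p q p' q' : Fin n} (hpq : p ≠ q) (hpq' : p' ≠ q')
    (h : Commute (a p q) (a p' q')) :
    Commute (TensorProduct.congr (ε p q) (μ p q)) (TensorProduct.congr (ε p' q') (μ p' q')) := by
  have h1 := h.map (TC_iso ψ)
  rwa [TC_eq S hpq, TC_eq S hpq'] at h1

private theorem TE_cr (S : Spl a ψ ε μ) {i j k l : Fin n} (hij : i < j) (hjk : j < k)
    (hkl : k < l) (h : Commute (a k l * a i k * (a k l)⁻¹) (a j l)) :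
    Commute (TensorProduct.congr (ε k l * ε i k * (ε k l)⁻¹) (μ k l * μ i k * (μ k l)⁻¹))
      (TensorProduct.congr (ε j l) (μ j l)) := by
  have h1 := h.map (TC_iso ψ)
  rw [map_mul, map_mul, map_inv, TC_eq S hkl.ne, TC_eq S (hij.trans hjk).ne,
    TC_eq S (hjk.trans hkl).ne, TC_congr_inv, ← TensorProduct.congr_mul,
    ← TensorProduct.congr_mul] at h1
  exact h1

/-- **TE (a).** If one factor satisfies the relations exactly, so does the other.

PROOF. Each field of `PB μ` is `Commute w₁ w₂` for words in the `μ i j`.  For the corresponding words of `a`,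
transported by `ψ`: `Commute (congr w₁ε w₁μ) (congr w₂ε w₂μ)`; `comm_split` gives `c`; as `w₁ε, w₂ε` commute
(`hε`) `c = 1` (`c • z = z`, `z ≠ 0`), so `w₁μ, w₂μ` commute.  `symm` is `S.sm`. -/
theorem Spl.pb_right (S : Spl a ψ ε μ) (h : PB a) (hε : PB ε) : PB μ where
  symm := S.sm
  t1 i j k hij hjk := TE_right (TE_tr S hij hjk (hij.trans hjk).ne (h.t1 i j k hij hjk))
    (hε.t1 i j k hij hjk)
  t2 i j k hij hjk := TE_right (TE_tr S hij hjk hjk.ne (h.t2 i j k hij hjk))
    (hε.t2 i j k hij hjk)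
  q1 i j k l hij hjk hkl := TE_right (TE_qd S hij.ne hkl.ne (h.q1 i j k l hij hjk hkl))
    (hε.q1 i j k l hij hjk hkl)
  q2 i j k l hij hjk hkl := TE_right (TE_qd S (hij.trans (hjk.trans hkl)).ne hjk.ne
    (h.q2 i j k l hij hjk hkl)) (hε.q2 i j k l hij hjk hkl)
  q3 i j k l hij hjk hkl := TE_right (TE_cr S hij hjk hkl (h.q3 i j k l hij hjk hkl))
    (hε.q3 i j k l hij hjk hkl)

/-- **TE (b).** Coprime dimensions.

PROOF. As (a): `c ^ finrank E = 1 = c ^ finrank M`, so `c ^ gcd = c = 1` (`pow_gcd_eq_one`). -/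
theorem Spl.pb_coprime (S : Spl a ψ ε μ) (h : PB a)
    (hco : Nat.Coprime (finrank ℂ E) (finrank ℂ M)) : PB ε ∧ PB μ := by
  have h1 := fun i j k (hij : i < j) (hjk : j < k) =>
    TE_cop hco (TE_tr S hij hjk (hij.trans hjk).ne (h.t1 i j k hij hjk))
  have h2 := fun i j k (hij : i < j) (hjk : j < k) =>
    TE_cop hco (TE_tr S hij hjk hjk.ne (h.t2 i j k hij hjk))
  have h3 := fun i j k l (hij : i < j) (hjk : j < k) (hkl : k < l) =>
    TE_cop hco (TE_qd S hij.ne hkl.ne (h.q1 i j k l hij hjk hkl))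
  have h4 := fun i j k l (hij : i < j) (hjk : j < k) (hkl : k < l) =>
    TE_cop hco (TE_qd S (hij.trans (hjk.trans hkl)).ne hjk.ne (h.q2 i j k l hij hjk hkl))
  have h5 := fun i j k l (hij : i < j) (hjk : j < k) (hkl : k < l) =>
    TE_cop hco (TE_cr S hij hjk hkl (h.q3 i j k l hij hjk hkl))
  exact ⟨⟨S.se, fun i j k a b => (h1 i j k a b).1, fun i j k a b => (h2 i j k a b).1,
    fun i j k l a b c => (h3 i j k l a b c).1, fun i j k l a b c => (h4 i j k l a b c).1,
    fun i j k l a b c => (h5 i j k l a b c).1⟩,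
    ⟨S.sm, fun i j k a b => (h1 i j k a b).2, fun i j k a b => (h2 i j k a b).2,
    fun i j k l a b c => (h3 i j k l a b c).2, fun i j k l a b c => (h4 i j k l a b c).2,
    fun i j k l a b c => (h5 i j k l a b c).2⟩⟩
/- END TE -/

/- MODULE TG -/
private theorem TG_cen {G : Type*} [Group G] {b : Fin n → Fin n → G} (hb : ∀ i j, b i j = b j i)
    {s : Fin n} (hs : ¬ Act b s) {t : Fin n} (hts : t ≠ s) : Cen (b s t) ∧ Cen (b t s) := by
  have h1 : Cen (b s t) := by
    by_contra h
    exact hs ⟨t, hts, h⟩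
  exact ⟨h1, hb s t ▸ h1⟩

/-- if one of the three strands is inactive then the words commute -/
private theorem TG_tr {G : Type*} [Group G] {b : Fin n → Fin n → G} (hb : ∀ i j, b i j = b j i)
    {i j k : Fin n} (hij : i < j) (hjk : j < k) (h : ¬ (Act b i ∧ Act b j ∧ Act b k)) :
    Commute (b i j * b i k * b j k) (b i k) ∧ Commute (b i j * b i k * b j k) (b j k) := by
  have hik : i < k := hij.trans hjk
  by_cases hi : Act b i
  · by_cases hj : Act b j
    · have hk : ¬ Act b k := fun hk => h ⟨hi, hj, hk⟩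
      have c1 := (TG_cen hb hk hik.ne).2
      have c2 := (TG_cen hb hk hjk.ne).2
      exact ⟨(c1 _).symm, (c2 _).symm⟩
    · have c1 := (TG_cen hb hj hij.ne).2
      have c2 := (TG_cen hb hj hjk.ne').1
      exact ⟨((c1 _).mul_left (Commute.refl _)).mul_left (c2 _), (c2 _).symm⟩
  · have c1 := (TG_cen hb hi hij.ne').1
    have c2 := (TG_cen hb hi hik.ne').1
    exact ⟨(c2 _).symm, ((c1 _).mul_left (c2 _)).mul_left (Commute.refl _)⟩

/-- if one of the four strands is inactive then the words commute -/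
private theorem TG_qd {G : Type*} [Group G] {b : Fin n → Fin n → G} (hb : ∀ i j, b i j = b j i)
    {i j k l : Fin n} (hij : i < j) (hjk : j < k) (hkl : k < l)
    (h : ¬ (Act b i ∧ Act b j ∧ Act b k ∧ Act b l)) :
    Commute (b i j) (b k l) ∧ Commute (b i l) (b j k) ∧
      Commute (b k l * b i k * (b k l)⁻¹) (b j l) := by
  have hik : i < k := hij.trans hjk
  have hjl : j < l := hjk.trans hkl
  have hil : i < l := hij.trans hjl
  by_cases hi : Act b i
  · by_cases hj : Act b j
    · by_cases hk : Act b k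
      · have hl : ¬ Act b l := fun hl => h ⟨hi, hj, hk, hl⟩
        have c1 := (TG_cen hb hl hkl.ne).2
        have c2 := (TG_cen hb hl hil.ne).2
        have c3 := (TG_cen hb hl hjl.ne).2
        exact ⟨(c1 _).symm, c2 _, (c3 _).symm⟩
      · have c1 := (TG_cen hb hk hkl.ne').1
        have c2 := (TG_cen hb hk hjk.ne).2
        have c3 := (TG_cen hb hk hik.ne).2
        exact ⟨(c1 _).symm, (c2 _).symm, c3.conj _ _⟩
    · have c1 := (TG_cen hb hj hij.ne).2
      have c2 := (TG_cen hb hj hjk.ne').1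
      have c3 := (TG_cen hb hj hjl.ne').1
      exact ⟨c1 _, (c2 _).symm, (c3 _).symm⟩
  · have c1 := (TG_cen hb hi hij.ne').1
    have c2 := (TG_cen hb hi hil.ne').1
    have c3 := (TG_cen hb hi hik.ne').1
    exact ⟨c1 _, c2 _, c3.conj _ _⟩

private theorem TG_both {w₁ w₂ : E ≃ₗ[ℂ] E} {z₁ z₂ : M ≃ₗ[ℂ] M}
    (h : Commute (TensorProduct.congr w₁ z₁) (TensorProduct.congr w₂ z₂))
    (hw : Commute w₁ w₂ ∨ Commute z₁ z₂) : Commute w₁ w₂ ∧ Commute z₁ z₂ := by
  rcases hw with hw | hw
  · exact ⟨hw, TE_right h hw⟩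
  · exact ⟨TE_left h hw, hw⟩

/-- **TG.** Few strands which are active on both factors.

PROOF. For each relation `Commute w₁ w₂` of `a` (words in the generators of a triple `i, j, k` or of a
quadruple) get `c` from `comm_split`; claim `c = 1`; then both factors satisfy it.
Triple: among `i, j, k` at most one strand is active on both.  `ε i j` is central unless `i` and `j` are both
active for `ε` (`cen_of_not_act`-like: `¬ Act ε i` gives `Cen (ε i j)`, use `S.se`).  If at least two of
`i, j, k` are inactive for `ε`, all three generators of `ε` are central, and if exactly one is inactive,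
two of the three generators are central; in both cases the two words commute on `E`, so `c = 1`.  So all three
are active for `ε`, in the same way all three for `μ`: three common strands, contradiction to `hfew`.
Quadruple (`q1`, `q2`, `q3`: words in `a i j`, `a k l`; `a i l`, `a j k`; `a k l, a i k`, `a j l`): if one of
`i, j, k, l` is inactive for `ε` then one of the two words is central on `E` (in `q3`: the word
`a k l * a i k * (a k l)⁻¹` is central if `ε i k` is; if `i` and `k` are active and `j` or `l` inactive then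
`ε j l` is central), so `c = 1`; so all four are active for `ε`, and for `μ`: contradiction. -/
theorem Spl.pb_few (S : Spl a ψ ε μ) (h : PB a)
    (hfew : ∀ i j, i ≠ j → ¬ ((Act ε i ∧ Act μ i) ∧ (Act ε j ∧ Act μ j))) : PB ε ∧ PB μ := by
  have ht : ∀ i j k : Fin n, i < j → j < k → (¬ (Act ε i ∧ Act ε j ∧ Act ε k)) ∨
      (¬ (Act μ i ∧ Act μ j ∧ Act μ k)) := by
    intro i j k hij hjk
    by_contra hc
    push Not at hc
    exact hfew i j hij.ne ⟨⟨hc.1.1, hc.2.1⟩, ⟨hc.1.2.1, hc.2.2.1⟩⟩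
  have hq : ∀ i j k l : Fin n, i < j → j < k → k < l →
      (¬ (Act ε i ∧ Act ε j ∧ Act ε k ∧ Act ε l)) ∨
      (¬ (Act μ i ∧ Act μ j ∧ Act μ k ∧ Act μ l)) := by
    intro i j k l hij hjk hkl
    by_contra hc
    push Not at hc
    exact hfew i j hij.ne ⟨⟨hc.1.1, hc.2.1⟩, ⟨hc.1.2.1, hc.2.2.1⟩⟩
  have h1 := fun i j k (hij : i < j) (hjk : j < k) =>
    TG_both (TE_tr S hij hjk (hij.trans hjk).ne (h.t1 i j k hij hjk))
      ((ht i j k hij hjk).imp (fun c => (TG_tr S.se hij hjk c).1)
        (fun c => (TG_tr S.sm hij hjk c).1))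
  have h2 := fun i j k (hij : i < j) (hjk : j < k) =>
    TG_both (TE_tr S hij hjk hjk.ne (h.t2 i j k hij hjk))
      ((ht i j k hij hjk).imp (fun c => (TG_tr S.se hij hjk c).2)
        (fun c => (TG_tr S.sm hij hjk c).2))
  have h3 := fun i j k l (hij : i < j) (hjk : j < k) (hkl : k < l) =>
    TG_both (TE_qd S hij.ne hkl.ne (h.q1 i j k l hij hjk hkl))
      ((hq i j k l hij hjk hkl).imp (fun c => (TG_qd S.se hij hjk hkl c).1)
        (fun c => (TG_qd S.sm hij hjk hkl c).1))
  have h4 := fun i j k l (hij : i < j) (hjk : j < k) (hkl : k < l) =>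
    TG_both (TE_qd S (hij.trans (hjk.trans hkl)).ne hjk.ne (h.q2 i j k l hij hjk hkl))
      ((hq i j k l hij hjk hkl).imp (fun c => (TG_qd S.se hij hjk hkl c).2.1)
        (fun c => (TG_qd S.sm hij hjk hkl c).2.1))
  have h5 := fun i j k l (hij : i < j) (hjk : j < k) (hkl : k < l) =>
    TG_both (TE_cr S hij hjk hkl (h.q3 i j k l hij hjk hkl))
      ((hq i j k l hij hjk hkl).imp (fun c => (TG_qd S.se hij hjk hkl c).2.2)
        (fun c => (TG_qd S.sm hij hjk hkl c).2.2))
  exact ⟨⟨S.se, fun i j k a b => (h1 i j k a b).1, fun i j k a b => (h2 i j k a b).1,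
    fun i j k l a b c => (h3 i j k l a b c).1, fun i j k l a b c => (h4 i j k l a b c).1,
    fun i j k l a b c => (h5 i j k l a b c).1⟩,
    ⟨S.sm, fun i j k a b => (h1 i j k a b).2, fun i j k a b => (h2 i j k a b).2,
    fun i j k l a b c => (h3 i j k l a b c).2, fun i j k l a b c => (h4 i j k l a b c).2,
    fun i j k l a b c => (h5 i j k l a b c).2⟩⟩
/- END TG -/

/- MODULE TH -/
/-- **TH.** The decomposition given by a component with one block.

PROOF. `ψ` from `B.exists_ten`; for `i' < j'` (or `i' = j'`: take `1`) choose `x, y` for `g = a i' j'`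
(`nrm_alg`, `mem_gp`) and symmetrise.  Normalisation: if `a i' j' ∈ alg a i C` choose `y = 1` (possible by
the first property of `ψ`: `ψ (a w) = (X ⊗ 1) (ψ w)`, `X` bijective); if `a i' j'` commutes with the algebra
then the `x` given is automatically central: `x ⊗ y` commutes with all `X ⊗ 1`, `X` invertible:
`comm_split` with `y' = 1` gives `c = 1`.  In the same way any `y` for an element of the algebra is
central (it commutes with all `1 ⊗ y'`), so no choice is necessary.
`s ∈ C`: `a i s` is a generator of the algebra: `Cen (μ i s)`.  `t ∉ C`, `t ≠ i`: `a t j` commutes with the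
generators `a i s` (`comp_comm`), so with the algebra: `Cen (ε t j)`.
Irreducibility: `U` invariant under the `ε i s`, `s ∈ C`: the range of `U ⊗ M → E ⊗ M` is invariant under
`a i s` (transported), so under `alg a i C = {X ⊗ 1}`, so `U` is invariant under all `X`: `⊥` or `⊤`. -/
theorem exists_spl (h : PB a) {i : Fin n} {C : Finset (Fin n)} (hC : Comp a i C) {e f : ℕ}
    (he : 0 < e) (hf : 0 < f) (B : Blk (alg a i C) 1 e f) :
    ∃ (ψ : V ≃ₗ[ℂ] (Fin e → ℂ) ⊗[ℂ] (Fin f → ℂ))
      (ε : Fin n → Fin n → ((Fin e → ℂ) ≃ₗ[ℂ] (Fin e → ℂ)))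
      (μ : Fin n → Fin n → ((Fin f → ℂ) ≃ₗ[ℂ] (Fin f → ℂ))), Spl a ψ ε μ ∧
      (∀ s ∈ C, Cen (μ i s)) ∧ (∀ t, t ∉ C → t ≠ i → ∀ j, j ≠ t → Cen (ε t j)) ∧
      ∀ U : Submodule ℂ (Fin e → ℂ), (∀ s ∈ C, ∀ x ∈ U, ε i s x ∈ U) → U = ⊥ ∨ U = ⊤ := by
  have : Nonempty (Fin e) := ⟨⟨0, he⟩⟩
  have : Nonempty (Fin f) := ⟨⟨0, hf⟩⟩
  obtain ⟨ψ, hA, hN⟩ := B.exists_ten he hf
  have hex : ∀ g : V ≃ₗ[ℂ] V, ∃ (x : (Fin e → ℂ) ≃ₗ[ℂ] (Fin e → ℂ))
      (y : (Fin f → ℂ) ≃ₗ[ℂ] (Fin f → ℂ)), g ∈ gp a →
      ∀ w, ψ (g w) = TensorProduct.congr x y (ψ w) := by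
    intro g
    by_cases hg : g ∈ gp a
    · obtain ⟨x, y, hxy⟩ := hN g (nrm_alg h hC hg)
      exact ⟨x, y, fun _ => hxy⟩
    · exact ⟨1, 1, fun h => absurd h hg⟩
  choose X Y hXY using hex
  have hS : Spl a ψ (fun i j => X (a i j)) (fun i j => Y (a i j)) :=
    ⟨fun i j hij v => hXY _ (mem_gp hij) v, fun i j => congrArg X (h.symm i j),
      fun i j => congrArg Y (h.symm i j)⟩
  refine ⟨ψ, fun i j => X (a i j), fun i j => Y (a i j), hS, ?_, ?_, ?_⟩
  · intro s hs y'
    have his : i ≠ s := fun e => hC.ni (e ▸ hs)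
    obtain ⟨X0, hX0⟩ := (hA _).1 (Algebra.subset_adjoin ⟨s, hs, rfl⟩ :
      (a i s).toLinearMap ∈ alg a i C)
    have h1 : ∀ z, TensorProduct.congr (X (a i s)) (Y (a i s)) z =
        TensorProduct.map X0 LinearMap.id z := by
      intro z
      have h2 := hX0 (ψ.symm z)
      have h3 := hXY _ (mem_gp his) (ψ.symm z)
      rw [ψ.apply_symm_apply] at h2 h3
      exact h3.symm.trans h2
    apply TB_right (x := X (a i s))
    refine LinearEquiv.ext fun z => ?_
    rw [LinearEquiv.mul_apply, LinearEquiv.mul_apply, h1, h1]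
    show TensorProduct.map X0 LinearMap.id (TensorProduct.map LinearMap.id y'.toLinearMap z) =
      TensorProduct.map LinearMap.id y'.toLinearMap (TensorProduct.map X0 LinearMap.id z)
    rw [TA_map_map, TA_map_map, LinearMap.id_comp, LinearMap.id_comp, LinearMap.comp_id,
      LinearMap.comp_id]
  · intro t htC hti j hjt x'
    have hal : ∀ T ∈ alg a i C, ∀ w, a t j (T w) = T (a t j w) := by
      intro T hT
      unfold alg at hT
      induction hT using Algebra.adjoin_induction with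
      | mem T hT =>
        obtain ⟨s, hs, rfl⟩ := hT
        intro w
        exact LinearEquiv.congr_fun (comp_comm h hC htC hti hjt hs).eq w
      | algebraMap c =>
        intro w
        rw [Module.algebraMap_end_apply, Module.algebraMap_end_apply, map_smul]
      | add T T' _ _ h1 h2 =>
        intro w
        rw [LinearMap.add_apply, LinearMap.add_apply, map_add, h1, h2]
      | mul T T' _ _ h1 h2 =>
        intro w
        rw [Module.End.mul_apply, Module.End.mul_apply, h1, h2]
    have h1 := hal (ψ.symm.toLinearMap ∘ₗ TensorProduct.map x'.toLinearMap LinearMap.id ∘ₗ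
      ψ.toLinearMap) ((hA _).2 ⟨x'.toLinearMap, fun w => by
        show ψ (ψ.symm (TensorProduct.map x'.toLinearMap LinearMap.id (ψ w))) = _
        rw [ψ.apply_symm_apply]⟩)
    apply TB_left (y := Y (a t j))
    refine LinearEquiv.ext fun z => ?_
    rw [LinearEquiv.mul_apply, LinearEquiv.mul_apply]
    have h2 := h1 (ψ.symm z)
    have h3 : a t j (ψ.symm (TensorProduct.congr x' 1 (ψ (ψ.symm z)))) =
      ψ.symm (TensorProduct.congr x' 1 (ψ (a t j (ψ.symm z)))) := h2
    have h4 := congrArg ψ h3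
    rw [hXY _ (mem_gp hjt.symm), hXY _ (mem_gp hjt.symm), ψ.apply_symm_apply,
      ψ.apply_symm_apply, ψ.apply_symm_apply] at h4
    exact h4
  · intro U hU
    by_cases hb : U = ⊥
    · exact Or.inl hb
    right
    obtain ⟨e', he', he0⟩ := Submodule.exists_mem_ne_zero_of_ne_bot hb
    obtain ⟨φ, hφ⟩ := TB_dual he0
    have hal : ∀ T ∈ alg a i C, ∀ w, ψ w ∈ TC_R U (⊤ : Submodule ℂ (Fin f → ℂ)) →
        ψ (T w) ∈ TC_R U (⊤ : Submodule ℂ (Fin f → ℂ)) := by
      intro T hT
      unfold alg at hT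
      induction hT using Algebra.adjoin_induction with
      | mem T hT =>
        obtain ⟨s, hs, rfl⟩ := hT
        intro w hw
        have his : i ≠ s := fun e => hC.ni (e ▸ hs)
        have h1 : ψ (a i s w) = TensorProduct.map (X (a i s)).toLinearMap
          (Y (a i s)).toLinearMap (ψ w) := hXY _ (mem_gp his) w
        show ψ (a i s w) ∈ _
        rw [h1]
        exact TC_R_map (hU s hs) (fun _ _ => Submodule.mem_top) hw
      | algebraMap c =>
        intro w hw
        rw [Module.algebraMap_end_apply, map_smul]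
        exact Submodule.smul_mem _ c hw
      | add T T' _ _ h1 h2 =>
        intro w hw
        rw [LinearMap.add_apply, map_add]
        exact Submodule.add_mem _ (h1 w hw) (h2 w hw)
      | mul T T' _ _ h1 h2 =>
        intro w hw
        rw [Module.End.mul_apply]
        exact h1 _ (h2 w hw)
    have htop : TC_R U (⊤ : Submodule ℂ (Fin f → ℂ)) = ⊤ := by
      rw [eq_top_iff]
      intro z _
      induction z using TensorProduct.induction_on with
      | zero => exact Submodule.zero_mem _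
      | tmul u v =>
        have h1 := hal (ψ.symm.toLinearMap ∘ₗ TensorProduct.map (φ.smulRight u) LinearMap.id ∘ₗ
          ψ.toLinearMap) ((hA _).2 ⟨φ.smulRight u, fun w => by
            show ψ (ψ.symm (TensorProduct.map (φ.smulRight u) LinearMap.id (ψ w))) = _
            rw [ψ.apply_symm_apply]⟩) (ψ.symm (e' ⊗ₜ v)) (by
            rw [ψ.apply_symm_apply]
            exact Submodule.subset_span ⟨e', he', v, Submodule.mem_top, rfl⟩)
        have h2 : ψ (ψ.symm (TensorProduct.map (φ.smulRight u) LinearMap.id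
          (ψ (ψ.symm (e' ⊗ₜ v))))) ∈ TC_R U (⊤ : Submodule ℂ (Fin f → ℂ)) := h1
        rw [ψ.apply_symm_apply, ψ.apply_symm_apply, TensorProduct.map_tmul,
          LinearMap.smulRight_apply, hφ, one_smul, LinearMap.id_apply] at h2
        exact h2
      | add p q hp hq => exact Submodule.add_mem _ (hp trivial) (hq trivial)
    exact (TC_R_top htop).1
/- END TH -/

/- MODULE TI -/
private theorem TI_scal {W : Type*} [AddCommGroup W] [Module ℂ W] {x : W ≃ₗ[ℂ] W} (hx : Cen x) :
    ∃ c : ℂ, ∀ w, x w = c • w := by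
  have h : ∀ v, ¬ LinearIndependent ℂ ![v, x.toLinearMap v] := by
    intro v hli
    have hnot : x v ∉ Submodule.span ℂ {v} := by
      intro hmem
      obtain ⟨c, hc⟩ := Submodule.mem_span_singleton.1 hmem
      rw [LinearIndependent.pair_iff] at hli
      have := hli c (-1) (by
        show c • v + (-1 : ℂ) • x v = 0
        rw [hc]
        simp)
      exact absurd this.2 (by norm_num)
    obtain ⟨f, hf1, hf2⟩ := Submodule.exists_le_ker_of_notMem hnot
    have hfv : f v = 0 := hf2 (Submodule.mem_span_singleton_self v)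
    have h1 := LinearEquiv.congr_fun (hx (LinearEquiv.transvection hfv)).eq (x v)
    have h2 : x (LinearEquiv.transvection hfv (x v)) =
        LinearEquiv.transvection hfv (x (x v)) := h1
    rw [LinearEquiv.transvection.apply, LinearEquiv.transvection.apply, map_add, map_smul] at h2
    have h3 : f (x v) • x v = f (x (x v)) • v := add_left_cancel h2
    apply hnot
    rw [Submodule.mem_span_singleton]
    refine ⟨(f (x v))⁻¹ * f (x (x v)), ?_⟩
    rw [mul_smul, ← h3, smul_smul, inv_mul_cancel₀ hf1, one_smul]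
  obtain ⟨c, hc⟩ := LinearMap.exists_eq_smul_id_of_forall_notLinearIndependent h
  refine ⟨c, fun w => ?_⟩
  have := LinearMap.congr_fun hc w
  simpa using this

private theorem TI_one {G : Type*} [Group G] {x : G} :
    Cen x ↔ (x : G ⧸ Subgroup.center G) = 1 := by
  rw [QuotientGroup.eq_one_iff, Subgroup.mem_center_iff]
  exact ⟨fun h g => ((h g).eq).symm, fun h g => (h g).symm⟩

private theorem TI_eq {G : Type*} [Group G] {x y : G}
    (h : (x : G ⧸ Subgroup.center G) = y) : Commute x y := by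
  rw [QuotientGroup.eq, Subgroup.mem_center_iff] at h
  have h1 : Commute x (x⁻¹ * y) := h x
  have h2 := (Commute.refl x).mul_right h1
  rwa [mul_inv_cancel_left] at h2

private theorem TI_list {Q ι : Type*} [Monoid Q] (f : ι → Q) (p : ι → Bool) (L : List ι)
    (h : ∀ u ∈ L, p u = false → f u = 1) : (L.map f).prod = ((L.filter p).map f).prod := by
  induction L with
  | nil => rfl
  | cons u L ih =>
    have h1 := ih fun v hv => h v (List.mem_cons_of_mem _ hv)
    rw [List.map_cons, List.prod_cons, h1]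
    cases hp : p u with
    | false =>
      rw [List.filter_cons_of_neg (by rw [hp]; decide), h u List.mem_cons_self hp, one_mul]
    | true =>
      rw [List.filter_cons_of_pos hp, List.map_cons, List.prod_cons]

private theorem TI_sort {n m : ℕ} (T : Finset (Fin n)) (hm : T.card = m) :
    (List.finRange n).filter (fun u => decide (u ∈ T)) =
      (List.finRange m).map (T.orderEmbOfFin hm) := by
  rw [Finset.listMap_orderEmbOfFin_finRange]
  have hl : ((List.finRange n).filter (fun u => decide (u ∈ T))).Nodup :=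
    (List.nodup_finRange n).filter _
  have h1 : ((List.finRange n).filter (fun u => decide (u ∈ T))).toFinset = T := by
    ext u
    simp
  have h2 := (List.toFinset_sort (r := (· ≤ ·)) hl).2
    (((List.pairwise_lt_finRange n).imp fun h => le_of_lt h).filter _)
  rw [h1] at h2
  exact h2.symm

/-- The big loop modulo the center. -/
private theorem TI_big {G : Type*} [Group G] {n m : ℕ} {b : Fin n → Fin n → G}
    (T : Finset (Fin n)) (hm : T.card = m) (k : Fin n) (hT : ∀ l, l ∉ T → l ≠ k → Cen (b k l)) :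
    ((big b k : G) : G ⧸ Subgroup.center G) = ((List.finRange m).map fun j =>
      (((if T.orderEmbOfFin hm j = k then 1 else b k (T.orderEmbOfFin hm j)) : G) :
        G ⧸ Subgroup.center G)).prod := by
  have h1 : ((big b k : G) : G ⧸ Subgroup.center G) = ((List.finRange n).map fun l =>
      (((if l = k then 1 else b k l) : G) : G ⧸ Subgroup.center G)).prod := by
    unfold big pr
    have := map_list_prod (QuotientGroup.mk' (Subgroup.center G))
      ((List.finRange n).map fun l => if l = k then 1 else b k l)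
    rw [List.map_map] at this
    exact this
  rw [h1, TI_list _ (fun u => decide (u ∈ T)), TI_sort T hm, List.map_map]
  · rfl
  · intro u _ hu
    have hu' : u ∉ T := by simpa using hu
    split_ifs with h
    · rfl
    · exact TI_one.1 (hT u hu' h)

private theorem TI_mul {g g' : V ≃ₗ[ℂ] V} {x x' : E ≃ₗ[ℂ] E} {y y' : M ≃ₗ[ℂ] M}
    (h : ∀ v, ψ (g v) = TensorProduct.congr x y (ψ v))
    (h' : ∀ v, ψ (g' v) = TensorProduct.congr x' y' (ψ v)) (v : V) :
    ψ ((g * g') v) = TensorProduct.congr (x * x') (y * y') (ψ v) := by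
  rw [TensorProduct.congr_mul]
  show ψ (g (g' v)) = TensorProduct.congr x y (TensorProduct.congr x' y' (ψ v))
  rw [h, h']

private theorem TI_comm {g g' : V ≃ₗ[ℂ] V} {x x' : E ≃ₗ[ℂ] E} {y y' : M ≃ₗ[ℂ] M}
    (h : ∀ v, ψ (g v) = TensorProduct.congr x y (ψ v))
    (h' : ∀ v, ψ (g' v) = TensorProduct.congr x' y' (ψ v)) (hc : Commute g g') :
    Commute (TensorProduct.congr x y) (TensorProduct.congr x' y') := by
  refine LinearEquiv.ext fun z => ?_
  obtain ⟨v, rfl⟩ := ψ.surjective z
  show TensorProduct.congr x y (TensorProduct.congr x' y' (ψ v)) =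
    TensorProduct.congr x' y' (TensorProduct.congr x y (ψ v))
  rw [← h', ← h, ← h, ← h']
  have h1 : g (g' v) = g' (g v) := LinearEquiv.congr_fun hc.eq v
  rw [h1]

/-- If the second factor is central the first factors commute. -/
private theorem TI_left {g g' : V ≃ₗ[ℂ] V} {x x' : E ≃ₗ[ℂ] E} {y y' : M ≃ₗ[ℂ] M}
    (h : ∀ v, ψ (g v) = TensorProduct.congr x y (ψ v))
    (h' : ∀ v, ψ (g' v) = TensorProduct.congr x' y' (ψ v)) (hc : Commute g g')
    (hy : Cen y') : Commute x x' := by
  obtain ⟨c, _, _, h1, h2⟩ := comm_split (TI_comm h h' hc)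
  obtain ⟨z, hz⟩ := exists_ne (0 : M)
  have h3 : y' (y z) = y (y' z) := LinearEquiv.congr_fun (hy y).eq z
  have h4 := h2 z
  rw [h3] at h4
  have h5 : y (y' z) ≠ 0 := by
    rw [Ne, LinearEquiv.map_eq_zero_iff, LinearEquiv.map_eq_zero_iff]
    exact hz
  have h6 : (1 - c) • y (y' z) = 0 := by
    rw [sub_smul, one_smul]
    exact sub_eq_zero.2 h4
  have h7 : c = 1 := by
    rcases smul_eq_zero.1 h6 with h | h
    · exact (sub_eq_zero.1 h).symm
    · exact absurd h h5
  refine LinearEquiv.ext fun u => ?_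
  have h8 := h1 u
  rw [h7, one_smul] at h8
  exact h8

/-- The group theory: the relations modulo the center give the relations. -/
private theorem TI_pb {G : Type*} [Group G] {n : ℕ} {b : Fin n → Fin n → G}
    (hsym : ∀ i j, b i j = b j i) (T : Finset (Fin n)) (hT4 : T.card = 4)
    (hT : ∀ t, t ∉ T → ∀ j, j ≠ t → Cen (b t j)) (hs : Sph b)
    (hF : Cen (b (T.orderEmbOfFin hT4 0) (T.orderEmbOfFin hT4 1) *
      b (T.orderEmbOfFin hT4 0) (T.orderEmbOfFin hT4 2) *
      b (T.orderEmbOfFin hT4 1) (T.orderEmbOfFin hT4 2) *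
      (b (T.orderEmbOfFin hT4 0) (T.orderEmbOfFin hT4 3) *
      b (T.orderEmbOfFin hT4 1) (T.orderEmbOfFin hT4 3) *
      b (T.orderEmbOfFin hT4 2) (T.orderEmbOfFin hT4 3)))) : PB b := by
  obtain ⟨e, he⟩ : ∃ e : Fin 4 ↪o Fin n, e = T.orderEmbOfFin hT4 := ⟨_, rfl⟩
  obtain ⟨P, hP⟩ : ∃ P : Fin 4 → Fin 4 → G ⧸ Subgroup.center G,
      P = fun i j => ((b (e i) (e j) : G) : G ⧸ Subgroup.center G) := ⟨_, rfl⟩
  have hPs : ∀ i j, P i j = P j i := by
    intro i j
    rw [hP]
    show ((b (e i) (e j) : G) : G ⧸ Subgroup.center G) = ((b (e j) (e i) : G) : _)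
    rw [hsym]
  have hbig : ∀ k : Fin 4, ((List.finRange 4).map fun j => if j = k then 1 else P k j).prod = 1 := by
    intro k
    have h1 := TI_big T hT4 (e k) (b := b) (fun l hl hlk => by
      rw [hsym]
      exact hT l hl _ (Ne.symm hlk))
    rw [TI_one.1 (hs (e k)), ← he] at h1
    refine Eq.trans ?_ h1.symm
    congr 1
    refine List.map_congr_left fun j _ => ?_
    by_cases hjk : j = k
    · rw [if_pos hjk, if_pos (congrArg e hjk)]
      rfl
    · rw [if_neg hjk, if_neg fun h => hjk (e.injective h), hP]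
  have h4 : List.finRange 4 = [0, 1, 2, 3] := by decide
  have b0 : P 0 1 * (P 0 2 * P 0 3) = 1 := by
    have := hbig 0
    rw [h4] at this
    simpa using this
  have b1 : P 0 1 * (P 1 2 * P 1 3) = 1 := by
    have := hbig 1
    rw [h4] at this
    rw [hPs 0 1]
    simpa using this
  have b2 : P 0 2 * (P 1 2 * P 2 3) = 1 := by
    have := hbig 2
    rw [h4] at this
    rw [hPs 0 2, hPs 1 2]
    simpa using this
  have b3 : P 0 3 * (P 1 3 * P 2 3) = 1 := by
    have := hbig 3
    rw [h4] at this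
    rw [hPs 0 3, hPs 1 3, hPs 2 3]
    simpa using this
  have bF : P 0 1 * P 0 2 * P 1 2 * (P 0 3 * P 1 3 * P 2 3) = 1 := by
    have := TI_one.1 hF
    rw [← he] at this
    rw [hP]
    exact this
  rw [mul_assoc (P 0 3), b3, mul_one] at bF
  have e1 : P 0 3 = P 1 2 := by
    rw [← mul_assoc] at b0
    exact mul_left_cancel (b0.trans bF.symm)
  have e2 : P 2 3 = P 0 1 := by
    have h1 : P 0 2 * P 1 2 = (P 0 1)⁻¹ := by
      rw [mul_assoc] at bF
      exact (inv_eq_of_mul_eq_one_right bF).symm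
    rw [← mul_assoc, h1] at b2
    exact (inv_mul_eq_one.1 b2).symm
  have e3 : P 0 2 = (P 0 1)⁻¹ * (P 1 2)⁻¹ := by
    rw [mul_assoc] at bF
    have h1 := inv_eq_of_mul_eq_one_right bF
    rw [h1]
    group
  have e4 : P 1 3 = (P 1 2)⁻¹ * (P 0 1)⁻¹ := by
    have h1 := inv_eq_of_mul_eq_one_right b1
    rw [h1]
    group
  have htri : ∀ i j k : Fin 4, i < j → j < k → P i j * P i k * P j k = 1 := by
    intro i j k hij hjk
    have hc : (i = 0 ∧ j = 1 ∧ k = 2) ∨ (i = 0 ∧ j = 1 ∧ k = 3) ∨ (i = 0 ∧ j = 2 ∧ k = 3) ∨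
        (i = 1 ∧ j = 2 ∧ k = 3) := by
      revert hij hjk
      revert i j k
      decide
    rcases hc with ⟨rfl, rfl, rfl⟩ | ⟨rfl, rfl, rfl⟩ | ⟨rfl, rfl, rfl⟩ | ⟨rfl, rfl, rfl⟩
    · exact bF
    · rw [e1, e4]; group
    · rw [e1, e2, e3]; group
    · rw [e2, e4]; group
  have hmem : ∀ i, i ∈ T → ∃ i', i = e i' := by
    intro i hi
    have h1 : i ∈ Set.range (T.orderEmbOfFin hT4) := by
      rw [Finset.range_orderEmbOfFin]
      exact hi
    obtain ⟨i', hi'⟩ := h1
    exact ⟨i', by rw [he, hi']⟩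
  have hT' : ∀ t, t ∉ T → ∀ j, j ≠ t → Cen (b j t) := fun t ht j hj => by
    rw [hsym]
    exact hT t ht j hj
  have key : ∀ i j k, i < j → j < k → Commute (b i j * b i k * b j k) (b i k) ∧
      Commute (b i j * b i k * b j k) (b j k) := by
    intro i j k hij hjk
    have hik := hij.trans hjk
    by_cases hi : i ∈ T
    · by_cases hj : j ∈ T
      · by_cases hk : k ∈ T
        · obtain ⟨i', rfl⟩ := hmem i hi
          obtain ⟨j', rfl⟩ := hmem j hj
          obtain ⟨k', rfl⟩ := hmem k hk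
          have h1 := htri i' j' k' (e.lt_iff_lt.1 hij) (e.lt_iff_lt.1 hjk)
          have h2 : Cen (b (e i') (e j') * b (e i') (e k') * b (e j') (e k')) := by
            rw [TI_one]
            rw [hP] at h1
            exact h1
          exact ⟨h2 _, h2 _⟩
        · exact ⟨(hT' k hk i hik.ne _).symm, (hT' k hk j hjk.ne _).symm⟩
      · have h1 : Cen (b i j) := hT' j hj i hij.ne
        have h2 : Cen (b j k) := hT j hj k hjk.ne'
        refine ⟨TI_eq ?_, (h2 _).symm⟩
        show (b i j : G ⧸ Subgroup.center G) * (b i k) * (b j k) = b i k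
        rw [TI_one.1 h1, TI_one.1 h2, one_mul, mul_one]
    · have h1 : Cen (b i j) := hT i hi j hij.ne'
      have h2 : Cen (b i k) := hT i hi k hik.ne'
      refine ⟨(h2 _).symm, TI_eq ?_⟩
      show (b i j : G ⧸ Subgroup.center G) * (b i k) * (b j k) = b j k
      rw [TI_one.1 h1, TI_one.1 h2, one_mul, one_mul]
  have h4q : ∀ i j k l : Fin 4, i < j → j < k → k < l → i = 0 ∧ j = 1 ∧ k = 2 ∧ l = 3 := by
    decide
  refine ⟨hsym, fun i j k hij hjk => (key i j k hij hjk).1, fun i j k hij hjk =>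
    (key i j k hij hjk).2, ?_, ?_, ?_⟩
  · intro i j k l hij hjk hkl
    by_cases hi : i ∈ T
    · by_cases hj : j ∈ T
      · by_cases hk : k ∈ T
        · by_cases hl : l ∈ T
          · obtain ⟨i', rfl⟩ := hmem i hi
            obtain ⟨j', rfl⟩ := hmem j hj
            obtain ⟨k', rfl⟩ := hmem k hk
            obtain ⟨l', rfl⟩ := hmem l hl
            obtain ⟨rfl, rfl, rfl, rfl⟩ := h4q i' j' k' l' (e.lt_iff_lt.1 hij)
              (e.lt_iff_lt.1 hjk) (e.lt_iff_lt.1 hkl)
            refine TI_eq ?_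
            rw [hP] at e2
            exact e2.symm
          · exact (hT' l hl k hkl.ne _).symm
        · exact (hT k hk l hkl.ne' _).symm
      · exact hT' j hj i hij.ne _
    · exact hT i hi j hij.ne' _
  · intro i j k l hij hjk hkl
    have hil := (hij.trans hjk).trans hkl
    by_cases hi : i ∈ T
    · by_cases hj : j ∈ T
      · by_cases hk : k ∈ T
        · by_cases hl : l ∈ T
          · obtain ⟨i', rfl⟩ := hmem i hi
            obtain ⟨j', rfl⟩ := hmem j hj
            obtain ⟨k', rfl⟩ := hmem k hk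
            obtain ⟨l', rfl⟩ := hmem l hl
            obtain ⟨rfl, rfl, rfl, rfl⟩ := h4q i' j' k' l' (e.lt_iff_lt.1 hij)
              (e.lt_iff_lt.1 hjk) (e.lt_iff_lt.1 hkl)
            refine TI_eq ?_
            rw [hP] at e1
            exact e1
          · exact hT' l hl i hil.ne _
        · exact (hT' k hk j hjk.ne _).symm
      · exact (hT j hj k hjk.ne' _).symm
    · exact hT i hi l hil.ne' _
  · intro i j k l hij hjk hkl
    have hik := hij.trans hjk
    have hjl := hjk.trans hkl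
    by_cases hi : i ∈ T
    · by_cases hj : j ∈ T
      · by_cases hk : k ∈ T
        · by_cases hl : l ∈ T
          · obtain ⟨i', rfl⟩ := hmem i hi
            obtain ⟨j', rfl⟩ := hmem j hj
            obtain ⟨k', rfl⟩ := hmem k hk
            obtain ⟨l', rfl⟩ := hmem l hl
            obtain ⟨rfl, rfl, rfl, rfl⟩ := h4q i' j' k' l' (e.lt_iff_lt.1 hij)
              (e.lt_iff_lt.1 hjk) (e.lt_iff_lt.1 hkl)
            refine TI_eq ?_
            have e5 : P 2 3 * P 0 2 * (P 2 3)⁻¹ = P 1 3 := by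
              rw [e2, e3, e4]
              group
            rw [hP] at e5
            exact e5
          · exact (hT' l hl j hjl.ne _).symm
        · exact ((hT' k hk i hik.ne).conj _) _
      · exact (hT j hj l hjl.ne' _).symm
    · exact ((hT i hi k hik.ne').conj _) _

/-- **TI.** Four points: the relations hold exactly on the first factor.

PROOF. Let `p < q < u < v` be the four elements of `insert i C`.  Write `x ~ y` for `Cen (x * y⁻¹)` and
`x ~ 1` for `Cen x`, for automorphisms of `E`; `ε k l ~ 1` unless `k, l ∈ {p, q, u, v}` (`hε`, `S.se`).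
(1) `Sph ε` (`S.sph`): the big loops are ordered products; the factors outside of the four strands are
central, so `ε p q * ε p u * ε p v ~ 1`, `ε q p * ε q u * ε q v ~ 1`, `ε u p * ε u q * ε u v ~ 1`,
`ε v p * ε v q * ε v u ~ 1` (increasing order; a central product may be rotated: `Cen.cyc`).
(2) The full twist `F = a p q * a p u * a q u * (a p v * a q v * a u v)` of the four strands commutes with the
six generators (`PB.four h : PB4 ..`, `PB4.full`, `PB4.central` in PB3/Four.lean), in particular with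
`a i s`, `s ∈ C`.  `F` corresponds to `Fε ⊗ Fμ`, `a i s` to `ε i s ⊗ μ i s` with `μ i s` central; so
`comm_split` gives `c = 1` and `Fε` commutes with the `ε i s`, `s ∈ C`, so `Fε` is a scalar
(`PB3.schur` with `hirr`).  By (1) `ε p v * ε q v * ε u v ~ 1`, so `ε p q * ε p u * ε q u ~ 1`.
(3) From (1) and (2): `ε q u ~ ε p v` (cancel `ε p q * ε p u`).  In the same way the twist of `q, u, v`:
`F = (a p q * a p u * a p v) * (a q u * a q v * a u v)` (`PB4.full` or regroup), so
`ε q u * ε q v * ε u v ~ 1`; with `ε q p * ε q u * ε q v ~ 1`, rotated `ε q u * ε q v * ε q p ~ 1`: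
`ε u v ~ ε p q`.  So with `X = ε p q`, `Y = ε q u`: `ε u v ~ X`, `ε p v ~ Y`, `ε p u ~ X⁻¹ * Y⁻¹`
(from `X * ε p u * Y ~ 1`), `ε q v ~ Y⁻¹ * X⁻¹` (from `Y * ε q v * ε u v ~ 1`).
(4) `PB ε`: every relation for strands not all in `{p, q, u, v}` is trivial (one word central, or all
generators but one central).  Triples in `{p, q, u, v}`: the product is central by (2), (3)
(`ε p q * ε p v * ε q v ~ X Y Y⁻¹ X⁻¹ = 1`, `ε p u * ε p v * ε u v ~ X⁻¹ Y⁻¹ Y X = 1`).  Quadruple:
`q1`: `X`, `~ X` commute; `q2`: `~ Y`, `Y` commute; `q3`: `ε u v * ε p u * (ε u v)⁻¹ ~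
X X⁻¹ Y⁻¹ X⁻¹ = Y⁻¹ X⁻¹ ~ ε q v`. -/
theorem pb_four (h : PB a) (hs : Sph a) {i : Fin n} {C : Finset (Fin n)} (hC : Comp a i C)
    (h3 : C.card = 3) (S : Spl a ψ ε μ) (hμ : ∀ s ∈ C, Cen (μ i s))
    (hε : ∀ t, t ∉ C → t ≠ i → ∀ j, j ≠ t → Cen (ε t j))
    (hirr : ∀ U : Submodule ℂ E, (∀ s ∈ C, ∀ x ∈ U, ε i s x ∈ U) → U = ⊥ ∨ U = ⊤) : PB ε := by
  classical
  have hT4 : (insert i C).card = 4 := by
    rw [Finset.card_insert_of_notMem hC.ni, h3]
  have hTn : ∀ t, t ∉ insert i C → ∀ j, j ≠ t → Cen (ε t j) := by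
    intro t ht j hj
    rw [Finset.mem_insert, not_or] at ht
    exact hε t ht.2 ht.1 j hj
  refine TI_pb S.se (insert i C) hT4 hTn (S.sph hs).1 ?_
  obtain ⟨e, he⟩ : ∃ e : Fin 4 ↪o Fin n, e = (insert i C).orderEmbOfFin hT4 := ⟨_, rfl⟩
  rw [← he]
  have h01 : e 0 < e 1 := e.lt_iff_lt.2 (by decide)
  have h12 : e 1 < e 2 := e.lt_iff_lt.2 (by decide)
  have h23 : e 2 < e 3 := e.lt_iff_lt.2 (by decide)
  have hP4 := PB.four h h01 h12 h23
  -- the twist commutes with all generators
  have hcomm : ∀ k l : Fin 4, k ≠ l → Commute (a (e 0) (e 1) * a (e 0) (e 2) * a (e 1) (e 2) *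
      (a (e 0) (e 3) * a (e 1) (e 3) * a (e 2) (e 3))) (a (e k) (e l)) := by
    have hlt : ∀ k l : Fin 4, k < l → Commute (a (e 0) (e 1) * a (e 0) (e 2) * a (e 1) (e 2) *
        (a (e 0) (e 3) * a (e 1) (e 3) * a (e 2) (e 3))) (a (e k) (e l)) := by
      intro k l hkl
      have hc : (k = 0 ∧ l = 1) ∨ (k = 0 ∧ l = 2) ∨ (k = 0 ∧ l = 3) ∨ (k = 1 ∧ l = 2) ∨
          (k = 1 ∧ l = 3) ∨ (k = 2 ∧ l = 3) := by
        revert hkl
        revert k l
        decide
      obtain ⟨d1, d2, d3⟩ := hP4.dcomm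
      obtain ⟨c1, c2, c3⟩ := hP4.central
      rcases hc with ⟨rfl, rfl⟩ | ⟨rfl, rfl⟩ | ⟨rfl, rfl⟩ | ⟨rfl, rfl⟩ | ⟨rfl, rfl⟩ | ⟨rfl, rfl⟩
      · exact hP4.a1.mul_left d1
      · exact hP4.a2.mul_left d2
      · exact c1
      · exact hP4.a3.mul_left d3
      · exact c2
      · exact c3
    intro k l hkl
    rcases lt_or_gt_of_ne hkl with h1 | h1
    · exact hlt k l h1
    · have h2 := hlt l k h1
      have h3 : a (e l) (e k) = a (e k) (e l) := h.symm _ _
      revert h2
      generalize a (e 0) (e 1) * a (e 0) (e 2) * a (e 1) (e 2) *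
        (a (e 0) (e 3) * a (e 1) (e 3) * a (e 2) (e 3)) = F
      intro h2
      rw [h3] at h2
      exact h2
  have hmem : ∀ t, t ∈ insert i C → ∃ t', t = e t' := by
    intro t ht
    have h1 : t ∈ Set.range ((insert i C).orderEmbOfFin hT4) := by
      rw [Finset.range_orderEmbOfFin]
      exact ht
    obtain ⟨t', ht'⟩ := h1
    exact ⟨t', by rw [he, ht']⟩
  have hsp : ∀ k l : Fin 4, k ≠ l → ∀ v, ψ (a (e k) (e l) v) =
      TensorProduct.congr (ε (e k) (e l)) (μ (e k) (e l)) (ψ v) := fun k l hkl =>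
    S.sp _ _ fun h => hkl (e.injective h)
  have hF := TI_mul (TI_mul (TI_mul (hsp 0 1 (by decide)) (hsp 0 2 (by decide)))
    (hsp 1 2 (by decide))) (TI_mul (TI_mul (hsp 0 3 (by decide)) (hsp 1 3 (by decide)))
    (hsp 2 3 (by decide)))
  obtain ⟨c, hc⟩ := schur (S := {f | ∃ s ∈ C, f = ε i s}) (fun W hW => hirr W fun s hs x hx =>
      hW _ ⟨s, hs, rfl⟩ x hx)
    (ε (e 0) (e 1) * ε (e 0) (e 2) * ε (e 1) (e 2) *
      (ε (e 0) (e 3) * ε (e 1) (e 3) * ε (e 2) (e 3))) (by
    rintro f ⟨s, hs, rfl⟩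
    obtain ⟨i', hi'⟩ := hmem i (Finset.mem_insert_self _ _)
    obtain ⟨s', hs'⟩ := hmem s (Finset.mem_insert_of_mem hs)
    have hne : i' ≠ s' := by
      rintro rfl
      rw [← hi'] at hs'
      rw [hs'] at hs
      exact hC.ni hs
    have hμs := hμ s hs
    rw [hi', hs'] at hμs ⊢
    exact TI_left hF (hsp i' s' hne) (hcomm i' s' hne) hμs)
  exact cen_of_scalar hc
/- END TI -/

/- MODULE TJ -/
/-- **TJ.** Restriction to the active strands.

PROOF. `e = T.orderEmbOfFin rfl` has range `T`.  `PB`: the relations of a subfamily.  `μ s t` is central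
(scalar) unless `s, t ∈ T`.  `IrrF`: a subspace invariant under the `μ (e i) (e j)` is invariant under
all `μ s t`.  `Act`: `s = e k` active: `¬ Cen (μ s j)`, `j ≠ s`; then `j ∈ T`, `j = e l`.
`Sph`: `big μ (e k)` is the product over `List.finRange n` of `μ (e k) l`, `l ≠ e k`; leaving out the
central factors (`l ∉ T`) changes it by a central element, and `(List.finRange n).filter (· ∈ T) =
(List.finRange T.card).map e` (both strictly increasing with the same elements:
`List.Sorted`/`Pairwise` uniqueness `List.eq_of_perm_of_sorted`, or `T.sort = ..`). -/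
theorem restrict {μ : Fin n → Fin n → (M ≃ₗ[ℂ] M)} (h : PB μ) (hirr : IrrF μ)
    (hs : Sph μ) (T : Finset (Fin n)) (hT : ∀ s, s ∈ T ↔ Act μ s) :
    PB (fun i j => μ (T.orderEmbOfFin rfl i) (T.orderEmbOfFin rfl j)) ∧
      IrrF (fun i j => μ (T.orderEmbOfFin rfl i) (T.orderEmbOfFin rfl j)) ∧
      Sph (fun i j => μ (T.orderEmbOfFin rfl i) (T.orderEmbOfFin rfl j)) ∧
      ∀ s, Act (fun i j => μ (T.orderEmbOfFin rfl i) (T.orderEmbOfFin rfl j)) s := by
  have hn : ∀ t, t ∉ T → ∀ j, j ≠ t → Cen (μ t j) := by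
    intro t ht j hj
    by_contra hc
    exact ht ((hT t).2 ⟨j, hj, hc⟩)
  have hn' : ∀ t, t ∉ T → ∀ j, j ≠ t → Cen (μ j t) := by
    intro t ht j hj
    rw [h.symm]
    exact hn t ht j hj
  obtain ⟨e, he⟩ : ∃ e : Fin T.card ↪o Fin n, e = T.orderEmbOfFin rfl := ⟨_, rfl⟩
  rw [← he]
  have hmem : ∀ t, t ∈ T → ∃ t', t = e t' := by
    intro t ht
    have h1 : t ∈ Set.range (T.orderEmbOfFin rfl) := by
      rw [Finset.range_orderEmbOfFin]
      exact ht
    obtain ⟨t', ht'⟩ := h1
    exact ⟨t', by rw [he, ht']⟩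
  refine ⟨⟨fun i j => h.symm _ _, ?_, ?_, ?_, ?_, ?_⟩, ?_, ?_, ?_⟩
  · intro i j k hij hjk
    exact h.t1 _ _ _ (e.lt_iff_lt.2 hij) (e.lt_iff_lt.2 hjk)
  · intro i j k hij hjk
    exact h.t2 _ _ _ (e.lt_iff_lt.2 hij) (e.lt_iff_lt.2 hjk)
  · intro i j k l hij hjk hkl
    exact h.q1 _ _ _ _ (e.lt_iff_lt.2 hij) (e.lt_iff_lt.2 hjk) (e.lt_iff_lt.2 hkl)
  · intro i j k l hij hjk hkl
    exact h.q2 _ _ _ _ (e.lt_iff_lt.2 hij) (e.lt_iff_lt.2 hjk) (e.lt_iff_lt.2 hkl)
  · intro i j k l hij hjk hkl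
    exact h.q3 _ _ _ _ (e.lt_iff_lt.2 hij) (e.lt_iff_lt.2 hjk) (e.lt_iff_lt.2 hkl)
  · intro W hW
    refine hirr W fun s t hst x hx => ?_
    have hsc : Cen (μ s t) → μ s t x ∈ W := by
      intro hc
      obtain ⟨c, hc⟩ := TI_scal hc
      rw [hc]
      exact W.smul_mem c hx
    by_cases hs1 : s ∈ T
    · by_cases ht1 : t ∈ T
      · obtain ⟨s', rfl⟩ := hmem s hs1
        obtain ⟨t', rfl⟩ := hmem t ht1
        exact hW s' t' (fun h => hst (congrArg e h)) x hx
      · exact hsc (hn' t ht1 s hst)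
    · exact hsc (hn s hs1 t (Ne.symm hst))
  · intro k
    rw [TI_one]
    have h1 := TI_big T rfl (e k) (b := μ) (fun l hl hlk => hn' l hl _ (Ne.symm hlk))
    rw [TI_one.1 (hs (e k)), ← he] at h1
    rw [h1]
    unfold big pr
    have h2 := map_list_prod (QuotientGroup.mk' (Subgroup.center (M ≃ₗ[ℂ] M)))
      ((List.finRange T.card).map fun l => if l = k then 1 else μ (e k) (e l))
    rw [List.map_map] at h2
    refine Eq.trans h2 ?_
    congr 1
    refine List.map_congr_left fun j _ => ?_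
    by_cases hjk : j = k
    · rw [if_pos (congrArg e hjk)]
      show (((if j = k then 1 else μ (e k) (e j)) : M ≃ₗ[ℂ] M) :
        (M ≃ₗ[ℂ] M) ⧸ Subgroup.center (M ≃ₗ[ℂ] M)) = _
      rw [if_pos hjk]
    · rw [if_neg fun h => hjk (e.injective h)]
      show (((if j = k then 1 else μ (e k) (e j)) : M ≃ₗ[ℂ] M) :
        (M ≃ₗ[ℂ] M) ⧸ Subgroup.center (M ≃ₗ[ℂ] M)) = _
      rw [if_neg hjk]
  · intro s
    have hs1 : e s ∈ T := by
      rw [he]
      exact Finset.orderEmbOfFin_mem _ _ _
    obtain ⟨j, hj, hc⟩ := (hT (e s)).1 hs1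
    have hjT : j ∈ T := by
      by_contra hjT
      exact hc (hn' j hjT _ (Ne.symm hj))
    obtain ⟨j', rfl⟩ := hmem j hjT
    exact ⟨j', fun h => hj (congrArg e h), hc⟩
/- END TJ -/

/- MODULE TK -/
private theorem TK_end {U : Submodule ℂ M} (h : ∀ Y : Module.End ℂ M, ∀ x ∈ U, Y x ∈ U) :
    U = ⊥ ∨ U = ⊤ := by
  by_cases hU : U = ⊥
  · exact Or.inl hU
  · right
    obtain ⟨u, hu, hu0⟩ := Submodule.exists_mem_ne_zero_of_ne_bot hU
    obtain ⟨f, hf⟩ : ∃ f : Module.Dual ℂ M, f u ≠ 0 := by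
      by_contra hcon
      push Not at hcon
      exact hu0 ((Module.forall_dual_apply_eq_zero_iff ℂ u).1 hcon)
    rw [eq_top_iff]
    intro v _
    have h1 := h (f.smulRight ((f u)⁻¹ • v)) u hu
    have h2 : (f.smulRight ((f u)⁻¹ • v) : M →ₗ[ℂ] M) u = v := by
      rw [LinearMap.smulRight_apply, smul_smul, mul_inv_cancel₀ hf, one_smul]
    rwa [h2] at h1

/-- **TK.** A component of a strand outside of `C ∪ {i}` with one block of the complementary size
acts irreducibly on the second factor.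

PROOF. For `s ∈ K`: `a t s` corresponds to `ε t s ⊗ μ t s` with `ε t s` a scalar, so to `1 ⊗ (scalar *
μ t s)`.  So `alg a t K` is contained in (transported by `ψ`) `{1 ⊗ Y | Y ∈ D}`, `D` the algebra generated by
the `μ t s`, `s ∈ K`.  `dim (alg a t K) = (finrank M)^2` by `B'` (`X ↦ T` is a linear bijection from
`Matrix (Fin (finrank M)) (Fin (finrank M)) ℂ` to the algebra: injective as `e' > 0`), so `dim D =
(finrank M)^2 = dim (End M)` and `D = ⊤`.  A subspace `U` invariant under the `μ t s` is invariant under `D`. -/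
theorem irr_right (S : Spl a ψ ε μ) {t : Fin n} {K : Finset (Fin n)} (hK : Comp a t K)
    (hε : ∀ j, j ≠ t → Cen (ε t j)) {e' : ℕ} (he' : 0 < e')
    (B' : Blk (alg a t K) 1 (finrank ℂ M) e') :
    ∀ U : Submodule ℂ M, (∀ s ∈ K, ∀ x ∈ U, μ t s x ∈ U) → U = ⊥ ∨ U = ⊤ := by
  intro U hU
  -- the endomorphisms which preserve `U`
  let Y : Submodule ℂ (Module.End ℂ M) :=
    { carrier := {y | ∀ x ∈ U, y x ∈ U}
      add_mem' := fun {y z} hy hz x hx => U.add_mem (hy x hx) (hz x hx)
      zero_mem' := fun x _ => U.zero_mem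
      smul_mem' := fun c y hy x hx => U.smul_mem c (hy x hx) }
  have hYmem : ∀ y : Module.End ℂ M, y ∈ Y ↔ ∀ x ∈ U, y x ∈ U := fun y => Iff.rfl
  -- the algebra is contained in the operators `1 ⊗ y`
  have hA : ∀ T ∈ alg a t K, ∃ y ∈ Y, ∀ v, ψ (T v) = TensorProduct.map LinearMap.id y (ψ v) := by
    intro T hT
    unfold alg at hT
    induction hT using Algebra.adjoin_induction with
    | mem T hT =>
      obtain ⟨s, hs, rfl⟩ := hT
      have hst : t ≠ s := by
        rintro rfl
        exact hK.ni hs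
      obtain ⟨c, hc⟩ := TI_scal (hε s (Ne.symm hst))
      refine ⟨c • (μ t s).toLinearMap, ?_, ?_⟩
      · rw [hYmem]
        intro x hx
        exact U.smul_mem c (hU s hs x hx)
      · intro v
        show ψ (a t s v) = _
        rw [S.sp t s hst]
        generalize ψ v = z
        induction z using TensorProduct.induction_on with
        | zero => simp
        | tmul x y =>
          rw [TensorProduct.congr_tmul, TensorProduct.map_tmul, hc]
          show (c • x) ⊗ₜ[ℂ] (μ t s y) = x ⊗ₜ[ℂ] (c • μ t s y)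
          rw [TensorProduct.smul_tmul]
        | add x y hx hy => rw [map_add, map_add, hx, hy]
    | algebraMap r =>
      refine ⟨r • 1, ?_, ?_⟩
      · rw [hYmem]
        intro x hx
        exact U.smul_mem r hx
      · intro v
        have h1 : (algebraMap ℂ (Module.End ℂ V) r) v = r • v := by
          rw [Module.algebraMap_end_apply]
        rw [h1, map_smul]
        generalize ψ v = z
        induction z using TensorProduct.induction_on with
        | zero => simp
        | tmul x y =>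
          rw [TensorProduct.map_tmul]
          show r • (x ⊗ₜ[ℂ] y) = x ⊗ₜ[ℂ] (r • y)
          exact (TensorProduct.tmul_smul r x y).symm
        | add x y hx hy => rw [smul_add, map_add, hx, hy]
    | add T T' _ _ h1 h2 =>
      obtain ⟨y, hy, h1⟩ := h1
      obtain ⟨y', hy', h2⟩ := h2
      refine ⟨y + y', Y.add_mem hy hy', ?_⟩
      intro v
      rw [LinearMap.add_apply, map_add, h1, h2, TensorProduct.map_add_right]
      rfl
    | mul T T' _ _ h1 h2 =>
      obtain ⟨y, hy, h1⟩ := h1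
      obtain ⟨y', hy', h2⟩ := h2
      refine ⟨y * y', ?_, ?_⟩
      · rw [hYmem] at hy hy' ⊢
        intro x hx
        exact hy _ (hy' x hx)
      · intro v
        show ψ (T (T' v)) = _
        rw [h1, h2, ← LinearMap.comp_apply, ← TensorProduct.map_comp]
        rfl
  -- the injection of the matrices
  let m := finrank ℂ M
  let L : Matrix (Fin m) (Fin m) ℂ →ₗ[ℂ] Module.End ℂ V :=
    { toFun := fun X => B'.φ.symm.toLinearMap ∘ₗ
        ({ toFun := fun w b => X * w b
           map_add' := fun w w' => by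
             funext b
             exact Matrix.mul_add _ _ _
           map_smul' := fun c w => by
             funext b
             exact Matrix.mul_smul X c (w b) } :
          (Fin 1 → Matrix (Fin m) (Fin e') ℂ) →ₗ[ℂ] (Fin 1 → Matrix (Fin m) (Fin e') ℂ)) ∘ₗ
          B'.φ.toLinearMap
      map_add' := fun X X' => by
        refine LinearMap.ext fun v => ?_
        show B'.φ.symm (fun b => (X + X') * B'.φ v b) = B'.φ.symm (fun b => X * B'.φ v b) +
          B'.φ.symm (fun b => X' * B'.φ v b)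
        rw [← map_add]
        congr 1
        funext b
        exact Matrix.add_mul _ _ _
      map_smul' := fun c X => by
        refine LinearMap.ext fun v => ?_
        show B'.φ.symm (fun b => (c • X) * B'.φ v b) = c • B'.φ.symm (fun b => X * B'.φ v b)
        rw [← map_smul]
        congr 1
        funext b
        exact Matrix.smul_mul c X (B'.φ v b) }
  have hLφ : ∀ X v b, B'.φ (L X v) b = X * B'.φ v b := by
    intro X v b
    show B'.φ (B'.φ.symm (fun b => X * B'.φ v b)) b = _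
    rw [LinearEquiv.apply_symm_apply]
  have hLA : ∀ X, L X ∈ alg a t K := fun X =>
    (B'.mem _).2 ⟨fun _ => X, fun w b => hLφ X w b⟩
  have hLinj : Function.Injective L := by
    rw [injective_iff_map_eq_zero]
    intro X hX
    ext p q
    have h1 := hLφ X (B'.φ.symm fun _ => Matrix.single q (⟨0, he'⟩ : Fin e') (1 : ℂ)) 0
    rw [hX, LinearMap.zero_apply, map_zero, LinearEquiv.apply_symm_apply] at h1
    have h2 := congrFun (congrFun h1 p) (⟨0, he'⟩ : Fin e')
    rw [Matrix.mul_apply, Finset.sum_eq_single q] at h2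
    · simpa using h2.symm
    · intro r _ hr
      rw [Matrix.single_apply_of_row_ne (Ne.symm hr), mul_zero]
    · intro h
      exact absurd (Finset.mem_univ q) h
  -- `1 ⊗ y` transported to `V`
  let J : Module.End ℂ M →ₗ[ℂ] Module.End ℂ V :=
    { toFun := fun y => ψ.symm.toLinearMap ∘ₗ TensorProduct.map LinearMap.id y ∘ₗ ψ.toLinearMap
      map_add' := fun y y' => by
        rw [TensorProduct.map_add_right, LinearMap.add_comp, LinearMap.comp_add]
      map_smul' := fun c y => by
        rw [TensorProduct.map_smul_right, LinearMap.smul_comp, LinearMap.comp_smul]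
        rfl }
  have hsub : LinearMap.range L ≤ Y.map J := by
    rintro _ ⟨X, rfl⟩
    obtain ⟨y, hy, h1⟩ := hA _ (hLA X)
    refine ⟨y, hy, ?_⟩
    refine LinearMap.ext fun v => ?_
    show ψ.symm (TensorProduct.map LinearMap.id y (ψ v)) = L X v
    rw [← h1, LinearEquiv.symm_apply_apply]
  have hd1 : finrank ℂ (LinearMap.range L) = m * m := by
    rw [LinearMap.finrank_range_of_inj hLinj, Module.finrank_matrix]
    simp
  have hd2 : finrank ℂ (Y.map J) ≤ finrank ℂ Y := Submodule.finrank_map_le _ _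
  have hd3 := Submodule.finrank_mono hsub
  have hd4 : finrank ℂ (Module.End ℂ M) = m * m := Module.finrank_linearMap ℂ ℂ M M
  have hYtop : Y = ⊤ := Submodule.eq_top_of_finrank_eq (by
    have := Submodule.finrank_le Y
    omega)
  refine TK_end fun y x hx => ?_
  have : y ∈ Y := by
    rw [hYtop]
    exact Submodule.mem_top
  exact this x hx
/- END TK -/

end Pool.Agent.PF54
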